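import Mathlib

/-!
# Tessellated spaces: galleries and fundamental groups

A space `X` with an action of a group `W`, a chamber `P = ⋃ a, D a` consisting of finitely many
closed pieces `D a`, canonical homotopy classes `κ y` of paths from the base point `x0` to the
points `y` of the chamber, and faces `Fc f` of the chamber, fixed by the elements `sg f` of `W`.
-/

open Set Topology

namespace Trom

/-- translation by `w` as a continuous map -/
def smulC {X W : Type} [TopologicalSpace X] [Group W] [MulAction W X] [ContinuousConstSMul W X]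
    (w : W) : C(X, X) := ⟨fun x => w • x, continuous_const_smul w⟩

/-- A tessellated space. -/
structure Tess (X W S A : Type) [TopologicalSpace X] [Group W] [MulAction W X]
    [ContinuousConstSMul W X] where
  x0 : X
  D : A → Set X
  sg : S → W
  Fc : S → Set X
  κ : ∀ y : X, (∃ a, y ∈ D a) → Path.Homotopic.Quotient x0 y
  x0P : ∃ a, x0 ∈ D a
  κ0 : κ x0 x0P = Path.Homotopic.Quotient.refl x0
  κD : ∀ (a : A) (y z : X) (hy : y ∈ D a) (hz : z ∈ D a) (γ : Path y z), (∀ t, γ t ∈ D a) →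
    (κ y ⟨a, hy⟩).trans (Path.Homotopic.Quotient.mk γ) = κ z ⟨a, hz⟩
  loc : ∀ (a : A) (x : X), x ∈ D a → ∀ N ∈ 𝓝 x, ∀ᶠ y in 𝓝 x, y ∈ D a →
    ∃ γ : Path x y, ∀ t, γ t ∈ N ∩ D a
  clD : ∀ a, IsClosed (D a)
  triv : ∀ x : X, ∃ N ∈ 𝓝 x, ∀ (y z : X) (γ γ' : Path y z), (∀ t, γ t ∈ N) → (∀ t, γ' t ∈ N) →
    Path.Homotopic γ γ'
  cov : ∀ x : X, ∃ (w : W) (a : A), w⁻¹ • x ∈ D a
  locfin : ∀ x : X, ∃ N ∈ 𝓝 x, ∀ y ∈ N, ∀ (w : W) (a : A), w⁻¹ • y ∈ D a →
    ∃ b, w⁻¹ • x ∈ D b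
  fin : ∀ x : X, {w : W | ∃ a, w⁻¹ • x ∈ D a}.Finite
  ch : ∀ (x : X) (a : A), x ∈ D a → ∀ (w : W) (b : A), w⁻¹ • x ∈ D b →
    w = 1 ∨ (∃ f, x ∈ Fc f ∧ w = sg f) ∨ (∃ f f', x ∈ Fc f ∧ x ∈ Fc f' ∧ w = sg f * sg f')
  FcP : ∀ f x, x ∈ Fc f → ∃ a, x ∈ D a
  fix : ∀ f x, x ∈ Fc f → sg f • x = x
  sgsg : ∀ f, sg f * sg f = 1
  Fpath : ∀ f x y, x ∈ Fc f → y ∈ Fc f → ∃ γ : Path x y, ∀ t, γ t ∈ Fc f

variable {X W S A : Type} [TopologicalSpace X] [Group W] [MulAction W X]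
    [ContinuousConstSMul W X]

/-- canonical class of paths from the base point `w • x0` of the chamber `w P` to its point `y` -/
noncomputable def Tess.K (T : Tess X W S A) (w : W) (y : X) (h : ∃ a, w⁻¹ • y ∈ T.D a) :
    Path.Homotopic.Quotient (w • T.x0) y :=
  ((T.κ (w⁻¹ • y) h).map (smulC w)).cast rfl (by simp [smulC])

/-- the transition class from the chamber `u P` to the chamber `v P` through the common point `y` -/
noncomputable def Tess.tr (T : Tess X W S A) (u v : W) (y : X) (hu : ∃ a, u⁻¹ • y ∈ T.D a)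
    (hv : ∃ a, v⁻¹ • y ∈ T.D a) : Path.Homotopic.Quotient (u • T.x0) (v • T.x0) :=
  (T.K u y hu).trans (T.K v y hv).symm

/-- gallery classes: classes of paths from `w0 • x0` to `w • x0` that pass through a gallery of
chambers, consecutive ones sharing a face, all chambers satisfying `R`. -/
inductive GC (T : Tess X W S A) (R : W → Prop) (w0 : W) :
    ∀ w : W, Path.Homotopic.Quotient (w0 • T.x0) (w • T.x0) → Prop
  | nil : R w0 → GC T R w0 w0 (Path.Homotopic.Quotient.refl _)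
  | snoc {u : W} {c : Path.Homotopic.Quotient (w0 • T.x0) (u • T.x0)} (h : GC T R w0 u c)
      (f : S) (v : W) (hv : v = u * T.sg f) (hR : R v) (y : X) (hy : u⁻¹ • y ∈ T.Fc f)
      (h1 : ∃ a, u⁻¹ • y ∈ T.D a) (h2 : ∃ a, v⁻¹ • y ∈ T.D a) :
      GC T R w0 v (c.trans (T.tr u v y h1 h2))

/-- height function data -/
structure Hts (T : Tess X W S A) (F : Subgroup W) where
  ht : W → ℤ
  adj : S → S → Prop
  rep : W → W
  ht1 : ht 1 = 0
  htF : ∀ g ∈ F, ∀ w, ht (g * w) = ht w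
  step : ∀ w f, ht (w * T.sg f) = ht w + 1 ∨ ht (w * T.sg f) = ht w - 1
  adjpt : ∀ f f', adj f f' → ∃ x, x ∈ T.Fc f ∧ x ∈ T.Fc f'
  adjcomm : ∀ f f', adj f f' → T.sg f * T.sg f' = T.sg f' * T.sg f
  adjht : ∀ f f', adj f f' → ∀ (w : W) (e : ℤ), ht (w * T.sg f) = ht w + e →
    ht (w * T.sg f') = ht w + e → ht (w * T.sg f * T.sg f') = ht w + e + e
  conn : ∀ (w : W) (e : ℤ), e = 1 ∨ e = -1 → ∀ f f', ht (w * T.sg f) = ht w + e →
    ht (w * T.sg f') = ht w + e →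
    Relation.ReflTransGen (fun a b => adj a b ∧ ht (w * T.sg b) = ht w + e) f f'
  rep_spec : ∀ w, ∃ g ∈ F, w = g * rep w
  rep_inv : ∀ g ∈ F, ∀ w, rep (g * w) = rep w
  rep_fin : (rep '' {w | ht w = 0 ∨ ht w = 1}).Finite

end Trom
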