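import Pool.Agent.Helper97.Trom.Defs

/-!
# The L-tromino sphere configuration

The sixteen lattice points of the L-tromino in `ℤ³` and the spheres of radius `1/√2` around them.
-/

open Matrix Set Topology

namespace Trom

/-- The sixteen lattice points of the L-tromino. -/
def ctr : Fin 16 → Fin 3 → ℤ :=
  ![![0,0,0], ![0,0,1], ![0,1,0], ![0,1,1], ![0,2,0], ![0,2,1], ![1,0,0], ![1,0,1],
    ![1,1,0], ![1,1,1], ![1,2,0], ![1,2,1], ![2,0,0], ![2,0,1], ![2,1,0], ![2,1,1]]

/-- squared distance of two of the lattice points -/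
def d2 (i j : Fin 16) : ℤ :=
  (ctr i 0 - ctr j 0) ^ 2 + (ctr i 1 - ctr j 1) ^ 2 + (ctr i 2 - ctr j 2) ^ 2

/-- The (space-like) vector of the sphere of radius `1/√2` around `ctr i`, of norm `1/2`. For a
point `y ∈ ℝ³` with light-like vector `X = ((|y|²+1)/2, y, (|y|²-1)/2)` one has
`lor X (ev i) = 1/4 - |y - ctr i|²/2`. -/
noncomputable def ev (i : Fin 16) : V5 :=
  ![(((ctr i 0 : ℝ)) ^ 2 + (ctr i 1 : ℝ) ^ 2 + (ctr i 2 : ℝ) ^ 2 + 1/2) / 2,
    (ctr i 0 : ℝ), (ctr i 1 : ℝ), (ctr i 2 : ℝ),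
    (((ctr i 0 : ℝ)) ^ 2 + (ctr i 1 : ℝ) ^ 2 + (ctr i 2 : ℝ) ^ 2 - 3/2) / 2]

theorem lor_ev (i j : Fin 16) : lor (ev i) (ev j) = (1 - (d2 i j : ℝ)) / 2 := by
  simp only [lor, ev, d2]
  push_cast
  simp
  ring

theorem lor_ev_self (i : Fin 16) : lor (ev i) (ev i) = 1 / 2 := by
  rw [lor_ev]
  simp [d2]

theorem ev_zero_pos (i : Fin 16) : 0 < ev i 0 := by
  simp only [ev]
  simp
  positivity

/-- signs of the coordinates in the Lorentz form -/
def sig : Fin 5 → ℝ := ![-1, 1, 1, 1, 1]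

theorem lor_eq_sum (x y : V5) : lor x y = ∑ a, sig a * x a * y a := by
  simp [lor, sig, Fin.sum_univ_five]

/-- the matrix of the reflection in `ev i` -/
noncomputable def rmat (i : Fin 16) : Matrix (Fin 5) (Fin 5) ℝ :=
  1 - 4 • Matrix.vecMulVec (ev i) (fun b => sig b * ev i b)

theorem rmat_mulVec (i : Fin 16) (x : V5) :
    rmat i *ᵥ x = x - (4 * lor x (ev i)) • ev i := by
  have h : (fun b => sig b * ev i b) ⬝ᵥ x = lor x (ev i) := by
    rw [lor_eq_sum]
    simp only [dotProduct]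
    exact Finset.sum_congr rfl fun a _ => by ring
  rw [rmat, Matrix.sub_mulVec, Matrix.one_mulVec, Matrix.smul_mulVec, Matrix.vecMulVec_mulVec, h]
  ext a
  simp
  ring

theorem rmat_mul_self (i : Fin 16) : rmat i * rmat i = 1 := by
  apply Matrix.toLin'.injective
  apply LinearMap.ext
  intro x
  simp only [Matrix.toLin'_apply, ← Matrix.mulVec_mulVec, Matrix.one_mulVec]
  rw [rmat_mulVec, rmat_mulVec, lor_sub_left, lor_smul_left, lor_ev_self]
  ext a
  simp
  ring

theorem rmat_lor (i : Fin 16) (x y : V5) : lor (rmat i *ᵥ x) (rmat i *ᵥ y) = lor x y := by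
  rw [rmat_mulVec, rmat_mulVec]
  simp only [lor_sub_left, lor_sub_right, lor_smul_left, lor_smul_right, lor_ev_self,
    lor_comm (ev i) y]
  ring

/-- reversed Cauchy–Schwarz: the product of two forward vectors is nonpositive -/
theorem lor_fwd_nonpos {x y : V5} (hx : Fwd x) (hy : Fwd y) : lor x y ≤ 0 := by
  obtain ⟨hx1, hx0⟩ := hx
  obtain ⟨hy1, hy0⟩ := hy
  simp only [lor] at *
  have h1 : (x 1 * y 1 + x 2 * y 2 + x 3 * y 3 + x 4 * y 4) ^ 2 ≤ (x 0 * y 0) ^ 2 := by
    have hcs : (x 1 * y 1 + x 2 * y 2 + x 3 * y 3 + x 4 * y 4) ^ 2 ≤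
        (x 1 ^ 2 + x 2 ^ 2 + x 3 ^ 2 + x 4 ^ 2) * (y 1 ^ 2 + y 2 ^ 2 + y 3 ^ 2 + y 4 ^ 2) := by
      nlinarith [sq_nonneg (x 1 * y 2 - x 2 * y 1), sq_nonneg (x 1 * y 3 - x 3 * y 1),
        sq_nonneg (x 1 * y 4 - x 4 * y 1), sq_nonneg (x 2 * y 3 - x 3 * y 2),
        sq_nonneg (x 2 * y 4 - x 4 * y 2), sq_nonneg (x 3 * y 4 - x 4 * y 3)]
    have hx2 : x 1 ^ 2 + x 2 ^ 2 + x 3 ^ 2 + x 4 ^ 2 ≤ x 0 ^ 2 := by nlinarith
    have hy2 : y 1 ^ 2 + y 2 ^ 2 + y 3 ^ 2 + y 4 ^ 2 ≤ y 0 ^ 2 := by nlinarith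
    have : (x 1 ^ 2 + x 2 ^ 2 + x 3 ^ 2 + x 4 ^ 2) * (y 1 ^ 2 + y 2 ^ 2 + y 3 ^ 2 + y 4 ^ 2) ≤
        x 0 ^ 2 * y 0 ^ 2 := mul_le_mul hx2 hy2 (by positivity) (by positivity)
    calc _ ≤ _ := hcs
      _ ≤ _ := this
      _ = _ := by ring
  have h3 : |x 1 * y 1 + x 2 * y 2 + x 3 * y 3 + x 4 * y 4| ≤ |x 0 * y 0| := sq_le_sq.1 h1
  rw [abs_of_pos (mul_pos hx0 hy0)] at h3
  have := le_trans (le_abs_self _) h3
  linarith


theorem rmat_fwd (i : Fin 16) {x : V5} (hx : Fwd x) : Fwd (rmat i *ᵥ x) := by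
  have hl : lor (rmat i *ᵥ x) (rmat i *ᵥ x) ≤ 0 := by rw [rmat_lor]; exact hx.1
  refine ⟨hl, ?_⟩
  by_contra hneg
  push Not at hneg
  rcases hneg.lt_or_eq with h | h
  · have hf : Fwd (-(rmat i *ᵥ x)) :=
      ⟨by rw [lor_neg_left, lor_neg_right]; simpa using hl, by simpa using h⟩
    have h1 := lor_fwd_nonpos hx hf
    rw [lor_neg_right, rmat_mulVec, lor_sub_right, lor_smul_right] at h1
    have h2 : 0 ≤ lor x x - 4 * lor x (ev i) * lor x (ev i) := by linarith
    have h3 := hx.1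
    have h4 : lor x (ev i) = 0 := by nlinarith [sq_nonneg (lor x (ev i))]
    rw [rmat_mulVec, h4] at h
    simp at h
    linarith [hx.2]
  · have h0 : rmat i *ᵥ x = 0 := eq_zero_of_lor_nonpos hl h
    have h1 : x = 0 := by
      have := congrArg (fun v => rmat i *ᵥ v) h0
      simp only [Matrix.mulVec_mulVec, rmat_mul_self, Matrix.one_mulVec, Matrix.mulVec_zero] at this
      exact this
    have h2 := hx.2
    rw [h1] at h2
    simp at h2

/-- the reflection in the `i`-th sphere -/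
noncomputable def refl (i : Fin 16) : Opl :=
  ⟨⟨rmat i, rmat i, rmat_mul_self i, rmat_mul_self i⟩, rmat_lor i, fun _ hx => rmat_fwd i hx⟩

theorem refl_val (i : Fin 16) : (refl i).1.1 = rmat i := rfl

theorem Opl.ext' {A B : Opl} (h : ∀ x : V5, A.1.1 *ᵥ x = B.1.1 *ᵥ x) : A = B := by
  apply Subtype.ext
  apply Units.ext
  apply Matrix.toLin'.injective
  apply LinearMap.ext
  intro x
  simpa [Matrix.toLin'_apply] using h x

theorem mul_mulVec' (A B : Opl) (x : V5) : (A * B).1.1 *ᵥ x = A.1.1 *ᵥ (B.1.1 *ᵥ x) := by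
  simp [Matrix.mulVec_mulVec]

theorem refl_mul_self (i : Fin 16) : refl i * refl i = 1 := by
  apply Opl.ext'
  intro x
  rw [mul_mulVec', refl_val, Matrix.mulVec_mulVec, rmat_mul_self]
  simp

theorem refl_comm {i j : Fin 16} (h : d2 i j = 1) : refl i * refl j = refl j * refl i := by
  apply Opl.ext'
  intro x
  have hij : lor (ev i) (ev j) = 0 := by rw [lor_ev, h]; norm_num
  have hji : lor (ev j) (ev i) = 0 := by rw [lor_comm, hij]
  rw [mul_mulVec', mul_mulVec', refl_val, refl_val, rmat_mulVec, rmat_mulVec, rmat_mulVec,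
    rmat_mulVec]
  simp only [lor_sub_left, lor_smul_left, hij, hji]
  ext a
  simp
  ring

/-- The right-angled Coxeter matrix of the configuration: neighbouring lattice points (orthogonal
spheres) commute, there is no relation otherwise. -/
def coxM : CoxeterMatrix (Fin 16) where
  M := Matrix.of fun i j => if i = j then 1 else if d2 i j = 1 then 2 else 0
  isSymm := by decide
  diagonal := by simp
  off_diagonal := by
    intro i j h
    simp only [Matrix.of_apply, h, if_false]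
    split_ifs <;> decide

/-- the right-angled Coxeter group of the L-tromino -/
abbrev W : Type := coxM.Group

/-- its Coxeter system -/
abbrev cs : CoxeterSystem coxM W := coxM.toCoxeterSystem

theorem refl_liftable : coxM.IsLiftable refl := by
  intro i j
  change (refl i * refl j) ^ (if i = j then 1 else if d2 i j = 1 then 2 else 0) = 1
  split_ifs with h h'
  · subst h; rw [pow_one, refl_mul_self]
  · rw [pow_two]
    calc refl i * refl j * (refl i * refl j) = refl i * (refl j * refl i) * refl j := by group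
      _ = refl i * (refl i * refl j) * refl j := by rw [refl_comm h']
      _ = (refl i * refl i) * (refl j * refl j) := by group
      _ = 1 := by rw [refl_mul_self, refl_mul_self, one_mul]
  · rw [pow_zero]

/-- the reflection representation -/
noncomputable def rW : W →* Opl := cs.lift ⟨refl, refl_liftable⟩

theorem rW_simple (i : Fin 16) : rW (cs.simple i) = refl i :=
  cs.lift_apply_simple refl_liftable i

/-- `W` acts on the sphere at infinity. -/
noncomputable instance : MulAction W Sph := MulAction.compHom Sph rW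

theorem W_smul_def (w : W) (x : Sph) : w • x = rW w • x := rfl

theorem W_smul_val (w : W) (x : Sph) : (w • x).1 = nrm ((rW w).1.1 *ᵥ x.1) := rfl

/-- colour of a generator: the parity of the lattice point -/
def col (i : Fin 16) : Bool := (ctr i 0 + ctr i 1 + ctr i 2) % 2 == 1

/-- sign of a generator -/
def sgn : Fin 16 → ℤ := ![-1, -1, -1, 1, -1, -1, 1, -1, 1, 1, 1, -1, -1, -1, -1, 1]

/-- images of the generators in `D_∞ × D_∞` -/
def rhoGen (i : Fin 16) : DihedralGroup 0 × DihedralGroup 0 :=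
  if col i then (1, DihedralGroup.sr (sgn i : ℤ)) else (DihedralGroup.sr (sgn i : ℤ), 1)

theorem sr_mul_self' (a : ℤ) :
    (DihedralGroup.sr a : DihedralGroup 0) * DihedralGroup.sr a = 1 := by
  change (DihedralGroup.r (a - a : ℤ) : DihedralGroup 0) = 1
  rw [sub_self]
  rfl

theorem rhoGen_liftable : coxM.IsLiftable rhoGen := by
  intro i j
  change (rhoGen i * rhoGen j) ^ (if i = j then 1 else if d2 i j = 1 then 2 else 0) = 1
  split_ifs with h h'
  · subst h
    rw [pow_one]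
    unfold rhoGen
    split_ifs <;> simp [sr_mul_self']
  · have hc : col i ≠ col j := by revert i j; decide
    unfold rhoGen
    rw [pow_two]
    cases hi : col i <;> cases hj : col j <;> simp_all [sr_mul_self']
  · rw [pow_zero]

/-- the homomorphism `W → D_∞ × D_∞` -/
def rho : W →* DihedralGroup 0 × DihedralGroup 0 := cs.lift ⟨rhoGen, rhoGen_liftable⟩

theorem rho_simple (i : Fin 16) : rho (cs.simple i) = rhoGen i :=
  cs.lift_apply_simple rhoGen_liftable i

/-- translation part of an element of `D_∞` (its value at `0`) -/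
def posD : DihedralGroup 0 → ℤ
  | DihedralGroup.r a => -(show ℤ from a)
  | DihedralGroup.sr a => (show ℤ from a)

/-- linear part of an element of `D_∞` -/
def epsD : DihedralGroup 0 → ℤ
  | DihedralGroup.r _ => 1
  | DihedralGroup.sr _ => -1

theorem posD_mul (g h : DihedralGroup 0) : posD (g * h) = posD g + epsD g * posD h := by
  rcases g with a | a <;> rcases h with b | b
  · change -(a + b : ℤ) = -a + 1 * -b; ring
  · change (b - a : ℤ) = -a + 1 * b; ring
  · change (a + b : ℤ) = a + -1 * -b; ring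
  · change -(b - a : ℤ) = a + -1 * b; ring

theorem epsD_mul (g h : DihedralGroup 0) : epsD (g * h) = epsD g * epsD h := by
  rcases g with a | a <;> rcases h with b | b <;> rfl

/-- height of a chamber -/
def ht (w : W) : ℤ := posD (rho w).1 + posD (rho w).2

/-- `G`: the elements acting on `ℤ × ℤ` by translations -/
def GW : Subgroup W where
  carrier := {w | epsD (rho w).1 = 1 ∧ epsD (rho w).2 = 1}
  mul_mem' := by
    rintro a b ⟨h1, h2⟩ ⟨h3, h4⟩
    refine ⟨?_, ?_⟩
    · rw [map_mul, Prod.fst_mul, epsD_mul, h1, h3]; rfl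
    · rw [map_mul, Prod.snd_mul, epsD_mul, h2, h4]; rfl
  one_mem' := by
    refine ⟨?_, ?_⟩ <;> rw [map_one] <;> rfl
  inv_mem' := by
    rintro a ⟨h1, h2⟩
    have key : ∀ g : DihedralGroup 0, epsD g⁻¹ = epsD g := by
      intro g; rcases g with b | b <;> rfl
    refine ⟨?_, ?_⟩
    · rw [map_inv, Prod.fst_inv, key, h1]
    · rw [map_inv, Prod.snd_inv, key, h2]

/-- `F`: the elements of `G` that preserve the height -/
def FW : Subgroup W where
  carrier := {w | (epsD (rho w).1 = 1 ∧ epsD (rho w).2 = 1) ∧ ht w = 0}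
  mul_mem' := by
    rintro a b ⟨⟨h1, h2⟩, h⟩ ⟨⟨h3, h4⟩, h'⟩
    refine ⟨⟨?_, ?_⟩, ?_⟩
    · rw [map_mul, Prod.fst_mul, epsD_mul, h1, h3]; rfl
    · rw [map_mul, Prod.snd_mul, epsD_mul, h2, h4]; rfl
    · simp only [ht] at *
      rw [map_mul, Prod.fst_mul, Prod.snd_mul, posD_mul, posD_mul, h1, h2]
      linarith
  one_mem' := by
    refine ⟨⟨?_, ?_⟩, ?_⟩
    · rw [map_one]; rfl
    · rw [map_one]; rfl
    · rw [ht, map_one]; rfl
  inv_mem' := by
    rintro a ⟨⟨h1, h2⟩, h⟩
    have key : ∀ g : DihedralGroup 0, epsD g⁻¹ = epsD g := by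
      intro g; rcases g with b | b <;> rfl
    have key2 : ∀ g : DihedralGroup 0, epsD g = 1 → posD g⁻¹ = - posD g := by
      intro g hg
      rcases g with b | b
      · rfl
      · exact absurd hg (show (-1 : ℤ) ≠ 1 by norm_num)
    refine ⟨⟨?_, ?_⟩, ?_⟩
    · rw [map_inv, Prod.fst_inv, key, h1]
    · rw [map_inv, Prod.snd_inv, key, h2]
    · simp only [ht] at *
      rw [map_inv, Prod.fst_inv, Prod.snd_inv, key2 _ h1, key2 _ h2]
      linarith

end Trom
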