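import Mathlib

/-!
# Kleinian groups in dimension 4: basic definitions

`ℝ^{1,4}` is `Fin 5 → ℝ` with the Lorentz form `-x₀y₀+x₁y₁+x₂y₂+x₃y₃+x₄y₄`.
-/

open Matrix Set Topology

namespace Trom

/-- The underlying space of `ℝ^{1,4}`. -/
abbrev V5 : Type := Fin 5 → ℝ

/-- The Lorentz form of `ℝ^{1,4}`. -/
def lor (x y : V5) : ℝ := -(x 0 * y 0) + x 1 * y 1 + x 2 * y 2 + x 3 * y 3 + x 4 * y 4

/-- The closed forward cone (without `0`). Its interior part, projectivised, is `ℍ⁴`, its boundary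
part, projectivised, is the sphere at infinity `S³`. -/
def Fwd (x : V5) : Prop := lor x x ≤ 0 ∧ 0 < x 0

theorem lor_add_left (x y z : V5) : lor (x + y) z = lor x z + lor y z := by
  simp only [lor, Pi.add_apply]; ring
theorem lor_add_right (x y z : V5) : lor x (y + z) = lor x y + lor x z := by
  simp only [lor, Pi.add_apply]; ring
theorem lor_sub_left (x y z : V5) : lor (x - y) z = lor x z - lor y z := by
  simp only [lor, Pi.sub_apply]; ring
theorem lor_sub_right (x y z : V5) : lor x (y - z) = lor x y - lor x z := by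
  simp only [lor, Pi.sub_apply]; ring
theorem lor_smul_left (c : ℝ) (x y : V5) : lor (c • x) y = c * lor x y := by
  simp only [lor, Pi.smul_apply, smul_eq_mul]; ring
theorem lor_smul_right (c : ℝ) (x y : V5) : lor x (c • y) = c * lor x y := by
  simp only [lor, Pi.smul_apply, smul_eq_mul]; ring
theorem lor_neg_left (x y : V5) : lor (-x) y = -lor x y := by
  simp only [lor, Pi.neg_apply]; ring
theorem lor_neg_right (x y : V5) : lor x (-y) = -lor x y := by
  simp only [lor, Pi.neg_apply]; ring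
theorem lor_comm (x y : V5) : lor x y = lor y x := by
  simp only [lor]; ring

theorem Fwd.smul {x : V5} (h : Fwd x) {c : ℝ} (hc : 0 < c) : Fwd (c • x) := by
  refine ⟨?_, ?_⟩
  · rw [lor_smul_left, lor_smul_right]
    have := h.1
    nlinarith [mul_pos hc hc, mul_nonneg (mul_pos hc hc).le (neg_nonneg.2 this)]
  · simpa using mul_pos hc h.2

theorem eq_zero_of_lor_nonpos {x : V5} (h : lor x x ≤ 0) (h0 : x 0 = 0) : x = 0 := by
  simp only [lor, h0] at h
  have h1 : x 1 = 0 := by nlinarith [sq_nonneg (x 1), sq_nonneg (x 2), sq_nonneg (x 3), sq_nonneg (x 4)]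
  have h2 : x 2 = 0 := by nlinarith [sq_nonneg (x 1), sq_nonneg (x 2), sq_nonneg (x 3), sq_nonneg (x 4)]
  have h3 : x 3 = 0 := by nlinarith [sq_nonneg (x 1), sq_nonneg (x 2), sq_nonneg (x 3), sq_nonneg (x 4)]
  have h4 : x 4 = 0 := by nlinarith [sq_nonneg (x 1), sq_nonneg (x 2), sq_nonneg (x 3), sq_nonneg (x 4)]
  ext i
  fin_cases i <;> simp_all

/-- `O⁺(1,4)`, the isometry group of `ℍ⁴`: the real `5 × 5` matrices that preserve the Lorentz form
and map the forward cone to itself. -/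
def Opl : Subgroup (GL (Fin 5) ℝ) where
  carrier := {A | (∀ x y : V5, lor (A.1 *ᵥ x) (A.1 *ᵥ y) = lor x y) ∧
    ∀ x : V5, Fwd x → Fwd (A.1 *ᵥ x)}
  mul_mem' := by
    rintro A B ⟨hA, hA'⟩ ⟨hB, hB'⟩
    refine ⟨fun x y => ?_, fun x hx => ?_⟩
    · simp only [Units.val_mul, ← Matrix.mulVec_mulVec]
      rw [hA, hB]
    · simp only [Units.val_mul, ← Matrix.mulVec_mulVec]
      exact hA' _ (hB' _ hx)
  one_mem' := by
    refine ⟨fun x y => ?_, fun x hx => ?_⟩
    · simp
    · simpa using hx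
  inv_mem' := by
    rintro A ⟨hA, hA'⟩
    have key : ∀ x : V5, A.1 *ᵥ ((A⁻¹).1 *ᵥ x) = x := by
      intro x
      rw [Matrix.mulVec_mulVec, ← Units.val_mul, mul_inv_cancel]
      simp
    have hl : ∀ x y : V5, lor ((A⁻¹).1 *ᵥ x) ((A⁻¹).1 *ᵥ y) = lor x y := by
      intro x y
      rw [← hA, key, key]
    refine ⟨hl, fun x hx => ?_⟩
    set y := (A⁻¹).1 *ᵥ x with hy
    have hyy : lor y y ≤ 0 := by rw [hy, hl]; exact hx.1
    refine ⟨hyy, ?_⟩
    rcases lt_trichotomy 0 (y 0) with h | h | h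
    · exact h
    · exfalso
      have h0 : y = 0 := eq_zero_of_lor_nonpos hyy h.symm
      have : x = 0 := by rw [← key x, ← hy, h0]; simp
      have h2 := hx.2
      rw [this] at h2
      simp at h2
    · exfalso
      have hf : Fwd (-y) := ⟨by rw [lor_neg_left, lor_neg_right]; simpa using hyy, by simpa using h⟩
      have h3 := (hA' _ hf).2
      rw [Matrix.mulVec_neg, hy, key] at h3
      have h2 := hx.2
      simp at h3
      linarith

/-- `SO⁺(1,4)`: the orientation preserving isometries of `ℍ⁴`. -/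
def SOpl : Subgroup Opl where
  carrier := {A | A.1.1.det = 1}
  mul_mem' := by
    intro A B hA hB
    change A.1.1.det = 1 at hA
    change B.1.1.det = 1 at hB
    change (A * B).1.1.det = 1
    simp [Matrix.det_mul, hA, hB]
  one_mem' := by
    change ((1 : Opl).1.1).det = 1
    simp
  inv_mem' := by
    intro A hA
    change A.1.1.det = 1 at hA
    change (A⁻¹).1.1.det = 1
    have h := congrArg (fun B : Opl => B.1.1.det) (mul_inv_cancel A)
    simp only [Subgroup.coe_mul, Units.val_mul, Matrix.det_mul, hA, one_mul] at h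
    simpa using h

/-- The sphere at infinity `S³ = ∂ℍ⁴`: light-like lines, normalised by `x₀ = 1`
(so it is the unit sphere `{1} × S³` of `ℝ⁵`). -/
abbrev Sph : Type := {x : V5 // x 0 = 1 ∧ lor x x = 0}

/-- normalisation of a vector by its first coordinate -/
noncomputable def nrm (x : V5) : V5 := (x 0)⁻¹ • x

theorem nrm_smul {c : ℝ} (hc : c ≠ 0) (x : V5) : nrm (c • x) = nrm x := by
  unfold nrm
  ext i
  simp only [Pi.smul_apply, smul_eq_mul, mul_inv]
  field_simp

theorem Sph.fwd (x : Sph) : Fwd x.1 := ⟨x.2.2.le, by rw [x.2.1]; exact one_pos⟩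

/-- A forward light-like vector gives a point of `S³`. -/
noncomputable def toSph (x : V5) (h0 : 0 < x 0) (h : lor x x = 0) : Sph :=
  ⟨nrm x, by
    refine ⟨?_, ?_⟩
    · simp [nrm, h0.ne']
    · rw [nrm, lor_smul_left, lor_smul_right, h]; ring⟩

/-- The action of an isometry on the sphere at infinity. -/
noncomputable instance : MulAction Opl Sph where
  smul A x := toSph (A.1.1 *ᵥ x.1) (A.2.2 _ x.fwd).2 (by rw [A.2.1]; exact x.2.2)
  one_smul x := by
    apply Subtype.ext
    change nrm ((1 : Opl).1.1 *ᵥ x.1) = x.1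
    simp [nrm, x.2.1]
  mul_smul A B x := by
    apply Subtype.ext
    change nrm ((A * B).1.1 *ᵥ x.1) = nrm (A.1.1 *ᵥ (nrm (B.1.1 *ᵥ x.1)))
    have h : (nrm (B.1.1 *ᵥ x.1)) = ((B.1.1 *ᵥ x.1) 0)⁻¹ • (B.1.1 *ᵥ x.1) := rfl
    rw [h, Matrix.mulVec_smul, nrm_smul]
    · simp [Matrix.mulVec_mulVec]
    · exact inv_ne_zero (B.2.2 _ x.fwd).2.ne'

theorem smul_val (A : Opl) (x : Sph) : (A • x : Sph).1 = nrm (A.1.1 *ᵥ x.1) := rfl

/-- The point `A · o` of `ℍ⁴` in the Klein model, for the base point `o = (1,0,0,0,0)`: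
the first column of `A`, normalised. -/
noncomputable def orb (A : Opl) : V5 := nrm (A.1.1 *ᵥ (Pi.single 0 1))

/-- A subgroup of `O⁺(1,4)` is discrete: every bounded set of matrices contains only finitely many
of its elements. -/
def IsDisc (G : Subgroup Opl) : Prop :=
  ∀ R : ℝ, {A : Opl | A ∈ G ∧ ∀ i j, |A.1.1 i j| ≤ R}.Finite

/-- The limit set: the points of `S³` at which the orbit `G · o` accumulates. -/
def limitSet (G : Subgroup Opl) : Set Sph :=
  {x | ∀ ε > 0, {A : Opl | A ∈ G ∧ dist (orb A) x.1 < ε}.Infinite}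

/-- Two points of `Ω` are equivalent if an element of `F` takes one to the other. -/
def orbSetoid (F : Subgroup Opl) (Ω : Set Sph) : Setoid Ω where
  r x y := ∃ g ∈ F, g • x.1 = y.1
  iseqv := by
    refine ⟨fun x => ⟨1, F.one_mem, one_smul _ _⟩, ?_, ?_⟩
    · rintro x y ⟨g, hg, h⟩
      exact ⟨g⁻¹, F.inv_mem hg, by rw [← h, inv_smul_smul]⟩
    · rintro x y z ⟨g, hg, h⟩ ⟨g', hg', h'⟩
      exact ⟨g' * g, F.mul_mem hg' hg, by rw [mul_smul, h, h']⟩

end Trom
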