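import Pool.Agent.Helper97.Trom.Base

/-!
# The chamber `P0` of the tromino configuration
-/

open Matrix Set Topology

namespace Trom

/-- `x₀ - x₄`; the point `x` of `S³` has the coordinates `x_k / dl x` in `ℝ³ ∪ {∞}`. -/
def dl (x : V5) : ℝ := x 0 - x 4

/-- the point at infinity of `ℝ³ ∪ {∞}` -/
def inf : Sph := ⟨![1, 0, 0, 0, 1], by simp, by simp [lor]⟩

/-- the light-like vector of a point of `ℝ³` -/
noncomputable def lv (y : Fin 3 → ℝ) : V5 :=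
  ![((y 0) ^ 2 + (y 1) ^ 2 + (y 2) ^ 2 + 1) / 2, y 0, y 1, y 2,
    ((y 0) ^ 2 + (y 1) ^ 2 + (y 2) ^ 2 - 1) / 2]

theorem lv_zero_pos (y : Fin 3 → ℝ) : 0 < lv y 0 := by
  simp only [lv]
  simp
  positivity

theorem lor_lv (y : Fin 3 → ℝ) : lor (lv y) (lv y) = 0 := by
  simp only [lor, lv]
  simp
  ring

/-- the point of `S³` belonging to a point of `ℝ³` (inverse stereographic projection) -/
noncomputable def st (y : Fin 3 → ℝ) : Sph := toSph (lv y) (lv_zero_pos y) (lor_lv y)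

/-- The point `x` lies in the closed chamber of the configuration (outside all open balls) and is
not a tangency point of two of the spheres. -/
def Pa (x : Sph) : Prop :=
  (∀ i, lor x.1 (ev i) ≤ 0) ∧
    ∀ i j, 2 ≤ d2 i j → ¬ (lor x.1 (ev i) = 0 ∧ lor x.1 (ev j) = 0)

/-- linear inequalities cutting out the eight pieces of the outer region -/
def Lin (a : Fin 8) (x : V5) : Prop :=
  match a with
  | 0 => 2 * dl x ≤ x 1
  | 1 => x 1 ≤ 0
  | 2 => 2 * dl x ≤ x 2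
  | 3 => x 2 ≤ 0
  | 4 => dl x ≤ x 3
  | 5 => x 3 ≤ 0
  | 6 => dl x ≤ x 1 ∧ dl x ≤ x 2 ∧ 3 * dl x ≤ x 1 + x 2
  | 7 => dl x ≤ x 1 ∧ dl x ≤ x 2 ∧ x 1 + x 2 ≤ 3 * dl x ∧ 0 ≤ x 3 ∧ x 3 ≤ dl x ∧ x 0 ≤ 10 * dl x

/-- the pieces of the outer region -/
def Dp (a : Fin 8) : Set Sph := {x | Pa x ∧ Lin a x.1}

/-- the outer region of the configuration -/
def P0 : Set Sph := {x | ∃ a, x ∈ Dp a}

/-- the open L-tromino -/
def InLo (x : V5) : Prop :=
  (0 < x 1 ∧ x 1 < 2 * dl x ∧ 0 < x 2 ∧ x 2 < dl x ∧ 0 < x 3 ∧ x 3 < dl x) ∨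
  (0 < x 1 ∧ x 1 < dl x ∧ 0 < x 2 ∧ x 2 < 2 * dl x ∧ 0 < x 3 ∧ x 3 < dl x)

/-- the closed L-tromino -/
def InLc (x : V5) : Prop :=
  (0 ≤ x 1 ∧ x 1 ≤ 2 * dl x ∧ 0 ≤ x 2 ∧ x 2 ≤ dl x ∧ 0 ≤ x 3 ∧ x 3 ≤ dl x ∧ 0 < dl x) ∨
  (0 ≤ x 1 ∧ x 1 ≤ dl x ∧ 0 ≤ x 2 ∧ x 2 ≤ 2 * dl x ∧ 0 ≤ x 3 ∧ x 3 ≤ dl x ∧ 0 < dl x)

/-- the inner region (the pockets inside the tromino) -/
def P1 : Set Sph := {x | Pa x ∧ InLo x.1}

/-- the union of the translates of the outer region -/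
def Om : Set Sph := {x | ∃ w : W, w⁻¹ • x ∈ P0}

/-- the union of the translates of the inner region -/
def Om1 : Set Sph := {x | ∃ w : W, w⁻¹ • x ∈ P1}

/-- the sphere that carries a face -/
def fb : Fin 18 → Fin 16 := ![0, 1, 2, 3, 4, 5, 6, 7, 8, 9, 10, 11, 12, 13, 14, 15, 8, 9]

/-- side conditions distinguishing the two faces on the spheres `8` and `9` -/
def side (f : Fin 18) (x : V5) : Prop :=
  if f = 8 then x 3 < 0 else if f = 16 then 0 < x 3 else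
  if f = 9 then dl x < x 3 else if f = 17 then x 3 < dl x else True

/-- the eighteen faces of the outer region -/
def FcS (f : Fin 18) : Set Sph := {x | x ∈ P0 ∧ lor x.1 (ev (fb f)) = 0 ∧ side f x.1}

/-- adjacency of the faces (list) -/
def adjL : List (Fin 18 × Fin 18) :=
  [(0,6),(0,2),(0,1),(1,7),(1,3),(2,8),(2,4),(2,3),(3,9),(3,5),(4,10),(4,5),(5,11),(6,12),(6,8),
   (6,7),(7,13),(7,9),(16,14),(8,14),(16,10),(8,10),(16,17),(9,15),(17,15),(9,11),(17,11),(10,11),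
   (12,14),(12,13),(13,15),(14,15)]

/-- adjacency of the faces -/
def adjF (f g : Fin 18) : Prop := (f, g) ∈ adjL ∨ (g, f) ∈ adjL

instance : DecidableRel adjF := fun f g => by unfold adjF; infer_instance

/-- the centre of the notch -/
noncomputable def mQ : Sph := st ![3/2, 3/2, 1/2]

end Trom
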