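import Pool.Agent.Helper97.Trom.Top

open Matrix Set Topology

namespace Trom

theorem lkp_ev (y : Fin 3 → ℚ) (i : Fin 16) : lor (st (fun k => (y k : ℝ))).1 (ev i) =
    dl (st (fun k => (y k : ℝ))).1 * (1/4 -
      ((((y 0 - ctr i 0) ^ 2 + (y 1 - ctr i 1) ^ 2 + (y 2 - ctr i 2) ^ 2 : ℚ)) : ℝ) / 2) := by
  rw [st_ev]
  push_cast
  ring

theorem lkp_nonpos (y : Fin 3 → ℚ) (i : Fin 16)
    (h : 1/2 ≤ (y 0 - ctr i 0) ^ 2 + (y 1 - ctr i 1) ^ 2 + (y 2 - ctr i 2) ^ 2) :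
    lor (st (fun k => (y k : ℝ))).1 (ev i) ≤ 0 := by
  rw [lkp_ev]
  have hD := st_dl_pos (fun k => (y k : ℝ))
  have h1 : ((1/2 : ℚ) : ℝ) ≤ (((y 0 - ctr i 0) ^ 2 + (y 1 - ctr i 1) ^ 2
      + (y 2 - ctr i 2) ^ 2 : ℚ) : ℝ) := by exact_mod_cast h
  have h2 : ((1/2 : ℚ) : ℝ) = 1/2 := by norm_num
  rw [h2] at h1
  apply mul_nonpos_of_nonneg_of_nonpos hD.le
  linarith

theorem lkp_zero (y : Fin 3 → ℚ) (i : Fin 16) :
    lor (st (fun k => (y k : ℝ))).1 (ev i) = 0 ↔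
      (y 0 - ctr i 0) ^ 2 + (y 1 - ctr i 1) ^ 2 + (y 2 - ctr i 2) ^ 2 = 1/2 := by
  rw [lkp_ev]
  have hD := st_dl_pos (fun k => (y k : ℝ))
  have h2 : ((1/2 : ℚ) : ℝ) = 1/2 := by norm_num
  constructor
  · intro h
    rcases mul_eq_zero.1 h with h3 | h3
    · exact absurd h3 hD.ne'
    · have h4 : (((y 0 - ctr i 0) ^ 2 + (y 1 - ctr i 1) ^ 2
          + (y 2 - ctr i 2) ^ 2 : ℚ) : ℝ) = ((1/2 : ℚ) : ℝ) := by rw [h2]; linarith
      exact_mod_cast h4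
  · intro h
    rw [h, h2]
    ring

/-- points of the faces on the boundary between two octants -/
theorem link_points (f : Fin 18) : ∀ y : Fin 3 → ℚ,
    (∀ i, 1/2 ≤ (y 0 - ctr i 0) ^ 2 + (y 1 - ctr i 1) ^ 2 + (y 2 - ctr i 2) ^ 2) →
    (∀ i j, 2 ≤ d2 i j →
      ¬ ((y 0 - ctr i 0) ^ 2 + (y 1 - ctr i 1) ^ 2 + (y 2 - ctr i 2) ^ 2 = 1/2 ∧
         (y 0 - ctr j 0) ^ 2 + (y 1 - ctr j 1) ^ 2 + (y 2 - ctr j 2) ^ 2 = 1/2)) →
    (y 0 - ctr (fb f) 0) ^ 2 + (y 1 - ctr (fb f) 1) ^ 2 + (y 2 - ctr (fb f) 2) ^ 2 = 1/2 →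
    (2 ≤ y 0 ∨ y 0 ≤ 0 ∨ 2 ≤ y 1 ∨ y 1 ≤ 0 ∨ 1 ≤ y 2 ∨ y 2 ≤ 0 ∨
      (1 ≤ y 0 ∧ 1 ≤ y 1 ∧ 3 ≤ y 0 + y 1) ∨
      (1 ≤ y 0 ∧ 1 ≤ y 1 ∧ y 0 + y 1 ≤ 3 ∧ 0 ≤ y 2 ∧ y 2 ≤ 1)) →
    (f = 8 → y 2 < 0) → (f = 16 → 0 < y 2) → (f = 9 → 1 < y 2) → (f = 17 → y 2 < 1) →
    st (fun k => (y k : ℝ)) ∈ FcS f := by
  intro y h1 h2 h3 h4 h5 h6 h7 h8
  have hD := st_dl_pos (fun k => (y k : ℝ))
  obtain ⟨c1, c2, c3⟩ := st_coord (fun k => (y k : ℝ))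
  have hPa : Pa (st (fun k => (y k : ℝ))) := by
    refine ⟨fun i => lkp_nonpos y i (h1 i), fun i j hij => ?_⟩
    rw [lkp_zero, lkp_zero]
    exact h2 i j hij
  have hdl := st_dl (fun k => (y k : ℝ))
  have hx0 := (st (fun k => (y k : ℝ))).2.1
  have hP0 : st (fun k => (y k : ℝ)) ∈ P0 := by
    generalize hD' : dl (st (fun k => (y k : ℝ))).1 = D at *
    rcases h4 with h | h | h | h | h | h | h | h
    · refine ⟨0, hPa, ?_⟩
      have h' : (2 : ℝ) ≤ y 0 := by exact_mod_cast h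
      change 2 * dl (st (fun k => (y k : ℝ))).1 ≤ (st (fun k => (y k : ℝ))).1 1
      rw [hD', c1]
      nlinarith
    · refine ⟨1, hPa, ?_⟩
      have h' : (y 0 : ℝ) ≤ 0 := by exact_mod_cast h
      change (st (fun k => (y k : ℝ))).1 1 ≤ 0
      rw [c1]
      nlinarith
    · refine ⟨2, hPa, ?_⟩
      have h' : (2 : ℝ) ≤ y 1 := by exact_mod_cast h
      change 2 * dl (st (fun k => (y k : ℝ))).1 ≤ (st (fun k => (y k : ℝ))).1 2
      rw [hD', c2]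
      nlinarith
    · refine ⟨3, hPa, ?_⟩
      have h' : (y 1 : ℝ) ≤ 0 := by exact_mod_cast h
      change (st (fun k => (y k : ℝ))).1 2 ≤ 0
      rw [c2]
      nlinarith
    · refine ⟨4, hPa, ?_⟩
      have h' : (1 : ℝ) ≤ y 2 := by exact_mod_cast h
      change dl (st (fun k => (y k : ℝ))).1 ≤ (st (fun k => (y k : ℝ))).1 3
      rw [hD', c3]
      nlinarith
    · refine ⟨5, hPa, ?_⟩
      have h' : (y 2 : ℝ) ≤ 0 := by exact_mod_cast h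
      change (st (fun k => (y k : ℝ))).1 3 ≤ 0
      rw [c3]
      nlinarith
    · refine ⟨6, hPa, ?_⟩
      obtain ⟨ha, hb, hc⟩ := h
      have ha' : (1 : ℝ) ≤ y 0 := by exact_mod_cast ha
      have hb' : (1 : ℝ) ≤ y 1 := by exact_mod_cast hb
      have hc' : (3 : ℝ) ≤ y 0 + y 1 := by exact_mod_cast hc
      change dl (st (fun k => (y k : ℝ))).1 ≤ (st (fun k => (y k : ℝ))).1 1 ∧
        dl (st (fun k => (y k : ℝ))).1 ≤ (st (fun k => (y k : ℝ))).1 2 ∧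
        3 * dl (st (fun k => (y k : ℝ))).1 ≤
          (st (fun k => (y k : ℝ))).1 1 + (st (fun k => (y k : ℝ))).1 2
      rw [hD', c1, c2]
      refine ⟨?_, ?_, ?_⟩
      · nlinarith
      · nlinarith
      · nlinarith
    · refine ⟨7, hPa, ?_⟩
      obtain ⟨ha, hb, hc, hd, he⟩ := h
      have ha' : (1 : ℝ) ≤ y 0 := by exact_mod_cast ha
      have hb' : (1 : ℝ) ≤ y 1 := by exact_mod_cast hb
      have hc' : (y 0 : ℝ) + y 1 ≤ 3 := by exact_mod_cast hc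
      have hd' : (0 : ℝ) ≤ y 2 := by exact_mod_cast hd
      have he' : (y 2 : ℝ) ≤ 1 := by exact_mod_cast he
      change dl (st (fun k => (y k : ℝ))).1 ≤ (st (fun k => (y k : ℝ))).1 1 ∧
        dl (st (fun k => (y k : ℝ))).1 ≤ (st (fun k => (y k : ℝ))).1 2 ∧
        (st (fun k => (y k : ℝ))).1 1 + (st (fun k => (y k : ℝ))).1 2
          ≤ 3 * dl (st (fun k => (y k : ℝ))).1 ∧
        0 ≤ (st (fun k => (y k : ℝ))).1 3 ∧
        (st (fun k => (y k : ℝ))).1 3 ≤ dl (st (fun k => (y k : ℝ))).1 ∧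
        (st (fun k => (y k : ℝ))).1 0 ≤ 10 * dl (st (fun k => (y k : ℝ))).1
      rw [hx0, hD', c1, c2, c3]
      refine ⟨?_, ?_, ?_, ?_, ?_, ?_⟩
      · nlinarith
      · nlinarith
      · nlinarith
      · positivity
      · nlinarith
      · rw [hdl]
        have hl : lv (fun k => (y k : ℝ)) 0
            = ((y 0 : ℝ) ^ 2 + (y 1 : ℝ) ^ 2 + (y 2 : ℝ) ^ 2 + 1) / 2 := rfl
        have hl2 : lv (fun k => (y k : ℝ)) 0 ≤ 10 := by
          rw [hl]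
          nlinarith
        have hl0 := lv_zero_pos (fun k => (y k : ℝ))
        rw [← div_eq_mul_inv, le_div_iff₀ hl0]
        linarith
  refine ⟨hP0, (lkp_zero y (fb f)).2 h3, ?_⟩
  unfold side
  rw [c3]
  split_ifs with e1 e2 e3 e4
  · have h' : (y 2 : ℝ) < 0 := by exact_mod_cast h5 e1
    nlinarith
  · have h' : (0 : ℝ) < y 2 := by exact_mod_cast h6 e2
    positivity
  · have h' : (1 : ℝ) < y 2 := by exact_mod_cast h7 e3
    nlinarith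
  · have h' : (y 2 : ℝ) < 1 := by exact_mod_cast h8 e4
    nlinarith

end Trom
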