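import Pool.Agent.Helper97.Trom.Top
import Pool.Agent.Helper97.Trom.J_link_points

open Matrix Set Topology

namespace Trom

/-- ten times squared distance -/
def adjp_sq (n : ℤ × ℤ × ℤ) (i : Fin 16) : ℤ :=
  (n.1 - 10 * ctr i 0) ^ 2 + (n.2.1 - 10 * ctr i 1) ^ 2 + (n.2.2 - 10 * ctr i 2) ^ 2

/-- integer conditions -/
def adjp_chk (f : Fin 18) (n : ℤ × ℤ × ℤ) : Prop :=
  (∀ i, 50 ≤ adjp_sq n i) ∧
  (∀ i j, 2 ≤ d2 i j → ¬ (adjp_sq n i = 50 ∧ adjp_sq n j = 50)) ∧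
  adjp_sq n (fb f) = 50 ∧
  (20 ≤ n.1 ∨ n.1 ≤ 0 ∨ 20 ≤ n.2.1 ∨ n.2.1 ≤ 0 ∨ 10 ≤ n.2.2 ∨ n.2.2 ≤ 0 ∨
    (10 ≤ n.1 ∧ 10 ≤ n.2.1 ∧ 30 ≤ n.1 + n.2.1) ∨
    (10 ≤ n.1 ∧ 10 ≤ n.2.1 ∧ n.1 + n.2.1 ≤ 30 ∧ 0 ≤ n.2.2 ∧ n.2.2 ≤ 10)) ∧
  (f = 8 → n.2.2 < 0) ∧ (f = 16 → 0 < n.2.2) ∧ (f = 9 → 10 < n.2.2) ∧ (f = 17 → n.2.2 < 10)

instance adjp_dec (f : Fin 18) (n : ℤ × ℤ × ℤ) : Decidable (adjp_chk f n) := by
  unfold adjp_chk
  infer_instance

/-- the table of points -/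
def adjp_tab : List ((Fin 18 × Fin 18) × (ℤ × ℤ × ℤ)) :=
  [((0,6), (5,-5,0)), ((0,2), (-5,5,0)), ((0,1), (-5,0,5)), ((1,7), (5,0,15)),
   ((1,3), (0,5,15)), ((2,8), (5,10,-5)), ((2,4), (-5,15,0)), ((2,3), (-5,10,5)),
   ((3,9), (5,10,15)), ((3,5), (0,15,15)), ((4,10), (5,25,0)), ((4,5), (0,25,5)),
   ((5,11), (5,25,10)), ((6,12), (15,-5,0)), ((6,8), (10,5,-5)), ((6,7), (10,-5,5)),
   ((7,13), (15,0,15)), ((7,9), (10,5,15)), ((16,14), (15,13,4)), ((8,14), (15,10,-5)),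
   ((16,10), (13,15,4)), ((8,10), (10,15,-5)), ((16,17), (13,14,5)), ((9,15), (15,10,15)),
   ((17,15), (15,13,6)), ((9,11), (10,15,15)), ((17,11), (13,15,6)), ((10,11), (15,20,5)),
   ((12,14), (25,5,0)), ((12,13), (25,0,5)), ((13,15), (25,5,10)), ((14,15), (25,10,5))]

theorem adjp_tab_fst : adjp_tab.map Prod.fst = adjL := by decide

set_option maxRecDepth 100000 in
theorem adjp_tab_chk : ∀ e ∈ adjp_tab, adjp_chk e.1.1 e.2 ∧ adjp_chk e.1.2 e.2 := by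
  decide +kernel

/-- the rational point -/
def adjp_pt (n : ℤ × ℤ × ℤ) : Fin 3 → ℚ := ![(n.1 : ℚ) / 10, (n.2.1 : ℚ) / 10, (n.2.2 : ℚ) / 10]

theorem adjp_sq_eq (n : ℤ × ℤ × ℤ) (i : Fin 16) :
    (adjp_pt n 0 - ctr i 0) ^ 2 + (adjp_pt n 1 - ctr i 1) ^ 2 + (adjp_pt n 2 - ctr i 2) ^ 2 =
      (adjp_sq n i : ℚ) / 100 := by
  have p0 : adjp_pt n 0 = (n.1 : ℚ) / 10 := rfl
  have p1 : adjp_pt n 1 = (n.2.1 : ℚ) / 10 := rfl
  have p2 : adjp_pt n 2 = (n.2.2 : ℚ) / 10 := rfl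
  rw [p0, p1, p2]
  unfold adjp_sq
  push_cast
  ring

theorem adjp_mem (f : Fin 18) (n : ℤ × ℤ × ℤ) (h : adjp_chk f n) :
    st (fun k => (adjp_pt n k : ℝ)) ∈ FcS f := by
  obtain ⟨h1, h2, h3, h4, h5, h6, h7, h8⟩ := h
  have e50 : ∀ i, (adjp_pt n 0 - ctr i 0) ^ 2 + (adjp_pt n 1 - ctr i 1) ^ 2 +
      (adjp_pt n 2 - ctr i 2) ^ 2 = 1/2 → adjp_sq n i = 50 := by
    intro i hi
    rw [adjp_sq_eq] at hi
    have : (adjp_sq n i : ℚ) = 50 := by linarith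
    exact_mod_cast this
  have p0 : adjp_pt n 0 = (n.1 : ℚ) / 10 := rfl
  have p1 : adjp_pt n 1 = (n.2.1 : ℚ) / 10 := rfl
  have p2 : adjp_pt n 2 = (n.2.2 : ℚ) / 10 := rfl
  apply link_points f (adjp_pt n)
  · intro i
    rw [adjp_sq_eq]
    have : (50 : ℚ) ≤ adjp_sq n i := by exact_mod_cast h1 i
    linarith
  · rintro i j hij ⟨hi, hj⟩
    exact h2 i j hij ⟨e50 i hi, e50 j hj⟩
  · rw [adjp_sq_eq, h3]
    norm_num
  · rw [p0, p1, p2]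
    rcases h4 with h | h | h | h | h | h | h | h
    · left
      have : (20 : ℚ) ≤ n.1 := by exact_mod_cast h
      linarith
    · right; left
      have : (n.1 : ℚ) ≤ 0 := by exact_mod_cast h
      linarith
    · right; right; left
      have : (20 : ℚ) ≤ n.2.1 := by exact_mod_cast h
      linarith
    · right; right; right; left
      have : (n.2.1 : ℚ) ≤ 0 := by exact_mod_cast h
      linarith
    · right; right; right; right; left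
      have : (10 : ℚ) ≤ n.2.2 := by exact_mod_cast h
      linarith
    · right; right; right; right; right; left
      have : (n.2.2 : ℚ) ≤ 0 := by exact_mod_cast h
      linarith
    · right; right; right; right; right; right; left
      have a1 : (10 : ℚ) ≤ n.1 := by exact_mod_cast h.1
      have a2 : (10 : ℚ) ≤ n.2.1 := by exact_mod_cast h.2.1
      have a3 : (30 : ℚ) ≤ n.1 + n.2.1 := by exact_mod_cast h.2.2
      refine ⟨?_, ?_, ?_⟩ <;> linarith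
    · right; right; right; right; right; right; right
      have a1 : (10 : ℚ) ≤ n.1 := by exact_mod_cast h.1
      have a2 : (10 : ℚ) ≤ n.2.1 := by exact_mod_cast h.2.1
      have a3 : (n.1 : ℚ) + n.2.1 ≤ 30 := by exact_mod_cast h.2.2.1
      have a4 : (0 : ℚ) ≤ n.2.2 := by exact_mod_cast h.2.2.2.1
      have a5 : (n.2.2 : ℚ) ≤ 10 := by exact_mod_cast h.2.2.2.2
      refine ⟨?_, ?_, ?_, ?_, ?_⟩ <;> linarith
  · intro hf
    rw [p2]
    have : (n.2.2 : ℚ) < 0 := by exact_mod_cast h5 hf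
    linarith
  · intro hf
    rw [p2]
    have : (0 : ℚ) < n.2.2 := by exact_mod_cast h6 hf
    linarith
  · intro hf
    rw [p2]
    have : (10 : ℚ) < n.2.2 := by exact_mod_cast h7 hf
    linarith
  · intro hf
    rw [p2]
    have : (n.2.2 : ℚ) < 10 := by exact_mod_cast h8 hf
    linarith

theorem adjp_list (f g : Fin 18) (h : (f, g) ∈ adjL) : ∃ x, x ∈ FcS f ∧ x ∈ FcS g := by
  rw [← adjp_tab_fst, List.mem_map] at h
  obtain ⟨e, he, h1⟩ := h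
  obtain ⟨h2, h3⟩ := adjp_tab_chk e he
  rw [h1] at h2 h3
  exact ⟨_, adjp_mem f e.2 h2, adjp_mem g e.2 h3⟩

/-- adjacent faces have a common point -/
theorem adj_point (f g : Fin 18) (h : adjF f g) : ∃ x, x ∈ FcS f ∧ x ∈ FcS g := by
  rcases h with h | h
  · exact adjp_list f g h
  · obtain ⟨x, h1, h2⟩ := adjp_list g f h
    exact ⟨x, h2, h1⟩

end Trom
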