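import Pool.Agent.Helper97.Trom.Top

open Matrix Set Topology

namespace Trom

theorem inf_mem_lor (i : Fin 16) : lor inf.1 (ev i) = -1 := by
  simp only [lor, inf, ev]
  simp
  ring

theorem inf_mem_dl : dl inf.1 = 0 := by
  simp [dl, inf]

theorem inf_mem_one : inf.1 1 = 0 := by simp [inf]
theorem inf_mem_two : inf.1 2 = 0 := by simp [inf]
theorem inf_mem_three : inf.1 3 = 0 := by simp [inf]

theorem inf_mem (a : Fin 8) (ha : a ≠ 7) : inf ∈ Dp a := by
  refine ⟨⟨fun i => ?_, fun i j _ h => ?_⟩, ?_⟩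
  · rw [inf_mem_lor]
    norm_num
  · have h1 := h.1
    rw [inf_mem_lor] at h1
    norm_num at h1
  · have h0 := inf_mem_dl
    have h1 := inf_mem_one
    have h2 := inf_mem_two
    have h3 := inf_mem_three
    fin_cases a
    · show 2 * dl inf.1 ≤ inf.1 1
      rw [h0, h1]; norm_num
    · show inf.1 1 ≤ 0
      rw [h1]
    · show 2 * dl inf.1 ≤ inf.1 2
      rw [h0, h2]; norm_num
    · show inf.1 2 ≤ 0
      rw [h2]
    · show dl inf.1 ≤ inf.1 3
      rw [h0, h3]
    · show inf.1 3 ≤ 0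
      rw [h3]
    · show dl inf.1 ≤ inf.1 1 ∧ dl inf.1 ≤ inf.1 2 ∧ 3 * dl inf.1 ≤ inf.1 1 + inf.1 2
      rw [h0, h1, h2]
      norm_num
    · exact absurd rfl ha

end Trom
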