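import Pool.Agent.Helper97.Trom.Top

open Matrix Set Topology

namespace Trom

theorem mQ_neg (i : Fin 16) : lor mQ.1 (ev i) < 0 := by
  have h1 := st_dl_pos ![3/2, 3/2, 1/2]
  unfold mQ
  rw [st_ev]
  have h2 : (1/4 - (((![3/2, 3/2, 1/2] : Fin 3 → ℝ) 0 - ctr i 0) ^ 2 +
      ((![3/2, 3/2, 1/2] : Fin 3 → ℝ) 1 - ctr i 1) ^ 2 +
      ((![3/2, 3/2, 1/2] : Fin 3 → ℝ) 2 - ctr i 2) ^ 2) / 2) < 0 := by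
    fin_cases i <;> simp [ctr] <;> norm_num
  exact mul_neg_of_pos_of_neg h1 h2

theorem mQ_mem : mQ ∈ Dp 6 ∧ mQ ∈ Dp 7 := by
  have hPa : Pa mQ := ⟨fun i => (mQ_neg i).le, fun i j _ h => (mQ_neg i).ne h.1⟩
  obtain ⟨c1, c2, c3⟩ := st_coord ![3/2, 3/2, 1/2]
  have hd := st_dl ![3/2, 3/2, 1/2]
  have hp := st_dl_pos ![3/2, 3/2, 1/2]
  have h0 := (st ![3/2, 3/2, 1/2]).2.1
  have hl : lv ![3/2, 3/2, 1/2] 0 = 23 / 8 := by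
    simp [lv]
    norm_num
  rw [hl] at hd
  simp only [Matrix.cons_val_zero, Matrix.cons_val_one, Matrix.cons_val] at c1 c2 c3
  constructor
  · refine ⟨hPa, ?_⟩
    show dl (st ![3/2, 3/2, 1/2]).1 ≤ (st ![3/2, 3/2, 1/2]).1 1 ∧
      dl (st ![3/2, 3/2, 1/2]).1 ≤ (st ![3/2, 3/2, 1/2]).1 2 ∧
      3 * dl (st ![3/2, 3/2, 1/2]).1 ≤ (st ![3/2, 3/2, 1/2]).1 1 + (st ![3/2, 3/2, 1/2]).1 2
    rw [c1, c2]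
    refine ⟨?_, ?_, ?_⟩ <;> linarith
  · refine ⟨hPa, ?_⟩
    show dl (st ![3/2, 3/2, 1/2]).1 ≤ (st ![3/2, 3/2, 1/2]).1 1 ∧
      dl (st ![3/2, 3/2, 1/2]).1 ≤ (st ![3/2, 3/2, 1/2]).1 2 ∧
      (st ![3/2, 3/2, 1/2]).1 1 + (st ![3/2, 3/2, 1/2]).1 2 ≤ 3 * dl (st ![3/2, 3/2, 1/2]).1 ∧
      0 ≤ (st ![3/2, 3/2, 1/2]).1 3 ∧
      (st ![3/2, 3/2, 1/2]).1 3 ≤ dl (st ![3/2, 3/2, 1/2]).1 ∧
      (st ![3/2, 3/2, 1/2]).1 0 ≤ 10 * dl (st ![3/2, 3/2, 1/2]).1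
    rw [c1, c2, c3, h0]
    refine ⟨?_, ?_, ?_, ?_, ?_, ?_⟩ <;> first | linarith | (rw [hd]; norm_num)

end Trom
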