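import Pool.Agent.Helper97.Trom.Top

open Matrix Set Topology

namespace Trom

theorem Fl_pos_aux (x : Sph) (hd : 0 < dl x.1) (v : Fin 3 → ℝ) (hv : v ≠ 0) (t : ℝ)
    (h0 : 0 ≤ t) (h1 : t ≤ 1) : 0 < (Fl v t x.1) 0 := by
  have hv2 : 0 < (v 0) ^ 2 + (v 1) ^ 2 + (v 2) ^ 2 := by
    by_contra hcon
    apply hv
    have a0 : v 0 = 0 := by nlinarith [sq_nonneg (v 0), sq_nonneg (v 1), sq_nonneg (v 2)]
    have a1 : v 1 = 0 := by nlinarith [sq_nonneg (v 0), sq_nonneg (v 1), sq_nonneg (v 2)]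
    have a2 : v 2 = 0 := by nlinarith [sq_nonneg (v 0), sq_nonneg (v 1), sq_nonneg (v 2)]
    ext i
    fin_cases i <;> simp [a0, a1, a2]
  rcases lt_or_eq_of_le h1 with h | h
  · have hd' := Fl_dl v t x.1
    have hl := Fl_lor v t x.1
    rw [x.2.2, mul_zero] at hl
    have hpos : 0 < dl (Fl v t x.1) := by
      rw [hd']
      exact mul_pos (by nlinarith) hd
    set Z := Fl v t x.1 with hZ
    simp only [dl] at hpos
    simp only [lor] at hl
    have h2 : 0 ≤ (Z 0 - Z 4) * (Z 0 + Z 4) := by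
      nlinarith [sq_nonneg (Z 1), sq_nonneg (Z 2), sq_nonneg (Z 3)]
    have h3 : 0 ≤ Z 0 + Z 4 := by
      by_contra hc
      push Not at hc
      nlinarith
    linarith
  · subst h
    have : (Fl v 1 x.1) 0 = ((v 0) ^ 2 + (v 1) ^ 2 + (v 2) ^ 2) * dl x.1 / 2 := by
      simp [Fl]
    rw [this]
    positivity

theorem Fl_lor_zero (x : Sph) (v : Fin 3 → ℝ) (t : ℝ) :
    lor (Fl v t x.1) (Fl v t x.1) = 0 := by
  rw [Fl_lor, x.2.2, mul_zero]

theorem continuous_Fl (v : Fin 3 → ℝ) (x : V5) : Continuous (fun t : ℝ => Fl v t x) := by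
  refine continuous_pi fun i => ?_
  fin_cases i <;> · simp [Fl]; fun_prop

/-- Translating a point of the chamber to infinity in a direction `v` pointing away from all
centres. -/
theorem flow_exists (x : Sph) (hx : Pa x) (v : Fin 3 → ℝ) (hv : v ≠ 0)
    (hc : ∀ i, dl x.1 * (ctr i 0 * v 0 + ctr i 1 * v 1 + ctr i 2 * v 2) ≤
      x.1 1 * v 0 + x.1 2 * v 1 + x.1 3 * v 2) :
    ∃ γ : Path inf x, ∀ t, Pa (γ t) ∧ ∀ (n : Fin 3 → ℝ) (b : ℝ),
      0 ≤ n 0 * v 0 + n 1 * v 1 + n 2 * v 2 →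
      b * dl x.1 ≤ n 0 * x.1 1 + n 1 * x.1 2 + n 2 * x.1 3 →
      b * dl (γ t).1 ≤ n 0 * (γ t).1 1 + n 1 * (γ t).1 2 + n 2 * (γ t).1 3 := by
  rcases eq_or_lt_of_le (dl_nonneg x) with hd | hd
  · have hxi := eq_inf_of_dl hd.symm
    subst hxi
    refine ⟨Path.refl _, fun t => ⟨by simpa using hx, fun n b _ h => by simpa using h⟩⟩
  have hv2 : 0 < (v 0) ^ 2 + (v 1) ^ 2 + (v 2) ^ 2 := by
    by_contra hcon
    apply hv
    have a0 : v 0 = 0 := by nlinarith [sq_nonneg (v 0), sq_nonneg (v 1), sq_nonneg (v 2)]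
    have a1 : v 1 = 0 := by nlinarith [sq_nonneg (v 0), sq_nonneg (v 1), sq_nonneg (v 2)]
    have a2 : v 2 = 0 := by nlinarith [sq_nonneg (v 0), sq_nonneg (v 1), sq_nonneg (v 2)]
    ext i
    fin_cases i <;> simp [a0, a1, a2]
  let c : unitInterval → Sph := fun t =>
    toSph (Fl v t x.1) (Fl_pos_aux x hd v hv t t.2.1 t.2.2) (Fl_lor_zero x v t)
  have hcval : ∀ t, (c t).1 = ((Fl v t x.1) 0)⁻¹ • Fl v t x.1 := fun t => rfl
  have hcont : Continuous c := by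
    apply Continuous.subtype_mk
    have h := (continuous_Fl v x.1).comp (continuous_subtype_val (p := fun t : ℝ => t ∈ unitInterval))
    change Continuous fun t : unitInterval => ((Fl v t x.1) 0)⁻¹ • Fl v t x.1
    refine Continuous.smul (Continuous.inv₀ ((continuous_apply 0).comp h) fun t => ?_) h
    exact (Fl_pos_aux x hd v hv t t.2.1 t.2.2).ne'
  have hc0 : c 0 = x := by
    apply Subtype.ext
    rw [hcval]
    have hF : Fl v ((0 : unitInterval) : ℝ) x.1 = x.1 := by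
      ext i
      fin_cases i <;> simp [Fl]
    rw [hF, x.2.1]
    simp
  have hc1 : c 1 = inf := by
    apply Subtype.ext
    rw [hcval]
    have hq : ((v 0) ^ 2 + (v 1) ^ 2 + (v 2) ^ 2) * dl x.1 / 2 ≠ 0 := by positivity
    have hF : Fl v ((1 : unitInterval) : ℝ) x.1 =
        (((v 0) ^ 2 + (v 1) ^ 2 + (v 2) ^ 2) * dl x.1 / 2) • ![1, 0, 0, 0, 1] := by
      ext i
      fin_cases i <;> simp [Fl]
    rw [hF]
    ext i
    fin_cases i
    · simp [inf]
      field_simp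
      exact ⟨hv2.ne', hd.ne'⟩
    · simp [inf]
    · simp [inf]
    · simp [inf]
    · simp [inf]
      field_simp
      exact ⟨hv2.ne', hd.ne'⟩
  refine ⟨(⟨⟨c, hcont⟩, hc0, hc1⟩ : Path x inf).symm, fun t => ?_⟩
  have key : ∀ s : unitInterval, Pa (c s) ∧ ∀ (n : Fin 3 → ℝ) (b : ℝ),
      0 ≤ n 0 * v 0 + n 1 * v 1 + n 2 * v 2 →
      b * dl x.1 ≤ n 0 * x.1 1 + n 1 * x.1 2 + n 2 * x.1 3 →
      b * dl (c s).1 ≤ n 0 * (c s).1 1 + n 1 * (c s).1 2 + n 2 * (c s).1 3 := by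
    intro s
    have hp := Fl_pos_aux x hd v hv s s.2.1 s.2.2
    have hs0 : (0 : ℝ) ≤ s := s.2.1
    have hs1 : (s : ℝ) ≤ 1 := s.2.2
    constructor
    · rcases eq_or_lt_of_le hs0 with h0 | h0
      · have : s = 0 := Subtype.ext h0.symm
        rw [this, hc0]
        exact hx
      · have hneg : ∀ i, lor (c s).1 (ev i) < 0 := by
          intro i
          rw [hcval, lor_smul_left, Fl_ev]
          apply mul_neg_of_pos_of_neg (inv_pos.mpr hp)
          have e1 : (1 - (s : ℝ)) ^ 2 * lor x.1 (ev i) ≤ 0 :=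
            mul_nonpos_of_nonneg_of_nonpos (sq_nonneg _) (hx.1 i)
          have e2 : 0 ≤ (s : ℝ) * (1 - s) * ((x.1 1 * v 0 + x.1 2 * v 1 + x.1 3 * v 2) -
              dl x.1 * (ctr i 0 * v 0 + ctr i 1 * v 1 + ctr i 2 * v 2)) := by
            apply mul_nonneg (mul_nonneg hs0 (by linarith))
            have := hc i
            linarith
          have e3 : 0 < (s : ℝ) ^ 2 * ((v 0) ^ 2 + (v 1) ^ 2 + (v 2) ^ 2) * dl x.1 / 2 := by
            positivity
          linarith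
        exact ⟨fun i => (hneg i).le, fun i j _ h => (hneg i).ne h.1⟩
    · intro n b hn hb
      rw [hcval]
      have hdl : dl (((Fl v s x.1) 0)⁻¹ • Fl v s x.1) = ((Fl v s x.1) 0)⁻¹ * dl (Fl v s x.1) := by
        simp [dl]; ring
      rw [hdl, Fl_dl]
      have f1 : (Fl v s x.1) 1 = (1 - (s : ℝ)) ^ 2 * x.1 1 + s * (1 - s) * (dl x.1 * v 0) := by
        simp [Fl]
      have f2 : (Fl v s x.1) 2 = (1 - (s : ℝ)) ^ 2 * x.1 2 + s * (1 - s) * (dl x.1 * v 1) := by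
        simp [Fl]
      have f3 : (Fl v s x.1) 3 = (1 - (s : ℝ)) ^ 2 * x.1 3 + s * (1 - s) * (dl x.1 * v 2) := by
        simp [Fl]
      simp only [Pi.smul_apply, smul_eq_mul]
      rw [f1, f2, f3]
      have g1 : 0 ≤ (1 - (s : ℝ)) ^ 2 * ((n 0 * x.1 1 + n 1 * x.1 2 + n 2 * x.1 3) - b * dl x.1) :=
        mul_nonneg (sq_nonneg _) (by linarith)
      have g2 : 0 ≤ (s : ℝ) * (1 - s) * dl x.1 * (n 0 * v 0 + n 1 * v 1 + n 2 * v 2) :=
        mul_nonneg (mul_nonneg (mul_nonneg hs0 (by linarith)) hd.le) hn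
      have g3 : 0 ≤ ((Fl v s x.1) 0)⁻¹ *
          ((1 - (s : ℝ)) ^ 2 * ((n 0 * x.1 1 + n 1 * x.1 2 + n 2 * x.1 3) - b * dl x.1)
          + (s : ℝ) * (1 - s) * dl x.1 * (n 0 * v 0 + n 1 * v 1 + n 2 * v 2)) :=
        mul_nonneg (inv_pos.mpr hp).le (by linarith)
      nlinarith [g3]
  exact key (unitInterval.symm t)

end Trom
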