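import Pool.Agent.Helper97.Trom.Top
import Pool.Agent.Helper97.Trom.J_flow_exists

open Matrix Set Topology

namespace Trom

theorem ov_ctr (i : Fin 16) : (0:ℝ) ≤ ctr i 0 ∧ (ctr i 0 : ℝ) ≤ 2 ∧ (0:ℝ) ≤ ctr i 1 ∧
    (ctr i 1 : ℝ) ≤ 2 ∧ (0:ℝ) ≤ ctr i 2 ∧ (ctr i 2 : ℝ) ≤ 1 ∧ (ctr i 0 : ℝ) + ctr i 1 ≤ 3 := by
  have h : ∀ i : Fin 16, 0 ≤ ctr i 0 ∧ ctr i 0 ≤ 2 ∧ 0 ≤ ctr i 1 ∧
    ctr i 1 ≤ 2 ∧ 0 ≤ ctr i 2 ∧ ctr i 2 ≤ 1 ∧ ctr i 0 + ctr i 1 ≤ 3 := by decide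
  exact_mod_cast h i

theorem ov_dir (a : Fin 8) (ha : a ≠ 7) (x : V5) (hd : 0 ≤ dl x) (h : Lin a x) (i : Fin 16) :
    dl x * (ctr i 0 * dv a 0 + ctr i 1 * dv a 1 + ctr i 2 * dv a 2) ≤
      x 1 * dv a 0 + x 2 * dv a 1 + x 3 * dv a 2 := by
  obtain ⟨c1, c2, c3, c4, c5, c6, c7⟩ := ov_ctr i
  match a, ha, h with
  | 0, _, h =>
    change 2 * dl x ≤ x 1 at h
    change dl x * (ctr i 0 * (1:ℝ) + ctr i 1 * (0:ℝ) + ctr i 2 * (0:ℝ)) ≤ x 1 * (1:ℝ) + x 2 * (0:ℝ) + x 3 * (0:ℝ)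
    nlinarith
  | 1, _, h =>
    change x 1 ≤ 0 at h
    change dl x * (ctr i 0 * (-1:ℝ) + ctr i 1 * (0:ℝ) + ctr i 2 * (0:ℝ)) ≤ x 1 * (-1:ℝ) + x 2 * (0:ℝ) + x 3 * (0:ℝ)
    nlinarith
  | 2, _, h =>
    change 2 * dl x ≤ x 2 at h
    change dl x * (ctr i 0 * (0:ℝ) + ctr i 1 * (1:ℝ) + ctr i 2 * (0:ℝ)) ≤ x 1 * (0:ℝ) + x 2 * (1:ℝ) + x 3 * (0:ℝ)
    nlinarith
  | 3, _, h =>
    change x 2 ≤ 0 at h
    change dl x * (ctr i 0 * (0:ℝ) + ctr i 1 * (-1:ℝ) + ctr i 2 * (0:ℝ)) ≤ x 1 * (0:ℝ) + x 2 * (-1:ℝ) + x 3 * (0:ℝ)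
    nlinarith
  | 4, _, h =>
    change dl x ≤ x 3 at h
    change dl x * (ctr i 0 * (0:ℝ) + ctr i 1 * (0:ℝ) + ctr i 2 * (1:ℝ)) ≤ x 1 * (0:ℝ) + x 2 * (0:ℝ) + x 3 * (1:ℝ)
    nlinarith
  | 5, _, h =>
    change x 3 ≤ 0 at h
    change dl x * (ctr i 0 * (0:ℝ) + ctr i 1 * (0:ℝ) + ctr i 2 * (-1:ℝ)) ≤ x 1 * (0:ℝ) + x 2 * (0:ℝ) + x 3 * (-1:ℝ)
    nlinarith
  | 6, _, h =>
    change dl x ≤ x 1 ∧ dl x ≤ x 2 ∧ 3 * dl x ≤ x 1 + x 2 at h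
    change dl x * (ctr i 0 * (1:ℝ) + ctr i 1 * (1:ℝ) + ctr i 2 * (0:ℝ)) ≤ x 1 * (1:ℝ) + x 2 * (1:ℝ) + x 3 * (0:ℝ)
    nlinarith [h.2.2]
  | 7, ha, _ => exact absurd rfl ha

/-- compatibility of a direction with a piece -/
def OvC (a : Fin 8) (v : Fin 3 → ℝ) : Prop :=
  match a with
  | 0 => 0 ≤ v 0
  | 1 => v 0 ≤ 0
  | 2 => 0 ≤ v 1
  | 3 => v 1 ≤ 0
  | 4 => 0 ≤ v 2
  | 5 => v 2 ≤ 0
  | 6 => 0 ≤ v 0 ∧ 0 ≤ v 1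
  | 7 => False

theorem ov_keep (a : Fin 8) (v : Fin 3 → ℝ) (hv : OvC a v) (x y : V5)
    (H : ∀ (n : Fin 3 → ℝ) (b : ℝ),
      0 ≤ n 0 * v 0 + n 1 * v 1 + n 2 * v 2 →
      b * dl x ≤ n 0 * x 1 + n 1 * x 2 + n 2 * x 3 →
      b * dl y ≤ n 0 * y 1 + n 1 * y 2 + n 2 * y 3) (h : Lin a x) : Lin a y := by
  match a, hv, h with
  | 0, hv, h =>
    change 2 * dl x ≤ x 1 at h
    change 0 ≤ v 0 at hv
    have := H ![1, 0, 0] 2 (by simpa using hv) (by simpa using h)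
    change 2 * dl y ≤ y 1
    simpa using this
  | 1, hv, h =>
    change x 1 ≤ 0 at h
    change v 0 ≤ 0 at hv
    have := H ![-1, 0, 0] 0 (by simpa using hv) (by simpa using h)
    change y 1 ≤ 0
    simpa using this
  | 2, hv, h =>
    change 2 * dl x ≤ x 2 at h
    change 0 ≤ v 1 at hv
    have := H ![0, 1, 0] 2 (by simpa using hv) (by simpa using h)
    change 2 * dl y ≤ y 2
    simpa using this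
  | 3, hv, h =>
    change x 2 ≤ 0 at h
    change v 1 ≤ 0 at hv
    have := H ![0, -1, 0] 0 (by simpa using hv) (by simpa using h)
    change y 2 ≤ 0
    simpa using this
  | 4, hv, h =>
    change dl x ≤ x 3 at h
    change 0 ≤ v 2 at hv
    have := H ![0, 0, 1] 1 (by simpa using hv) (by simpa using h)
    change dl y ≤ y 3
    simpa using this
  | 5, hv, h =>
    change x 3 ≤ 0 at h
    change v 2 ≤ 0 at hv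
    have := H ![0, 0, -1] 0 (by simpa using hv) (by simpa using h)
    change y 3 ≤ 0
    simpa using this
  | 6, hv, h =>
    change dl x ≤ x 1 ∧ dl x ≤ x 2 ∧ 3 * dl x ≤ x 1 + x 2 at h
    change 0 ≤ v 0 ∧ 0 ≤ v 1 at hv
    have h1 := H ![1, 0, 0] 1 (by simpa using hv.1) (by simpa using h.1)
    have h2 := H ![0, 1, 0] 1 (by simpa using hv.2) (by simpa using h.2.1)
    have h3 := H ![1, 1, 0] 3 (by simpa using add_nonneg hv.1 hv.2) (by simpa using h.2.2)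
    change dl y ≤ y 1 ∧ dl y ≤ y 2 ∧ 3 * dl y ≤ y 1 + y 2
    refine ⟨by simpa using h1, by simpa using h2, by simpa using h3⟩
  | 7, hv, _ => exact hv.elim

theorem ov_vals (b : Fin 8) (hb : b ≠ 7) :
    (dv b 0 = 1 ∧ dv b 1 = 0 ∧ dv b 2 = 0) ∨ (dv b 0 = -1 ∧ dv b 1 = 0 ∧ dv b 2 = 0) ∨
    (dv b 0 = 0 ∧ dv b 1 = 1 ∧ dv b 2 = 0) ∨ (dv b 0 = 0 ∧ dv b 1 = -1 ∧ dv b 2 = 0) ∨
    (dv b 0 = 0 ∧ dv b 1 = 0 ∧ dv b 2 = 1) ∨ (dv b 0 = 0 ∧ dv b 1 = 0 ∧ dv b 2 = -1) ∨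
    (dv b 0 = 1 ∧ dv b 1 = 1 ∧ dv b 2 = 0) := by
  match b, hb with
  | 0, _ => exact Or.inl ⟨rfl, rfl, rfl⟩
  | 1, _ => exact Or.inr (Or.inl ⟨rfl, rfl, rfl⟩)
  | 2, _ => exact Or.inr (Or.inr (Or.inl ⟨rfl, rfl, rfl⟩))
  | 3, _ => exact Or.inr (Or.inr (Or.inr (Or.inl ⟨rfl, rfl, rfl⟩)))
  | 4, _ => exact Or.inr (Or.inr (Or.inr (Or.inr (Or.inl ⟨rfl, rfl, rfl⟩))))
  | 5, _ => exact Or.inr (Or.inr (Or.inr (Or.inr (Or.inr (Or.inl ⟨rfl, rfl, rfl⟩)))))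
  | 6, _ => exact Or.inr (Or.inr (Or.inr (Or.inr (Or.inr (Or.inr ⟨rfl, rfl, rfl⟩)))))
  | 7, hb => exact absurd rfl hb

theorem ov_bd (b : Fin 8) (hb : b ≠ 7) : (-1 ≤ dv b 0 ∧ dv b 0 ≤ 1) ∧
    (-1 ≤ dv b 1 ∧ dv b 1 ≤ 1) ∧ (-1 ≤ dv b 2 ∧ dv b 2 ≤ 1) := by
  rcases ov_vals b hb with h | h | h | h | h | h | h <;>
  · obtain ⟨h0, h1, h2⟩ := h
    rw [h0, h1, h2]
    norm_num

theorem ov_C (a b : Fin 8) (ha : a ≠ 7) (hb : b ≠ 7) : OvC a (dv a + dv b) := by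
  obtain ⟨⟨b1, b2⟩, ⟨b3, b4⟩, ⟨b5, b6⟩⟩ := ov_bd b hb
  match a, ha with
  | 7, ha => exact absurd rfl ha
  | 0, _ =>
    change 0 ≤ 1 + dv b 0
    linarith
  | 1, _ =>
    change -1 + dv b 0 ≤ 0
    linarith
  | 2, _ =>
    change 0 ≤ 1 + dv b 1
    linarith
  | 3, _ =>
    change -1 + dv b 1 ≤ 0
    linarith
  | 4, _ =>
    change 0 ≤ 1 + dv b 2
    linarith
  | 5, _ =>
    change -1 + dv b 2 ≤ 0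
    linarith
  | 6, _ =>
    change 0 ≤ 1 + dv b 0 ∧ 0 ≤ 1 + dv b 1
    constructor <;> linarith

theorem ov_cases (b : Fin 8) (hb : b ≠ 7) (x : V5) (h : Lin b x) :
    (dv b 0 = 1 ∧ dv b 1 = 0 ∧ dv b 2 = 0 ∧ 2 * dl x ≤ x 1) ∨
    (dv b 0 = -1 ∧ dv b 1 = 0 ∧ dv b 2 = 0 ∧ x 1 ≤ 0) ∨
    (dv b 0 = 0 ∧ dv b 1 = 1 ∧ dv b 2 = 0 ∧ 2 * dl x ≤ x 2) ∨
    (dv b 0 = 0 ∧ dv b 1 = -1 ∧ dv b 2 = 0 ∧ x 2 ≤ 0) ∨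
    (dv b 0 = 0 ∧ dv b 1 = 0 ∧ dv b 2 = 1 ∧ dl x ≤ x 3) ∨
    (dv b 0 = 0 ∧ dv b 1 = 0 ∧ dv b 2 = -1 ∧ x 3 ≤ 0) ∨
    (dv b 0 = 1 ∧ dv b 1 = 1 ∧ dv b 2 = 0 ∧ 3 * dl x ≤ x 1 + x 2) := by
  match b, hb, h with
  | 0, _, h => exact Or.inl ⟨rfl, rfl, rfl, h⟩
  | 1, _, h => exact Or.inr (Or.inl ⟨rfl, rfl, rfl, h⟩)
  | 2, _, h => exact Or.inr (Or.inr (Or.inl ⟨rfl, rfl, rfl, h⟩))
  | 3, _, h => exact Or.inr (Or.inr (Or.inr (Or.inl ⟨rfl, rfl, rfl, h⟩)))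
  | 4, _, h => exact Or.inr (Or.inr (Or.inr (Or.inr (Or.inl ⟨rfl, rfl, rfl, h⟩))))
  | 5, _, h => exact Or.inr (Or.inr (Or.inr (Or.inr (Or.inr (Or.inl ⟨rfl, rfl, rfl, h⟩)))))
  | 6, _, h => exact Or.inr (Or.inr (Or.inr (Or.inr (Or.inr (Or.inr ⟨rfl, rfl, rfl, h.2.2⟩)))))
  | 7, hb, _ => exact absurd rfl hb

theorem ov_ne (a b : Fin 8) (ha : a ≠ 7) (hb : b ≠ 7) (x : V5) (hd : 0 < dl x)
    (hla : Lin a x) (hlb : Lin b x) : dv a + dv b ≠ 0 := by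
  intro h0
  have e0 : dv a 0 + dv b 0 = 0 := congrFun h0 0
  have e1 : dv a 1 + dv b 1 = 0 := congrFun h0 1
  have e2 : dv a 2 + dv b 2 = 0 := congrFun h0 2
  rcases ov_cases a ha x hla with h | h | h | h | h | h | h <;>
  rcases ov_cases b hb x hlb with h' | h' | h' | h' | h' | h' | h' <;>
  · obtain ⟨p0, p1, p2, p3⟩ := h
    obtain ⟨q0, q1, q2, q3⟩ := h'
    linarith

theorem overlap (a b : Fin 8) (ha : a ≠ 7) (hb : b ≠ 7) (x : Sph) (hxa : x ∈ Dp a)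
    (hxb : x ∈ Dp b) : ∃ γ : Path inf x, ∀ t, γ t ∈ Dp a ∧ γ t ∈ Dp b := by
  by_cases hx0 : dl x.1 = 0
  · have hx := eq_inf_of_dl hx0
    subst hx
    exact ⟨Path.refl _, fun t => ⟨hxa, hxb⟩⟩
  · have hd : 0 < dl x.1 := lt_of_le_of_ne (dl_nonneg x) (Ne.symm hx0)
    obtain ⟨γ, hγ⟩ := flow_exists x hxa.1 (dv a + dv b) (ov_ne a b ha hb x.1 hd hxa.2 hxb.2) (by
      intro i
      have h1 := ov_dir a ha x.1 hd.le hxa.2 i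
      have h2 := ov_dir b hb x.1 hd.le hxb.2 i
      simp only [Pi.add_apply]
      linarith)
    refine ⟨γ, fun t => ⟨⟨(hγ t).1, ?_⟩, ⟨(hγ t).1, ?_⟩⟩⟩
    · exact ov_keep a _ (ov_C a b ha hb) x.1 _ (hγ t).2 hxa.2
    · have hC := ov_C b a hb ha
      rw [add_comm] at hC
      exact ov_keep b _ hC x.1 _ (hγ t).2 hxb.2

end Trom
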