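import Pool.Agent.Helper97.Trom.Top

open Matrix Set Topology

namespace Trom

/-- squared distance to the centres -/
def Dc7 (y : Fin 3 → ℝ) (i : Fin 16) : ℝ :=
  (y 0 - ctr i 0) ^ 2 + (y 1 - ctr i 1) ^ 2 + (y 2 - ctr i 2) ^ 2

theorem p7_lin {x : Sph} (hx : x ∈ Dp 7) : dl x.1 ≤ x.1 1 ∧ dl x.1 ≤ x.1 2 ∧
    x.1 1 + x.1 2 ≤ 3 * dl x.1 ∧ 0 ≤ x.1 3 ∧ x.1 3 ≤ dl x.1 ∧ x.1 0 ≤ 10 * dl x.1 := hx.2

theorem p7_dl_pos {x : Sph} (hx : x ∈ Dp 7) : 0 < dl x.1 := by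
  have h := (p7_lin hx).2.2.2.2.2
  rw [x.2.1] at h
  linarith

theorem p7_mem {y : Fin 3 → ℝ} (h : st y ∈ Dp 7) : (∀ i, 1 / 2 ≤ Dc7 y i) ∧ 1 ≤ y 0 ∧ 1 ≤ y 1 ∧
    y 0 + y 1 ≤ 3 ∧ 0 ≤ y 2 ∧ y 2 ≤ 1 := by
  have hd := st_dl_pos y
  obtain ⟨l1, l2, l3, l4, l5, -⟩ := p7_lin h
  obtain ⟨c1, c2, c3⟩ := st_coord y
  rw [c1] at l1 l3
  rw [c2] at l2 l3
  rw [c3] at l4 l5
  refine ⟨fun i => ?_, ?_, ?_, ?_, ?_, ?_⟩
  · have h1 := h.1.1 i
    rw [st_ev] at h1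
    by_contra hc
    push Not at hc
    unfold Dc7 at hc
    nlinarith
  · by_contra hc
    push Not at hc
    nlinarith
  · by_contra hc
    push Not at hc
    nlinarith
  · by_contra hc
    push Not at hc
    nlinarith
  · by_contra hc
    push Not at hc
    nlinarith
  · by_contra hc
    push Not at hc
    nlinarith

theorem p7_of {y : Fin 3 → ℝ} (h : ∀ i, 1 / 2 < Dc7 y i) (h1 : 1 ≤ y 0) (h2 : 1 ≤ y 1)
    (h3 : y 0 + y 1 ≤ 3) (h4 : 0 ≤ y 2) (h5 : y 2 ≤ 1) : st y ∈ Dp 7 := by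
  have hd := st_dl_pos y
  have hneg : ∀ i, lor (st y).1 (ev i) < 0 := by
    intro i
    rw [st_ev]
    refine mul_neg_of_pos_of_neg hd ?_
    have := h i
    unfold Dc7 at this
    linarith
  refine ⟨⟨fun i => (hneg i).le, fun i j _ h' => (hneg i).ne h'.1⟩, ?_⟩
  obtain ⟨c1, c2, c3⟩ := st_coord y
  show dl (st y).1 ≤ (st y).1 1 ∧ dl (st y).1 ≤ (st y).1 2 ∧
    (st y).1 1 + (st y).1 2 ≤ 3 * dl (st y).1 ∧ 0 ≤ (st y).1 3 ∧ (st y).1 3 ≤ dl (st y).1 ∧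
      (st y).1 0 ≤ 10 * dl (st y).1
  rw [c1, c2, c3]
  refine ⟨?_, ?_, ?_, ?_, ?_, ?_⟩
  · nlinarith
  · nlinarith
  · nlinarith
  · positivity
  · nlinarith
  · rw [(st y).2.1, st_dl]
    have h6 : lv y 0 ≤ 10 := by
      have : lv y 0 = ((y 0) ^ 2 + (y 1) ^ 2 + (y 2) ^ 2 + 1) / 2 := by simp [lv]
      rw [this]
      nlinarith
    have h7 := lv_zero_pos y
    rw [← div_eq_mul_inv, le_div_iff₀ h7]
    linarith

theorem p7_rho {y : Fin 3 → ℝ} (h : ∀ i, 1 / 2 ≤ Dc7 y i) (h1 : 1 ≤ y 0) (h2 : 1 ≤ y 1)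
    (h3 : y 0 + y 1 ≤ 3) (h4 : 0 ≤ y 2) (h5 : y 2 ≤ 1) :
    (y 0 - 3 / 2) ^ 2 + (y 1 - 3 / 2) ^ 2 + (y 2 - 1 / 2) ^ 2 ≤ 1 / 4 := by
  have k8 : 1 / 2 ≤ (y 0 - 1) ^ 2 + (y 1 - 1) ^ 2 + (y 2) ^ 2 := by
    have := h 8
    simpa [Dc7, ctr] using this
  have k9 : 1 / 2 ≤ (y 0 - 1) ^ 2 + (y 1 - 1) ^ 2 + (y 2 - 1) ^ 2 := by
    have := h 9
    simpa [Dc7, ctr] using this
  have k10 : 1 / 2 ≤ (y 0 - 1) ^ 2 + (y 1 - 2) ^ 2 + (y 2) ^ 2 := by
    have := h 10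
    simpa [Dc7, ctr] using this
  have k11 : 1 / 2 ≤ (y 0 - 1) ^ 2 + (y 1 - 2) ^ 2 + (y 2 - 1) ^ 2 := by
    have := h 11
    simpa [Dc7, ctr] using this
  have k14 : 1 / 2 ≤ (y 0 - 2) ^ 2 + (y 1 - 1) ^ 2 + (y 2) ^ 2 := by
    have := h 14
    simpa [Dc7, ctr] using this
  have k15 : 1 / 2 ≤ (y 0 - 2) ^ 2 + (y 1 - 1) ^ 2 + (y 2 - 1) ^ 2 := by
    have := h 15
    simpa [Dc7, ctr] using this
  rcases le_total (y 2) (1 / 2) with hz | hz
  · have p3 : 0 ≤ y 2 * (1 - 2 * y 2) := mul_nonneg h4 (by linarith)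
    rcases le_total (y 0) (3 / 2) with hx | hx
    · have p1 : 0 ≤ (y 0 - 1) * (3 - 2 * y 0) := mul_nonneg (by linarith) (by linarith)
      rcases le_total (y 1) (3 / 2) with hy | hy
      · have p2 : 0 ≤ (y 1 - 1) * (3 - 2 * y 1) := mul_nonneg (by linarith) (by linarith)
        linarith
      · have p2 : 0 ≤ (2 - y 1) * (2 * y 1 - 3) := mul_nonneg (by linarith) (by linarith)
        linarith
    · have p1 : 0 ≤ (2 - y 0) * (2 * y 0 - 3) := mul_nonneg (by linarith) (by linarith)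
      have p2 : 0 ≤ (y 1 - 1) * (3 - 2 * y 1) := mul_nonneg (by linarith) (by linarith)
      linarith
  · have p3 : 0 ≤ (1 - y 2) * (2 * y 2 - 1) := mul_nonneg (by linarith) (by linarith)
    rcases le_total (y 0) (3 / 2) with hx | hx
    · have p1 : 0 ≤ (y 0 - 1) * (3 - 2 * y 0) := mul_nonneg (by linarith) (by linarith)
      rcases le_total (y 1) (3 / 2) with hy | hy
      · have p2 : 0 ≤ (y 1 - 1) * (3 - 2 * y 1) := mul_nonneg (by linarith) (by linarith)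
        linarith
      · have p2 : 0 ≤ (2 - y 1) * (2 * y 1 - 3) := mul_nonneg (by linarith) (by linarith)
        linarith
    · have p1 : 0 ≤ (2 - y 0) * (2 * y 0 - 3) := mul_nonneg (by linarith) (by linarith)
      have p2 : 0 ≤ (y 1 - 1) * (3 - 2 * y 1) := mul_nonneg (by linarith) (by linarith)
      linarith

theorem p7_star_aux {a b : ℝ} (ha : 0 < a) (hb : 0 ≤ b) (hab : a + b = 1) {u v w c0 c1 c2 : ℝ}
    (hr : u ^ 2 + v ^ 2 + w ^ 2 ≤ 1 / 4) (hc : c0 ^ 2 + c1 ^ 2 + c2 ^ 2 = 3 / 4)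
    (h1 : 1 / 2 ≤ (u - c0) ^ 2 + (v - c1) ^ 2 + (w - c2) ^ 2) :
    1 / 2 < (b * u - c0) ^ 2 + (b * v - c1) ^ 2 + (b * w - c2) ^ 2 := by
  have e1 : a = 1 - b := by linarith
  have e2 : (b * u - c0) ^ 2 + (b * v - c1) ^ 2 + (b * w - c2) ^ 2 - 1 / 2 =
      b * ((u - c0) ^ 2 + (v - c1) ^ 2 + (w - c2) ^ 2 - 1 / 2) +
        a * (1 / 4 - b * (u ^ 2 + v ^ 2 + w ^ 2)) := by
    rw [e1]
    linear_combination (1 - b) * hc
  have h2 : 0 ≤ b * ((u - c0) ^ 2 + (v - c1) ^ 2 + (w - c2) ^ 2 - 1 / 2) :=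
    mul_nonneg hb (by linarith)
  have h3 : b * (u ^ 2 + v ^ 2 + w ^ 2) ≤ b * (1 / 4) := mul_le_mul_of_nonneg_left hr hb
  have h4 : 0 < a * (1 / 4 - b * (u ^ 2 + v ^ 2 + w ^ 2)) := mul_pos ha (by linarith)
  linarith

theorem p7_key : ∀ i : Fin 16, ctr i 0 = 0 ∨ ctr i 1 = 0 ∨
    (2 * ctr i 0 - 3) ^ 2 + (2 * ctr i 1 - 3) ^ 2 + (2 * ctr i 2 - 1) ^ 2 = 3 := by decide

theorem p7_star : StarConvex ℝ (![3 / 2, 3 / 2, 1 / 2] : Fin 3 → ℝ)
    {y : Fin 3 → ℝ | st y ∈ Dp 7} := by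
  intro y hy a b ha hb hab
  rcases ha.eq_or_lt with h0 | h0
  · have hb1 : b = 1 := by linarith
    rw [← h0, hb1, zero_smul, zero_add, one_smul]
    exact hy
  · obtain ⟨hD, h1, h2, h3, h4, h5⟩ := p7_mem hy
    have hr := p7_rho hD h1 h2 h3 h4 h5
    have e0 : (a • (![3 / 2, 3 / 2, 1 / 2] : Fin 3 → ℝ) + b • y) 0 = a * (3 / 2) + b * y 0 := by
      simp
    have e1 : (a • (![3 / 2, 3 / 2, 1 / 2] : Fin 3 → ℝ) + b • y) 1 = a * (3 / 2) + b * y 1 := by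
      simp
    have e2 : (a • (![3 / 2, 3 / 2, 1 / 2] : Fin 3 → ℝ) + b • y) 2 = a * (1 / 2) + b * y 2 := by
      simp
    have ea : a = 1 - b := by linarith
    have z0 : 1 ≤ a * (3 / 2) + b * y 0 := by nlinarith
    have z1 : 1 ≤ a * (3 / 2) + b * y 1 := by nlinarith
    refine p7_of (fun i => ?_) ?_ ?_ ?_ ?_ ?_
    · unfold Dc7
      rw [e0, e1, e2]
      rcases p7_key i with h | h | h
      · rw [h]
        push_cast
        nlinarith [sq_nonneg (a * (3 / 2) + b * y 1 - (ctr i 1 : ℝ)),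
          sq_nonneg (a * (1 / 2) + b * y 2 - (ctr i 2 : ℝ))]
      · rw [h]
        push_cast
        nlinarith [sq_nonneg (a * (3 / 2) + b * y 0 - (ctr i 0 : ℝ)),
          sq_nonneg (a * (1 / 2) + b * y 2 - (ctr i 2 : ℝ))]
      · have h' : (2 * (ctr i 0 : ℝ) - 3) ^ 2 + (2 * (ctr i 1 : ℝ) - 3) ^ 2 +
            (2 * (ctr i 2 : ℝ) - 1) ^ 2 = 3 := by exact_mod_cast h
        have h6 := hD i
        unfold Dc7 at h6
        have h7 := p7_star_aux h0 hb hab (u := y 0 - 3 / 2) (v := y 1 - 3 / 2) (w := y 2 - 1 / 2)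
          (c0 := (ctr i 0 : ℝ) - 3 / 2) (c1 := (ctr i 1 : ℝ) - 3 / 2)
          (c2 := (ctr i 2 : ℝ) - 1 / 2) hr (by linarith) (by
            refine h6.trans (le_of_eq ?_)
            ring)
        refine h7.trans_le (le_of_eq ?_)
        rw [ea]
        ring
    · rw [e0]; exact z0
    · rw [e1]; exact z1
    · rw [e0, e1]; nlinarith
    · rw [e2]; positivity
    · rw [e2]; nlinarith

/-- the homeomorphism -/
noncomputable def p7_homeo : {y : Fin 3 → ℝ | st y ∈ Dp 7} ≃ₜ Dp 7 where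
  toFun y := ⟨st y.1, y.2⟩
  invFun x := ⟨![x.1.1 1 / dl x.1.1, x.1.1 2 / dl x.1.1, x.1.1 3 / dl x.1.1], by
    have h : x.1 ≠ inf := by
      intro h
      have := p7_dl_pos x.2
      rw [h] at this
      simp [dl, inf] at this
    have h2 := st_surj x.1 h
    show st _ ∈ Dp 7
    rw [← h2]
    exact x.2⟩
  left_inv y := by
    apply Subtype.ext
    have hd := st_dl_pos y.1
    obtain ⟨c1, c2, c3⟩ := st_coord y.1
    ext i
    fin_cases i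
    · show (st y.1).1 1 / dl (st y.1).1 = y.1 0
      rw [c1]; field_simp
    · show (st y.1).1 2 / dl (st y.1).1 = y.1 1
      rw [c2]; field_simp
    · show (st y.1).1 3 / dl (st y.1).1 = y.1 2
      rw [c3]; field_simp
  right_inv x := by
    apply Subtype.ext
    have h : x.1 ≠ inf := by
      intro h
      have := p7_dl_pos x.2
      rw [h] at this
      simp [dl, inf] at this
    exact (st_surj x.1 h).symm
  continuous_toFun := Continuous.subtype_mk (continuous_st.comp continuous_subtype_val) _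
  continuous_invFun := by
    apply Continuous.subtype_mk
    have hc : ∀ k : Fin 5, Continuous (fun x : Dp 7 => x.1.1 k) := fun k =>
      (continuous_apply k).comp (continuous_subtype_val.comp continuous_subtype_val)
    have hd : Continuous (fun x : Dp 7 => dl x.1.1) := (hc 0).sub (hc 4)
    have hn : ∀ x : Dp 7, dl x.1.1 ≠ 0 := fun x => (p7_dl_pos x.2).ne'
    apply continuous_pi
    intro i
    fin_cases i
    · exact (hc 1).div hd hn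
    · exact (hc 2).div hd hn
    · exact (hc 3).div hd hn

theorem piece7_contractible : ContractibleSpace (Dp 7) := by
  have hm : (![3 / 2, 3 / 2, 1 / 2] : Fin 3 → ℝ) ∈ {y : Fin 3 → ℝ | st y ∈ Dp 7} := by
    have m0 : (![3 / 2, 3 / 2, 1 / 2] : Fin 3 → ℝ) 0 = 3 / 2 := rfl
    have m1 : (![3 / 2, 3 / 2, 1 / 2] : Fin 3 → ℝ) 1 = 3 / 2 := rfl
    have m2 : (![3 / 2, 3 / 2, 1 / 2] : Fin 3 → ℝ) 2 = 1 / 2 := rfl
    refine p7_of (fun i => ?_) ?_ ?_ ?_ ?_ ?_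
    · unfold Dc7
      rw [m0, m1, m2]
      rcases p7_key i with h | h | h
      · rw [h]
        push_cast
        nlinarith [sq_nonneg ((3 / 2 : ℝ) - (ctr i 1 : ℝ)), sq_nonneg ((1 / 2 : ℝ) - (ctr i 2 : ℝ))]
      · rw [h]
        push_cast
        nlinarith [sq_nonneg ((3 / 2 : ℝ) - (ctr i 0 : ℝ)), sq_nonneg ((1 / 2 : ℝ) - (ctr i 2 : ℝ))]
      · have h' : (2 * (ctr i 0 : ℝ) - 3) ^ 2 + (2 * (ctr i 1 : ℝ) - 3) ^ 2 +
            (2 * (ctr i 2 : ℝ) - 1) ^ 2 = 3 := by exact_mod_cast h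
        nlinarith
    · rw [m0]; norm_num
    · rw [m1]; norm_num
    · rw [m0, m1]; norm_num
    · rw [m2]; norm_num
    · rw [m2]; norm_num
  have := p7_star.contractibleSpace ⟨_, hm⟩
  exact p7_homeo.symm.contractibleSpace

end Trom
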