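import Pool.Agent.Helper97.Trom.Geo

open Matrix Set Topology

namespace Trom

theorem simple_fix (x : Sph) (i : Fin 16) (h : lor x.1 (ev i) = 0) : cs.simple i • x = x := by
  apply Subtype.ext
  rw [W_smul_val, rW_simple, refl_val, rmat_mulVec, h, mul_zero, zero_smul, sub_zero]
  unfold nrm
  rw [x.2.1, inv_one, one_smul]

end Trom
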