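import Pool.Agent.Helper97.Trom.Top
import Pool.Agent.Helper97.Trom.J_overlap
import Pool.Agent.Helper97.Trom.J_piece7_contractible
import Pool.Agent.Helper97.Trom.J_mQ_mem
import Pool.Agent.Helper97.Trom.J_inf_mem
import Pool.Agent.Helper97.Trom.J_adj_point
import Pool.Agent.Helper97.Trom.J_simple_fix

open Matrix Set Topology

namespace Trom

theorem opc_smul (w : W) {x y : Sph} (h : JoinedIn Om x y) : JoinedIn Om (w • x) (w • y) := by
  obtain ⟨γ, hγ⟩ := h
  exact ⟨γ.map (continuous_const_smul w), fun t => Om_smul w (hγ t)⟩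

theorem opc_piece (a : Fin 8) (ha : a ≠ 7) (x : Sph) (hx : x ∈ Dp a) : JoinedIn Om inf x := by
  obtain ⟨γ, hγ⟩ := overlap a a ha ha x hx hx
  exact ⟨γ, fun t => P0_sub_Om ⟨a, (hγ t).1⟩⟩

theorem opc_P0 (x : Sph) (hx : x ∈ P0) : JoinedIn Om inf x := by
  obtain ⟨a, ha⟩ := hx
  by_cases h : a = 7
  · subst h
    have h1 : JoinedIn Om inf mQ := opc_piece 6 (by decide) mQ mQ_mem.1
    have h2 : IsPathConnected (Dp 7) := by
      have := piece7_contractible
      rw [isPathConnected_iff_pathConnectedSpace]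
      infer_instance
    have h3 : JoinedIn (Dp 7) mQ x := h2.joinedIn mQ mQ_mem.2 x ha
    exact h1.trans (h3.mono fun y hy => P0_sub_Om ⟨7, hy⟩)
  · exact opc_piece a h x ha

theorem opc_face (i : Fin 16) : ∃ x ∈ P0, lor x.1 (ev i) = 0 := by
  have h : ∃ f g : Fin 18, adjF f g ∧ fb f = i := by
    revert i
    decide
  obtain ⟨f, g, hfg, hf⟩ := h
  obtain ⟨x, hx, _⟩ := adj_point f g hfg
  exact ⟨x, hx.1, by rw [← hf]; exact hx.2.1⟩

theorem opc_simple (i : Fin 16) : JoinedIn Om inf (cs.simple i • inf) := by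
  obtain ⟨x, hx, h0⟩ := opc_face i
  have h1 := opc_P0 x hx
  have h2 := opc_smul (cs.simple i) h1
  rw [simple_fix x i h0] at h2
  exact h1.trans h2.symm

theorem opc_w (w : W) : JoinedIn Om inf (w • inf) := by
  induction w using cs.simple_induction_left with
  | one =>
    rw [one_smul]
    exact JoinedIn.refl (P0_sub_Om ⟨0, inf_mem 0 (by decide)⟩)
  | mul_simple_left w i ih =>
    rw [mul_smul]
    exact (opc_simple i).trans (opc_smul _ ih)

theorem Om_pathconn : IsPathConnected Om := by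
  refine ⟨inf, P0_sub_Om ⟨0, inf_mem 0 (by decide)⟩, fun {x} hx => ?_⟩
  obtain ⟨w, hw⟩ := hx
  have h1 := opc_smul w (opc_P0 _ hw)
  rw [smul_inv_smul] at h1
  exact (opc_w w).trans h1

end Trom
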