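import Pool.Agent.Helper97.Trom.Geo

open Matrix Set Topology

namespace Trom

theorem F_le_G : FW ≤ GW := fun _ h => h.1

end Trom
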