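import Pool.Agent.Helper97.Trom.Geo

open Matrix Set Topology

namespace Trom

/-- `G` contains no reflection and no product of two commuting reflections. -/
theorem G_nofix : (∀ i, cs.simple i ∉ GW) ∧ ∀ i j, d2 i j = 1 → cs.simple i * cs.simple j ∉ GW := by
  have e1 : epsD (1 : DihedralGroup 0) = 1 := rfl
  have e2 : ∀ a : ℤ, epsD (DihedralGroup.sr a : DihedralGroup 0) = -1 := fun a => rfl
  constructor
  · intro i hi
    have h1 : epsD (rho (cs.simple i)).1 = 1 ∧ epsD (rho (cs.simple i)).2 = 1 := hi
    rw [rho_simple] at h1
    unfold rhoGen at h1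
    cases hc : col i
    · rw [hc] at h1
      have h2 : epsD (DihedralGroup.sr (sgn i : ℤ) : DihedralGroup 0) = 1 := h1.1
      rw [e2] at h2
      omega
    · rw [hc] at h1
      have h2 : epsD (DihedralGroup.sr (sgn i : ℤ) : DihedralGroup 0) = 1 := h1.2
      rw [e2] at h2
      omega
  · intro i j hij hm
    have hc : col i ≠ col j := by clear hm; revert i j; decide
    have h1 : epsD (rho (cs.simple i * cs.simple j)).1 = 1 ∧
        epsD (rho (cs.simple i * cs.simple j)).2 = 1 := hm
    have h3 := h1.1
    rw [map_mul, rho_simple, rho_simple, Prod.fst_mul, epsD_mul] at h3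
    unfold rhoGen at h3
    cases hi : col i
    · cases hj : col j
      · exact hc (hi.trans hj.symm)
      · rw [hi, hj] at h3
        have h2 : epsD (DihedralGroup.sr (sgn i : ℤ) : DihedralGroup 0) *
            epsD (1 : DihedralGroup 0) = 1 := h3
        rw [e2, e1] at h2
        omega
    · cases hj : col j
      · rw [hi, hj] at h3
        have h2 : epsD (1 : DihedralGroup 0) *
            epsD (DihedralGroup.sr (sgn j : ℤ) : DihedralGroup 0) = 1 := h3
        rw [e2, e1] at h2
        omega
      · exact hc (hi.trans hj.symm)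

end Trom
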