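import Pool.Agent.Helper97.Trom.Geo

open Matrix Set Topology

namespace Trom

theorem d2_cases (i j : Fin 16) : i = j ∨ d2 i j = 1 ∨ 2 ≤ d2 i j := by
  revert i j
  decide

end Trom
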