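import Pool.Agent.Helper97.Trom.Geo

open Matrix Set Topology

namespace Trom

/-- The sum of the vectors of two non-adjacent spheres is forward and causal. -/
theorem nonadj_fwd {i j : Fin 16} (h : 2 ≤ d2 i j) : Fwd (ev i + ev j) := by
  have h2 : (2:ℝ) ≤ (d2 i j : ℝ) := by exact_mod_cast h
  refine ⟨?_, ?_⟩
  · rw [lor_add_left, lor_add_right, lor_add_right, lor_ev_self, lor_ev_self,
      lor_comm (ev j) (ev i), lor_ev]
    linarith
  · rw [Pi.add_apply]
    exact add_pos (ev_zero_pos i) (ev_zero_pos j)

end Trom
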