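import Pool.Agent.Helper97.Trom.Geo
import Pool.Agent.Helper97.Trom.J_nonadj_fwd
import Pool.Agent.Helper97.Trom.J_d2_cases

open Matrix Set Topology

namespace Trom

/-- Tits' lemma for the right-angled group: position of the translates of the chamber. -/
theorem tits (w : W) : ∀ (i : Fin 16) (x : V5), Fwd x → (∀ j, lor x (ev j) ≤ 0) →
    ((¬ cs.IsLeftDescent w i → lor ((rW w).1.1 *ᵥ x) (ev i) ≤ 0) ∧
     (cs.IsLeftDescent w i → 0 ≤ lor ((rW w).1.1 *ᵥ x) (ev i))) := by
  obtain ⟨n, hn⟩ : ∃ n, cs.length w = n := ⟨_, rfl⟩
  induction n using Nat.strong_induction_on generalizing w with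
  | _ n ih =>
  intro i x hx hxe
  -- action of a simple reflection
  have hact : ∀ (t : Fin 16) (w' : W), (rW (cs.simple t * w')).1.1 *ᵥ x =
      ((rW w').1.1 *ᵥ x) - (4 * lor ((rW w').1.1 *ᵥ x) (ev t)) • ev t := by
    intro t w'
    rw [map_mul, rW_simple, mul_mulVec', refl_val, rmat_mulVec]
  by_cases hw : w = 1
  · subst hw
    refine ⟨fun _ => ?_, fun h => absurd h (cs.not_isLeftDescent_one i)⟩
    rw [map_one]
    change lor ((1 : Matrix (Fin 5) (Fin 5) ℝ) *ᵥ x) (ev i) ≤ 0
    rw [Matrix.one_mulVec]
    exact hxe i
  refine ⟨fun hi => ?_, fun hi => ?_⟩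
  · obtain ⟨t, ht⟩ := cs.exists_leftDescent_of_ne_one hw
    have hti : t ≠ i := by
      rintro rfl
      exact hi ht
    have hlen : cs.length (cs.simple t * w) + 1 = cs.length w := cs.isLeftDescent_iff.mp ht
    have hnt : ¬ cs.IsLeftDescent (cs.simple t * w) t :=
      cs.isLeftDescent_iff_not_isLeftDescent_mul.mp ht
    have hlt : cs.length (cs.simple t * w) < n := by omega
    have hz := ih _ hlt (cs.simple t * w) rfl
    have hwt : w = cs.simple t * (cs.simple t * w) := (cs.simple_mul_simple_cancel_left t).symm
    have hu := hact t (cs.simple t * w)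
    rw [← hwt] at hu
    have hzt := (hz t x hx hxe).1 hnt
    rcases d2_cases i t with h | h | h
    · exact absurd h.symm hti
    · -- adjacent
      have hit : lor (ev t) (ev i) = 0 := by
        rw [lor_comm, lor_ev, h]; norm_num
      have hni : ¬ cs.IsLeftDescent (cs.simple t * w) i := by
        intro hd
        apply hi
        have hd' : cs.length (cs.simple i * (cs.simple t * w)) + 1 = cs.length (cs.simple t * w) :=
          cs.isLeftDescent_iff.mp hd
        have hcomm : cs.simple i * cs.simple t = cs.simple t * cs.simple i := by
          have h1 := cs.simple_mul_simple_pow i t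
          have h2 : coxM i t = 2 := by
            change (if i = t then 1 else if d2 i t = 1 then 2 else 0) = 2
            rw [if_neg (fun h => hti h.symm), if_pos h]
          rw [h2, pow_two] at h1
          have h3 : (cs.simple i * cs.simple t)⁻¹ = cs.simple i * cs.simple t :=
            inv_eq_of_mul_eq_one_left h1
          rw [_root_.mul_inv_rev, cs.inv_simple, cs.inv_simple] at h3
          exact h3.symm
        have h4 : cs.simple i * w = cs.simple t * (cs.simple i * (cs.simple t * w)) := by
          calc cs.simple i * w = cs.simple i * (cs.simple t * (cs.simple t * w)) := by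
                rw [cs.simple_mul_simple_cancel_left]
            _ = (cs.simple i * cs.simple t) * (cs.simple t * w) := (_root_.mul_assoc _ _ _).symm
            _ = (cs.simple t * cs.simple i) * (cs.simple t * w) := by rw [hcomm]
            _ = cs.simple t * (cs.simple i * (cs.simple t * w)) := _root_.mul_assoc _ _ _
        have h5 : cs.length (cs.simple i * w) ≤ cs.length (cs.simple i * (cs.simple t * w)) + 1 := by
          rw [h4]
          have := cs.length_mul_le (cs.simple t) (cs.simple i * (cs.simple t * w))
          rw [cs.length_simple] at this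
          omega
        show cs.length (cs.simple i * w) < cs.length w
        omega
      have hzi := (hz i x hx hxe).1 hni
      rw [hu, lor_sub_left, lor_smul_left, hit]
      linarith
    · -- non-adjacent
      have huf : Fwd ((rW w).1.1 *ᵥ x) := (rW w).2.2 x hx
      have h1 := lor_fwd_nonpos huf (nonadj_fwd h)
      rw [lor_add_right] at h1
      have h2 : 0 ≤ lor ((rW w).1.1 *ᵥ x) (ev t) := by
        rw [hu, lor_sub_left, lor_smul_left, lor_ev_self]
        linarith
      linarith
  · have hlen : cs.length (cs.simple i * w) + 1 = cs.length w := cs.isLeftDescent_iff.mp hi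
    have hni : ¬ cs.IsLeftDescent (cs.simple i * w) i :=
      cs.isLeftDescent_iff_not_isLeftDescent_mul.mp hi
    have hlt : cs.length (cs.simple i * w) < n := by omega
    have hz := (ih _ hlt (cs.simple i * w) rfl i x hx hxe).1 hni
    have hwt : w = cs.simple i * (cs.simple i * w) := (cs.simple_mul_simple_cancel_left i).symm
    have hu := hact i (cs.simple i * w)
    rw [← hwt] at hu
    rw [hu, lor_sub_left, lor_smul_left, lor_ev_self]
    linarith

end Trom
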