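import Pool.Agent.Helper97.Trom.Geo
import Pool.Agent.Helper97.Trom.J_tits

open Matrix Set Topology

namespace Trom

/-- If a point of the closed chamber is mapped to a point of the closed chamber, it is fixed, and
the group element is a product of reflections in spheres through the point. -/
theorem tits_int (w : W) : ∀ (x : V5), Fwd x → (∀ j, lor x (ev j) ≤ 0) →
    (∀ j, lor ((rW w).1.1 *ᵥ x) (ev j) ≤ 0) →
    (rW w).1.1 *ᵥ x = x ∧ w ∈ Subgroup.closure {s | ∃ i, lor x (ev i) = 0 ∧ s = cs.simple i} := by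
  intro x hx hc hw
  suffices H : ∀ n : ℕ, ∀ w : W, cs.length w = n → (∀ j, lor ((rW w).1.1 *ᵥ x) (ev j) ≤ 0) →
      (rW w).1.1 *ᵥ x = x ∧ w ∈ Subgroup.closure {s | ∃ i, lor x (ev i) = 0 ∧ s = cs.simple i} from
    H _ w rfl hw
  intro n
  induction n using Nat.strong_induction_on with
  | _ n ih =>
    intro w hn hw
    by_cases h1 : w = 1
    · subst h1
      refine ⟨?_, one_mem _⟩
      rw [map_one]
      simp
    · obtain ⟨i, hi⟩ := cs.exists_leftDescent_of_ne_one h1
      have hle := (tits w i x hx hc).2 hi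
      have h0 : lor ((rW w).1.1 *ᵥ x) (ev i) = 0 := le_antisymm (hw i) hle
      have hw' : (rW (cs.simple i * w)).1.1 *ᵥ x = (rW w).1.1 *ᵥ x := by
        rw [map_mul, mul_mulVec', rW_simple, refl_val, rmat_mulVec, h0]
        simp
      have hlt : cs.length (cs.simple i * w) < n := by rw [← hn]; exact hi
      obtain ⟨h2, h3⟩ := ih _ hlt (cs.simple i * w) rfl (fun j => by rw [hw']; exact hw j)
      have h4 : (rW w).1.1 *ᵥ x = x := by rw [← hw', h2]
      refine ⟨h4, ?_⟩
      rw [h4] at h0
      have h5 : w = cs.simple i * (cs.simple i * w) := by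
        rw [← mul_assoc, cs.simple_mul_simple_self, one_mul]
      rw [h5]
      exact mul_mem (Subgroup.subset_closure ⟨i, h0, rfl⟩) h3

end Trom
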