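import Pool.Agent.Helper97.Trom.Geo
import Pool.Agent.Helper97.Trom.J_d2_cases

open Matrix Set Topology

namespace Trom

theorem aux_notri : ∀ i j k : Fin 16, d2 i j = 1 → d2 i k = 1 → d2 j k ≠ 1 := by
  decide +kernel

/-- A point satisfying `Pa` lies on at most two spheres, and these are adjacent. -/
theorem walls_two (x : Sph) (hx : Pa x) : (∀ i, lor x.1 (ev i) ≠ 0) ∨
    (∃ i, ∀ j, lor x.1 (ev j) = 0 ↔ j = i) ∨
    (∃ i i', d2 i i' = 1 ∧ ∀ j, lor x.1 (ev j) = 0 ↔ (j = i ∨ j = i')) := by
  have key : ∀ i j, lor x.1 (ev i) = 0 → lor x.1 (ev j) = 0 → i ≠ j → d2 i j = 1 := by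
    intro i j hi hj hij
    rcases d2_cases i j with h | h | h
    · exact absurd h hij
    · exact h
    · exact absurd ⟨hi, hj⟩ (hx.2 i j h)
  by_cases h0 : ∀ i, lor x.1 (ev i) ≠ 0
  · exact Or.inl h0
  · push Not at h0
    obtain ⟨i, hi⟩ := h0
    right
    by_cases h1 : ∃ i', i' ≠ i ∧ lor x.1 (ev i') = 0
    · right
      obtain ⟨i', hne, hi'⟩ := h1
      refine ⟨i, i', key i i' hi hi' (Ne.symm hne), ?_⟩
      intro j
      constructor
      · intro hj
        by_contra hcon
        push Not at hcon
        exact aux_notri i i' j (key i i' hi hi' (Ne.symm hne)) (key i j hi hj (Ne.symm hcon.1))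
          (key i' j hi' hj (Ne.symm hcon.2))
      · rintro (rfl | rfl)
        · exact hi
        · exact hi'
    · left
      push Not at h1
      refine ⟨i, ?_⟩
      intro j
      constructor
      · intro hj
        by_contra hcon
        exact h1 j hcon hj
      · rintro rfl
        exact hi


end Trom
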