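import Pool.Agent.Helper97.Trom.Geo
import Pool.Agent.Helper97.Trom.J_tits_int
import Pool.Agent.Helper97.Trom.J_walls_two

open Matrix Set Topology

namespace Trom

theorem simple_sq (i : Fin 16) : cs.simple i * cs.simple i = 1 :=
  cs.simple_mul_simple_self i

theorem simple_inv' (i : Fin 16) : (cs.simple i)⁻¹ = cs.simple i :=
  cs.inv_simple i

theorem simple_comm' {i j : Fin 16} (h : d2 i j = 1) (hij : i ≠ j) :
    cs.simple i * cs.simple j = cs.simple j * cs.simple i := by
  have h1 : (cs.simple i * cs.simple j) ^ (coxM.M i j) = 1 :=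
    cs.simple_mul_simple_pow i j
  have h2 : coxM.M i j = 2 := by
    change (if i = j then 1 else if d2 i j = 1 then 2 else 0) = 2
    rw [if_neg hij, if_pos h]
  rw [h2, pow_two] at h1
  have h3 := eq_inv_of_mul_eq_one_left h1
  rw [_root_.mul_inv_rev, simple_inv', simple_inv'] at h3
  exact h3

theorem chamber_meet (x : Sph) (hx : Pa x) (w : W) (hw : ∀ i, lor (w⁻¹ • x).1 (ev i) ≤ 0) :
    w⁻¹ • x = x ∧ (w = 1 ∨ (∃ i, lor x.1 (ev i) = 0 ∧ w = cs.simple i) ∨
      ∃ i j, lor x.1 (ev i) = 0 ∧ lor x.1 (ev j) = 0 ∧ d2 i j = 1 ∧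
        w = cs.simple i * cs.simple j) := by
  set y : V5 := (rW w⁻¹).1.1 *ᵥ x.1 with hy
  have hyf : Fwd y := (rW w⁻¹).2.2 _ x.fwd
  have hv : (w⁻¹ • x).1 = nrm y := W_smul_val w⁻¹ x
  have hw' : ∀ j, lor y (ev j) ≤ 0 := by
    intro j
    have h := hw j
    rw [hv, nrm, lor_smul_left] at h
    have h0 : 0 < (y 0)⁻¹ := inv_pos.2 hyf.2
    by_contra hc
    push Not at hc
    have := mul_pos h0 hc
    linarith
  obtain ⟨hfix, hcl⟩ := tits_int w⁻¹ x.1 x.fwd hx.1 hw'
  have hxx : w⁻¹ • x = x := by
    apply Subtype.ext
    rw [hv, hy, hfix, nrm, x.2.1]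
    simp
  refine ⟨hxx, ?_⟩
  have hwcl : w ∈ Subgroup.closure {s | ∃ i, lor x.1 (ev i) = 0 ∧ s = cs.simple i} := by
    have := Subgroup.inv_mem _ hcl
    rwa [inv_inv] at this
  rcases walls_two x hx with h | ⟨i, h⟩ | ⟨i, i', hd, h⟩
  · left
    have hempty : {s : W | ∃ i, lor x.1 (ev i) = 0 ∧ s = cs.simple i} = ∅ := by
      ext s
      simp only [Set.mem_setOf_eq, Set.mem_empty_iff_false, iff_false]
      rintro ⟨i, hi, _⟩
      exact h i hi
    rw [hempty, Subgroup.closure_empty] at hwcl
    exact Subgroup.mem_bot.1 hwcl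
  · have key : w = 1 ∨ w = cs.simple i := by
      refine Subgroup.closure_induction (p := fun v _ => v = 1 ∨ v = cs.simple i)
        ?_ ?_ ?_ ?_ hwcl
      · rintro s ⟨j, hj, rfl⟩
        rw [(h j).1 hj]
        exact Or.inr rfl
      · exact Or.inl rfl
      · rintro a b _ _ (rfl | rfl) (rfl | rfl)
        · left; rw [one_mul]
        · right; rw [one_mul]
        · right; rw [mul_one]
        · left; exact simple_sq i
      · rintro a _ (rfl | rfl)
        · left; exact inv_one
        · right; exact simple_inv' i
    rcases key with rfl | rfl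
    · exact Or.inl rfl
    · exact Or.inr (Or.inl ⟨i, (h i).2 rfl, rfl⟩)
  · have hne : i ≠ i' := by
      rintro rfl
      revert hd
      simp [d2]
    have hc := simple_comm' hd hne
    set a := cs.simple i with ha
    set b := cs.simple i' with hb
    have haa : a * a = 1 := simple_sq i
    have hbb : b * b = 1 := simple_sq i'
    have hai : a⁻¹ = a := simple_inv' i
    have hbi : b⁻¹ = b := simple_inv' i'
    have haab : a * (a * b) = b := by rw [← mul_assoc, haa, one_mul]
    have hbab : b * (a * b) = a := by rw [hc, ← mul_assoc, hbb, one_mul]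
    have haba : a * b * a = b := by rw [hc, mul_assoc, haa, mul_one]
    have habb : a * b * b = a := by rw [mul_assoc, hbb, mul_one]
    have habab : a * b * (a * b) = 1 := by rw [mul_assoc, hbab, haa]
    have key : w = 1 ∨ w = a ∨ w = b ∨ w = a * b := by
      refine Subgroup.closure_induction (p := fun v _ => v = 1 ∨ v = a ∨ v = b ∨ v = a * b)
        ?_ ?_ ?_ ?_ hwcl
      · rintro s ⟨j, hj, rfl⟩
        rcases (h j).1 hj with rfl | rfl
        · exact Or.inr (Or.inl rfl)
        · exact Or.inr (Or.inr (Or.inl rfl))
      · exact Or.inl rfl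
      · rintro u v _ _ (hu | hu | hu | hu) (hv | hv | hv | hv)
        all_goals rw [hu, hv]
        · left; rw [one_mul]
        · right; left; rw [one_mul]
        · right; right; left; rw [one_mul]
        · right; right; right; rw [one_mul]
        · right; left; rw [mul_one]
        · left; exact haa
        · right; right; right; rfl
        · right; right; left; exact haab
        · right; right; left; rw [mul_one]
        · right; right; right; exact hc.symm
        · left; exact hbb
        · right; left; exact hbab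
        · right; right; right; rw [mul_one]
        · right; right; left; exact haba
        · right; left; exact habb
        · left; exact habab
      · rintro u _ (hu | hu | hu | hu)
        all_goals rw [hu]
        · left; exact inv_one
        · right; left; exact hai
        · right; right; left; exact hbi
        · right; right; right; rw [_root_.mul_inv_rev, hai, hbi]; exact hc.symm
    rcases key with hk | hk | hk | hk
    · exact Or.inl hk
    · exact Or.inr (Or.inl ⟨i, (h i).2 (Or.inl rfl), hk⟩)
    · exact Or.inr (Or.inl ⟨i', (h i').2 (Or.inr rfl), hk⟩)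
    · exact Or.inr (Or.inr ⟨i, i', (h i).2 (Or.inl rfl), (h i').2 (Or.inr rfl), hd, hk⟩)

end Trom
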