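import Pool.Agent.Helper97.Trom.Top

open Matrix Set Topology

namespace Trom

theorem fow_lor (x : V5) (i : Fin 16) (a b c : ℤ) (ha : ctr i 0 = a) (hb : ctr i 1 = b)
    (hc : ctr i 2 = c) : lor x (ev i) =
    -(((a : ℝ) ^ 2 + (b : ℝ) ^ 2 + (c : ℝ) ^ 2) / 2) * dl x + a * x 1 + b * x 2 + c * x 3
      - (x 0 + 3 * x 4) / 4 := by
  simp [lor, ev, dl, ha, hb, hc]; ring

theorem fow_quad (d u v A1 A2 B1 B2 : ℝ) (h1 : u ≤ d / 2) (h2 : -(d / 2) ≤ u)
    (h3 : v ≤ d / 2) (h4 : -(d / 2) ≤ v) (h : u ^ 2 + v ^ 2 = d ^ 2 / 2)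
    (hA1 : u = d / 2 → A1 = 0) (hA2 : u = -(d / 2) → A2 = 0)
    (hB1 : v = d / 2 → B1 = 0) (hB2 : v = -(d / 2) → B2 = 0)
    (n1 : ¬ (A1 = 0 ∧ B1 = 0)) (n2 : ¬ (A1 = 0 ∧ B2 = 0)) (n3 : ¬ (A2 = 0 ∧ B1 = 0))
    (n4 : ¬ (A2 = 0 ∧ B2 = 0)) : False := by
  have e1 : (u - d / 2) * (u + d / 2) ≤ 0 :=
    mul_nonpos_of_nonpos_of_nonneg (by linarith) (by linarith)
  have e2 : (v - d / 2) * (v + d / 2) ≤ 0 :=
    mul_nonpos_of_nonpos_of_nonneg (by linarith) (by linarith)
  have e3 : (u - d / 2) * (u + d / 2) + (v - d / 2) * (v + d / 2) = 0 := by nlinarith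
  have e4 : (u - d / 2) * (u + d / 2) = 0 := by linarith
  have e5 : (v - d / 2) * (v + d / 2) = 0 := by linarith
  rcases mul_eq_zero.mp e4 with h5 | h5 <;> rcases mul_eq_zero.mp e5 with h6 | h6
  · exact n1 ⟨hA1 (by linarith), hB1 (by linarith)⟩
  · exact n2 ⟨hA1 (by linarith), hB2 (by linarith)⟩
  · exact n3 ⟨hA2 (by linarith), hB1 (by linarith)⟩
  · exact n4 ⟨hA2 (by linarith), hB2 (by linarith)⟩

theorem fow8 (x : Sph) (hx : Pa x) (h : lor x.1 (ev 8) = 0) (h3 : x.1 3 = 0) : False := by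
  obtain ⟨hp, hn⟩ := hx
  have q8 := fow_lor x.1 8 1 1 0 (by decide) (by decide) (by decide)
  have q2 := fow_lor x.1 2 0 1 0 (by decide) (by decide) (by decide)
  have q14 := fow_lor x.1 14 2 1 0 (by decide) (by decide) (by decide)
  have q6 := fow_lor x.1 6 1 0 0 (by decide) (by decide) (by decide)
  have q10 := fow_lor x.1 10 1 2 0 (by decide) (by decide) (by decide)
  have p2 := hp 2
  have p14 := hp 14
  have p6 := hp 6
  have p10 := hp 10
  have hl := x.2.2
  push_cast at q8 q2 q14 q6 q10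
  rw [h] at q8
  have hq : (x.1 1 - dl x.1) ^ 2 + (x.1 2 - dl x.1) ^ 2 = (dl x.1) ^ 2 / 2 := by
    simp only [lor, h3] at hl
    simp only [dl] at q8 ⊢
    linear_combination hl - 2 * (x.1 0 - x.1 4) * (-1) * q8
  refine fow_quad (dl x.1) (x.1 1 - dl x.1) (x.1 2 - dl x.1) (lor x.1 (ev 14)) (lor x.1 (ev 2))
    (lor x.1 (ev 10)) (lor x.1 (ev 6)) ?_ ?_ ?_ ?_ hq ?_ ?_ ?_ ?_
    (hn 14 10 (by decide)) (hn 14 6 (by decide)) (hn 2 10 (by decide)) (hn 2 6 (by decide))
  · linarith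
  · linarith
  · linarith
  · linarith
  · intro e; linarith
  · intro e; linarith
  · intro e; linarith
  · intro e; linarith

theorem fow9 (x : Sph) (hx : Pa x) (h : lor x.1 (ev 9) = 0) (h3 : x.1 3 = dl x.1) : False := by
  obtain ⟨hp, hn⟩ := hx
  have q8 := fow_lor x.1 9 1 1 1 (by decide) (by decide) (by decide)
  have q2 := fow_lor x.1 3 0 1 1 (by decide) (by decide) (by decide)
  have q14 := fow_lor x.1 15 2 1 1 (by decide) (by decide) (by decide)
  have q6 := fow_lor x.1 7 1 0 1 (by decide) (by decide) (by decide)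
  have q10 := fow_lor x.1 11 1 2 1 (by decide) (by decide) (by decide)
  have p2 := hp 3
  have p14 := hp 15
  have p6 := hp 7
  have p10 := hp 11
  have hl := x.2.2
  push_cast at q8 q2 q14 q6 q10
  rw [h] at q8
  have hq : (x.1 1 - dl x.1) ^ 2 + (x.1 2 - dl x.1) ^ 2 = (dl x.1) ^ 2 / 2 := by
    simp only [lor, h3] at hl
    rw [h3] at q8
    simp only [dl] at q8 hl ⊢
    linear_combination hl - 2 * (x.1 0 - x.1 4) * (-1) * q8
  refine fow_quad (dl x.1) (x.1 1 - dl x.1) (x.1 2 - dl x.1) (lor x.1 (ev 15)) (lor x.1 (ev 3))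
    (lor x.1 (ev 11)) (lor x.1 (ev 7)) ?_ ?_ ?_ ?_ hq ?_ ?_ ?_ ?_
    (hn 15 11 (by decide)) (hn 15 7 (by decide)) (hn 3 11 (by decide)) (hn 3 7 (by decide))
  · linarith
  · linarith
  · linarith
  · linarith
  · intro e; linarith
  · intro e; linarith
  · intro e; linarith
  · intro e; linarith

theorem P0_Pa {x : Sph} (hx : x ∈ P0) : Pa x := by
  obtain ⟨a, ha⟩ := hx
  exact ha.1

theorem face_of_wall (x : Sph) (hx : x ∈ P0) (i : Fin 16) (h : lor x.1 (ev i) = 0) :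
    ∃ f, fb f = i ∧ x ∈ FcS f := by
  have hP := P0_Pa hx
  by_cases h8 : i = 8
  · subst h8
    rcases lt_trichotomy (x.1 3) 0 with h3 | h3 | h3
    · exact ⟨8, rfl, hx, h, by simp only [side, if_true]; exact h3⟩
    · exact (fow8 x hP h h3).elim
    · refine ⟨16, rfl, hx, h, ?_⟩
      unfold side
      rw [if_neg (by decide), if_pos rfl]
      exact h3
  by_cases h9 : i = 9
  · subst h9
    rcases lt_trichotomy (x.1 3) (dl x.1) with h3 | h3 | h3
    · refine ⟨17, rfl, hx, h, ?_⟩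
      unfold side
      rw [if_neg (by decide), if_neg (by decide), if_neg (by decide), if_pos rfl]
      exact h3
    · exact (fow9 x hP h h3).elim
    · refine ⟨9, rfl, hx, h, ?_⟩
      unfold side
      rw [if_neg (by decide), if_neg (by decide), if_pos rfl]
      exact h3
  have hf : fb (Fin.castLE (by norm_num) i) = i := by
    clear h; revert i; decide
  refine ⟨Fin.castLE (by norm_num) i, hf, hx, by rw [hf]; exact h, ?_⟩
  have e8 : (Fin.castLE (by norm_num) i : Fin 18) ≠ 8 := by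
    clear h hf; revert i; decide
  have e16 : (Fin.castLE (by norm_num) i : Fin 18) ≠ 16 := by
    clear h hf e8; revert i; decide
  have e9 : (Fin.castLE (by norm_num) i : Fin 18) ≠ 9 := by
    clear h hf e8 e16; revert i; decide
  have e17 : (Fin.castLE (by norm_num) i : Fin 18) ≠ 17 := by
    clear h hf e8 e16 e9; revert i; decide
  unfold side
  rw [if_neg e8, if_neg e16, if_neg e9, if_neg e17]
  trivial

end Trom
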