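import Pool.Agent.Helper97.Trom.Top
import Pool.Agent.Helper97.Trom.J_chamber_meet
import Pool.Agent.Helper97.Trom.J_face_of_wall

open Matrix Set Topology

namespace Trom

theorem chamber_faces (x : Sph) (hx : x ∈ P0) (w : W) (hw : w⁻¹ • x ∈ P0) :
    w = 1 ∨ (∃ f, x ∈ FcS f ∧ w = cs.simple (fb f)) ∨
      (∃ f f', x ∈ FcS f ∧ x ∈ FcS f' ∧ w = cs.simple (fb f) * cs.simple (fb f')) := by
  have hPa : Pa x := by obtain ⟨a, h, -⟩ := hx; exact h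
  have hPb : Pa (w⁻¹ • x) := by obtain ⟨a, h, -⟩ := hw; exact h
  obtain ⟨-, h⟩ := chamber_meet x hPa w hPb.1
  rcases h with h | ⟨i, hi, hwi⟩ | ⟨i, j, hi, hj, -, hwij⟩
  · exact Or.inl h
  · obtain ⟨f, hf, hxf⟩ := face_of_wall x hx i hi
    exact Or.inr (Or.inl ⟨f, hxf, by rw [hf]; exact hwi⟩)
  · obtain ⟨f, hf, hxf⟩ := face_of_wall x hx i hi
    obtain ⟨f', hf', hxf'⟩ := face_of_wall x hx j hj
    exact Or.inr (Or.inr ⟨f, f', hxf, hxf', by rw [hf, hf']; exact hwij⟩)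

end Trom
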