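import Pool.Agent.Helper97.Trom.Top

open Matrix Set Topology

namespace Trom

/-- squared distance -/
noncomputable def Dd (y0 y1 y2 : ℝ) (i : Fin 16) : ℝ :=
  (y0 - ctr i 0) ^ 2 + (y1 - ctr i 1) ^ 2 + (y2 - ctr i 2) ^ 2

theorem fc_sq {y0 y1 y2 : ℝ} (hP : ∀ i, 1 / 2 ≤ Dd y0 y1 y2 i)
    (hQ : ∀ i j, 2 ≤ d2 i j → ¬ (Dd y0 y1 y2 i = 1 / 2 ∧ Dd y0 y1 y2 j = 1 / 2))
    (i00 i10 i01 i11 : Fin 16) (α β : ℝ) (h1 : 0 ≤ α) (h2 : α ≤ 1) (h3 : 0 ≤ β) (h4 : β ≤ 1)
    (e00 : Dd y0 y1 y2 i00 = α ^ 2 + β ^ 2) (e10 : Dd y0 y1 y2 i10 = (1 - α) ^ 2 + β ^ 2)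
    (e01 : Dd y0 y1 y2 i01 = α ^ 2 + (1 - β) ^ 2)
    (e11 : Dd y0 y1 y2 i11 = (1 - α) ^ 2 + (1 - β) ^ 2) (hd : 2 ≤ d2 i00 i11) : False := by
  have p00 := hP i00
  have p10 := hP i10
  have p01 := hP i01
  have p11 := hP i11
  rw [e00] at p00
  rw [e10] at p10
  rw [e01] at p01
  rw [e11] at p11
  have key : α = 1 / 2 ∧ β = 1 / 2 := by
    rcases le_total α (1 / 2) with ha | ha <;> rcases le_total β (1 / 2) with hb | hb
    · constructor <;> nlinarith
    · constructor <;> nlinarith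
    · constructor <;> nlinarith
    · constructor <;> nlinarith
  obtain ⟨ha, hb⟩ := key
  apply hQ i00 i11 hd
  rw [e00, e11, ha, hb]
  norm_num

theorem fc_main {y0 y1 y2 : ℝ} (hP : ∀ i, 1 / 2 ≤ Dd y0 y1 y2 i)
    (hQ : ∀ i j, 2 ≤ d2 i j → ¬ (Dd y0 y1 y2 i = 1 / 2 ∧ Dd y0 y1 y2 j = 1 / 2))
    (h : (0 ≤ y0 ∧ y0 ≤ 2 ∧ 0 ≤ y1 ∧ y1 ≤ 1 ∧ 0 ≤ y2 ∧ y2 ≤ 1) ∨
      (0 ≤ y0 ∧ y0 ≤ 1 ∧ 0 ≤ y1 ∧ y1 ≤ 2 ∧ 0 ≤ y2 ∧ y2 ≤ 1)) :
    (0 < y0 ∧ y0 < 2 ∧ 0 < y1 ∧ y1 < 1 ∧ 0 < y2 ∧ y2 < 1) ∨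
      (0 < y0 ∧ y0 < 1 ∧ 0 < y1 ∧ y1 < 2 ∧ 0 < y2 ∧ y2 < 1) := by
  rcases h with ⟨h1, h2, h3, h4, h5, h6⟩ | ⟨h1, h2, h3, h4, h5, h6⟩
  · have a5 : 0 < y2 := by
      refine lt_of_le_of_ne h5 fun h => ?_
      subst h
      rcases le_total y0 1 with h7 | h7
      · exact fc_sq hP hQ 0 6 2 8 (y0 - 0) (y1 - 0) (by linarith) (by linarith) (by linarith) (by linarith) (by simp [Dd, ctr] <;> ring) (by simp [Dd, ctr] <;> ring) (by simp [Dd, ctr] <;> ring) (by simp [Dd, ctr] <;> ring) (by decide)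
      · exact fc_sq hP hQ 6 12 8 14 (y0 - 1) (y1 - 0) (by linarith) (by linarith) (by linarith) (by linarith) (by simp [Dd, ctr] <;> ring) (by simp [Dd, ctr] <;> ring) (by simp [Dd, ctr] <;> ring) (by simp [Dd, ctr] <;> ring) (by decide)
    have a6 : y2 < 1 := by
      refine lt_of_le_of_ne h6 fun h => ?_
      subst h
      rcases le_total y0 1 with h7 | h7
      · exact fc_sq hP hQ 1 7 3 9 (y0 - 0) (y1 - 0) (by linarith) (by linarith) (by linarith) (by linarith) (by simp [Dd, ctr] <;> ring) (by simp [Dd, ctr] <;> ring) (by simp [Dd, ctr] <;> ring) (by simp [Dd, ctr] <;> ring) (by decide)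
      · exact fc_sq hP hQ 7 13 9 15 (y0 - 1) (y1 - 0) (by linarith) (by linarith) (by linarith) (by linarith) (by simp [Dd, ctr] <;> ring) (by simp [Dd, ctr] <;> ring) (by simp [Dd, ctr] <;> ring) (by simp [Dd, ctr] <;> ring) (by decide)
    have a1 : 0 < y0 := by
      refine lt_of_le_of_ne h1 fun h => ?_
      subst h
      exact fc_sq hP hQ 0 2 1 3 (y1 - 0) (y2 - 0) (by linarith) (by linarith) (by linarith) (by linarith) (by simp [Dd, ctr] <;> ring) (by simp [Dd, ctr] <;> ring) (by simp [Dd, ctr] <;> ring) (by simp [Dd, ctr] <;> ring) (by decide)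
    have a2 : y0 < 2 := by
      refine lt_of_le_of_ne h2 fun h => ?_
      subst h
      exact fc_sq hP hQ 12 14 13 15 (y1 - 0) (y2 - 0) (by linarith) (by linarith) (by linarith) (by linarith) (by simp [Dd, ctr] <;> ring) (by simp [Dd, ctr] <;> ring) (by simp [Dd, ctr] <;> ring) (by simp [Dd, ctr] <;> ring) (by decide)
    have a3 : 0 < y1 := by
      refine lt_of_le_of_ne h3 fun h => ?_
      subst h
      rcases le_total y0 1 with h7 | h7
      · exact fc_sq hP hQ 0 6 1 7 (y0 - 0) (y2 - 0) (by linarith) (by linarith) (by linarith) (by linarith) (by simp [Dd, ctr] <;> ring) (by simp [Dd, ctr] <;> ring) (by simp [Dd, ctr] <;> ring) (by simp [Dd, ctr] <;> ring) (by decide)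
      · exact fc_sq hP hQ 6 12 7 13 (y0 - 1) (y2 - 0) (by linarith) (by linarith) (by linarith) (by linarith) (by simp [Dd, ctr] <;> ring) (by simp [Dd, ctr] <;> ring) (by simp [Dd, ctr] <;> ring) (by simp [Dd, ctr] <;> ring) (by decide)
    rcases lt_or_eq_of_le h4 with a4 | a4
    · exact Or.inl ⟨a1, a2, a3, a4, a5, a6⟩
    · rcases lt_or_ge y0 1 with h7 | h7
      · exact Or.inr ⟨a1, h7, a3, by linarith, a5, a6⟩
      · exfalso
        subst a4
        exact fc_sq hP hQ 8 14 9 15 (y0 - 1) (y2 - 0) (by linarith) (by linarith) (by linarith) (by linarith) (by simp [Dd, ctr] <;> ring) (by simp [Dd, ctr] <;> ring) (by simp [Dd, ctr] <;> ring) (by simp [Dd, ctr] <;> ring) (by decide)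
  · have a5 : 0 < y2 := by
      refine lt_of_le_of_ne h5 fun h => ?_
      subst h
      rcases le_total y1 1 with h7 | h7
      · exact fc_sq hP hQ 0 6 2 8 (y0 - 0) (y1 - 0) (by linarith) (by linarith) (by linarith) (by linarith) (by simp [Dd, ctr] <;> ring) (by simp [Dd, ctr] <;> ring) (by simp [Dd, ctr] <;> ring) (by simp [Dd, ctr] <;> ring) (by decide)
      · exact fc_sq hP hQ 2 8 4 10 (y0 - 0) (y1 - 1) (by linarith) (by linarith) (by linarith) (by linarith) (by simp [Dd, ctr] <;> ring) (by simp [Dd, ctr] <;> ring) (by simp [Dd, ctr] <;> ring) (by simp [Dd, ctr] <;> ring) (by decide)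
    have a6 : y2 < 1 := by
      refine lt_of_le_of_ne h6 fun h => ?_
      subst h
      rcases le_total y1 1 with h7 | h7
      · exact fc_sq hP hQ 1 7 3 9 (y0 - 0) (y1 - 0) (by linarith) (by linarith) (by linarith) (by linarith) (by simp [Dd, ctr] <;> ring) (by simp [Dd, ctr] <;> ring) (by simp [Dd, ctr] <;> ring) (by simp [Dd, ctr] <;> ring) (by decide)
      · exact fc_sq hP hQ 3 9 5 11 (y0 - 0) (y1 - 1) (by linarith) (by linarith) (by linarith) (by linarith) (by simp [Dd, ctr] <;> ring) (by simp [Dd, ctr] <;> ring) (by simp [Dd, ctr] <;> ring) (by simp [Dd, ctr] <;> ring) (by decide)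
    have a3 : 0 < y1 := by
      refine lt_of_le_of_ne h3 fun h => ?_
      subst h
      exact fc_sq hP hQ 0 6 1 7 (y0 - 0) (y2 - 0) (by linarith) (by linarith) (by linarith) (by linarith) (by simp [Dd, ctr] <;> ring) (by simp [Dd, ctr] <;> ring) (by simp [Dd, ctr] <;> ring) (by simp [Dd, ctr] <;> ring) (by decide)
    have a4 : y1 < 2 := by
      refine lt_of_le_of_ne h4 fun h => ?_
      subst h
      exact fc_sq hP hQ 4 10 5 11 (y0 - 0) (y2 - 0) (by linarith) (by linarith) (by linarith) (by linarith) (by simp [Dd, ctr] <;> ring) (by simp [Dd, ctr] <;> ring) (by simp [Dd, ctr] <;> ring) (by simp [Dd, ctr] <;> ring) (by decide)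
    have a1 : 0 < y0 := by
      refine lt_of_le_of_ne h1 fun h => ?_
      subst h
      rcases le_total y1 1 with h7 | h7
      · exact fc_sq hP hQ 0 2 1 3 (y1 - 0) (y2 - 0) (by linarith) (by linarith) (by linarith) (by linarith) (by simp [Dd, ctr] <;> ring) (by simp [Dd, ctr] <;> ring) (by simp [Dd, ctr] <;> ring) (by simp [Dd, ctr] <;> ring) (by decide)
      · exact fc_sq hP hQ 2 4 3 5 (y1 - 1) (y2 - 0) (by linarith) (by linarith) (by linarith) (by linarith) (by simp [Dd, ctr] <;> ring) (by simp [Dd, ctr] <;> ring) (by simp [Dd, ctr] <;> ring) (by simp [Dd, ctr] <;> ring) (by decide)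
    rcases lt_or_eq_of_le h2 with a2 | a2
    · exact Or.inr ⟨a1, a2, a3, a4, a5, a6⟩
    · rcases lt_or_ge y1 1 with h7 | h7
      · exact Or.inl ⟨a1, by linarith, a3, h7, a5, a6⟩
      · exfalso
        subst a2
        exact fc_sq hP hQ 8 10 9 11 (y1 - 1) (y2 - 0) (by linarith) (by linarith) (by linarith) (by linarith) (by simp [Dd, ctr] <;> ring) (by simp [Dd, ctr] <;> ring) (by simp [Dd, ctr] <;> ring) (by simp [Dd, ctr] <;> ring) (by decide)

/-- the boundary of the tromino is covered by the balls, except for tangency points -/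
theorem InLc_InLo (x : Sph) (hx : Pa x) (h : InLc x.1) : InLo x.1 := by
  have hd : 0 < dl x.1 := by
    rcases h with ⟨_, _, _, _, _, _, h⟩ | ⟨_, _, _, _, _, _, h⟩ <;> exact h
  have hne : x ≠ inf := by
    rintro rfl
    simp [dl, inf] at hd
  obtain ⟨y, hy⟩ : ∃ y, x = st y := ⟨_, st_surj x hne⟩
  obtain ⟨c1, c2, c3⟩ := st_coord y
  have hev := st_ev y
  rw [← hy] at c1 c2 c3 hev
  have hlor : ∀ i, lor x.1 (ev i) = dl x.1 * (1 / 4 - Dd (y 0) (y 1) (y 2) i / 2) := hev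
  have hP : ∀ i, 1 / 2 ≤ Dd (y 0) (y 1) (y 2) i := by
    intro i
    have := hx.1 i
    rw [hlor] at this
    by_contra hc
    push Not at hc
    have : 0 < dl x.1 * (1 / 4 - Dd (y 0) (y 1) (y 2) i / 2) := by
      apply mul_pos hd; linarith
    linarith
  have hQ : ∀ i j, 2 ≤ d2 i j →
      ¬ (Dd (y 0) (y 1) (y 2) i = 1 / 2 ∧ Dd (y 0) (y 1) (y 2) j = 1 / 2) := by
    rintro i j hij ⟨h1, h2⟩
    apply hx.2 i j hij
    rw [hlor, hlor, h1, h2]
    norm_num
  have hm := fc_main hP hQ (by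
    rcases h with ⟨h1, h2, h3, h4, h5, h6, _⟩ | ⟨h1, h2, h3, h4, h5, h6, _⟩
    · left
      rw [c1] at h1 h2
      rw [c2] at h3 h4
      rw [c3] at h5 h6
      refine ⟨?_, ?_, ?_, ?_, ?_, ?_⟩
      · exact nonneg_of_mul_nonneg_right h1 hd
      · exact le_of_mul_le_mul_left (by linarith) hd
      · exact nonneg_of_mul_nonneg_right h3 hd
      · exact le_of_mul_le_mul_left (by linarith) hd
      · exact nonneg_of_mul_nonneg_right h5 hd
      · exact le_of_mul_le_mul_left (by linarith) hd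
    · right
      rw [c1] at h1 h2
      rw [c2] at h3 h4
      rw [c3] at h5 h6
      refine ⟨?_, ?_, ?_, ?_, ?_, ?_⟩
      · exact nonneg_of_mul_nonneg_right h1 hd
      · exact le_of_mul_le_mul_left (by linarith) hd
      · exact nonneg_of_mul_nonneg_right h3 hd
      · exact le_of_mul_le_mul_left (by linarith) hd
      · exact nonneg_of_mul_nonneg_right h5 hd
      · exact le_of_mul_le_mul_left (by linarith) hd)
  rcases hm with ⟨h1, h2, h3, h4, h5, h6⟩ | ⟨h1, h2, h3, h4, h5, h6⟩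
  · left
    rw [c1, c2, c3]
    exact ⟨by positivity, by nlinarith, by positivity, by nlinarith, by positivity, by nlinarith⟩
  · right
    rw [c1, c2, c3]
    exact ⟨by positivity, by nlinarith, by positivity, by nlinarith, by positivity, by nlinarith⟩

end Trom
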