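import Pool.Agent.Helper97.Trom.Top

open Matrix Set Topology

namespace Trom

theorem P0_not_InLo (x : Sph) (hx : x ∈ P0) : ¬ InLo x.1 := by
  obtain ⟨a, -, hLin⟩ := hx
  intro hL
  fin_cases a <;> simp only [Lin] at hLin <;>
    rcases hL with ⟨h1, h2, h3, h4, h5, h6⟩ | ⟨h1, h2, h3, h4, h5, h6⟩ <;>
    first
      | linarith
      | (obtain ⟨h7, h8, h9⟩ := hLin; linarith)
      | (obtain ⟨h7, h8, -⟩ := hLin; linarith)

end Trom
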