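import Pool.Agent.Helper97.Trom.Top

open Matrix Set Topology

namespace Trom

theorem closure_InLo_dl (y : Sph) (h : InLo y.1) : 1 ≤ 5 * dl y.1 := by
  have h1 := y.2.1
  have h2 := y.2.2
  have hd : y.1 4 = 1 - dl y.1 := by simp only [dl, h1]; ring
  simp only [lor, h1, hd] at h2
  generalize dl y.1 = d at h2 hd
  have h : (0 < y.1 1 ∧ y.1 1 < 2 * d ∧ 0 < y.1 2 ∧ y.1 2 < d ∧ 0 < y.1 3 ∧ y.1 3 < d) ∨
      (0 < y.1 1 ∧ y.1 1 < d ∧ 0 < y.1 2 ∧ y.1 2 < 2 * d ∧ 0 < y.1 3 ∧ y.1 3 < d) := by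
    have hd' : dl y.1 = d := by simp only [dl, h1, hd]; ring
    have := h
    simp only [InLo, hd'] at this
    exact this
  rcases h with ⟨a1, a2, a3, a4, a5, a6⟩ | ⟨a1, a2, a3, a4, a5, a6⟩
  · have b1 : y.1 1 * y.1 1 ≤ (2 * d) * (2 * d) := mul_le_mul a2.le a2.le a1.le (by linarith)
    have b2 : y.1 2 * y.1 2 ≤ d * d := mul_le_mul a4.le a4.le a3.le (by linarith)
    have b3 : y.1 3 * y.1 3 ≤ d * d := mul_le_mul a6.le a6.le a5.le (by linarith)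
    have hdp : 0 < d := by linarith
    by_contra hc
    push Not at hc
    nlinarith
  · have b1 : y.1 1 * y.1 1 ≤ d * d := mul_le_mul a2.le a2.le a1.le (by linarith)
    have b2 : y.1 2 * y.1 2 ≤ (2 * d) * (2 * d) := mul_le_mul a4.le a4.le a3.le (by linarith)
    have b3 : y.1 3 * y.1 3 ≤ d * d := mul_le_mul a6.le a6.le a5.le (by linarith)
    have hdp : 0 < d := by linarith
    by_contra hc
    push Not at hc
    nlinarith

theorem closure_InLo (x : Sph) (h : x ∈ closure {y : Sph | InLo y.1}) : InLc x.1 := by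
  have hc : ∀ i, Continuous fun y : Sph => y.1 i := fun i =>
    (continuous_apply i).comp continuous_subtype_val
  have hdl : Continuous fun y : Sph => dl y.1 := (hc 0).sub (hc 4)
  have k0 : Continuous fun _ : Sph => (0 : ℝ) := continuous_const
  have hdl2 : Continuous fun y : Sph => 2 * dl y.1 := continuous_const.mul hdl
  have hA : IsClosed ({y : Sph | 0 ≤ y.1 1} ∩ ({y : Sph | y.1 1 ≤ 2 * dl y.1} ∩
      ({y : Sph | 0 ≤ y.1 2} ∩ ({y : Sph | y.1 2 ≤ dl y.1} ∩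
      ({y : Sph | 0 ≤ y.1 3} ∩ {y : Sph | y.1 3 ≤ dl y.1}))))) :=
    (isClosed_le k0 (hc 1)).inter ((isClosed_le (hc 1) hdl2).inter
      ((isClosed_le k0 (hc 2)).inter ((isClosed_le (hc 2) hdl).inter
      ((isClosed_le k0 (hc 3)).inter (isClosed_le (hc 3) hdl)))))
  have hB : IsClosed ({y : Sph | 0 ≤ y.1 1} ∩ ({y : Sph | y.1 1 ≤ dl y.1} ∩
      ({y : Sph | 0 ≤ y.1 2} ∩ ({y : Sph | y.1 2 ≤ 2 * dl y.1} ∩
      ({y : Sph | 0 ≤ y.1 3} ∩ {y : Sph | y.1 3 ≤ dl y.1}))))) :=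
    (isClosed_le k0 (hc 1)).inter ((isClosed_le (hc 1) hdl).inter
      ((isClosed_le k0 (hc 2)).inter ((isClosed_le (hc 2) hdl2).inter
      ((isClosed_le k0 (hc 3)).inter (isClosed_le (hc 3) hdl)))))
  have hC : IsClosed {y : Sph | 1 ≤ 5 * dl y.1} :=
    isClosed_le continuous_const (continuous_const.mul hdl)
  obtain ⟨h1, h2⟩ := closure_minimal (s := {y : Sph | InLo y.1}) (by
    intro y hy
    refine ⟨closure_InLo_dl y hy, ?_⟩
    rcases hy with ⟨a1, a2, a3, a4, a5, a6⟩ | ⟨a1, a2, a3, a4, a5, a6⟩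
    · exact Or.inl ⟨a1.le, a2.le, a3.le, a4.le, a5.le, a6.le⟩
    · exact Or.inr ⟨a1.le, a2.le, a3.le, a4.le, a5.le, a6.le⟩) (hC.inter (hA.union hB)) h
  have h1' : 1 ≤ 5 * dl x.1 := h1
  have hpos : 0 < dl x.1 := by linarith
  rcases h2 with ⟨a1, a2, a3, a4, a5, a6⟩ | ⟨a1, a2, a3, a4, a5, a6⟩
  · exact Or.inl ⟨a1, a2, a3, a4, a5, a6, hpos⟩
  · exact Or.inr ⟨a1, a2, a3, a4, a5, a6, hpos⟩

end Trom
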