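import Pool.Agent.Helper97.Trom.Top

open Matrix Set Topology

namespace Trom

theorem lin_cover (x : Sph) (hx : Pa x) (h : ¬ InLo x.1) : x ∈ P0 := by
  have hd0 := dl_nonneg x
  rcases hd0.eq_or_lt with hd | hd
  · have hinf := eq_inf_of_dl hd.symm
    refine ⟨0, hx, ?_⟩
    change 2 * dl x.1 ≤ x.1 1
    rw [← hd, hinf]
    simp [inf]
  · by_cases h1 : 2 * dl x.1 ≤ x.1 1
    · exact ⟨0, hx, h1⟩
    by_cases h2 : x.1 1 ≤ 0
    · exact ⟨1, hx, h2⟩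
    by_cases h3 : 2 * dl x.1 ≤ x.1 2
    · exact ⟨2, hx, h3⟩
    by_cases h4 : x.1 2 ≤ 0
    · exact ⟨3, hx, h4⟩
    by_cases h5 : dl x.1 ≤ x.1 3
    · exact ⟨4, hx, h5⟩
    by_cases h6 : x.1 3 ≤ 0
    · exact ⟨5, hx, h6⟩
    push Not at h1 h2 h3 h4 h5 h6
    have h7 : dl x.1 ≤ x.1 2 := by
      by_contra hc
      push Not at hc
      exact h (Or.inl ⟨h2, h1, h4, hc, h6, h5⟩)
    have h8 : dl x.1 ≤ x.1 1 := by
      by_contra hc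
      push Not at hc
      exact h (Or.inr ⟨h2, hc, h4, h3, h6, h5⟩)
    by_cases h9 : 3 * dl x.1 ≤ x.1 1 + x.1 2
    · exact ⟨6, hx, h8, h7, h9⟩
    · push Not at h9
      refine ⟨7, hx, h8, h7, h9.le, h6.le, h5.le, ?_⟩
      have hl : lor x.1 x.1 = 0 := x.2.2
      have hdd : dl x.1 = x.1 0 - x.1 4 := rfl
      unfold lor at hl
      have e1 : dl x.1 * (x.1 0 + x.1 4) = x.1 1 ^ 2 + x.1 2 ^ 2 + x.1 3 ^ 2 := by
        rw [hdd]; linear_combination -hl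
      have e2 : x.1 1 ^ 2 ≤ (2 * dl x.1) ^ 2 := pow_le_pow_left₀ h2.le h1.le 2
      have e3 : x.1 2 ^ 2 ≤ (2 * dl x.1) ^ 2 := pow_le_pow_left₀ h4.le h3.le 2
      have e4 : x.1 3 ^ 2 ≤ (dl x.1) ^ 2 := pow_le_pow_left₀ h6.le h5.le 2
      have e5 : dl x.1 * (x.1 0 + x.1 4) ≤ dl x.1 * (9 * dl x.1) := by
        rw [e1]; nlinarith
      have e6 : x.1 0 + x.1 4 ≤ 9 * dl x.1 := le_of_mul_le_mul_left e5 hd
      linarith
end Trom
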