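import Pool.Agent.Helper97.Trom.Top
import Pool.Agent.Helper97.Trom.J_lin_cover
import Pool.Agent.Helper97.Trom.J_P0_not_InLo
import Pool.Agent.Helper97.Trom.J_InLc_InLo
import Pool.Agent.Helper97.Trom.J_closure_InLo

open Matrix Set Topology

namespace Trom

theorem P0_nhds (x : Sph) (hx : x ∈ P0) : ∀ᶠ y in 𝓝 x, Pa y → y ∈ P0 := by
  by_contra h
  rw [Filter.not_eventually] at h
  have h2 : ∃ᶠ y in 𝓝 x, y ∈ {y : Sph | InLo y.1} := by
    refine h.mono fun y hy => ?_
    rw [Classical.not_imp] at hy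
    by_contra hn
    exact hy.2 (lin_cover y hy.1 hn)
  have h3 : InLc x.1 := closure_InLo x (mem_closure_iff_frequently.mpr h2)
  obtain ⟨a, ha⟩ := id hx
  exact P0_not_InLo x hx (InLc_InLo x ha.1 h3)

end Trom
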