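import Pool.Agent.Helper97.Trom.Geo
import Pool.Agent.Helper97.Trom.J_tits_int
import Pool.Agent.Helper97.Trom.J_walls_two

open Matrix Set Topology

namespace Trom

theorem local_chamber_rs (i : Fin 16) (X : V5) :
    (rW (cs.simple i)).1.1 *ᵥ X = X - (4 * lor X (ev i)) • ev i := by
  rw [rW_simple, refl_val, rmat_mulVec]

theorem local_chamber_one (X : V5) : (rW 1).1.1 *ᵥ X = X := by
  rw [map_one]
  simp

theorem local_chamber_mul (a b : W) (X : V5) :
    (rW (a * b)).1.1 *ᵥ X = (rW a).1.1 *ᵥ ((rW b).1.1 *ᵥ X) := by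
  rw [map_mul, mul_mulVec']

theorem local_chamber_fix (p : V5) (g : W)
    (hg : g ∈ Subgroup.closure {s | ∃ i, lor p (ev i) = 0 ∧ s = cs.simple i}) :
    (rW g).1.1 *ᵥ p = p := by
  induction hg using Subgroup.closure_induction with
  | mem y hy =>
    obtain ⟨i, hi, rfl⟩ := hy
    rw [local_chamber_rs, hi]
    simp
  | one => exact local_chamber_one p
  | mul a b _ _ ha hb => rw [local_chamber_mul, hb, ha]
  | inv a _ ha =>
    have h1 := local_chamber_mul a⁻¹ a p
    rw [inv_mul_cancel, local_chamber_one, ha] at h1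
    exact h1.symm

theorem local_chamber_smul (x : Sph) (w : W) (h : (rW w).1.1 *ᵥ x.1 = x.1) : w • x = x := by
  apply Subtype.ext
  rw [W_smul_val, h]
  unfold nrm
  rw [x.2.1]
  simp

theorem local_chamber_core (x : Sph) (U : Finset W)
    (hU1 : ∀ u ∈ U, (rW u).1.1 *ᵥ x.1 = x.1) (hx : ∀ i, lor x.1 (ev i) ≤ 0)
    (hU3 : ∀ X : V5, ∃ u ∈ U, ∀ i, lor x.1 (ev i) = 0 → lor ((rW u).1.1 *ᵥ X) (ev i) ≤ 0) :
    ∃ ε > 0, ∀ X : V5, Fwd X → X 0 = 1 →
    dist X x.1 < ε →
    (∃ w : W, w⁻¹ • x = x ∧ (∀ i, lor ((rW w⁻¹).1.1 *ᵥ X) (ev i) ≤ 0)) ∧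
    (∀ w : W, (∀ i, lor ((rW w⁻¹).1.1 *ᵥ X) (ev i) ≤ 0) → w⁻¹ • x = x ∧
      ∀ i, lor ((rW w⁻¹).1.1 *ᵥ X) (ev i) = 0 → lor x.1 (ev i) = 0) := by
  have hev : ∀ᶠ X : V5 in 𝓝 x.1, ∀ u ∈ U, ∀ j, lor x.1 (ev j) ≠ 0 →
      lor ((rW u).1.1 *ᵥ X) (ev j) < 0 := by
    rw [Filter.eventually_all_finset]
    intro u hu
    rw [Filter.eventually_all]
    intro j
    by_cases hj : lor x.1 (ev j) = 0
    · exact Filter.Eventually.of_forall fun X h => absurd hj h
    · have hlt : lor x.1 (ev j) < 0 := lt_of_le_of_ne (hx j) hj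
      have hc1 : Continuous fun Y : V5 => lor Y (ev j) := by unfold lor; fun_prop
      have hc2 : Continuous fun X : V5 => (rW u).1.1 *ᵥ X :=
        Continuous.matrix_mulVec continuous_const continuous_id
      have hc : Continuous fun X : V5 => lor ((rW u).1.1 *ᵥ X) (ev j) := hc1.comp hc2
      have h1 : lor ((rW u).1.1 *ᵥ x.1) (ev j) < 0 := by rw [hU1 u hu]; exact hlt
      have h2 := hc.continuousAt.eventually_lt (continuousAt_const (y := (0:ℝ))) h1
      exact h2.mono fun X h _ => h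
  obtain ⟨ε, hε, H⟩ := Metric.eventually_nhds_iff.1 hev
  refine ⟨ε, hε, fun X hX hX0 hd => ?_⟩
  have HX := H hd
  obtain ⟨u, hu, hu3⟩ := hU3 X
  have hY : ∀ i, lor ((rW u).1.1 *ᵥ X) (ev i) ≤ 0 := by
    intro i
    by_cases hi : lor x.1 (ev i) = 0
    · exact hu3 i hi
    · exact (HX u hu i hi).le
  have hYf : Fwd ((rW u).1.1 *ᵥ X) := (rW u).2.2 X hX
  refine ⟨⟨u⁻¹, ?_, ?_⟩, ?_⟩
  · rw [inv_inv]
    exact local_chamber_smul x u (hU1 u hu)
  · rw [inv_inv]
    exact hY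
  · intro w hw
    have e1 : (rW (w⁻¹ * u⁻¹)).1.1 *ᵥ ((rW u).1.1 *ᵥ X) = (rW w⁻¹).1.1 *ᵥ X := by
      rw [← local_chamber_mul]
      congr 4
      group
    have e2 := tits_int (w⁻¹ * u⁻¹) ((rW u).1.1 *ᵥ X) hYf hY (by rw [e1]; exact hw)
    rw [e1] at e2
    obtain ⟨e3, e4⟩ := e2
    have e5 : w⁻¹ * u⁻¹ ∈ Subgroup.closure {s | ∃ i, lor x.1 (ev i) = 0 ∧ s = cs.simple i} := by
      refine Subgroup.closure_mono ?_ e4
      rintro s ⟨i, hi, rfl⟩
      refine ⟨i, ?_, rfl⟩
      by_contra hne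
      have := HX u hu i hne
      linarith
    have e6 := local_chamber_fix x.1 _ e5
    have e7 : (rW w⁻¹).1.1 *ᵥ x.1 = x.1 := by
      have e8 : w⁻¹ = (w⁻¹ * u⁻¹) * u := by group
      rw [e8, local_chamber_mul, hU1 u hu, e6]
    refine ⟨local_chamber_smul x _ e7, ?_⟩
    intro i hi
    rw [e3] at hi
    by_contra hne
    have := HX u hu i hne
    linarith

theorem local_chamber_ref (i : Fin 16) (X : V5) : ∃ u : W, (u = 1 ∨ u = cs.simple i) ∧
    lor ((rW u).1.1 *ᵥ X) (ev i) ≤ 0 ∧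
      ∀ j, lor (ev i) (ev j) = 0 → lor ((rW u).1.1 *ᵥ X) (ev j) = lor X (ev j) := by
  rcases le_or_gt (lor X (ev i)) 0 with h | h
  · refine ⟨1, Or.inl rfl, ?_, ?_⟩
    · rw [local_chamber_one]; exact h
    · intro j _
      rw [local_chamber_one]
  · refine ⟨cs.simple i, Or.inr rfl, ?_, ?_⟩
    · rw [local_chamber_rs, lor_sub_left, lor_smul_left, lor_ev_self]
      linarith
    · intro j hj
      rw [local_chamber_rs, lor_sub_left, lor_smul_left, hj]
      ring

/-- Near a point `x` with `Pa x` only the chambers containing `x` occur (in the closed ball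
`ℍ⁴ ∪ S³`, Klein model). -/
theorem local_chamber (x : Sph) (hx : Pa x) : ∃ ε > 0, ∀ X : V5, Fwd X → X 0 = 1 →
    dist X x.1 < ε →
    (∃ w : W, w⁻¹ • x = x ∧ (∀ i, lor ((rW w⁻¹).1.1 *ᵥ X) (ev i) ≤ 0)) ∧
    (∀ w : W, (∀ i, lor ((rW w⁻¹).1.1 *ᵥ X) (ev i) ≤ 0) → w⁻¹ • x = x ∧
      ∀ i, lor ((rW w⁻¹).1.1 *ᵥ X) (ev i) = 0 → lor x.1 (ev i) = 0) := by
  classical
  have hs : ∀ i, lor x.1 (ev i) = 0 → (rW (cs.simple i)).1.1 *ᵥ x.1 = x.1 := by
    intro i hi
    rw [local_chamber_rs, hi]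
    simp
  rcases walls_two x hx with h | ⟨i, h⟩ | ⟨i, i', hd, h⟩
  · refine local_chamber_core x {1} ?_ hx.1 ?_
    · intro u hu
      rw [Finset.mem_singleton] at hu
      rw [hu]
      exact local_chamber_one _
    · intro X
      exact ⟨1, Finset.mem_singleton_self 1, fun i hi => absurd hi (h i)⟩
  · refine local_chamber_core x {1, cs.simple i} ?_ hx.1 ?_
    · intro u hu
      rw [Finset.mem_insert, Finset.mem_singleton] at hu
      rcases hu with rfl | rfl
      · exact local_chamber_one _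
      · exact hs i ((h i).2 rfl)
    · intro X
      obtain ⟨u, hu, h1, h2⟩ := local_chamber_ref i X
      refine ⟨u, ?_, ?_⟩
      · rw [Finset.mem_insert, Finset.mem_singleton]; exact hu
      · intro j hj
        rw [(h j).1 hj]
        exact h1
  · have hii : lor (ev i) (ev i') = 0 := by rw [lor_ev, hd]; norm_num
    have hii' : lor (ev i') (ev i) = 0 := by rw [lor_comm]; exact hii
    refine local_chamber_core x {1, cs.simple i, cs.simple i', cs.simple i' * cs.simple i} ?_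
      hx.1 ?_
    · intro u hu
      simp only [Finset.mem_insert, Finset.mem_singleton] at hu
      have hi := hs i ((h i).2 (Or.inl rfl))
      have hi' := hs i' ((h i').2 (Or.inr rfl))
      rcases hu with rfl | rfl | rfl | rfl
      · exact local_chamber_one _
      · exact hi
      · exact hi'
      · rw [local_chamber_mul, hi, hi']
    · intro X
      obtain ⟨u, hu, h1, h2⟩ := local_chamber_ref i X
      obtain ⟨v, hv, h3, h4⟩ := local_chamber_ref i' ((rW u).1.1 *ᵥ X)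
      refine ⟨v * u, ?_, ?_⟩
      · simp only [Finset.mem_insert, Finset.mem_singleton]
        rcases hu with rfl | rfl <;> rcases hv with rfl | rfl <;> simp
      · intro j hj
        rw [local_chamber_mul]
        rcases (h j).1 hj with rfl | rfl
        · rw [h4 _ hii']
          exact h1
        · exact h3

end Trom
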