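import Pool.Agent.Helper97.Trom.Top
import Pool.Agent.Helper97.Trom.J_local_chamber
import Pool.Agent.Helper97.Trom.J_chamber_meet
import Pool.Agent.Helper97.Trom.J_P0_nhds

open Matrix Set Topology

namespace Trom

theorem near_Om_scale (u : W) (y : Sph) (i : Fin 16) : ∃ c : ℝ, 0 < c ∧
    lor (u • y).1 (ev i) = c * lor ((rW u).1.1 *ᵥ y.1) (ev i) := by
  refine ⟨(((rW u).1.1 *ᵥ y.1) 0)⁻¹, inv_pos.2 ((rW u).2.2 _ y.fwd).2, ?_⟩
  rw [W_smul_val, nrm, lor_smul_left]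

theorem near_Om_P0_Pa {x : Sph} (hx : x ∈ P0) : Pa x := by
  obtain ⟨a, ha⟩ := hx
  exact ha.1

theorem near_Om_fin (x : Sph) (hx : Pa x) : {u : W | u⁻¹ • x = x}.Finite := by
  have hfin : (({1} : Set W) ∪ Set.range (fun i => cs.simple i) ∪
      Set.range (fun p : Fin 16 × Fin 16 => cs.simple p.1 * cs.simple p.2)).Finite :=
    ((Set.finite_singleton _).union (Set.finite_range _)).union (Set.finite_range _)
  refine hfin.subset ?_
  intro u hu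
  change u⁻¹ • x = x at hu
  have h := (chamber_meet x hx u (by rw [hu]; exact hx.1)).2
  rcases h with h | ⟨i, -, h⟩ | ⟨i, j, -, -, -, h⟩
  · exact Or.inl (Or.inl h)
  · exact Or.inl (Or.inr ⟨i, h.symm⟩)
  · exact Or.inr ⟨(i, j), h.symm⟩

/-- structure of `S³` near a point of `Om` -/
theorem near_Om (x : Sph) (hx : x ∈ Om) : ∀ᶠ y in 𝓝 x, y ∈ Om ∧
    ∀ w : W, w⁻¹ • y ∈ P0 → w⁻¹ • x ∈ P0 := by
  obtain ⟨w0, hw0⟩ := hx
  have hPa : Pa (w0⁻¹ • x) := near_Om_P0_Pa hw0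
  obtain ⟨ε, hε, hloc⟩ := local_chamber (w0⁻¹ • x) hPa
  have hfin := near_Om_fin (w0⁻¹ • x) hPa
  have hcont : Filter.Tendsto (fun y : Sph => w0⁻¹ • y) (𝓝 x) (𝓝 (w0⁻¹ • x)) :=
    (continuous_const_smul (w0⁻¹)).tendsto x
  have h1 : ∀ᶠ y in 𝓝 x, dist (w0⁻¹ • y).1 (w0⁻¹ • x).1 < ε := by
    have := hcont.eventually (Metric.ball_mem_nhds (w0⁻¹ • x) hε)
    filter_upwards [this] with y hy
    exact hy
  have h2 : ∀ᶠ y in 𝓝 x, ∀ u ∈ {u : W | u⁻¹ • (w0⁻¹ • x) = w0⁻¹ • x},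
      (Pa (u⁻¹ • (w0⁻¹ • y)) → u⁻¹ • (w0⁻¹ • y) ∈ P0) := by
    rw [Filter.eventually_all_finite hfin]
    intro u hu
    change u⁻¹ • (w0⁻¹ • x) = w0⁻¹ • x at hu
    have hc2 : Filter.Tendsto (fun y : Sph => u⁻¹ • (w0⁻¹ • y)) (𝓝 x) (𝓝 (w0⁻¹ • x)) := by
      have := ((continuous_const_smul (u⁻¹)).tendsto (w0⁻¹ • x)).comp hcont
      rw [hu] at this
      exact this
    exact hc2.eventually (P0_nhds _ hw0)
  filter_upwards [h1, h2] with y hy1 hy2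
  obtain ⟨hA, hB⟩ := hloc (w0⁻¹ • y).1 (w0⁻¹ • y).fwd (w0⁻¹ • y).2.1 hy1
  refine ⟨?_, ?_⟩
  · obtain ⟨u, hu, hui⟩ := hA
    have hzero := (hB u hui).2
    refine ⟨w0 * u, ?_⟩
    rw [_root_.mul_inv_rev, mul_smul]
    refine hy2 u hu ⟨?_, ?_⟩
    · intro i
      obtain ⟨c, hc, he⟩ := near_Om_scale u⁻¹ (w0⁻¹ • y) i
      rw [he]
      exact mul_nonpos_of_nonneg_of_nonpos hc.le (hui i)
    · intro i j hij hcon
      have key : ∀ i, lor (u⁻¹ • (w0⁻¹ • y)).1 (ev i) = 0 → lor (w0⁻¹ • x).1 (ev i) = 0 := by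
        intro i hi
        obtain ⟨c, hc, he⟩ := near_Om_scale u⁻¹ (w0⁻¹ • y) i
        rw [he] at hi
        exact hzero i ((mul_eq_zero.1 hi).resolve_left hc.ne')
      exact hPa.2 i j hij ⟨key i hcon.1, key j hcon.2⟩
  · intro w hw
    have e1 : (w0⁻¹ * w)⁻¹ • (w0⁻¹ • y) = w⁻¹ • y := by
      rw [_root_.mul_inv_rev, inv_inv, mul_smul, smul_inv_smul]
    have e2 : (w0⁻¹ * w)⁻¹ • (w0⁻¹ • x) = w⁻¹ • x := by
      rw [_root_.mul_inv_rev, inv_inv, mul_smul, smul_inv_smul]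
    have h3 := (hB (w0⁻¹ * w) (by
      intro i
      obtain ⟨c, hc, he⟩ := near_Om_scale (w0⁻¹ * w)⁻¹ (w0⁻¹ • y) i
      have h4 := (near_Om_P0_Pa hw).1 i
      rw [← e1, he] at h4
      by_contra hcon
      push Not at hcon
      have := mul_pos hc hcon
      linarith)).1
    rw [e2] at h3
    rw [h3]
    exact hw0

end Trom
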