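import Pool.Agent.Helper97.Trom.Top
import Pool.Agent.Helper97.Trom.J_near_Om
import Pool.Agent.Helper97.Trom.J_chamber_faces
import Pool.Agent.Helper97.Trom.J_G_nofix

open Matrix Set Topology

namespace Trom

theorem fn_GW_conj (g w : W) (hg : g ∈ GW) : w⁻¹ * g * w ∈ GW := by
  obtain ⟨h1, h2⟩ := hg
  refine ⟨?_, ?_⟩
  · have h3 : epsD (rho (w⁻¹ * w)).1 = 1 := by rw [inv_mul_cancel, map_one]; rfl
    rw [map_mul, Prod.fst_mul, epsD_mul] at h3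
    rw [map_mul, map_mul, Prod.fst_mul, Prod.fst_mul, epsD_mul, epsD_mul, h1, mul_one, h3]
  · have h3 : epsD (rho (w⁻¹ * w)).2 = 1 := by rw [inv_mul_cancel, map_one]; rfl
    rw [map_mul, Prod.snd_mul, epsD_mul] at h3
    rw [map_mul, map_mul, Prod.snd_mul, Prod.snd_mul, epsD_mul, epsD_mul, h2, mul_one, h3]

theorem fn_d2_tri : ∀ i j : Fin 16, i = j ∨ d2 i j = 1 ∨ 2 ≤ d2 i j := by decide

/-- `G` acts freely and properly discontinuously on `Om` -/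
theorem free_nbhd (x : Sph) (hx : x ∈ Om) : ∃ U ∈ 𝓝 x, ∀ g ∈ GW, ∀ y ∈ U, g • y ∈ U → g = 1 := by
  refine ⟨{y | y ∈ Om ∧ ∀ w : W, w⁻¹ • y ∈ P0 → w⁻¹ • x ∈ P0}, near_Om x hx, ?_⟩
  rintro g hg y ⟨⟨w, hw⟩, hy⟩ ⟨_, hgy⟩
  have h1 : w⁻¹ • x ∈ P0 := hy w hw
  have h2 : (g * w)⁻¹ • x ∈ P0 := by
    refine hgy (g * w) ?_
    rw [_root_.mul_inv_rev, mul_smul, inv_smul_smul]
    exact hw
  have h3 : (w⁻¹ * g * w)⁻¹ • (w⁻¹ • x) ∈ P0 := by
    have e : (w⁻¹ * g * w)⁻¹ * w⁻¹ = (g * w)⁻¹ := by group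
    rw [← mul_smul, e]
    exact h2
  have hv := fn_GW_conj g w hg
  have hend : w⁻¹ * g * w = 1 → g = 1 := by
    intro h
    calc g = w * (w⁻¹ * g * w) * w⁻¹ := by group
      _ = 1 := by rw [h]; group
  rcases chamber_faces _ h1 _ h3 with h | ⟨f, _, h⟩ | ⟨f, f', hf, hf', h⟩
  · exact hend h
  · rw [h] at hv
    exact (G_nofix.1 _ hv).elim
  · rcases fn_d2_tri (fb f) (fb f') with h4 | h4 | h4
    · apply hend
      rw [h, h4]
      exact cs.simple_mul_simple_self _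
    · rw [h] at hv
      exact (G_nofix.2 _ _ h4 hv).elim
    · obtain ⟨a, ha⟩ := hf.1
      exact (ha.1.2 _ _ h4 ⟨hf.2.1, hf'.2.1⟩).elim

end Trom
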