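import Pool.Agent.Helper97.Trom.Top
import Pool.Agent.Helper97.Trom.AbsDef
import Pool.Agent.Helper97.Trom.J_free_nbhd
import Pool.Agent.Helper97.Trom.J_F_le_G

open Matrix Set Topology

namespace Trom

/-- `Om → Om/F` is a covering -/
theorem cov_quot : IsQuotientCoveringMap
    (fun x : Om => (Quotient.mk (orbSetoid (FW.map rW) Om) x)) FW := by
  have hcs : ContinuousConstSMul FW Om := ⟨fun w => continuous_const_smul (w : W)⟩
  refine
    { toIsQuotientMap := isQuotientMap_quotient_mk'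
      toContinuousConstSMul := hcs
      apply_eq_iff_mem_orbit := ?_
      disjoint := ?_ }
  · intro e1 e2
    rw [Quotient.eq]
    constructor
    · rintro ⟨g, hg, h⟩
      obtain ⟨w, hw, rfl⟩ := hg
      refine ⟨⟨w⁻¹, FW.inv_mem hw⟩, ?_⟩
      apply Subtype.ext
      change w⁻¹ • e2.1 = e1.1
      rw [← h]
      change w⁻¹ • (w • e1.1) = e1.1
      rw [inv_smul_smul]
    · rintro ⟨g, hg⟩
      refine ⟨rW (g : W)⁻¹, ⟨(g : W)⁻¹, FW.inv_mem g.2, rfl⟩, ?_⟩
      have h1 := congrArg Subtype.val hg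
      change (g : W) • e2.1 = e1.1 at h1
      rw [← h1]
      change (g : W)⁻¹ • ((g : W) • e2.1) = e2.1
      rw [inv_smul_smul]
  · intro x
    obtain ⟨U, hU, hfree⟩ := free_nbhd x.1 x.2
    refine ⟨Subtype.val ⁻¹' U, continuous_subtype_val.continuousAt.preimage_mem_nhds hU, ?_⟩
    intro g hg
    obtain ⟨y, hy1, hy2⟩ := hg
    obtain ⟨z, hz, hzy⟩ := hy1
    have h2 : (g : W) • z.1 ∈ U := by
      have h3 : (g : W) • z.1 = y.1 := congrArg Subtype.val hzy
      rw [h3]; exact hy2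
    exact Subtype.ext (hfree g.1 (F_le_G g.2) z.1 hz h2)

end Trom
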