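import Pool.Agent.Helper97.Trom.AbsDef

open Set Topology unitInterval

namespace Trom

variable {X W S A : Type} [TopologicalSpace X] [Group W] [MulAction W X]
    [ContinuousConstSMul W X]

theorem piece_path_cast {Y : Type} [TopologicalSpace Y] {a b c a' b' c' : Y}
    (p : Path.Homotopic.Quotient a b) (q : Path.Homotopic.Quotient b c)
    (ha : a' = a) (hb : b' = b) (hc : c' = c) :
    (p.cast ha hb).trans (q.cast hb hc) = (p.trans q).cast ha hc := by
  subst ha hb hc
  rw [Path.Homotopic.Quotient.cast_rfl_rfl, Path.Homotopic.Quotient.cast_rfl_rfl,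
    Path.Homotopic.Quotient.cast_rfl_rfl]

theorem piece_path_map {Y Z : Type} [TopologicalSpace Y] [TopologicalSpace Z] {a b c : Y}
    (p : Path.Homotopic.Quotient a b) (q : Path.Homotopic.Quotient b c) (f : C(Y, Z)) :
    (p.trans q).map f = (p.map f).trans (q.map f) := by
  induction p, q using Path.Homotopic.Quotient.ind₂ with | mk p q =>
  change Path.Homotopic.Quotient.mk ((p.trans q).map f.continuous) =
    Path.Homotopic.Quotient.mk ((p.map f.continuous).trans (q.map f.continuous))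
  rw [Path.map_trans]

theorem piece_path_mk (w : W) {y z : X} (γ : Path y z) (γ' : Path (w⁻¹ • y) (w⁻¹ • z))
    (hγ : ∀ t, γ' t = w⁻¹ • γ t)
    (h1 : y = smulC w (w⁻¹ • y)) (h2 : z = smulC w (w⁻¹ • z)) :
    Path.Homotopic.Quotient.mk γ =
      ((Path.Homotopic.Quotient.mk γ').map (smulC w)).cast h1 h2 := by
  change Path.Homotopic.Quotient.mk γ =
    Path.Homotopic.Quotient.mk ((γ'.map (smulC w).continuous).cast h1 h2)
  congr 1
  ext t
  change γ t = w • γ' t
  rw [hγ, smul_inv_smul]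

/-- A path inside a piece of the chamber `w P` relates the canonical classes of its end points. -/
theorem Tess.piece_path (T : Tess X W S A) (w : W) (a : A) (y z : X) (hy : w⁻¹ • y ∈ T.D a)
    (hz : w⁻¹ • z ∈ T.D a) (γ : Path y z) (hγ : ∀ t, w⁻¹ • γ t ∈ T.D a) :
    (T.K w y ⟨a, hy⟩).trans (Path.Homotopic.Quotient.mk γ) = T.K w z ⟨a, hz⟩ := by
  have h1 : ∀ u : X, u = smulC w (w⁻¹ • u) := fun u => (smul_inv_smul w u).symm
  obtain ⟨γ', hγ'⟩ : ∃ γ' : Path (w⁻¹ • y) (w⁻¹ • z), ∀ t, γ' t = w⁻¹ • γ t :=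
    ⟨γ.map (continuous_const_smul w⁻¹), fun t => rfl⟩
  have h2 := T.κD a (w⁻¹ • y) (w⁻¹ • z) hy hz γ' (fun t => by rw [hγ']; exact hγ t)
  rw [piece_path_mk w γ γ' hγ' (h1 y) (h1 z)]
  unfold Tess.K
  rw [piece_path_cast, ← piece_path_map, h2]

end Trom
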