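import Pool.Agent.Helper97.Trom.AbsDef
import Pool.Agent.Helper97.Trom.J_piece_path

open Set Topology unitInterval

namespace Trom

variable {X W S A : Type} [TopologicalSpace X] [Group W] [MulAction W X]
    [ContinuousConstSMul W X]

theorem cp_unique {s t : I} (p q : Path.Homotopic.Quotient s t) : p = q := by
  haveI : ContractibleSpace I := (convex_Icc (0:ℝ) 1).contractibleSpace ⟨0, by simp⟩
  exact Subsingleton.elim _ _

/-- straight path in the unit interval -/
def cpLin (s t : I) : Path s t where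
  toFun r := ⟨(1 - (r : ℝ)) * s + r * t, by
    have h1 := r.2.1; have h2 := r.2.2; have h3 := s.2.1; have h4 := s.2.2
    have h5 := t.2.1; have h6 := t.2.2
    constructor
    · have := mul_nonneg (sub_nonneg.2 h2) h3
      have := mul_nonneg h1 h5
      linarith
    · nlinarith [mul_le_mul_of_nonneg_left h4 (sub_nonneg.2 h2), mul_le_mul_of_nonneg_left h6 h1]⟩
  continuous_toFun := by
    apply Continuous.subtype_mk
    fun_prop
  source' := by ext; simp
  target' := by ext; simp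

theorem cpLin_dist (s t : I) (r : I) : dist (cpLin s t r) s ≤ dist t s := by
  have h1 := r.2.1
  have h2 := r.2.2
  rw [Subtype.dist_eq, Subtype.dist_eq, Real.dist_eq, Real.dist_eq]
  show |(1 - (r : ℝ)) * s + r * t - s| ≤ |(t:ℝ) - s|
  have : (1 - (r : ℝ)) * s + r * t - s = r * ((t:ℝ) - s) := by ring
  rw [this, abs_mul, abs_of_nonneg h1]
  exact mul_le_of_le_one_left (abs_nonneg _) h2

/-- the class of the restriction of a map -/
def cpR (c : C(I, X)) (s t : I) : Path.Homotopic.Quotient (c s) (c t) :=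
  Path.Homotopic.Quotient.mk ((cpLin s t).map c.continuous)

theorem cpR_trans (c : C(I, X)) (s t u : I) : (cpR c s t).trans (cpR c t u) = cpR c s u := by
  have h := cp_unique (Path.Homotopic.Quotient.mk ((cpLin s t).trans (cpLin t u)))
    (Path.Homotopic.Quotient.mk (cpLin s u))
  have h1 := Path.Homotopic.Quotient.exact h
  have h2 := h1.map c
  have h3 : Path.Homotopic.Quotient.mk (((cpLin s t).trans (cpLin t u)).map c.continuous) =
    Path.Homotopic.Quotient.mk ((cpLin s u).map c.continuous) := Path.Homotopic.Quotient.eq.2 h2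
  rw [Path.map_trans] at h3
  exact h3

theorem cpR_refl (c : C(I, X)) (s : I) : cpR c s s = Path.Homotopic.Quotient.refl (c s) := by
  have h := cp_unique (Path.Homotopic.Quotient.mk (cpLin s s))
    (Path.Homotopic.Quotient.mk (Path.refl s))
  have h1 := Path.Homotopic.Quotient.exact h
  have h2 := h1.map c
  exact Path.Homotopic.Quotient.eq.2 h2

theorem cp_local (T : Tess X W S A) [Finite A] (w : W) (c : C(I, X))
    (hc : ∀ t, ∃ a, w⁻¹ • c t ∈ T.D a) (t0 : I) :
    ∀ᶠ t in 𝓝 t0, (T.K w (c t0) (hc t0)).trans (cpR c t0 t) = T.K w (c t) (hc t) := by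
  obtain ⟨N, hN, hNt⟩ := T.triv (c t0)
  have hcont : Continuous fun t => w⁻¹ • c t := (continuous_const_smul w⁻¹).comp c.continuous
  have e1 : ∀ᶠ t in 𝓝 t0, ∀ r, c (cpLin t0 t r) ∈ N := by
    have h1 : ∀ᶠ t in 𝓝 t0, c t ∈ N := c.continuous.continuousAt.eventually hN
    rw [Metric.eventually_nhds_iff] at h1 ⊢
    obtain ⟨ε, hε, h1⟩ := h1
    exact ⟨ε, hε, fun t ht r => h1 (lt_of_le_of_lt (cpLin_dist t0 t r) ht)⟩
  have e2 : ∀ᶠ t in 𝓝 t0, ∀ a, w⁻¹ • c t ∈ T.D a → w⁻¹ • c t0 ∈ T.D a := by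
    rw [Filter.eventually_all]
    intro a
    by_cases h : w⁻¹ • c t0 ∈ T.D a
    · exact Filter.Eventually.of_forall fun _ _ => h
    · have h1 : ∀ᶠ t in 𝓝 t0, w⁻¹ • c t ∈ (T.D a)ᶜ :=
        hcont.continuousAt.eventually ((T.clD a).isOpen_compl.mem_nhds h)
      exact h1.mono fun t ht ht' => absurd ht' ht
  have hN' : (fun x => w • x) ⁻¹' N ∈ 𝓝 (w⁻¹ • c t0) := by
    apply (continuous_const_smul w).continuousAt.preimage_mem_nhds
    rw [smul_inv_smul]
    exact hN
  have e3 : ∀ᶠ t in 𝓝 t0, ∀ a, w⁻¹ • c t0 ∈ T.D a → w⁻¹ • c t ∈ T.D a →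
      ∃ γ : Path (w⁻¹ • c t0) (w⁻¹ • c t), ∀ r, γ r ∈ ((fun x => w • x) ⁻¹' N) ∩ T.D a := by
    rw [Filter.eventually_all]
    intro a
    by_cases h : w⁻¹ • c t0 ∈ T.D a
    · exact (hcont.continuousAt.eventually (T.loc a _ h _ hN')).mono fun t ht _ ht' => ht ht'
    · exact Filter.Eventually.of_forall fun _ h' => absurd h' h
  filter_upwards [e1, e2, e3] with t h1 h2 h3
  obtain ⟨a, ha⟩ := hc t
  have ha0 := h2 a ha
  obtain ⟨γ, hγ⟩ := h3 a ha0 ha
  let δ : Path (c t0) (c t) := (γ.map (continuous_const_smul w)).cast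
    (smul_inv_smul w (c t0)).symm (smul_inv_smul w (c t)).symm
  have hδ : ∀ r, δ r = w • γ r := fun r => rfl
  have h4 := T.piece_path w a (c t0) (c t) ha0 ha δ (fun r => by
    rw [hδ, inv_smul_smul]; exact (hγ r).2)
  have h5 : Path.Homotopic.Quotient.mk δ = cpR c t0 t := by
    apply Path.Homotopic.Quotient.eq.2
    apply hNt
    · intro r; rw [hδ]; exact (hγ r).1
    · intro r; exact h1 r
  rw [← h5]
  exact h4

theorem cp_aux (T : Tess X W S A) [Finite A] (w : W) (c : C(I, X))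
    (hc : ∀ t, ∃ a, w⁻¹ • c t ∈ T.D a) (t : I) :
    (T.K w (c 0) (hc 0)).trans (cpR c 0 t) = T.K w (c t) (hc t) := by
  let Q : I → Prop := fun t => (T.K w (c 0) (hc 0)).trans (cpR c 0 t) = T.K w (c t) (hc t)
  have hQ : IsLocallyConstant Q := by
    rw [IsLocallyConstant.iff_eventually_eq]
    intro t0
    filter_upwards [cp_local T w c hc t0] with t ht
    apply propext
    show (T.K w (c 0) (hc 0)).trans (cpR c 0 t) = T.K w (c t) (hc t) ↔
      (T.K w (c 0) (hc 0)).trans (cpR c 0 t0) = T.K w (c t0) (hc t0)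
    rw [← ht, ← cpR_trans c 0 t0 t, ← Path.Homotopic.Quotient.trans_assoc]
    constructor
    · intro h
      have h1 := congrArg (fun z => Path.Homotopic.Quotient.trans z (cpR c t0 t).symm) h
      simpa [Path.Homotopic.Quotient.trans_assoc] using h1
    · intro h
      rw [h]
  have h0 : Q 0 := by
    show (T.K w (c 0) (hc 0)).trans (cpR c 0 0) = T.K w (c 0) (hc 0)
    rw [cpR_refl, Path.Homotopic.Quotient.trans_refl]
  have h1 := hQ.apply_eq_of_preconnectedSpace t 0
  exact h1.mpr h0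

/-- A path inside the chamber `w P` (possibly through several pieces) relates the canonical classes
of its end points. -/
theorem Tess.chamber_path (T : Tess X W S A) [Finite A] (w : W) (y z : X)
    (hy : ∃ a, w⁻¹ • y ∈ T.D a)
    (hz : ∃ a, w⁻¹ • z ∈ T.D a) (γ : Path y z) (hγ : ∀ t, ∃ a, w⁻¹ • γ t ∈ T.D a) :
    (T.K w y hy).trans (Path.Homotopic.Quotient.mk γ) = T.K w z hz := by
  obtain ⟨c, h0, h1⟩ := γ
  subst h0
  subst h1
  have h := cp_aux T w c hγ 1
  have h2 : Path.Homotopic.Quotient.mk (⟨c, rfl, rfl⟩ : Path (c 0) (c 1)) = cpR c 0 1 := by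
    unfold cpR
    congr 1
    ext r
    show c r = c (cpLin 0 1 r)
    congr 1
    ext
    show (r : ℝ) = (1 - (r : ℝ)) * ((0 : I) : ℝ) + r * ((1 : I) : ℝ)
    simp
  rw [← h2] at h
  exact h

end Trom
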