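import Pool.Agent.Helper97.Trom.AbsDef
import Pool.Agent.Helper97.Trom.J_chamber_path

open Set Topology unitInterval

namespace Trom

variable {X W S A : Type} [TopologicalSpace X] [Group W] [MulAction W X]
    [ContinuousConstSMul W X]

/-- The transition class through a face does not depend on the point of the face. -/
theorem Tess.face_indep (T : Tess X W S A) [Finite A] (u v : W) (f : S) (hv : v = u * T.sg f)
    (y y' : X)
    (hy : u⁻¹ • y ∈ T.Fc f) (hy' : u⁻¹ • y' ∈ T.Fc f) (h1 : ∃ a, u⁻¹ • y ∈ T.D a)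
    (h2 : ∃ a, v⁻¹ • y ∈ T.D a) (h1' : ∃ a, u⁻¹ • y' ∈ T.D a) (h2' : ∃ a, v⁻¹ • y' ∈ T.D a) :
    T.tr u v y h1 h2 = T.tr u v y' h1' h2' := by
  obtain ⟨δ, hδ⟩ := T.Fpath f _ _ hy hy'
  let δ' : Path y y' := (δ.map (smulC u).continuous).cast (by simp [smulC]) (by simp [smulC])
  have hδ' : ∀ t, δ' t = u • δ t := fun t => rfl
  have hu : ∀ t, ∃ a, u⁻¹ • δ' t ∈ T.D a := by
    intro t
    rw [hδ', inv_smul_smul]
    exact T.FcP f _ (hδ t)
  have hvt : ∀ t, ∃ a, v⁻¹ • δ' t ∈ T.D a := by
    intro t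
    have h3 : v⁻¹ • δ' t = δ t := by
      rw [hδ', hv, mul_inv_rev, mul_smul, inv_smul_smul, inv_smul_eq_iff]
      exact (T.fix f _ (hδ t)).symm
    rw [h3]
    exact T.FcP f _ (hδ t)
  have e1 := T.chamber_path u y y' h1 h1' δ' hu
  have e2 := T.chamber_path v y y' h2 h2' δ' hvt
  unfold Tess.tr
  have e3 : (Path.Homotopic.Quotient.mk δ').trans (T.K v y' h2').symm = (T.K v y h2).symm := by
    calc (Path.Homotopic.Quotient.mk δ').trans (T.K v y' h2').symm
        = (Path.Homotopic.Quotient.refl y).trans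
          ((Path.Homotopic.Quotient.mk δ').trans (T.K v y' h2').symm) :=
          (Path.Homotopic.Quotient.refl_trans _).symm
      _ = ((T.K v y h2).symm.trans (T.K v y h2)).trans
          ((Path.Homotopic.Quotient.mk δ').trans (T.K v y' h2').symm) := by
          rw [Path.Homotopic.Quotient.symm_trans]
      _ = (T.K v y h2).symm.trans (((T.K v y h2).trans (Path.Homotopic.Quotient.mk δ')).trans
          (T.K v y' h2').symm) := by
          rw [Path.Homotopic.Quotient.trans_assoc, Path.Homotopic.Quotient.trans_assoc]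
      _ = (T.K v y h2).symm := by
          rw [e2, Path.Homotopic.Quotient.trans_symm, Path.Homotopic.Quotient.trans_refl]
  rw [← e1, Path.Homotopic.Quotient.trans_assoc, e3]

end Trom
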