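import Pool.Agent.Helper97.Trom.AbsDef

open Set Topology unitInterval

namespace Trom

variable {X W S A : Type} [TopologicalSpace X] [Group W] [MulAction W X]
    [ContinuousConstSMul W X]

theorem Tess.K_base (T : Tess X W S A) (w : W) (h : ∃ a, w⁻¹ • (w • T.x0) ∈ T.D a) :
    T.K w (w • T.x0) h = Path.Homotopic.Quotient.refl _ := by
  have aux : ∀ (z : X) (hz : z = T.x0) (hz' : ∃ a, z ∈ T.D a) (hy : w • T.x0 = (smulC w) z),
      ((T.κ z hz').map (smulC w)).cast rfl hy = Path.Homotopic.Quotient.refl (w • T.x0) := by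
    intro z hz hz' hy
    subst hz
    have h1 : T.κ T.x0 hz' = Path.Homotopic.Quotient.refl T.x0 := T.κ0
    rw [h1]
    rfl
  exact aux _ (inv_smul_smul w T.x0) h _

end Trom
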