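import Pool.Agent.Helper97.Trom.AbsDef

open Set Topology unitInterval

namespace Trom

variable {X W S A : Type} [TopologicalSpace X] [Group W] [MulAction W X]
    [ContinuousConstSMul W X]

/-- changing the chamber at a common point prolongs a gallery class to a gallery class -/
theorem Tess.gc_change (T : Tess X W S A) (w0 u v : W)
    (c : Path.Homotopic.Quotient (w0 • T.x0) (u • T.x0)) (hc : GC T (fun _ => True) w0 u c)
    (y : X) (hu : ∃ a, u⁻¹ • y ∈ T.D a) (hv : ∃ a, v⁻¹ • y ∈ T.D a) :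
    GC T (fun _ => True) w0 v (c.trans (T.tr u v y hu hv)) := by
  set x : X := u⁻¹ • y with hx
  obtain ⟨a, ha⟩ := hu
  obtain ⟨b, hb⟩ := hv
  have hw : (u⁻¹ * v)⁻¹ • x = v⁻¹ • y := by
    rw [hx, smul_smul]
    congr 1
    group
  have hb' : (u⁻¹ * v)⁻¹ • x ∈ T.D b := by rw [hw]; exact hb
  rcases T.ch x a ha (u⁻¹ * v) b hb' with h | ⟨f, hf, h⟩ | ⟨f, f', hf, hf', h⟩
  · have hvu : v = u := by
      rw [inv_mul_eq_one] at h
      exact h.symm
    subst hvu
    have h1 : T.tr v v y ⟨a, ha⟩ ⟨b, hb⟩ = Path.Homotopic.Quotient.refl _ := by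
      unfold Tess.tr
      exact Path.Homotopic.Quotient.trans_symm _
    rw [h1, Path.Homotopic.Quotient.trans_refl]
    exact hc
  · exact GC.snoc hc f v (by rw [← h]; group) trivial y hf ⟨a, ha⟩ ⟨b, hb⟩
  · have hinv : (T.sg f)⁻¹ = T.sg f := inv_eq_of_mul_eq_one_left (T.sgsg f)
    have hm : (u * T.sg f)⁻¹ • y = x := by
      rw [mul_inv_rev, hinv, mul_smul, ← hx]
      exact T.fix f x hf
    have hv2 : v = u * T.sg f * T.sg f' := by
      rw [mul_assoc, ← h]; group
    have h1 : ∃ a, (u * T.sg f)⁻¹ • y ∈ T.D a := ⟨a, by rw [hm]; exact ha⟩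
    have c1 := GC.snoc hc f (u * T.sg f) rfl trivial y hf ⟨a, ha⟩ h1
    have c2 := GC.snoc c1 f' v hv2 trivial y (by rw [hm]; exact hf') h1 ⟨b, hb⟩
    have h2 : (c.trans (T.tr u (u * T.sg f) y ⟨a, ha⟩ h1)).trans
        (T.tr (u * T.sg f) v y h1 ⟨b, hb⟩) = c.trans (T.tr u v y ⟨a, ha⟩ ⟨b, hb⟩) := by
      rw [Path.Homotopic.Quotient.trans_assoc]
      congr 1
      unfold Tess.tr
      rw [Path.Homotopic.Quotient.trans_assoc]
      congr 1
      rw [← Path.Homotopic.Quotient.trans_assoc, Path.Homotopic.Quotient.symm_trans,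
        Path.Homotopic.Quotient.refl_trans]
    rw [← h2]
    exact c2


end Trom
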