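import Pool.Agent.Helper97.Trom.AbsDef
import Pool.Agent.Helper97.Trom.J_gc_change
import Pool.Agent.Helper97.Trom.J_piece_path
import Pool.Agent.Helper97.Trom.J_K_base

open Set Topology unitInterval

namespace Trom

variable {X W S A : Type} [TopologicalSpace X] [Group W] [MulAction W X]
    [ContinuousConstSMul W X]

theorem gal_trans_cast {a b y y' : X} (c : Path.Homotopic.Quotient a b)
    (d : Path.Homotopic.Quotient b y) (e : y' = y) :
    c.trans (d.cast rfl e) = (c.trans d).cast rfl e := by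
  subst e
  rw [Path.Homotopic.Quotient.cast_rfl_rfl, Path.Homotopic.Quotient.cast_rfl_rfl]

theorem gal_cast_trans {a a' b y : X} (c : Path.Homotopic.Quotient a b)
    (d : Path.Homotopic.Quotient b y) (e : a' = a) :
    (c.cast e rfl).trans d = (c.trans d).cast e rfl := by
  subst e
  rw [Path.Homotopic.Quotient.cast_rfl_rfl, Path.Homotopic.Quotient.cast_rfl_rfl]

theorem gal_cast_inj {a a' b b' : X} (c d : Path.Homotopic.Quotient a b) (e : a' = a) (e' : b' = b)
    (h : c.cast e e' = d.cast e e') : c = d := by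
  subst e e'
  rwa [Path.Homotopic.Quotient.cast_rfl_rfl, Path.Homotopic.Quotient.cast_rfl_rfl] at h

theorem gal_cancel {a b c : X} (p q : Path.Homotopic.Quotient a b)
    (s : Path.Homotopic.Quotient b c) (h : p.trans s = q.trans s) : p = q := by
  have h1 : (p.trans s).trans s.symm = (q.trans s).trans s.symm := by rw [h]
  rwa [Path.Homotopic.Quotient.trans_assoc, Path.Homotopic.Quotient.trans_assoc,
    Path.Homotopic.Quotient.trans_symm, Path.Homotopic.Quotient.trans_refl,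
    Path.Homotopic.Quotient.trans_refl] at h1

theorem Tess.K_cast (T : Tess X W S A) (w : W) {y y' : X} (e : y' = y)
    (h : ∃ a, w⁻¹ • y ∈ T.D a) (h' : ∃ a, w⁻¹ • y' ∈ T.D a) :
    T.K w y' h' = (T.K w y h).cast rfl e := by
  subst e
  rw [Path.Homotopic.Quotient.cast_rfl_rfl]

/-- if a class ends in a gallery class at one chamber, it does so at all chambers of the point -/
theorem Tess.gal_change (T : Tess X W S A) (w0 v1 : W) (y : X)
    (p : Path.Homotopic.Quotient (w0 • T.x0) y) (h1 : ∃ a, v1⁻¹ • y ∈ T.D a)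
    (c : Path.Homotopic.Quotient (w0 • T.x0) (v1 • T.x0)) (hc : GC T (fun _ => True) w0 v1 c)
    (hp : p = c.trans (T.K v1 y h1)) (v : W) (h : ∃ a, v⁻¹ • y ∈ T.D a) :
    ∃ c', GC T (fun _ => True) w0 v c' ∧ p = c'.trans (T.K v y h) := by
  refine ⟨c.trans (T.tr v1 v y h1 h), T.gc_change w0 v1 v c hc y h1 h, ?_⟩
  unfold Tess.tr
  rw [Path.Homotopic.Quotient.trans_assoc, Path.Homotopic.Quotient.trans_assoc,
    Path.Homotopic.Quotient.symm_trans, Path.Homotopic.Quotient.trans_refl, hp]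

/-- nearby points -/
theorem Tess.gal_near (T : Tess X W S A) [Finite A] (x : X) (N : Set X) (hN : N ∈ 𝓝 x) :
    ∀ᶠ y in 𝓝 x, ∀ (v : W) (a : A), v⁻¹ • y ∈ T.D a → v⁻¹ • x ∈ T.D a ∧
      ∃ δ : Path x y, (∀ t, δ t ∈ N) ∧ ∀ t, v⁻¹ • δ t ∈ T.D a := by
  obtain ⟨N1, hN1, hloc⟩ := T.locfin x
  have hfin := T.fin x
  have hE : ∀ᶠ y in 𝓝 x, ∀ v ∈ {w : W | ∃ a, w⁻¹ • x ∈ T.D a}, ∀ a : A, v⁻¹ • y ∈ T.D a →
      v⁻¹ • x ∈ T.D a ∧ ∃ δ : Path x y, (∀ t, δ t ∈ N) ∧ ∀ t, v⁻¹ • δ t ∈ T.D a := by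
    rw [Filter.eventually_all_finite hfin]
    intro v _
    rw [Filter.eventually_all]
    intro a
    by_cases hx : v⁻¹ • x ∈ T.D a
    · have hN2 : (fun z : X => v • z) ⁻¹' N ∈ 𝓝 (v⁻¹ • x) := by
        apply (continuous_const_smul v).continuousAt
        show N ∈ 𝓝 (v • v⁻¹ • x)
        rw [smul_inv_smul]
        exact hN
      have h1 := T.loc a (v⁻¹ • x) hx _ hN2
      have h2 : Filter.Tendsto (fun y : X => v⁻¹ • y) (𝓝 x) (𝓝 (v⁻¹ • x)) :=
        (continuous_const_smul v⁻¹).continuousAt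
      filter_upwards [h2.eventually h1] with y hy hya
      obtain ⟨γ, hγ⟩ := hy hya
      refine ⟨hx, (γ.map (continuous_const_smul v)).cast (by simp) (by simp), fun t => ?_,
        fun t => ?_⟩
      · exact (hγ t).1
      · have h3 : ((γ.map (continuous_const_smul v)).cast
            (show x = v • v⁻¹ • x by simp) (show y = v • v⁻¹ • y by simp)) t = v • γ t := rfl
        rw [h3, inv_smul_smul]
        exact (hγ t).2
    · have h1 : IsClosed ((fun y : X => v⁻¹ • y) ⁻¹' T.D a) :=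
        (T.clD a).preimage (continuous_const_smul v⁻¹)
      have h2 : ((fun y : X => v⁻¹ • y) ⁻¹' T.D a)ᶜ ∈ 𝓝 x := h1.isOpen_compl.mem_nhds hx
      filter_upwards [h2] with y hy hya
      exact absurd hya hy
  filter_upwards [hE, hN1] with y hy1 hy2 v a hva
  obtain ⟨b, hb⟩ := hloc y hy2 v a hva
  exact hy1 v ⟨b, hb⟩ a hva

/-- Every class of paths between two base points is a gallery class. -/
theorem Tess.gallery (T : Tess X W S A) [Finite A] (w0 w : W)
    (c : Path.Homotopic.Quotient (w0 • T.x0) (w • T.x0)) : GC T (fun _ => True) w0 w c := by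
  induction c using Path.Homotopic.Quotient.ind with
  | mk γ =>
  classical
  -- the class of the initial part
  obtain ⟨P, hP⟩ : ∃ P : ∀ t : I, Path.Homotopic.Quotient (w0 • T.x0) (γ t),
      P = fun t => (Path.Homotopic.Quotient.mk (γ.subpath 0 t)).cast γ.source.symm rfl := ⟨_, rfl⟩
  have hPtrans : ∀ s t : I, P t = (P s).trans (Path.Homotopic.Quotient.mk (γ.subpath s t)) := by
    intro s t
    rw [hP]
    simp only
    rw [gal_cast_trans]
    congr 1
    rw [← Path.Homotopic.Quotient.mk_trans, Path.Homotopic.Quotient.eq]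
    exact ⟨(Path.Homotopy.subpathTransSubpath γ 0 s t).symm⟩
  obtain ⟨Q, hQ⟩ : ∃ Q : I → Prop, Q = fun t => ∀ (v : W) (h : ∃ a, v⁻¹ • γ t ∈ T.D a),
      ∃ c', GC T (fun _ => True) w0 v c' ∧ P t = c'.trans (T.K v (γ t) h) := ⟨_, rfl⟩
  have hloc : IsLocallyConstant Q := by
    rw [IsLocallyConstant.iff_eventually_eq]
    intro t0
    obtain ⟨N, hN, htriv⟩ := T.triv (γ t0)
    have h1 := T.gal_near (γ t0) N hN
    have h2 : Filter.Tendsto γ (𝓝 t0) (𝓝 (γ t0)) := γ.continuous.continuousAt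
    obtain ⟨ε, hε, hball⟩ := Metric.mem_nhds_iff.1 (show γ ⁻¹' N ∈ 𝓝 t0 from h2 hN)
    filter_upwards [h2.eventually h1, Metric.ball_mem_nhds t0 hε] with t ht htb
    -- the short segment stays in `N`
    have hseg : ∀ s, γ.subpath t0 t s ∈ N := by
      intro s
      have h3 : γ.subpath t0 t s ∈ Set.range (γ.subpath t0 t) := ⟨s, rfl⟩
      rw [Path.range_subpath] at h3
      obtain ⟨u, hu, hu2⟩ := h3
      rw [← hu2]
      apply hball
      rw [Metric.mem_ball] at htb ⊢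
      refine lt_of_le_of_lt ?_ htb
      have h4 : (u : ℝ) ∈ Set.uIcc (t0 : ℝ) (t : ℝ) := by
        rw [Set.mem_uIcc] at hu ⊢
        exact hu
      have h5 := Set.abs_sub_left_of_mem_uIcc h4
      rw [Subtype.dist_eq, Subtype.dist_eq, Real.dist_eq, Real.dist_eq]
      exact h5
    have hK : ∀ (v : W) (a : A) (hy : v⁻¹ • γ t ∈ T.D a), ∃ hx : v⁻¹ • γ t0 ∈ T.D a,
        (T.K v (γ t0) ⟨a, hx⟩).trans (Path.Homotopic.Quotient.mk (γ.subpath t0 t)) =
          T.K v (γ t) ⟨a, hy⟩ := by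
      intro v a hy
      obtain ⟨hx, δ, hδ1, hδ2⟩ := ht v a hy
      refine ⟨hx, ?_⟩
      rw [← T.piece_path v a (γ t0) (γ t) hx hy δ hδ2]
      congr 1
      rw [Path.Homotopic.Quotient.eq]
      exact htriv _ _ _ _ hseg hδ1
    rw [hQ]
    apply propext
    constructor
    · intro h
      obtain ⟨v1, a, hv1⟩ := T.cov (γ t)
      obtain ⟨hx, hKx⟩ := hK v1 a hv1
      obtain ⟨c', hc', hPt⟩ := h v1 ⟨a, hv1⟩
      rw [hPtrans t0 t, ← hKx, ← Path.Homotopic.Quotient.trans_assoc] at hPt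
      have hPt0 := gal_cancel _ _ _ hPt
      intro v hv
      exact T.gal_change w0 v1 (γ t0) (P t0) ⟨a, hx⟩ c' hc' hPt0 v hv
    · intro h v hv
      obtain ⟨a, hva⟩ := hv
      obtain ⟨hx, hKx⟩ := hK v a hva
      obtain ⟨c', hc', hPt0⟩ := h v ⟨a, hx⟩
      refine ⟨c', hc', ?_⟩
      rw [hPtrans t0 t, hPt0, Path.Homotopic.Quotient.trans_assoc, hKx]
  have hQ0 : Q 0 := by
    rw [hQ]
    obtain ⟨a0, ha0⟩ := T.x0P
    have hb : ∃ a, w0⁻¹ • (w0 • T.x0) ∈ T.D a := ⟨a0, by rw [inv_smul_smul]; exact ha0⟩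
    have hb0 : ∃ a, w0⁻¹ • γ 0 ∈ T.D a := by rw [γ.source]; exact hb
    have h1 : P 0 = (Path.Homotopic.Quotient.refl (w0 • T.x0)).trans (T.K w0 (γ 0) hb0) := by
      rw [T.K_cast w0 γ.source hb hb0, T.K_base w0 hb, Path.Homotopic.Quotient.refl_trans, hP]
      simp only
      rw [Path.subpath_self]
      have h2 : ∀ (a b : X) (e : a = b),
          (Path.Homotopic.Quotient.mk (Path.refl a)).cast e.symm rfl =
            (Path.Homotopic.Quotient.refl b).cast rfl e := by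
        intro a b e
        subst e
        rfl
      exact h2 _ _ γ.source
    intro v hv
    exact T.gal_change w0 w0 (γ 0) (P 0) hb0 _ (GC.nil trivial) h1 v hv
  have hQ1 : Q 1 := by
    rw [← hloc.apply_eq_of_preconnectedSpace 0 1]
    exact hQ0
  rw [hQ] at hQ1
  obtain ⟨a0, ha0⟩ := T.x0P
  have hb : ∃ a, w⁻¹ • (w • T.x0) ∈ T.D a := ⟨a0, by rw [inv_smul_smul]; exact ha0⟩
  have hb1 : ∃ a, w⁻¹ • γ 1 ∈ T.D a := by rw [γ.target]; exact hb
  obtain ⟨c', hc', hP1⟩ := hQ1 w hb1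
  rw [T.K_cast w γ.target hb hb1, T.K_base w hb, gal_trans_cast,
    Path.Homotopic.Quotient.trans_refl, hP] at hP1
  simp only at hP1
  rw [Path.subpath_zero_one, Path.Homotopic.Quotient.mk_cast,
    Path.Homotopic.Quotient.cast_cast] at hP1
  have h3 := gal_cast_inj _ _ rfl γ.target hP1
  rw [h3]
  exact hc'

end Trom
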