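import Pool.Agent.Helper97.Trom.AbsDef

open Set Topology unitInterval

namespace Trom

variable {X W S A : Type} [TopologicalSpace X] [Group W] [MulAction W X]
    [ContinuousConstSMul W X]

theorem Tess.tr_mem (T : Tess X W S A) (u v : W) (f : S) (hv : v = u * T.sg f) (y : X)
    (hy : u⁻¹ • y ∈ T.Fc f) : (∃ a, u⁻¹ • y ∈ T.D a) ∧ (∃ a, v⁻¹ • y ∈ T.D a) ∧
      v⁻¹ • y = u⁻¹ • y := by
  have h : v⁻¹ • y = u⁻¹ • y := by
    rw [hv, mul_inv_rev, mul_smul, inv_smul_eq_iff]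
    exact (T.fix f _ hy).symm
  refine ⟨T.FcP f _ hy, ?_, h⟩
  rw [h]
  exact T.FcP f _ hy

end Trom
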