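import Pool.Agent.Helper97.Trom.AbsDef
import Pool.Agent.Helper97.Trom.J_face_indep
import Pool.Agent.Helper97.Trom.J_tr_mem

open Set Topology unitInterval

namespace Trom

variable {X W S A : Type} [TopologicalSpace X] [Group W] [MulAction W X]
    [ContinuousConstSMul W X]

theorem Tess.peak_tr_trans (T : Tess X W S A) (u v w : W) (y : X)
    (hu : ∃ a, u⁻¹ • y ∈ T.D a) (hv : ∃ a, v⁻¹ • y ∈ T.D a) (hw : ∃ a, w⁻¹ • y ∈ T.D a) :
    (T.tr u v y hu hv).trans (T.tr v w y hv hw) = T.tr u w y hu hw := by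
  unfold Tess.tr
  rw [Path.Homotopic.Quotient.trans_assoc,
    ← Path.Homotopic.Quotient.trans_assoc (T.K v y hv).symm,
    Path.Homotopic.Quotient.symm_trans, Path.Homotopic.Quotient.refl_trans]

theorem Tess.peak_tr_self (T : Tess X W S A) (u : W) (y : X)
    (hu : ∃ a, u⁻¹ • y ∈ T.D a) :
    T.tr u u y hu hu = Path.Homotopic.Quotient.refl _ := by
  unfold Tess.tr
  rw [Path.Homotopic.Quotient.trans_symm]

/-- the chambers around a point of a face -/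
theorem Tess.peak_smul (T : Tess X W S A) (u : W) (f : S) (y : X) (hy : u⁻¹ • y ∈ T.Fc f) :
    (u * T.sg f)⁻¹ • y = u⁻¹ • y := by
  have h1 : (T.sg f)⁻¹ = T.sg f := inv_eq_of_mul_eq_one_left (T.sgsg f)
  rw [mul_inv_rev, mul_smul, h1, T.fix f _ hy]

/-- go around a codimension two face -/
theorem Tess.peak_step (T : Tess X W S A) (R : W → Prop) (w0 u : W) (g g' : S)
    (hcomm : T.sg g * T.sg g' = T.sg g' * T.sg g) (hR : R (u * T.sg g'))
    (hRm : R (u * T.sg g * T.sg g')) (z : X) (hg : u⁻¹ • z ∈ T.Fc g) (hg' : u⁻¹ • z ∈ T.Fc g')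
    (k0 : ∃ a, u⁻¹ • z ∈ T.D a) (k1 : ∃ a, (u * T.sg g)⁻¹ • z ∈ T.D a)
    (k2 : ∃ a, (u * T.sg g')⁻¹ • z ∈ T.D a)
    (c : Path.Homotopic.Quotient (w0 • T.x0) (u • T.x0))
    (hc : GC T R w0 (u * T.sg g) (c.trans (T.tr u (u * T.sg g) z k0 k1))) :
    GC T R w0 (u * T.sg g') (c.trans (T.tr u (u * T.sg g') z k0 k2)) := by
  have e1 : (u * T.sg g)⁻¹ • z = u⁻¹ • z := T.peak_smul u g z hg
  have e2 : (u * T.sg g * T.sg g')⁻¹ • z = (u * T.sg g)⁻¹ • z :=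
    T.peak_smul (u * T.sg g) g' z (by rw [e1]; exact hg')
  have km : ∃ a, (u * T.sg g * T.sg g')⁻¹ • z ∈ T.D a := by rw [e2, e1]; exact k0
  have s1 := GC.snoc hc g' (u * T.sg g * T.sg g') rfl hRm z (by rw [e1]; exact hg') k1 km
  have s2 := GC.snoc s1 g (u * T.sg g') (by
      rw [mul_assoc u, hcomm, ← mul_assoc u, mul_assoc, T.sgsg, mul_one]) hR z
      (by rw [e2, e1]; exact hg) km k2
  rw [Path.Homotopic.Quotient.trans_assoc, Path.Homotopic.Quotient.trans_assoc,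
    T.peak_tr_trans, T.peak_tr_trans] at s2
  exact s2

/-- Replacing a peak or a valley `u1 – u – u2` of a gallery by a path through its link. -/
theorem Tess.peak (T : Tess X W S A) [Finite A] {F : Subgroup W} (H : Hts T F) (R : W → Prop)
    (w0 u : W) (e : ℤ) (he : e = 1 ∨ e = -1)
    (hR : ∀ v, H.ht v = H.ht u + e → R v) (hR2 : ∀ v, H.ht v = H.ht u + e + e → R v)
    (f f' : S) (u1 u2 : W) (h1 : u1 = u * T.sg f) (h2 : u2 = u * T.sg f')
    (hf : H.ht u1 = H.ht u + e) (hf' : H.ht u2 = H.ht u + e)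
    (c : Path.Homotopic.Quotient (w0 • T.x0) (u1 • T.x0)) (hc : GC T R w0 u1 c)
    (y y' : X) (hy : u⁻¹ • y ∈ T.Fc f) (hy' : u⁻¹ • y' ∈ T.Fc f')
    (k1 : ∃ a, u1⁻¹ • y ∈ T.D a) (k2 : ∃ a, u⁻¹ • y ∈ T.D a)
    (k3 : ∃ a, u⁻¹ • y' ∈ T.D a) (k4 : ∃ a, u2⁻¹ • y' ∈ T.D a) :
    GC T R w0 u2 ((c.trans (T.tr u1 u y k1 k2)).trans (T.tr u u2 y' k3 k4)) := by
  subst h1
  subst h2
  have hchain := H.conn u e he f f' hf hf'
  have main : ∀ g, Relation.ReflTransGen (fun a b => H.adj a b ∧ H.ht (u * T.sg b) = H.ht u + e)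
      f g → H.ht (u * T.sg g) = H.ht u + e ∧ ∀ (z : X), u⁻¹ • z ∈ T.Fc g →
      ∀ (l0 : ∃ a, u⁻¹ • z ∈ T.D a) (l1 : ∃ a, (u * T.sg g)⁻¹ • z ∈ T.D a),
      GC T R w0 (u * T.sg g) ((c.trans (T.tr (u * T.sg f) u y k1 k2)).trans
        (T.tr u (u * T.sg g) z l0 l1)) := by
    intro g hg
    induction hg with
    | refl =>
      refine ⟨hf, fun z hz l0 l1 => ?_⟩
      rw [T.face_indep u (u * T.sg f) f rfl z y hz hy l0 l1 k2 k1,
        Path.Homotopic.Quotient.trans_assoc, T.peak_tr_trans, T.peak_tr_self,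
        Path.Homotopic.Quotient.trans_refl]
      exact hc
    | tail hab hbc ih =>
      rename_i g g'
      obtain ⟨hadj, hht⟩ := hbc
      obtain ⟨ih1, ih2⟩ := ih
      refine ⟨hht, fun z hz l0 l1 => ?_⟩
      obtain ⟨x, hx, hx'⟩ := H.adjpt g g' hadj
      have hux : u⁻¹ • (u • x) = x := inv_smul_smul u x
      have hg0 : u⁻¹ • (u • x) ∈ T.Fc g := by rw [hux]; exact hx
      have hg0' : u⁻¹ • (u • x) ∈ T.Fc g' := by rw [hux]; exact hx'
      have m0 : ∃ a, u⁻¹ • (u • x) ∈ T.D a := T.FcP g _ hg0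
      have m1 : ∃ a, (u * T.sg g)⁻¹ • (u • x) ∈ T.D a := by
        rw [T.peak_smul u g _ hg0]; exact m0
      have m2 : ∃ a, (u * T.sg g')⁻¹ • (u • x) ∈ T.D a := by
        rw [T.peak_smul u g' _ hg0']; exact m0
      have h3 := ih2 (u • x) hg0 m0 m1
      have h4 := T.peak_step R w0 u g g' (H.adjcomm g g' hadj) (hR _ hht)
        (hR2 _ (H.adjht g g' hadj u e ih1 hht)) (u • x) hg0 hg0' m0 m1 m2 _ h3
      rw [T.face_indep u (u * T.sg g') g' rfl z (u • x) hz hg0' l0 l1 m0 m2]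
      exact h4
  exact (main f' hchain).2 y' hy' k3 k4

end Trom
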