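import Pool.Agent.Helper97.Trom.AbsDef
import Pool.Agent.Helper97.Trom.J_peak
import Pool.Agent.Helper97.Trom.J_tr_mem

open Set Topology unitInterval

namespace Trom

variable {X W S A : Type} [TopologicalSpace X] [Group W] [MulAction W X]
    [ContinuousConstSMul W X]

theorem GC.last {T : Tess X W S A} {R : W → Prop} {w0 w : W}
    {c : Path.Homotopic.Quotient (w0 • T.x0) (w • T.x0)} (h : GC T R w0 w c) : R w := by
  cases h with
  | nil h => exact h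
  | snoc h f v hv hR y hy h1 h2 => exact hR

theorem Tess.lower_aux (T : Tess X W S A) [Finite A] {F : Subgroup W} (H : Hts T F) (N : ℤ)
    (hN : 1 ≤ N) (w0 w : W) (c : Path.Homotopic.Quotient (w0 • T.x0) (w • T.x0))
    (hc : GC T (fun v => 0 ≤ H.ht v ∧ H.ht v ≤ N + 1) w0 w c) (h0 : H.ht w0 ≤ N) :
    (H.ht w ≤ N → GC T (fun v => 0 ≤ H.ht v ∧ H.ht v ≤ N) w0 w c) ∧
    (H.ht w = N + 1 → ∃ (u : W) (c' : Path.Homotopic.Quotient (w0 • T.x0) (u • T.x0)) (f : S)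
      (y : X) (k1 : ∃ a, u⁻¹ • y ∈ T.D a) (k2 : ∃ a, w⁻¹ • y ∈ T.D a), w = u * T.sg f ∧
      u⁻¹ • y ∈ T.Fc f ∧ H.ht u = N ∧ GC T (fun v => 0 ≤ H.ht v ∧ H.ht v ≤ N) w0 u c' ∧
      c = c'.trans (T.tr u w y k1 k2)) := by
  induction hc with
  | nil h =>
    refine ⟨fun h1 => GC.nil ⟨h.1, h1⟩, fun h1 => ?_⟩
    omega
  | @snoc u c h f v hv hR y hy h1 h2 ih =>
    have hu := h.last
    have hst := H.step u f
    rw [← hv] at hst
    refine ⟨fun hvN => ?_, fun hvN => ?_⟩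
    · rcases hu.2.lt_or_eq with hlt | heq
      · exact GC.snoc (ih.1 (by omega)) f v hv ⟨hR.1, hvN⟩ y hy h1 h2
      · obtain ⟨u0, c', f0, y0, k1, k2, hu0, hy0, hN0, hg, hcc⟩ := ih.2 heq
        have hm := T.tr_mem u0 u f0 hu0 y0 hy0
        have hback : u0 = u * T.sg f0 := by rw [hu0, mul_assoc, T.sgsg, mul_one]
        have hp := T.peak H (fun v => 0 ≤ H.ht v ∧ H.ht v ≤ N) w0 u (-1) (Or.inr rfl)
          (fun v hv => ⟨by omega, by omega⟩) (fun v hv => ⟨by omega, by omega⟩)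
          f0 f u0 v hback hv (by omega) (by omega) c' hg y0 y (by rw [hm.2.2]; exact hy0) hy
          k1 k2 h1 h2
        rw [hcc]
        exact hp
    · have hN0 : H.ht u = N := by omega
      exact ⟨u, c, f, y, h1, h2, hv, hy, hN0, ih.1 hN0.le, rfl⟩

/-- lowering the maximal height of a gallery -/
theorem Tess.lower (T : Tess X W S A) [Finite A] {F : Subgroup W} (H : Hts T F) (N : ℤ)
    (hN : 1 ≤ N) (w0 w : W) (c : Path.Homotopic.Quotient (w0 • T.x0) (w • T.x0))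
    (hc : GC T (fun v => 0 ≤ H.ht v ∧ H.ht v ≤ N + 1) w0 w c) (h0 : H.ht w0 ≤ N)
    (h1 : H.ht w ≤ N) :
    GC T (fun v => 0 ≤ H.ht v ∧ H.ht v ≤ N) w0 w c :=
  (T.lower_aux H N hN w0 w c hc h0).1 h1

end Trom
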