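import Pool.Agent.Helper97.Trom.AbsDef
import Pool.Agent.Helper97.Trom.J_peak
import Pool.Agent.Helper97.Trom.J_tr_mem

open Set Topology unitInterval

namespace Trom

variable {X W S A : Type} [TopologicalSpace X] [Group W] [MulAction W X]
    [ContinuousConstSMul W X]

theorem raise_aux_R {T : Tess X W S A} {R : W → Prop} {w0 w : W}
    {c : Path.Homotopic.Quotient (w0 • T.x0) (w • T.x0)} (hc : GC T R w0 w c) : R w := by
  cases hc with
  | nil h => exact h
  | snoc h f v hv hR y hy h1 h2 => exact hR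

theorem raise_aux (T : Tess X W S A) [Finite A] {F : Subgroup W} (H : Hts T F) (M : ℤ)
    (w0 : W) (h0 : M ≤ H.ht w0) (w : W) (c : Path.Homotopic.Quotient (w0 • T.x0) (w • T.x0))
    (hc : GC T (fun v => M - 1 ≤ H.ht v) w0 w c) :
    (M ≤ H.ht w → GC T (fun v => M ≤ H.ht v) w0 w c) ∧
    (H.ht w = M - 1 → ∃ (u : W) (c' : Path.Homotopic.Quotient (w0 • T.x0) (u • T.x0)) (f : S)
      (y : X) (k1 : ∃ a, u⁻¹ • y ∈ T.D a) (k2 : ∃ a, w⁻¹ • y ∈ T.D a),
      w = u * T.sg f ∧ H.ht u = M ∧ u⁻¹ • y ∈ T.Fc f ∧ GC T (fun v => M ≤ H.ht v) w0 u c' ∧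
      c = c'.trans (T.tr u w y k1 k2)) := by
  induction hc with
  | nil h =>
    refine ⟨fun h1 => GC.nil h1, fun h1 => ?_⟩
    exfalso
    omega
  | @snoc u c h f v hv hR y hy h1 h2 ih =>
    obtain ⟨ih1, ih2⟩ := ih
    have hRu : M - 1 ≤ H.ht u := raise_aux_R (R := fun v => M - 1 ≤ H.ht v) h
    have hst := H.step u f
    rw [← hv] at hst
    have hR' : M - 1 ≤ H.ht v := hR
    rcases lt_or_ge (H.ht u) M with hu | hu
    · have hu1 : H.ht u = M - 1 := by omega
      obtain ⟨u', c', f', y', k1, k2, e1, e2, e3, e4, e5⟩ := ih2 hu1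
      refine ⟨fun _ => ?_, fun h3 => ?_⟩
      · have hv1 : H.ht v = H.ht u + 1 := by omega
        rw [e5]
        have e6 : u' = u * T.sg f' := by
          rw [e1, mul_assoc, T.sgsg, mul_one]
        have e7 : u⁻¹ • y' ∈ T.Fc f' := by
          rw [(T.tr_mem u' u f' e1 y' e3).2.2]
          exact e3
        refine T.peak H _ w0 u 1 (Or.inl rfl) ?_ ?_ f' f u' v e6 hv (by omega) hv1 c' e4 y' y e7 hy
          k1 k2 h1 h2
        · intro z hz
          show M ≤ H.ht z
          omega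
        · intro z hz
          show M ≤ H.ht z
          omega
      · exfalso
        omega
    · refine ⟨fun h3 => ?_, fun h3 => ?_⟩
      · exact GC.snoc (ih1 hu) f v hv h3 y hy h1 h2
      · exact ⟨u, c, f, y, h1, h2, hv, by omega, hy, ih1 hu, rfl⟩

/-- raising the minimal height of a gallery -/
theorem Tess.raise (T : Tess X W S A) [Finite A] {F : Subgroup W} (H : Hts T F) (M : ℤ)
    (w0 w : W) (c : Path.Homotopic.Quotient (w0 • T.x0) (w • T.x0))
    (hc : GC T (fun v => M - 1 ≤ H.ht v) w0 w c) (h0 : M ≤ H.ht w0) (h1 : M ≤ H.ht w) :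
    GC T (fun v => M ≤ H.ht v) w0 w c := by
  exact (raise_aux T H M w0 h0 w c hc).1 h1

end Trom
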