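import Pool.Agent.Helper97.Trom.AbsDef
import Pool.Agent.Helper97.Trom.J_gallery
import Pool.Agent.Helper97.Trom.J_raise
import Pool.Agent.Helper97.Trom.J_lower

open Set Topology unitInterval

namespace Trom

variable {X W S A : Type} [TopologicalSpace X] [Group W] [MulAction W X]
    [ContinuousConstSMul W X]

theorem GC.mono' {T : Tess X W S A} {R R' : W → Prop} (hR : ∀ v, R v → R' v) {w0 w : W}
    {c : Path.Homotopic.Quotient (w0 • T.x0) (w • T.x0)} (h : GC T R w0 w c) :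
    GC T R' w0 w c := by
  induction h with
  | nil h => exact GC.nil (hR _ h)
  | snoc h f v hv hRv y hy h1 h2 ih => exact GC.snoc ih f v hv (hR _ hRv) y hy h1 h2

theorem GC.bdd' {T : Tess X W S A} {R : W → Prop} (ht : W → ℤ) {w0 w : W}
    {c : Path.Homotopic.Quotient (w0 • T.x0) (w • T.x0)} (h : GC T R w0 w c) :
    ∃ M : ℕ, GC T (fun v => R v ∧ -(M : ℤ) ≤ ht v ∧ ht v ≤ (M : ℤ)) w0 w c := by
  induction h with
  | nil h =>
    refine ⟨(ht w0).natAbs, GC.nil ⟨h, ?_, ?_⟩⟩ <;> omega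
  | snoc h f v hv hRv y hy h1 h2 ih =>
    obtain ⟨M, hM⟩ := ih
    refine ⟨M + (ht v).natAbs, GC.snoc (hM.mono' fun v hv => ⟨hv.1, ?_, ?_⟩) f v hv
      ⟨hRv, ?_, ?_⟩ y hy h1 h2⟩
    · have := hv.2.1; rw [Nat.cast_add]; omega
    · have := hv.2.2; rw [Nat.cast_add]; omega
    · rw [Nat.cast_add]; omega
    · rw [Nat.cast_add]; omega

theorem Tess.raiseAll' (T : Tess X W S A) [Finite A] {F : Subgroup W} (H : Hts T F)
    (w0 w : W) (h0 : 0 ≤ H.ht w0) (h1 : 0 ≤ H.ht w)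
    (c : Path.Homotopic.Quotient (w0 • T.x0) (w • T.x0)) (M : ℕ)
    (hc : GC T (fun v => -(M : ℤ) ≤ H.ht v) w0 w c) :
    GC T (fun v => 0 ≤ H.ht v) w0 w c := by
  induction M with
  | zero => exact hc.mono' fun v hv => by simpa using hv
  | succ M ih =>
    apply ih
    apply T.raise H (-(M : ℤ)) w0 w c (hc.mono' fun v hv => ?_) (by omega) (by omega)
    push_cast at hv
    omega

theorem Tess.lowerAll' (T : Tess X W S A) [Finite A] {F : Subgroup W} (H : Hts T F)
    (w0 w : W) (h0 : H.ht w0 ≤ 1) (h1 : H.ht w ≤ 1)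
    (c : Path.Homotopic.Quotient (w0 • T.x0) (w • T.x0)) (N : ℕ)
    (hc : GC T (fun v => 0 ≤ H.ht v ∧ H.ht v ≤ (N : ℤ) + 1) w0 w c) :
    GC T (fun v => 0 ≤ H.ht v ∧ H.ht v ≤ 1) w0 w c := by
  induction N with
  | zero => exact hc.mono' fun v hv => ⟨hv.1, by simpa using hv.2⟩
  | succ N ih =>
    apply ih
    apply T.lower H ((N : ℤ) + 1) (by omega) w0 w c (hc.mono' fun v hv => ?_) (by omega) (by omega)
    refine ⟨hv.1, ?_⟩
    have := hv.2
    push_cast at this
    omega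

/-- Every class between two base points of heights `0` or `1` is a gallery class with all
heights `0` or `1`. -/
theorem Tess.gallery01 (T : Tess X W S A) [Finite A] {F : Subgroup W} (H : Hts T F)
    (w0 w : W) (h0 : H.ht w0 = 0 ∨ H.ht w0 = 1) (h1 : H.ht w = 0 ∨ H.ht w = 1)
    (c : Path.Homotopic.Quotient (w0 • T.x0) (w • T.x0)) :
    GC T (fun v => H.ht v = 0 ∨ H.ht v = 1) w0 w c := by
  have hc := T.gallery w0 w c
  obtain ⟨M, hM⟩ := hc.bdd' H.ht
  have h2 := T.raiseAll' H w0 w (by omega) (by omega) c M (hM.mono' fun v hv => hv.2.1)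
  obtain ⟨N, hN⟩ := h2.bdd' H.ht
  have h3 := T.lowerAll' H w0 w (by omega) (by omega) c N
    (hN.mono' fun v hv => ⟨hv.1, by have := hv.2.2; omega⟩)
  exact h3.mono' fun v hv => by have := hv.1; have := hv.2; omega

end Trom
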