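import Pool.Agent.Helper97.Trom.AbsDef

open Set Topology unitInterval

namespace Trom

variable {X W S A : Type} [TopologicalSpace X] [Group W] [MulAction W X]
    [ContinuousConstSMul W X]

/-- Loops in the quotient lift to paths from `x0` to a translate of `x0`. -/
theorem lift_loop {Y : Type} [TopologicalSpace Y] (F : Subgroup W) (p : C(X, Y))
    (hp : IsQuotientCoveringMap p F) (x0 : X) (α : Path.Homotopic.Quotient (p x0) (p x0)) :
    ∃ g ∈ F, ∃ (h : p (g • x0) = p ((1 : W) • x0)) (h' : p ((1 : W) • x0) = p x0)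
      (c : Path.Homotopic.Quotient ((1 : W) • x0) (g • x0)),
      α = (c.map p).cast h'.symm ((h.trans h').symm) := by
  obtain ⟨γ, rfl⟩ := Path.Homotopic.Quotient.mk_surjective α
  have cov := hp.isCoveringMap
  have hγ0 : (γ : C(I, Y)) 0 = p x0 := γ.source
  obtain ⟨Γ, hΓ, hΓ0⟩ : ∃ Γ : C(I, X), (∀ t, p (Γ t) = γ t) ∧ Γ 0 = x0 :=
    ⟨cov.liftPath γ x0 hγ0, fun t => congr_fun (cov.liftPath_lifts γ x0 hγ0) t,
      cov.liftPath_zero γ x0 hγ0⟩
  have he : p (Γ 1) = p x0 := (hΓ 1).trans γ.target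
  obtain ⟨g, hg⟩ := hp.apply_eq_iff_mem_orbit.1 he
  have hg' : (g : W) • x0 = Γ 1 := hg
  have h' : p ((1 : W) • x0) = p x0 := by rw [one_smul]
  have h : p ((g : W) • x0) = p ((1 : W) • x0) := by rw [hg', he, one_smul]
  refine ⟨g, g.2, h, h', Path.Homotopic.Quotient.mk ⟨Γ, by rw [one_smul]; exact hΓ0, hg'.symm⟩, ?_⟩
  rw [← Path.Homotopic.Quotient.mk_map, ← Path.Homotopic.Quotient.mk_cast]
  congr 1
  ext t
  exact (hΓ t).symm

end Trom
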