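import Pool.Agent.Helper97.Trom.AbsDef

open Set Topology unitInterval

namespace Trom

variable {X W S A : Type} [TopologicalSpace X] [Group W] [MulAction W X]
    [ContinuousConstSMul W X]

theorem Tess.K_smul_aux (T : Tess X W S A) (g u : W) (y z : X) (hz : z = u⁻¹ • y)
    (h : ∃ a, u⁻¹ • y ∈ T.D a) (h' : ∃ a, z ∈ T.D a)
    (e1 : (g * u) • T.x0 = smulC (g * u) T.x0) (e2 : g • y = smulC (g * u) z)
    (e3 : u • T.x0 = smulC u T.x0) (e4 : y = smulC u (u⁻¹ • y))
    (e5 : (g * u) • T.x0 = smulC g (u • T.x0)) (e6 : g • y = smulC g y) :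
    ((T.κ z h').map (smulC (g * u))).cast e1 e2 =
      ((((T.κ (u⁻¹ • y) h).map (smulC u)).cast e3 e4).map (smulC g)).cast e5 e6 := by
  subst hz
  generalize T.κ (u⁻¹ • y) h = q
  induction q using Path.Homotopic.Quotient.ind with
  | mk p =>
    refine congrArg Path.Homotopic.Quotient.mk ?_
    ext t
    exact mul_smul g u (p t)

theorem Tess.K_smul (T : Tess X W S A) (g u : W) (y : X) (h : ∃ a, u⁻¹ • y ∈ T.D a)
    (h' : ∃ a, (g * u)⁻¹ • (g • y) ∈ T.D a) :
    T.K (g * u) (g • y) h' = ((T.K u y h).map (smulC g)).cast (mul_smul g u T.x0) rfl := by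
  refine Tess.K_smul_aux T g u y _ ?_ h h' _ _ _ _ _ _
  rw [mul_inv_rev, mul_smul, inv_smul_smul]

end Trom
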