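import Pool.Agent.Helper97.Trom.AbsDef
import Pool.Agent.Helper97.Trom.J_K_smul

open Set Topology unitInterval

namespace Trom

variable {X W S A : Type} [TopologicalSpace X] [Group W] [MulAction W X]
    [ContinuousConstSMul W X]

/-- in the quotient by `F` translated transition classes agree -/
theorem Tess.tr_map {Y : Type} [TopologicalSpace Y] (T : Tess X W S A) (F : Subgroup W)
    (p : C(X, Y)) (hp : ∀ g ∈ F, ∀ x, p (g • x) = p x) (g : W) (hg : g ∈ F) (u v : W) (y : X)
    (hu : ∃ a, u⁻¹ • y ∈ T.D a) (hv : ∃ a, v⁻¹ • y ∈ T.D a)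
    (hu' : ∃ a, (g * u)⁻¹ • (g • y) ∈ T.D a) (hv' : ∃ a, (g * v)⁻¹ • (g • y) ∈ T.D a)
    (e1 : p ((g * u) • T.x0) = p (u • T.x0)) (e2 : p ((g * v) • T.x0) = p (v • T.x0)) :
    (T.tr (g * u) (g * v) (g • y) hu' hv').map p = ((T.tr u v y hu hv).map p).cast e1 e2 := by
  unfold Tess.tr
  rw [T.K_smul g u y hu hu', T.K_smul g v y hv hv']
  generalize T.K u y hu = c1
  generalize T.K v y hv = c2
  induction c1 using Path.Homotopic.Quotient.ind with
  | _ γ1 =>
  induction c2 using Path.Homotopic.Quotient.ind with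
  | _ γ2 =>
  show Path.Homotopic.Quotient.mk (Path.map (Path.trans
      (Path.cast (γ1.map (smulC g).continuous) (mul_smul g u T.x0) rfl)
      (Path.symm (Path.cast (γ2.map (smulC g).continuous) (mul_smul g v T.x0) rfl))) p.continuous) =
    Path.Homotopic.Quotient.mk (Path.cast (Path.map (Path.trans γ1 γ2.symm) p.continuous) e1 e2)
  congr 1
  ext t
  show p ((Path.trans (Path.cast (γ1.map (smulC g).continuous) (mul_smul g u T.x0) rfl)
      (Path.symm (Path.cast (γ2.map (smulC g).continuous) (mul_smul g v T.x0) rfl))) t) =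
    p ((Path.trans γ1 γ2.symm) t)
  rw [Path.trans_apply, Path.trans_apply]
  split_ifs with h
  · exact hp g hg _
  · exact hp g hg _

end Trom
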