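import Pool.Agent.Helper97.Trom.AbsDef
import Pool.Agent.Helper97.Trom.J_gallery01
import Pool.Agent.Helper97.Trom.J_lift_loop
import Pool.Agent.Helper97.Trom.J_tr_mem
import Pool.Agent.Helper97.Trom.J_face_indep
import Pool.Agent.Helper97.Trom.J_tr_map

open Set Topology unitInterval

namespace Trom

variable {X W S A : Type} [TopologicalSpace X] [Group W] [MulAction W X]
    [ContinuousConstSMul W X]

theorem pq_mul {Y : Type} [TopologicalSpace Y] {a b c d : Y}
    (D1 : Path.Homotopic.Quotient a b) (D2 : Path.Homotopic.Quotient a c)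
    (D3 : Path.Homotopic.Quotient a d)
    (γ : Path.Homotopic.Quotient b c) (γ' : Path.Homotopic.Quotient c d) :
    (D1.trans (γ.trans γ')).trans D3.symm =
      ((D1.trans γ).trans D2.symm).trans ((D2.trans γ').trans D3.symm) := by
  rw [Path.Homotopic.Quotient.trans_assoc, Path.Homotopic.Quotient.trans_assoc,
    Path.Homotopic.Quotient.trans_assoc, Path.Homotopic.Quotient.trans_assoc,
    Path.Homotopic.Quotient.trans_assoc,
    ← Path.Homotopic.Quotient.trans_assoc D2.symm, Path.Homotopic.Quotient.symm_trans,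
    Path.Homotopic.Quotient.refl_trans]

theorem pq_map_trans {X Y : Type} [TopologicalSpace X] [TopologicalSpace Y] {a b c : X}
    (p : C(X, Y)) (γ : Path.Homotopic.Quotient a b) (γ' : Path.Homotopic.Quotient b c) :
    (γ.trans γ').map p = (γ.map p).trans (γ'.map p) := by
  induction γ using Path.Homotopic.Quotient.ind with | mk γ =>
  induction γ' using Path.Homotopic.Quotient.ind with | mk γ' =>
  rw [← Path.Homotopic.Quotient.mk_trans, ← Path.Homotopic.Quotient.mk_map, Path.map_trans]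
  rfl

theorem pq_map_refl {X Y : Type} [TopologicalSpace X] [TopologicalSpace Y] (a : X)
    (p : C(X, Y)) : (Path.Homotopic.Quotient.refl a).map p = Path.Homotopic.Quotient.refl (p a) :=
  rfl

theorem pq_cast {Y : Type} [TopologicalSpace Y] {a a' b b' c : Y}
    (D1 : Path.Homotopic.Quotient c a) (D2 : Path.Homotopic.Quotient c b)
    (γ : Path.Homotopic.Quotient a b) (h : a' = a) (h' : b' = b) :
    ((D1.cast rfl h).trans (γ.cast h h')).trans (D2.cast rfl h').symm =
      (D1.trans γ).trans D2.symm := by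
  subst h h'
  rw [Path.Homotopic.Quotient.cast_rfl_rfl, Path.Homotopic.Quotient.cast_rfl_rfl,
    Path.Homotopic.Quotient.cast_rfl_rfl]

/-- **Main theorem on tessellated spaces**: finite generation of the fundamental group of the
quotient by `F`. -/
theorem Tess.fg_main {Y : Type} [TopologicalSpace Y] [PathConnectedSpace X] (T : Tess X W S A)
    [Finite A] [Finite S] (F : Subgroup W) (H : Hts T F) (p : C(X, Y))
    (hp : IsQuotientCoveringMap p F) :
    Group.FG (FundamentalGroup Y (p T.x0)) := by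
  classical
  have hpm : ∀ g ∈ F, ∀ x, p (g • x) = p x := fun g hg x =>
    hp.apply_eq_iff_mem_orbit.2 ⟨⟨g, hg⟩, rfl⟩
  have hrep : ∀ w, p (w • T.x0) = p (H.rep w • T.x0) := by
    intro w
    obtain ⟨g, hg, h⟩ := H.rep_spec w
    calc p (w • T.x0) = p ((g * H.rep w) • T.x0) := by rw [← h]
      _ = p (g • (H.rep w • T.x0)) := by rw [mul_smul]
      _ = _ := hpm g hg _
  obtain ⟨d0, -⟩ : ∃ d0 : ∀ t : W, Path.Homotopic.Quotient (p T.x0) (p (t • T.x0)), d0 = d0 :=
    ⟨fun t => (Path.Homotopic.Quotient.mk (PathConnectedSpace.somePath T.x0 (t • T.x0))).map p, rfl⟩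
  obtain ⟨D, hD⟩ : ∃ D : ∀ w : W, Path.Homotopic.Quotient (p T.x0) (p (w • T.x0)),
      ∀ g ∈ F, ∀ w (e : p ((g * w) • T.x0) = p (w • T.x0)), D (g * w) = (D w).cast rfl e := by
    refine ⟨fun w => (d0 (H.rep w)).cast rfl (hrep w), ?_⟩
    intro g hg w e
    have key : ∀ (s t : W) (hst : s = t) (z : Y) (e1 : z = p (s • T.x0))
        (e2 : z = p (t • T.x0)), (d0 s).cast rfl e1 = (d0 t).cast rfl e2 := by
      intro s t hst z e1 e2
      subst hst
      rfl
    change (d0 (H.rep (g * w))).cast rfl _ = ((d0 (H.rep w)).cast rfl _).cast rfl _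
    rw [Path.Homotopic.Quotient.cast_cast]
    exact key _ _ (H.rep_inv g hg w) _ _ _
  obtain ⟨L, hL⟩ : ∃ L : ∀ (w v : W), Path.Homotopic.Quotient (w • T.x0) (v • T.x0) →
      Path.Homotopic.Quotient (p T.x0) (p T.x0),
      ∀ w v c, L w v c = ((D w).trans (c.map p)).trans (D v).symm := ⟨_, fun w v c => rfl⟩
  have hLmul : ∀ u w v (c : Path.Homotopic.Quotient (u • T.x0) (w • T.x0))
      (c' : Path.Homotopic.Quotient (w • T.x0) (v • T.x0)),
      L u v (c.trans c') = (L u w c).trans (L w v c') := by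
    intro u w v c c'
    rw [hL, hL, hL, pq_map_trans]
    exact pq_mul _ _ _ _ _
  have hLrefl : ∀ u, L u u (Path.Homotopic.Quotient.refl _) = Path.Homotopic.Quotient.refl _ := by
    intro u
    rw [hL, pq_map_refl, Path.Homotopic.Quotient.trans_refl, Path.Homotopic.Quotient.trans_symm]
  let Z : Set (FundamentalGroup Y (p T.x0)) := {z | ∃ (w : W) (f : S) (y : X)
      (h1 : ∃ a, w⁻¹ • y ∈ T.D a) (h2 : ∃ a, (w * T.sg f)⁻¹ • y ∈ T.D a),
      (H.ht w = 0 ∨ H.ht w = 1) ∧ w⁻¹ • y ∈ T.Fc f ∧
      z = L w (w * T.sg f) (T.tr w (w * T.sg f) y h1 h2)}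
  let Zr : W → S → Set (FundamentalGroup Y (p T.x0)) := fun w f => {z | ∃ (y : X)
      (h1 : ∃ a, w⁻¹ • y ∈ T.D a) (h2 : ∃ a, (w * T.sg f)⁻¹ • y ∈ T.D a),
      w⁻¹ • y ∈ T.Fc f ∧
      z = L w (w * T.sg f) (T.tr w (w * T.sg f) y h1 h2)}
  have hZr : ∀ w f, (Zr w f).Finite := by
    intro w f
    apply Set.Subsingleton.finite
    rintro z ⟨y, h1, h2, h3, rfl⟩ z' ⟨y', h1', h2', h3', rfl⟩
    rw [T.face_indep w (w * T.sg f) f rfl y y' h3 h3' h1 h2 h1' h2']
  have hZfin : Z.Finite := by
    refine Set.Finite.subset (Set.Finite.biUnion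
      (H.rep_fin.prod (Set.finite_univ (α := S))) (t := fun rf => Zr rf.1 rf.2)
      fun rf _ => hZr rf.1 rf.2) ?_
    rintro z ⟨w, f, y, h1, h2, hw, hy, rfl⟩
    rw [Set.mem_iUnion₂]
    refine ⟨(H.rep w, f), ⟨⟨w, hw, rfl⟩, Set.mem_univ _⟩, ?_⟩
    obtain ⟨g, hg, hgw⟩ := H.rep_spec w
    have key : ∀ (r : W), w = g * r → L w (w * T.sg f) (T.tr w (w * T.sg f) y h1 h2) ∈
        Zr r f := by
      intro r hr
      obtain ⟨y', rfl⟩ : ∃ y', y = g • y' := ⟨g⁻¹ • y, by rw [smul_inv_smul]⟩
      subst hr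
      have hy1 : r⁻¹ • y' ∈ T.Fc f := by
        rwa [mul_inv_rev, mul_smul, inv_smul_smul] at hy
      obtain ⟨h3, h4, -⟩ := T.tr_mem r (r * T.sg f) f rfl y' hy1
      refine ⟨y', h3, h4, hy1, ?_⟩
      have key2 : ∀ (v : W) (hv : v = g * (r * T.sg f)) (h2 : ∃ a, v⁻¹ • (g • y') ∈ T.D a),
          L (g * r) v (T.tr (g * r) v (g • y') h1 h2) =
            L r (r * T.sg f) (T.tr r (r * T.sg f) y' h3 h4) := by
        intro v hv h2
        subst hv
        have e1 : p ((g * r) • T.x0) = p (r • T.x0) := by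
          rw [mul_smul]; exact hpm g hg _
        have e2 : p ((g * (r * T.sg f)) • T.x0) = p ((r * T.sg f) • T.x0) := by
          rw [mul_smul]; exact hpm g hg _
        rw [hL, hL, hD g hg r e1, hD g hg (r * T.sg f) e2,
          T.tr_map F p hpm g hg r (r * T.sg f) y' h3 h4 h1 h2 e1 e2]
        exact pq_cast _ _ _ _ _
      exact key2 _ (mul_assoc _ _ _) h2
    exact key (H.rep w) hgw
  have hGC : ∀ (u w : W) (c : Path.Homotopic.Quotient (u • T.x0) (w • T.x0)),
      GC T (fun v => H.ht v = 0 ∨ H.ht v = 1) u w c →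
      (H.ht w = 0 ∨ H.ht w = 1) ∧
      (L u w c : FundamentalGroup Y (p T.x0)) ∈ Subgroup.closure Z := by
    intro u w c hc
    induction hc with
    | nil h =>
      refine ⟨h, ?_⟩
      rw [hLrefl]
      exact Subgroup.one_mem (Subgroup.closure Z)
    | @snoc u' c h f v hv hR y hy h1 h2 ih =>
      refine ⟨hR, ?_⟩
      rw [hLmul]
      refine Subgroup.mul_mem (Subgroup.closure Z) (x := L u' v (T.tr u' v y h1 h2))
        (y := L u u' c) ?_ ih.2
      apply Subgroup.subset_closure
      subst hv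
      exact ⟨u', f, y, h1, h2, ih.1, hy, rfl⟩
  have e0 : p T.x0 = p ((1 : W) • T.x0) := by rw [one_smul]
  have hconj : ∀ α : Path.Homotopic.Quotient (p T.x0) (p T.x0),
      ((((D 1).cast rfl e0).trans α).trans ((D 1).cast rfl e0).symm :
        FundamentalGroup Y (p T.x0)) ∈ Subgroup.closure Z := by
    intro α
    obtain ⟨g, hg, h, h', c, hc⟩ := lift_loop F p hp T.x0 α
    have hgc := (hGC 1 g c (T.gallery01 H 1 g (Or.inl H.ht1) (Or.inl (by
      have := H.htF g hg 1
      rw [mul_one, H.ht1] at this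
      exact this)) c)).2
    have e3 : L 1 g c = (((D 1).cast rfl e0).trans α).trans ((D 1).cast rfl e0).symm := by
      rw [hL, hc]
      have e4 : D g = (D 1).cast rfl h := by
        have e5 : ∀ g' : W, g' = g → ∀ (e : p (g' • T.x0) = p ((1 : W) • T.x0)),
            D g' = (D 1).cast rfl e → D g = (D 1).cast rfl h := by
          rintro _ rfl e he
          exact he
        exact e5 (g * 1) (mul_one g) _ (hD g hg 1 (by rw [mul_one]; exact h))
      rw [e4]
      generalize D 1 = D1
      generalize c.map p = c1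
      clear hc hgc e4
      have e6 : ∀ (a b c x : Y) (D1 : Path.Homotopic.Quotient a b)
          (c1 : Path.Homotopic.Quotient b c) (h : c = b) (h' : b = a),
          (D1.trans c1).trans (D1.cast rfl h).symm =
            ((D1.cast rfl h'.symm).trans (c1.cast h'.symm ((h.trans h').symm))).trans
              (D1.cast rfl h'.symm).symm := by
        intro a b c x D1 c1 h h'
        subst h h'
        rw [Path.Homotopic.Quotient.cast_rfl_rfl, Path.Homotopic.Quotient.cast_rfl_rfl]
      exact e6 _ _ _ (p T.x0) D1 c1 h h'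
    rw [e3] at hgc
    exact hgc
  have htop : Subgroup.closure Z = ⊤ := by
    rw [eq_top_iff]
    intro β _
    have h1 := hconj ((((D 1).cast rfl e0).symm.trans β).trans ((D 1).cast rfl e0))
    have h2 : ∀ (a : Y) (δ β : Path.Homotopic.Quotient a a),
        (δ.trans ((δ.symm.trans β).trans δ)).trans δ.symm = β := by
      intro a δ β
      rw [Path.Homotopic.Quotient.trans_assoc, Path.Homotopic.Quotient.trans_assoc,
        Path.Homotopic.Quotient.trans_symm, Path.Homotopic.Quotient.trans_refl,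
        ← Path.Homotopic.Quotient.trans_assoc, Path.Homotopic.Quotient.trans_symm,
        Path.Homotopic.Quotient.refl_trans]
    rw [h2] at h1
    exact h1
  rw [Group.fg_def, Subgroup.fg_iff]
  exact ⟨Z, htop, hZfin⟩

end Trom
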