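import Pool.Agent.Helper97.Trom.Geo

open Matrix Set Topology

namespace Trom

theorem adj_facts : ∀ f g : Fin 18, adjF f g → d2 (fb f) (fb g) = 1 ∧ col (fb f) ≠ col (fb g) := by
  decide +kernel

end Trom
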