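import Pool.Agent.Helper97.Trom.Geo

open Matrix Set Topology

namespace Trom

theorem ct_path (P : Fin 18 → Prop) (par : Fin 18 → Fin 18) (root : Fin 18)
    (h1 : ∀ v, P v → v ≠ root → adjF v (par v) ∧ P (par v)) :
    ∀ (n : ℕ) (v : Fin 18), P v → par^[n] v = root →
      Relation.ReflTransGen (fun a b => adjF a b ∧ P b) v root ∧
        Relation.ReflTransGen (fun a b => adjF a b ∧ P b) root v := by
  intro n
  induction n with
  | zero =>
    intro v _ hv
    have : v = root := hv
    rw [this]
    exact ⟨Relation.ReflTransGen.refl, Relation.ReflTransGen.refl⟩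
  | succ n ih =>
    intro v hP hv
    by_cases hr : v = root
    · rw [hr]
      exact ⟨Relation.ReflTransGen.refl, Relation.ReflTransGen.refl⟩
    · obtain ⟨ha, hp⟩ := h1 v hP hr
      rw [Function.iterate_succ_apply] at hv
      obtain ⟨i1, i2⟩ := ih (par v) hp hv
      exact ⟨Relation.ReflTransGen.head ⟨ha, hp⟩ i1, Relation.ReflTransGen.tail i2 ⟨ha.symm, hP⟩⟩

theorem ct_conn (P : Fin 18 → Prop) (par : Fin 18 → Fin 18) (root : Fin 18)
    (h1 : ∀ v, P v → v ≠ root → adjF v (par v) ∧ P (par v))
    (h2 : ∀ v, P v → par^[9] v = root) (f g : Fin 18) (hf : P f) (hg : P g) :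
    Relation.ReflTransGen (fun a b => adjF a b ∧ P b) f g :=
  (ct_path P par root h1 9 f hf (h2 f hf)).1.trans (ct_path P par root h1 9 g hg (h2 g hg)).2

/-- parent table for equal signs -/
def ctPar1 : Fin 18 → Fin 18 := ![0, 0, 0, 3, 2, 4, 8, 1, 10, 3, 16, 5, 13, 7, 12, 9, 17, 15]

/-- parent table for different signs -/
def ctPar2 : Fin 18 → Fin 18 := ![0, 1, 3, 1, 10, 3, 0, 6, 2, 7, 11, 9, 6, 15, 8, 14, 14, 11]

/-- the legal system of states: for each choice of signs `e0, e1 = ±1` of the two colours the faces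
of equal sign are connected -/
theorem conn_table (e0 e1 : ℤ) (h0 : e0 = 1 ∨ e0 = -1) (h1 : e1 = 1 ∨ e1 = -1) (e : ℤ)
    (he : e = 1 ∨ e = -1) (f g : Fin 18)
    (hf : (if col (fb f) then e1 else e0) * sgn (fb f) = e)
    (hg : (if col (fb g) then e1 else e0) * sgn (fb g) = e) :
    Relation.ReflTransGen
      (fun a b => adjF a b ∧ (if col (fb b) then e1 else e0) * sgn (fb b) = e) f g := by
  rcases h0 with rfl | rfl <;> rcases h1 with rfl | rfl <;> rcases he with rfl | rfl
  · exact ct_conn (fun b => (if col (fb b) then (1 : ℤ) else 1) * sgn (fb b) = 1) ctPar1 3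
      (by decide) (by decide) f g hf hg
  · exact ct_conn (fun b => (if col (fb b) then (1 : ℤ) else 1) * sgn (fb b) = -1) ctPar1 0
      (by decide) (by decide) f g hf hg
  · exact ct_conn (fun b => (if col (fb b) then (-1 : ℤ) else 1) * sgn (fb b) = 1) ctPar2 1
      (by decide) (by decide) f g hf hg
  · exact ct_conn (fun b => (if col (fb b) then (-1 : ℤ) else 1) * sgn (fb b) = -1) ctPar2 0
      (by decide) (by decide) f g hf hg
  · exact ct_conn (fun b => (if col (fb b) then (1 : ℤ) else -1) * sgn (fb b) = 1) ctPar2 0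
      (by decide) (by decide) f g hf hg
  · exact ct_conn (fun b => (if col (fb b) then (1 : ℤ) else -1) * sgn (fb b) = -1) ctPar2 1
      (by decide) (by decide) f g hf hg
  · exact ct_conn (fun b => (if col (fb b) then (-1 : ℤ) else -1) * sgn (fb b) = 1) ctPar1 0
      (by decide) (by decide) f g hf hg
  · exact ct_conn (fun b => (if col (fb b) then (-1 : ℤ) else -1) * sgn (fb b) = -1) ctPar1 3
      (by decide) (by decide) f g hf hg

end Trom
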