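import Pool.Agent.Helper97.Trom.Geo

open Matrix Set Topology

namespace Trom

theorem ht_simple (w : W) (i : Fin 16) : ht (w * cs.simple i) =
    ht w + (if col i then epsD (rho w).2 else epsD (rho w).1) * sgn i := by
  have h1 : posD (1 : DihedralGroup 0) = 0 := rfl
  have h2 : posD (DihedralGroup.sr (sgn i : ℤ) : DihedralGroup 0) = sgn i := rfl
  unfold ht
  rw [map_mul, rho_simple, Prod.fst_mul, Prod.snd_mul, posD_mul, posD_mul]
  unfold rhoGen
  split_ifs with h
  · show _ + _ * posD (1 : DihedralGroup 0) + (_ + _ * posD (DihedralGroup.sr (sgn i : ℤ) : DihedralGroup 0)) = _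
    rw [h1, h2]; ring
  · show _ + _ * posD (DihedralGroup.sr (sgn i : ℤ) : DihedralGroup 0) + (_ + _ * posD (1 : DihedralGroup 0)) = _
    rw [h1, h2]; ring

end Trom
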