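import Pool.Agent.Helper97.Trom.Geo

open Matrix Set Topology

namespace Trom

theorem epsD_cases (g : DihedralGroup 0) : epsD g = 1 ∨ epsD g = -1 := by
  rcases g with a | a
  · left; rfl
  · right; rfl

theorem mem_FW_of_key (g w : W) (h1 : epsD (rho (g * w)).1 = epsD (rho w).1)
    (h2 : epsD (rho (g * w)).2 = epsD (rho w).2) (h3 : ht (g * w) = ht w) : g ∈ FW := by
  have e1 : epsD (rho g).1 = 1 := by
    rw [map_mul, Prod.fst_mul, epsD_mul] at h1
    rcases epsD_cases (rho w).1 with h | h
    · rw [h] at h1; linarith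
    · rw [h] at h1; linarith
  have e2 : epsD (rho g).2 = 1 := by
    rw [map_mul, Prod.snd_mul, epsD_mul] at h2
    rcases epsD_cases (rho w).2 with h | h
    · rw [h] at h2; linarith
    · rw [h] at h2; linarith
  refine ⟨⟨e1, e2⟩, ?_⟩
  simp only [ht] at h3 ⊢
  rw [map_mul, Prod.fst_mul, Prod.snd_mul, posD_mul, posD_mul, e1, e2] at h3
  linarith

/-- representatives of the cosets `F w` -/
theorem reps_exist : ∃ rep : W → W, (∀ w, ∃ g ∈ FW, w = g * rep w) ∧
    (∀ g ∈ FW, ∀ w, rep (g * w) = rep w) ∧ (rep '' {w | ht w = 0 ∨ ht w = 1}).Finite := by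
  classical
  let s : Setoid W := QuotientGroup.rightRel FW
  let rep : W → W := fun w => Quotient.out (Quotient.mk s w)
  have hrel : ∀ a b : W, s a b ↔ b * a⁻¹ ∈ FW := fun a b => QuotientGroup.rightRel_apply
  have hinv : ∀ g ∈ FW, ∀ w, rep (g * w) = rep w := by
    intro g hg w
    have : Quotient.mk s (g * w) = Quotient.mk s w := by
      apply Quotient.sound
      change s (g * w) w
      rw [hrel]
      have : w * (g * w)⁻¹ = g⁻¹ := by group
      rw [this]
      exact FW.inv_mem hg
    simp only [rep, this]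
  refine ⟨rep, ?_, hinv, ?_⟩
  · intro w
    refine ⟨w * (rep w)⁻¹, ?_, by group⟩
    have h1 : s (rep w) w := Quotient.mk_out (s := s) w
    exact (hrel _ _).1 h1
  · let k : W → ℤ × ℤ × ℤ := fun w => (epsD (rho w).1, epsD (rho w).2, ht w)
    have hk : ∀ w w', k w = k w' → rep w = rep w' := by
      intro w w' h
      simp only [k, Prod.mk.injEq] at h
      obtain ⟨h1, h2, h3⟩ := h
      have hg : (w * w'⁻¹) ∈ FW := by
        apply mem_FW_of_key (w * w'⁻¹) w'
        · rw [inv_mul_cancel_right]; exact h1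
        · rw [inv_mul_cancel_right]; exact h2
        · rw [inv_mul_cancel_right]; exact h3
      have := hinv _ hg w'
      rwa [inv_mul_cancel_right] at this
    let φ : ℤ × ℤ × ℤ → W := fun t => if h : ∃ w, k w = t then rep h.choose else 1
    have hφ : ∀ w, rep w = φ (k w) := by
      intro w
      have h : ∃ w', k w' = k w := ⟨w, rfl⟩
      simp only [φ, h, dif_pos]
      exact hk _ _ h.choose_spec.symm
    have hfin : (({1, -1} : Set ℤ) ×ˢ (({1, -1} : Set ℤ) ×ˢ ({0, 1} : Set ℤ))).Finite := by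
      refine Set.Finite.prod (Set.toFinite _) (Set.Finite.prod (Set.toFinite _) (Set.toFinite _))
    refine (hfin.image φ).subset ?_
    rintro _ ⟨w, hw, rfl⟩
    refine ⟨k w, ?_, (hφ w).symm⟩
    exact ⟨epsD_cases _, epsD_cases _, hw⟩

end Trom
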