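import Pool.Agent.Helper97.Trom.Top
import Pool.Agent.Helper97.Trom.AbsDef
import Pool.Agent.Helper97.Trom.J_ht_simple
import Pool.Agent.Helper97.Trom.J_adj_facts
import Pool.Agent.Helper97.Trom.J_conn_table
import Pool.Agent.Helper97.Trom.J_adj_point
import Pool.Agent.Helper97.Trom.J_reps_exist

open Matrix Set Topology

namespace Trom

theorem hts_exists_eps (g : DihedralGroup 0) : epsD g = 1 ∨ epsD g = -1 := by
  rcases g with a | a
  · exact Or.inl rfl
  · exact Or.inr rfl

theorem hts_exists_sgn (i : Fin 16) : sgn i = 1 ∨ sgn i = -1 := by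
  revert i
  decide

theorem hts_exists_comm (i j : Fin 16) (h : d2 i j = 1) :
    cs.simple i * cs.simple j = cs.simple j * cs.simple i := by
  by_cases hij : i = j
  · rw [hij]
  · have h1 : (cs.simple i * cs.simple j) ^ (coxM.M i j) = 1 := cs.simple_mul_simple_pow i j
    have h2 : coxM.M i j = 2 := by
      show (if i = j then 1 else if d2 i j = 1 then 2 else 0) = 2
      rw [if_neg hij, if_pos h]
    rw [h2, pow_two] at h1
    have h3 : cs.simple i * cs.simple j = (cs.simple i * cs.simple j)⁻¹ := eq_inv_of_mul_eq_one_left h1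
    rw [h3, _root_.mul_inv_rev, cs.inv_simple, cs.inv_simple]

/-- the height function -/
theorem hts_exists (T : Tess Om W (Fin 18) (Fin 8)) (hs : T.sg = fun f => cs.simple (fb f))
    (hF : T.Fc = fun f => {x : Om | x.1 ∈ FcS f}) : Nonempty (Hts T FW) := by
  obtain ⟨rep, hrep1, hrep2, hrep3⟩ := reps_exist
  have hsf : ∀ f, T.sg f = cs.simple (fb f) := fun f => by rw [hs]
  have hiff : ∀ (w : W) (f : Fin 18) (e : ℤ), ht (w * T.sg f) = ht w + e ↔
      (if col (fb f) then epsD (rho w).2 else epsD (rho w).1) * sgn (fb f) = e := by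
    intro w f e
    rw [hsf, ht_simple]
    constructor
    · intro h; linarith
    · intro h; linarith
  refine ⟨{
    ht := ht
    adj := adjF
    rep := rep
    ht1 := by rw [ht, map_one]; rfl
    htF := ?_
    step := ?_
    adjpt := ?_
    adjcomm := ?_
    adjht := ?_
    conn := ?_
    rep_spec := hrep1
    rep_inv := hrep2
    rep_fin := hrep3 }⟩
  · rintro g ⟨⟨h1, h2⟩, h3⟩ w
    have h3' : posD (rho g).1 + posD (rho g).2 = 0 := h3
    show posD (rho (g * w)).1 + posD (rho (g * w)).2 = posD (rho w).1 + posD (rho w).2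
    rw [map_mul, Prod.fst_mul, Prod.snd_mul, posD_mul, posD_mul, h1, h2]
    linarith
  · intro w f
    rw [hsf, ht_simple]
    have h1 : (if col (fb f) then epsD (rho w).2 else epsD (rho w).1) = 1 ∨
        (if col (fb f) then epsD (rho w).2 else epsD (rho w).1) = -1 := by
      split_ifs
      · exact hts_exists_eps _
      · exact hts_exists_eps _
    rcases h1 with h1 | h1 <;> rcases hts_exists_sgn (fb f) with h2 | h2 <;> rw [h1, h2]
    · left; ring
    · right; ring
    · right; ring
    · left; ring
  · intro f f' hadj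
    obtain ⟨x, hx, hx'⟩ := adj_point f f' hadj
    refine ⟨⟨x, P0_sub_Om hx.1⟩, ?_, ?_⟩
    · rw [hF]; exact hx
    · rw [hF]; exact hx'
  · intro f f' hadj
    rw [hsf, hsf]
    exact hts_exists_comm _ _ (adj_facts f f' hadj).1
  · intro f f' hadj w e h1 h2
    have hcol := (adj_facts f f' hadj).2
    rw [hiff] at h2
    rw [hsf f', ht_simple, h1, hsf f]
    have hr : rho (w * cs.simple (fb f)) = rho w * rhoGen (fb f) := by
      rw [map_mul, rho_simple]
    have h3 : (if col (fb f') then epsD (rho (w * cs.simple (fb f))).2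
        else epsD (rho (w * cs.simple (fb f))).1) =
        (if col (fb f') then epsD (rho w).2 else epsD (rho w).1) := by
      rw [hr]
      unfold rhoGen
      cases hc' : col (fb f') <;> cases hc : col (fb f)
      · rw [hc, hc'] at hcol; exact absurd rfl hcol
      · simp
      · simp
      · rw [hc, hc'] at hcol; exact absurd rfl hcol
    rw [h3, h2]
  · intro w e he f f' h1 h2
    rw [hiff] at h1 h2
    have h := conn_table (epsD (rho w).1) (epsD (rho w).2) (hts_exists_eps _) (hts_exists_eps _) e he
      f f' h1 h2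
    refine Relation.ReflTransGen.mono ?_ f f' h
    rintro a b ⟨h3, h4⟩
    exact ⟨h3, (hiff w b e).2 h4⟩

end Trom
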