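import Pool.Agent.Helper97.Trom.Top
import Pool.Agent.Helper97.Trom.J_chamber_meet

open Matrix Set Topology

namespace Trom

/-- a point of `Om` in the closed chamber lies in `P0` -/
theorem Om_closed_chamber (x : Sph) (hx : x ∈ Om) (h : ∀ i, lor x.1 (ev i) ≤ 0) : x ∈ P0 := by
  obtain ⟨w, hw⟩ := hx
  have e : (w⁻¹)⁻¹ • (w⁻¹ • x) = x := by rw [smul_smul, inv_mul_cancel, one_smul]
  have hPa : Pa (w⁻¹ • x) := by
    obtain ⟨a, ha⟩ := hw
    exact ha.1
  obtain ⟨h1, -⟩ := chamber_meet (w⁻¹ • x) hPa w⁻¹ (by intro i; rw [e]; exact h i)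
  rw [e] at h1
  rw [h1]
  exact hw

end Trom
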