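import Pool.Agent.Helper97.Trom.Top
import Pool.Agent.Helper97.Trom.AbsDef
import Pool.Agent.Helper97.Trom.J_Om_closed_chamber

open Matrix Set Topology

namespace Trom

theorem isClosed_Lin' (a : Fin 8) : IsClosed {v : V5 | Lin a v} := by
  have h := @isClosed_le ℝ V5 _ _ _ _
  fin_cases a
  · exact h (f := fun v => 2 * (v 0 - v 4)) (g := fun v => v 1) (by fun_prop) (by fun_prop)
  · exact h (f := fun v => v 1) (g := fun v => 0) (by fun_prop) (by fun_prop)
  · exact h (f := fun v => 2 * (v 0 - v 4)) (g := fun v => v 2) (by fun_prop) (by fun_prop)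
  · exact h (f := fun v => v 2) (g := fun v => 0) (by fun_prop) (by fun_prop)
  · exact h (f := fun v => v 0 - v 4) (g := fun v => v 3) (by fun_prop) (by fun_prop)
  · exact h (f := fun v => v 3) (g := fun v => 0) (by fun_prop) (by fun_prop)
  · exact (h (f := fun v => v 0 - v 4) (g := fun v => v 1) (by fun_prop) (by fun_prop)).inter
      ((h (f := fun v => v 0 - v 4) (g := fun v => v 2) (by fun_prop) (by fun_prop)).inter
        (h (f := fun v => 3 * (v 0 - v 4)) (g := fun v => v 1 + v 2) (by fun_prop) (by fun_prop)))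
  · exact (h (f := fun v => v 0 - v 4) (g := fun v => v 1) (by fun_prop) (by fun_prop)).inter
      ((h (f := fun v => v 0 - v 4) (g := fun v => v 2) (by fun_prop) (by fun_prop)).inter
        ((h (f := fun v => v 1 + v 2) (g := fun v => 3 * (v 0 - v 4)) (by fun_prop)
          (by fun_prop)).inter
          ((h (f := fun v => 0) (g := fun v => v 3) (by fun_prop) (by fun_prop)).inter
            ((h (f := fun v => v 3) (g := fun v => v 0 - v 4) (by fun_prop) (by fun_prop)).inter
              (h (f := fun v => v 0) (g := fun v => 10 * (v 0 - v 4)) (by fun_prop)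
                (by fun_prop))))))

theorem continuous_lor_left' (y : V5) : Continuous (fun x : V5 => lor x y) := by
  unfold lor
  fun_prop

/-- the pieces are closed in `Om` -/
theorem cl_Om (a : Fin 8) : IsClosed {x : Om | x.1 ∈ Dp a} := by
  have hset : {x : Om | x.1 ∈ Dp a} =
      (⋂ i : Fin 16, {x : Om | lor x.1.1 (ev i) ≤ 0}) ∩ {x : Om | Lin a x.1.1} := by
    ext x
    constructor
    · rintro ⟨hPa, hL⟩
      exact ⟨Set.mem_iInter.mpr fun i => hPa.1 i, hL⟩
    · rintro ⟨h1, h2⟩
      have h3 : ∀ i, lor x.1.1 (ev i) ≤ 0 := fun i => Set.mem_iInter.mp h1 i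
      obtain ⟨b, hb⟩ := Om_closed_chamber x.1 x.2 h3
      exact ⟨hb.1, h2⟩
  have hcont : Continuous (fun x : Om => (x.1.1 : V5)) :=
    continuous_subtype_val.comp continuous_subtype_val
  rw [hset]
  apply IsClosed.inter
  · apply isClosed_iInter
    intro i
    exact isClosed_le ((continuous_lor_left' (ev i)).comp hcont) continuous_const
  · exact (isClosed_Lin' a).preimage hcont

end Trom
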