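import Pool.Agent.Helper97.Trom.Top
import Pool.Agent.Helper97.Trom.J_chamber_meet

open Matrix Set Topology

namespace Trom

theorem fin_Om (x : Sph) (hx : x ∈ Om) : {w : W | w⁻¹ • x ∈ P0}.Finite := by
  obtain ⟨w0, hw0⟩ := hx
  have hPa : Pa (w0⁻¹ • x) := by
    obtain ⟨a, h⟩ := hw0
    exact h.1
  have hfin : (({1} ∪ Set.range (fun i : Fin 16 => cs.simple i)) ∪
      Set.range (fun p : Fin 16 × Fin 16 => cs.simple p.1 * cs.simple p.2) : Set W).Finite :=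
    ((Set.finite_singleton _).union (Set.finite_range _)).union (Set.finite_range _)
  refine (hfin.image (fun v => w0 * v)).subset ?_
  intro w hw
  have hw' : w⁻¹ • x ∈ P0 := hw
  have hv : (w0⁻¹ * w)⁻¹ • (w0⁻¹ • x) = w⁻¹ • x := by
    rw [smul_smul]
    congr 1
    group
  have hPw : Pa (w⁻¹ • x) := by
    obtain ⟨a, h⟩ := hw'
    exact h.1
  have h1 := (chamber_meet (w0⁻¹ • x) hPa (w0⁻¹ * w) (by rw [hv]; exact hPw.1)).2
  refine ⟨w0⁻¹ * w, ?_, by group⟩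
  rcases h1 with h1 | ⟨i, _, h1⟩ | ⟨i, j, _, _, _, h1⟩
  · exact Or.inl (Or.inl h1)
  · exact Or.inl (Or.inr ⟨i, h1.symm⟩)
  · exact Or.inr ⟨(i, j), h1.symm⟩

end Trom
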