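import Pool.Agent.Helper97.Trom.Top
import Pool.Agent.Helper97.Trom.AbsDef

open Matrix Set Topology

namespace Trom

theorem kappa_abs_trans_mem {X : Type} [TopologicalSpace X] {x y z : X} {E : Set X}
    (γ : Path x y) (γ' : Path y z) (h : ∀ t, γ t ∈ E) (h' : ∀ t, γ' t ∈ E) :
    ∀ t, (γ.trans γ') t ∈ E := by
  intro t
  have h1 : (γ.trans γ') t ∈ Set.range (γ.trans γ') := ⟨t, rfl⟩
  rw [Path.trans_range] at h1
  rcases h1 with ⟨s, hs⟩ | ⟨s, hs⟩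
  · rw [← hs]; exact h s
  · rw [← hs]; exact h' s

/-- Canonical homotopy classes of paths in a chamber made of simply connected pieces. -/
theorem kappa_abs {X : Type} [TopologicalSpace X] (D : Fin 8 → Set X) (x0 m : X)
    (hx0 : ∀ a, a ≠ 7 → x0 ∈ D a) (hm6 : m ∈ D 6)
    (hsc : ∀ (a : Fin 8) (y z : X) (γ γ' : Path y z), (∀ t, γ t ∈ D a) → (∀ t, γ' t ∈ D a) →
      Path.Homotopic γ γ')
    (hj : ∀ a b, a ≠ 7 → b ≠ 7 → ∀ y, y ∈ D a → y ∈ D b →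
      ∃ γ : Path x0 y, ∀ t, γ t ∈ D a ∧ γ t ∈ D b)
    (h77 : ∀ y, y ∈ D 7 → ∃ γ : Path m y, ∀ t, γ t ∈ D 7)
    (h7 : ∀ b, b ≠ 7 → ∀ y, y ∈ D 7 → y ∈ D b →
      y ∈ D 6 ∧ ∃ γ : Path m y, ∀ t, γ t ∈ D 6 ∧ γ t ∈ D 7) :
    ∃ κ : ∀ y : X, (∃ a, y ∈ D a) → Path.Homotopic.Quotient x0 y,
      (∀ h : (∃ a, x0 ∈ D a), κ x0 h = Path.Homotopic.Quotient.refl x0) ∧
      ∀ (a : Fin 8) (y z : X) (hy : y ∈ D a) (hz : z ∈ D a) (γ : Path y z), (∀ t, γ t ∈ D a) →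
        (κ y ⟨a, hy⟩).trans (Path.Homotopic.Quotient.mk γ) = κ z ⟨a, hz⟩ := by
  classical
  have h67 : (6 : Fin 8) ≠ 7 := by decide
  obtain ⟨γ0, hγ0'⟩ := hj 6 6 h67 h67 m hm6 hm6
  have hγ0 : ∀ t, γ0 t ∈ D 6 := fun t => (hγ0' t).1
  let G : Fin 8 → (y : X) → Path.Homotopic.Quotient x0 y → Prop := fun a y c =>
    (a ≠ 7 ∧ ∃ γ : Path x0 y, (∀ t, γ t ∈ D a) ∧ Path.Homotopic.Quotient.mk γ = c) ∨
    (a = 7 ∧ ∃ γ : Path m y, (∀ t, γ t ∈ D 7) ∧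
      Path.Homotopic.Quotient.mk (γ0.trans γ) = c)
  have hex : ∀ a y, y ∈ D a → ∃ c, G a y c := by
    intro a y hy
    by_cases ha : a = 7
    · subst ha
      obtain ⟨γ, hγ⟩ := h77 y hy
      exact ⟨_, Or.inr ⟨rfl, γ, hγ, rfl⟩⟩
    · obtain ⟨γ, hγ⟩ := hj a a ha ha y hy hy
      exact ⟨_, Or.inl ⟨ha, γ, fun t => (hγ t).1, rfl⟩⟩
  -- a class at `7` is the class of a path in `D 6` if `y` belongs to another piece
  have hto6 : ∀ b, b ≠ 7 → ∀ y, y ∈ D 7 → y ∈ D b → ∀ γ : Path m y, (∀ t, γ t ∈ D 7) →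
      ∀ γ' : Path x0 y, (∀ t, γ' t ∈ D b) →
      Path.Homotopic.Quotient.mk (γ0.trans γ) = Path.Homotopic.Quotient.mk γ' := by
    intro b hb y hy7 hyb γ hγ γ' hγ'
    obtain ⟨hy6, δ, hδ⟩ := h7 b hb y hy7 hyb
    obtain ⟨ε, hε⟩ := hj 6 b h67 hb y hy6 hyb
    have e1 : Path.Homotopic.Quotient.mk γ = Path.Homotopic.Quotient.mk δ :=
      Path.Homotopic.Quotient.eq.mpr (hsc 7 m y γ δ hγ fun t => (hδ t).2)
    have e2 : Path.Homotopic.Quotient.mk (γ0.trans δ) = Path.Homotopic.Quotient.mk ε :=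
      Path.Homotopic.Quotient.eq.mpr (hsc 6 x0 y (γ0.trans δ) ε
        (kappa_abs_trans_mem γ0 δ hγ0 fun t => (hδ t).1) fun t => (hε t).1)
    have e3 : Path.Homotopic.Quotient.mk γ' = Path.Homotopic.Quotient.mk ε :=
      Path.Homotopic.Quotient.eq.mpr (hsc b x0 y γ' ε hγ' fun t => (hε t).2)
    rw [e3, ← e2, Path.Homotopic.Quotient.mk_trans, Path.Homotopic.Quotient.mk_trans, e1]
  have huniq : ∀ a b y, y ∈ D a → y ∈ D b → ∀ c c', G a y c → G b y c' → c = c' := by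
    intro a b y hya hyb c c' hc hc'
    rcases hc with ⟨ha, γ, hγ, hc⟩ | ⟨ha, γ, hγ, hc⟩
    · rcases hc' with ⟨hb, γ', hγ', hc'⟩ | ⟨hb, γ', hγ', hc'⟩
      · obtain ⟨δ, hδ⟩ := hj a b ha hb y hya hyb
        rw [← hc, ← hc']
        exact (Path.Homotopic.Quotient.eq.mpr (hsc a x0 y γ δ hγ fun t => (hδ t).1)).trans
          (Path.Homotopic.Quotient.eq.mpr (hsc b x0 y γ' δ hγ' fun t => (hδ t).2)).symm
      · subst hb
        rw [← hc, ← hc']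
        exact (hto6 a ha y hyb hya γ' hγ' γ hγ).symm
    · subst ha
      rcases hc' with ⟨hb, γ', hγ', hc'⟩ | ⟨hb, γ', hγ', hc'⟩
      · rw [← hc, ← hc']
        exact hto6 b hb y hya hyb γ hγ γ' hγ'
      · rw [← hc, ← hc', Path.Homotopic.Quotient.mk_trans, Path.Homotopic.Quotient.mk_trans]
        rw [Path.Homotopic.Quotient.eq.mpr (hsc 7 m y γ γ' hγ hγ')]
  have hex' : ∀ y, (∃ a, y ∈ D a) → ∃ c, ∃ a, y ∈ D a ∧ G a y c := by
    rintro y ⟨a, ha⟩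
    obtain ⟨c, hc⟩ := hex a y ha
    exact ⟨c, a, ha, hc⟩
  have hκ : ∀ a y (h : ∃ a, y ∈ D a), y ∈ D a → ∀ c, G a y c →
      Classical.choose (hex' y h) = c := by
    intro a y h hya c hc
    obtain ⟨b, hyb, hb⟩ := Classical.choose_spec (hex' y h)
    exact huniq b a y hyb hya _ _ hb hc
  refine ⟨fun y h => Classical.choose (hex' y h), ?_, ?_⟩
  · intro h
    have h07 : (0 : Fin 8) ≠ 7 := by decide
    refine hκ 0 x0 h (hx0 0 h07) _ (Or.inl ⟨h07, Path.refl x0, fun t => ?_, ?_⟩)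
    · exact hx0 0 h07
    · exact Path.Homotopic.Quotient.mk_refl x0
  · intro a y z hy hz γ hγ
    obtain ⟨c, hc⟩ := hex a y hy
    have h1 := hκ a y ⟨a, hy⟩ hy c hc
    show (Classical.choose (hex' y ⟨a, hy⟩)).trans (Path.Homotopic.Quotient.mk γ) =
      Classical.choose (hex' z ⟨a, hz⟩)
    rw [h1]
    symm
    apply hκ a z ⟨a, hz⟩ hz
    rcases hc with ⟨ha, δ, hδ, hc⟩ | ⟨ha, δ, hδ, hc⟩
    · refine Or.inl ⟨ha, δ.trans γ, kappa_abs_trans_mem δ γ hδ hγ, ?_⟩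
      rw [← hc, Path.Homotopic.Quotient.mk_trans]
    · subst ha
      refine Or.inr ⟨rfl, δ.trans γ, kappa_abs_trans_mem δ γ hδ hγ, ?_⟩
      rw [← hc, ← Path.Homotopic.Quotient.mk_trans]
      exact (Path.Homotopic.Quotient.eq.mpr (Path.Homotopic.trans_assoc γ0 δ γ)).symm

end Trom
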