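import Pool.Agent.Helper97.Trom.Top

open Matrix Set Topology

namespace Trom

/-- a path of `S³` inside `Om` is a path in `Om` -/
theorem lift_path {x y : Om} (γ : Path x.1 y.1) (h : ∀ t, γ t ∈ Om) :
    ∃ γ' : Path x y, ∀ t, (γ' t).1 = γ t := by
  refine ⟨⟨⟨fun t => ⟨γ t, h t⟩, Continuous.subtype_mk γ.continuous _⟩, ?_, ?_⟩, fun t => rfl⟩
  · exact Subtype.ext γ.source
  · exact Subtype.ext γ.target

end Trom
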