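import Pool.Agent.Helper97.Trom.Top

open Matrix Set Topology

namespace Trom

/-- squared distance of `y` to the centre `i` -/
noncomputable def qd (y : Fin 3 → ℝ) (i : Fin 16) : ℝ :=
  (y 0 - ctr i 0) ^ 2 + (y 1 - ctr i 1) ^ 2 + (y 2 - ctr i 2) ^ 2

theorem st_ev' (y : Fin 3 → ℝ) (i : Fin 16) : lor (st y).1 (ev i) =
    dl (st y).1 * (1/4 - qd y i / 2) := st_ev y i

theorem Pa_st_iff (y : Fin 3 → ℝ) : Pa (st y) ↔
    (∀ i, 1/2 ≤ qd y i) ∧ ∀ i j, 2 ≤ d2 i j → ¬ (qd y i = 1/2 ∧ qd y j = 1/2) := by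
  have hd := st_dl_pos y
  have h0 : ∀ i, lor (st y).1 (ev i) ≤ 0 ↔ 1/2 ≤ qd y i := by
    intro i
    rw [st_ev']
    constructor
    · intro h
      by_contra hc
      push Not at hc
      have : 0 < dl (st y).1 * (1/4 - qd y i / 2) := mul_pos hd (by linarith)
      linarith
    · intro h
      have : 0 ≤ dl (st y).1 * (qd y i / 2 - 1/4) := mul_nonneg hd.le (by linarith)
      linarith
  have h1 : ∀ i, lor (st y).1 (ev i) = 0 ↔ qd y i = 1/2 := by
    intro i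
    rw [st_ev']
    constructor
    · intro h
      rcases mul_eq_zero.1 h with h | h
      · exact absurd h hd.ne'
      · linarith
    · intro h
      rw [h]
      ring
  unfold Pa
  simp only [h0, h1]

theorem lin7_st {y : Fin 3 → ℝ} (h0 : 1 ≤ y 0) (h1 : 1 ≤ y 1) (hs : y 0 + y 1 ≤ 3)
    (h2 : 0 ≤ y 2) (h3 : y 2 ≤ 1) : Lin 7 (st y).1 := by
  have hd := st_dl_pos y
  obtain ⟨c1, c2, c3⟩ := st_coord y
  change dl (st y).1 ≤ (st y).1 1 ∧ dl (st y).1 ≤ (st y).1 2 ∧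
    (st y).1 1 + (st y).1 2 ≤ 3 * dl (st y).1 ∧ 0 ≤ (st y).1 3 ∧ (st y).1 3 ≤ dl (st y).1 ∧
    (st y).1 0 ≤ 10 * dl (st y).1
  refine ⟨?_, ?_, ?_, ?_, ?_, ?_⟩
  · rw [c1]; nlinarith
  · rw [c2]; nlinarith
  · rw [c1, c2]; nlinarith
  · rw [c3]; exact mul_nonneg hd.le h2
  · rw [c3]; nlinarith
  · rw [(st y).2.1, st_dl]
    have hp := lv_zero_pos y
    have hl : lv y 0 ≤ 10 := by
      have e : lv y 0 = ((y 0) ^ 2 + (y 1) ^ 2 + (y 2) ^ 2 + 1) / 2 := by simp [lv]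
      rw [e]
      nlinarith
    rw [← div_eq_mul_inv, le_div_iff₀ hp]
    linarith

theorem lin6_st {y : Fin 3 → ℝ} (h0 : 1 ≤ y 0) (h1 : 1 ≤ y 1) (hs : 3 ≤ y 0 + y 1) :
    Lin 6 (st y).1 := by
  have hd := st_dl_pos y
  obtain ⟨c1, c2, c3⟩ := st_coord y
  change dl (st y).1 ≤ (st y).1 1 ∧ dl (st y).1 ≤ (st y).1 2 ∧
    3 * dl (st y).1 ≤ (st y).1 1 + (st y).1 2
  refine ⟨?_, ?_, ?_⟩
  · rw [c1]; nlinarith
  · rw [c2]; nlinarith
  · rw [c1, c2]; nlinarith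

/-- the six corners -/
theorem qd_vals (y : Fin 3 → ℝ) :
    qd y 8 = (y 0 - 1) ^ 2 + (y 1 - 1) ^ 2 + (y 2) ^ 2 ∧
    qd y 9 = (y 0 - 1) ^ 2 + (y 1 - 1) ^ 2 + (y 2 - 1) ^ 2 ∧
    qd y 10 = (y 0 - 1) ^ 2 + (y 1 - 2) ^ 2 + (y 2) ^ 2 ∧
    qd y 11 = (y 0 - 1) ^ 2 + (y 1 - 2) ^ 2 + (y 2 - 1) ^ 2 ∧
    qd y 14 = (y 0 - 2) ^ 2 + (y 1 - 1) ^ 2 + (y 2) ^ 2 ∧
    qd y 15 = (y 0 - 2) ^ 2 + (y 1 - 1) ^ 2 + (y 2 - 1) ^ 2 := by
  refine ⟨?_, ?_, ?_, ?_, ?_, ?_⟩ <;> simp [qd, ctr]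

/-- the planar fact -/
theorem planar_half {a b : ℝ} (ha : 0 ≤ a) (hb : 0 ≤ b) (hab : a + b ≤ 1)
    (h0 : 1/2 ≤ a ^ 2 + b ^ 2) (h1 : 1/2 ≤ (a - 1) ^ 2 + b ^ 2) (h2 : 1/2 ≤ a ^ 2 + (b - 1) ^ 2) :
    a = 1/2 ∧ b = 1/2 := by
  rcases le_or_gt (1/2) a with h | h
  · have hb1 : b ≤ 1 - a := by linarith
    have hb2 : b ^ 2 ≤ (1 - a) ^ 2 := by nlinarith
    have ha2 : 1/4 ≤ (1 - a) ^ 2 := by nlinarith
    have ha3 : a = 1/2 := by nlinarith
    subst ha3
    refine ⟨rfl, ?_⟩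
    nlinarith
  · rcases le_or_gt (1/2) b with h' | h'
    · have hb1 : a ≤ 1 - b := by linarith
      have hb2 : a ^ 2 ≤ (1 - b) ^ 2 := by nlinarith
      have ha2 : 1/4 ≤ (1 - b) ^ 2 := by nlinarith
      have ha3 : b = 1/2 := by nlinarith
      subst ha3
      refine ⟨?_, rfl⟩
      nlinarith
    · exfalso
      nlinarith

theorem corner_bound {p r : ℝ} (hp : |p| ≤ 1/2) (hr : |r| ≤ 1/2)
    (h : 2 * |p| + |r| ≤ 1/4 + (2 * p ^ 2 + r ^ 2)) : 2 * p ^ 2 + r ^ 2 ≤ 1/4 := by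
  have h1 : p ^ 2 ≤ |p| / 2 := by
    rw [← sq_abs]
    nlinarith [abs_nonneg p]
  have h2 : r ^ 2 ≤ |r| / 2 := by
    rw [← sq_abs r]
    nlinarith [abs_nonneg r]
  linarith

theorem corner_lam {l k R : ℝ} (hl0 : 0 ≤ l) (hl1 : l < 1) (hR : R ≤ 1/4)
    (hk : k ≤ 1/4 + R) : 0 < 1/4 + l ^ 2 * R - l * k := by
  have h1 : l * k ≤ l * (1/4 + R) := mul_le_mul_of_nonneg_left hk hl0
  have h2 : l * R ≤ l * (1/4) := mul_le_mul_of_nonneg_left hR hl0
  have h3 : 0 < (1 - l) * (1/4 - l * R) := mul_pos (by linarith) (by linarith)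
  nlinarith

theorem seg_strict {y : Fin 3 → ℝ} (h0 : 1 ≤ y 0) (h1 : 1 ≤ y 1) (hs : y 0 + y 1 = 3)
    (h2 : 0 ≤ y 2) (h3 : y 2 ≤ 1) (hq : ∀ i, 1/2 ≤ qd y i) {l : ℝ} (hl0 : 0 ≤ l) (hl1 : l < 1)
    (z : Fin 3 → ℝ) (hz0 : z 0 = 3/2 + l * (y 0 - 3/2)) (hz1 : z 1 = 3/2 + l * (y 1 - 3/2))
    (hz2 : z 2 = 1/2 + l * (y 2 - 1/2)) (i : Fin 16) : 1/2 < qd z i := by
  obtain ⟨q8, q9, q10, q11, q14, q15⟩ := qd_vals y
  have e8 := hq 8
  have e9 := hq 9
  have e10 := hq 10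
  have e11 := hq 11
  have e14 := hq 14
  have e15 := hq 15
  rw [q8] at e8
  rw [q9] at e9
  rw [q10] at e10
  rw [q11] at e11
  rw [q14] at e14
  rw [q15] at e15
  obtain ⟨p, hp⟩ : ∃ p, p = y 0 - 3/2 := ⟨_, rfl⟩
  obtain ⟨r, hr⟩ : ∃ r, r = y 2 - 1/2 := ⟨_, rfl⟩
  have y0 : y 0 = 3/2 + p := by linarith
  have y1 : y 1 = 3/2 - p := by linarith
  have y2 : y 2 = 1/2 + r := by linarith
  rw [y0] at h0
  rw [y1] at h1
  rw [y2] at h2 h3
  rw [y0, y1, y2] at e8 e9 e10 e11 e14 e15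
  rw [y0] at hz0
  rw [y1] at hz1
  rw [y2] at hz2
  have hp' : |p| ≤ 1/2 := abs_le.2 ⟨by linarith, by linarith⟩
  have hr' : |r| ≤ 1/2 := abs_le.2 ⟨by linarith, by linarith⟩
  have k8 : -r ≤ 1/4 + (2 * p ^ 2 + r ^ 2) := by clear * - e8; linarith
  have k9 : r ≤ 1/4 + (2 * p ^ 2 + r ^ 2) := by clear * - e9; linarith
  have k10 : -2 * p - r ≤ 1/4 + (2 * p ^ 2 + r ^ 2) := by clear * - e10; linarith
  have k11 : -2 * p + r ≤ 1/4 + (2 * p ^ 2 + r ^ 2) := by clear * - e11; linarith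
  have k14 : 2 * p - r ≤ 1/4 + (2 * p ^ 2 + r ^ 2) := by clear * - e14; linarith
  have k15 : 2 * p + r ≤ 1/4 + (2 * p ^ 2 + r ^ 2) := by clear * - e15; linarith
  have hR : 2 * p ^ 2 + r ^ 2 ≤ 1/4 := by
    refine corner_bound hp' hr' ?_
    rcases abs_cases p with ⟨ep, _⟩ | ⟨ep, _⟩ <;> rcases abs_cases r with ⟨er, _⟩ | ⟨er, _⟩ <;>
      rw [ep, er] <;> linarith
  have L8 := corner_lam hl0 hl1 hR k8
  have L9 := corner_lam hl0 hl1 hR k9
  have L10 := corner_lam hl0 hl1 hR k10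
  have L11 := corner_lam hl0 hl1 hR k11
  have L14 := corner_lam hl0 hl1 hR k14
  have L15 := corner_lam hl0 hl1 hR k15
  obtain ⟨g8, g9, g10, g11, g14, g15⟩ := qd_vals z
  have hlp : |l * p| ≤ 1/2 := by
    rw [abs_mul, abs_of_nonneg hl0]
    exact (mul_le_of_le_one_left (abs_nonneg p) hl1.le).trans hp'
  have hlp' := abs_le.1 hlp
  have hz0' : 1 ≤ z 0 := by rw [hz0]; linarith [hlp'.1]
  have hz1' : 1 ≤ z 1 := by rw [hz1]; linarith [hlp'.2]
  have far0 : ∀ a b : ℝ, 1/2 < (z 0) ^ 2 + (z 1 - a) ^ 2 + (z 2 - b) ^ 2 := by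
    intro a b
    clear * - hz0'
    nlinarith [sq_nonneg (z 1 - a), sq_nonneg (z 2 - b)]
  have far1 : ∀ a b : ℝ, 1/2 < (z 0 - a) ^ 2 + (z 1) ^ 2 + (z 2 - b) ^ 2 := by
    intro a b
    clear * - hz1'
    nlinarith [sq_nonneg (z 0 - a), sq_nonneg (z 2 - b)]
  have c0 : 1/2 < qd z 0 := by have := far0 0 0; simp only [qd, ctr]; simp at this ⊢; linarith
  have c1 : 1/2 < qd z 1 := by have := far0 0 1; simp only [qd, ctr]; simp at this ⊢; linarith
  have c2 : 1/2 < qd z 2 := by have := far0 1 0; simp only [qd, ctr]; simp at this ⊢; linarith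
  have c3 : 1/2 < qd z 3 := by have := far0 1 1; simp only [qd, ctr]; simp at this ⊢; linarith
  have c4 : 1/2 < qd z 4 := by have := far0 2 0; simp only [qd, ctr]; simp at this ⊢; linarith
  have c5 : 1/2 < qd z 5 := by have := far0 2 1; simp only [qd, ctr]; simp at this ⊢; linarith
  have c6 : 1/2 < qd z 6 := by have := far1 1 0; simp only [qd, ctr]; simp at this ⊢; linarith
  have c7 : 1/2 < qd z 7 := by have := far1 1 1; simp only [qd, ctr]; simp at this ⊢; linarith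
  have c12 : 1/2 < qd z 12 := by have := far1 2 0; simp only [qd, ctr]; simp at this ⊢; linarith
  have c13 : 1/2 < qd z 13 := by have := far1 2 1; simp only [qd, ctr]; simp at this ⊢; linarith
  have c8 : 1/2 < qd z 8 := by rw [g8, hz0, hz1, hz2]; clear * - L8; linarith
  have c9 : 1/2 < qd z 9 := by rw [g9, hz0, hz1, hz2]; clear * - L9; linarith
  have c10 : 1/2 < qd z 10 := by rw [g10, hz0, hz1, hz2]; clear * - L10; linarith
  have c11 : 1/2 < qd z 11 := by rw [g11, hz0, hz1, hz2]; clear * - L11; linarith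
  have c14 : 1/2 < qd z 14 := by rw [g14, hz0, hz1, hz2]; clear * - L14; linarith
  have c15 : 1/2 < qd z 15 := by rw [g15, hz0, hz1, hz2]; clear * - L15; linarith
  fin_cases i
  · exact c0
  · exact c1
  · exact c2
  · exact c3
  · exact c4
  · exact c5
  · exact c6
  · exact c7
  · exact c8
  · exact c9
  · exact c10
  · exact c11
  · exact c12
  · exact c13
  · exact c14
  · exact c15

theorem overlap7 (b : Fin 8) (hb : b ≠ 7) (x : Sph) (hx7 : x ∈ Dp 7) (hxb : x ∈ Dp b) :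
    x ∈ Dp 6 ∧ ∃ γ : Path mQ x, ∀ t, γ t ∈ Dp 6 ∧ γ t ∈ Dp 7 := by
  obtain ⟨hPa, hL7⟩ := hx7
  change dl x.1 ≤ x.1 1 ∧ dl x.1 ≤ x.1 2 ∧ x.1 1 + x.1 2 ≤ 3 * dl x.1 ∧ 0 ≤ x.1 3 ∧
    x.1 3 ≤ dl x.1 ∧ x.1 0 ≤ 10 * dl x.1 at hL7
  obtain ⟨l1, l2, l3, l4, l5, l6⟩ := hL7
  have hx0 : x.1 0 = 1 := x.2.1
  have hdl : 0 < dl x.1 := by rw [hx0] at l6; linarith
  have hne : x ≠ inf := by
    rintro rfl
    simp [dl, inf] at hdl
  obtain ⟨y, hy⟩ : ∃ y : Fin 3 → ℝ, y = ![x.1 1 / dl x.1, x.1 2 / dl x.1, x.1 3 / dl x.1] :=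
    ⟨_, rfl⟩
  have hxy : x = st y := by rw [hy]; exact st_surj x hne
  have y0 : x.1 1 = dl x.1 * y 0 := by rw [hy]; simp; field_simp
  have y1 : x.1 2 = dl x.1 * y 1 := by rw [hy]; simp; field_simp
  have y2 : x.1 3 = dl x.1 * y 2 := by rw [hy]; simp; field_simp
  have a0 : 1 ≤ y 0 := by
    rw [y0] at l1
    clear * - hdl l1
    exact le_of_mul_le_mul_left (by linarith) hdl
  have a1 : 1 ≤ y 1 := by
    rw [y1] at l2
    clear * - hdl l2
    exact le_of_mul_le_mul_left (by linarith) hdl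
  have as : y 0 + y 1 ≤ 3 := by
    rw [y0, y1] at l3
    clear * - hdl l3
    exact le_of_mul_le_mul_left (by linarith) hdl
  have a2 : 0 ≤ y 2 := by
    rw [y2] at l4
    clear * - hdl l4
    exact le_of_mul_le_mul_left (by linarith) hdl
  have a3 : y 2 ≤ 1 := by
    rw [y2] at l5
    clear * - hdl l5
    exact le_of_mul_le_mul_left (by linarith) hdl
  have hPy : Pa (st y) := hxy ▸ hPa
  rw [Pa_st_iff] at hPy
  obtain ⟨hq, hnt⟩ := hPy
  obtain ⟨q8, q9, q10, q11, q14, q15⟩ := qd_vals y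
  have e8 := hq 8
  have e9 := hq 9
  have e10 := hq 10
  have e11 := hq 11
  have e14 := hq 14
  have e15 := hq 15
  rw [q8] at e8
  rw [q9] at e9
  rw [q10] at e10
  rw [q11] at e11
  rw [q14] at e14
  rw [q15] at e15
  have hsum : 3 ≤ y 0 + y 1 := by
    have hLb := hxb.2
    fin_cases b
    · -- 0
      exfalso
      change 2 * dl x.1 ≤ x.1 1 at hLb
      rw [y0] at hLb
      have h : 2 ≤ y 0 := le_of_mul_le_mul_left (by linarith) hdl
      have h' : y 0 = 2 := by linarith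
      have h'' : y 1 = 1 := by linarith
      rw [h', h''] at e14 e15
      clear * - e14 e15 a2 a3
      nlinarith
    · exfalso
      change x.1 1 ≤ 0 at hLb
      rw [y0] at hLb
      have := mul_pos hdl (show 0 < y 0 by linarith)
      linarith
    · exfalso
      change 2 * dl x.1 ≤ x.1 2 at hLb
      rw [y1] at hLb
      have h : 2 ≤ y 1 := le_of_mul_le_mul_left (by linarith) hdl
      have h' : y 1 = 2 := by linarith
      have h'' : y 0 = 1 := by linarith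
      rw [h', h''] at e10 e11
      clear * - e10 e11 a2 a3
      nlinarith
    · exfalso
      change x.1 2 ≤ 0 at hLb
      rw [y1] at hLb
      have := mul_pos hdl (show 0 < y 1 by linarith)
      linarith
    · exfalso
      change dl x.1 ≤ x.1 3 at hLb
      rw [y2] at hLb
      have h : y 2 = 1 := by
        apply le_antisymm a3
        exact le_of_mul_le_mul_left (by linarith) hdl
      rw [h] at e9 e11 e15
      obtain ⟨r1, r2⟩ := planar_half (a := y 0 - 1) (b := y 1 - 1) (by linarith) (by linarith)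
        (by linarith) (by linarith) (by linarith) (by linarith)
      have s1 : y 0 = 3/2 := by linarith
      have s2 : y 1 = 3/2 := by linarith
      refine hnt 11 15 (by decide) ⟨?_, ?_⟩
      · rw [q11, s1, s2, h]; norm_num
      · rw [q15, s1, s2, h]; norm_num
    · exfalso
      change x.1 3 ≤ 0 at hLb
      rw [y2] at hLb
      have h : y 2 = 0 := by
        apply le_antisymm _ a2
        exact le_of_mul_le_mul_left (by linarith) hdl
      rw [h] at e8 e10 e14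
      obtain ⟨r1, r2⟩ := planar_half (a := y 0 - 1) (b := y 1 - 1) (by linarith) (by linarith)
        (by linarith) (by linarith) (by linarith) (by linarith)
      have s1 : y 0 = 3/2 := by linarith
      have s2 : y 1 = 3/2 := by linarith
      refine hnt 10 14 (by decide) ⟨?_, ?_⟩
      · rw [q10, s1, s2, h]; norm_num
      · rw [q14, s1, s2, h]; norm_num
    · change dl x.1 ≤ x.1 1 ∧ dl x.1 ≤ x.1 2 ∧ 3 * dl x.1 ≤ x.1 1 + x.1 2 at hLb
      have h := hLb.2.2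
      rw [y0, y1] at h
      exact le_of_mul_le_mul_left (by linarith) hdl
    · exact absurd rfl hb
  have hs : y 0 + y 1 = 3 := le_antisymm as hsum
  refine ⟨⟨hPa, ?_⟩, ?_⟩
  · rw [hxy]
    exact lin6_st a0 a1 hsum
  · let c : unitInterval → (Fin 3 → ℝ) := fun t =>
      ![3/2 + (t : ℝ) * (y 0 - 3/2), 3/2 + (t : ℝ) * (y 1 - 3/2), 1/2 + (t : ℝ) * (y 2 - 1/2)]
    have hc : Continuous c := by
      apply continuous_pi
      intro i
      fin_cases i <;> simp only [c] <;> simp <;> fun_prop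
    refine ⟨{ toFun := fun t => st (c t), continuous_toFun := continuous_st.comp hc,
              source' := ?_, target' := ?_ }, ?_⟩
    · simp only [c, mQ]
      simp
    · rw [hxy]
      congr 1
      ext i
      fin_cases i <;> simp [c]
    · intro t
      change st (c t) ∈ Dp 6 ∧ st (c t) ∈ Dp 7
      have t0 : (0:ℝ) ≤ t := t.2.1
      have t1 : (t:ℝ) ≤ 1 := t.2.2
      have z0 : c t 0 = 3/2 + (t : ℝ) * (y 0 - 3/2) := by simp [c]
      have z1 : c t 1 = 3/2 + (t : ℝ) * (y 1 - 3/2) := by simp [c]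
      have z2 : c t 2 = 1/2 + (t : ℝ) * (y 2 - 1/2) := by simp [c]
      have b0 : 1 ≤ c t 0 := by rw [z0]; clear * - t0 t1 a0; nlinarith
      have b1 : 1 ≤ c t 1 := by rw [z1]; clear * - t0 t1 a1; nlinarith
      have bs : c t 0 + c t 1 = 3 := by
        rw [z0, z1]
        have : y 1 = 3 - y 0 := by linarith
        rw [this]
        ring
      have b2 : 0 ≤ c t 2 := by rw [z2]; clear * - t0 t1 a2; nlinarith
      have b3 : c t 2 ≤ 1 := by rw [z2]; clear * - t0 t1 a3; nlinarith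
      have hPt : Pa (st (c t)) := by
        rcases t1.lt_or_eq with ht | ht
        · rw [Pa_st_iff]
          have hst := seg_strict a0 a1 hs a2 a3 hq t0 ht (c t) z0 z1 z2
          refine ⟨fun i => (hst i).le, fun i j _ hij => ?_⟩
          exact (hst i).ne' hij.1
        · have : c t = y := by
            ext i
            fin_cases i
            · change c t 0 = y 0
              rw [z0, ht]; ring
            · change c t 1 = y 1
              rw [z1, ht]; ring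
            · change c t 2 = y 2
              rw [z2, ht]; ring
          rw [this, ← hxy]
          exact hPa
      exact ⟨⟨hPt, lin6_st b0 b1 bs.ge⟩, ⟨hPt, lin7_st b0 b1 bs.le b2 b3⟩⟩

end Trom
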