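import Pool.Agent.Helper97.Trom.Top

open Matrix Set Topology

namespace Trom

theorem pc_ctr_bd : ∀ i, 0 ≤ ctr i 0 ∧ ctr i 0 ≤ 2 ∧ 0 ≤ ctr i 1 ∧ ctr i 1 ≤ 2 ∧ 0 ≤ ctr i 2 ∧
    ctr i 2 ≤ 1 ∧ ctr i 0 + ctr i 1 ≤ 3 := by decide

theorem pc_ctr_bdR (i : Fin 16) : (0:ℝ) ≤ ctr i 0 ∧ (ctr i 0 : ℝ) ≤ 2 ∧ (0:ℝ) ≤ ctr i 1 ∧
    (ctr i 1 : ℝ) ≤ 2 ∧ (0:ℝ) ≤ ctr i 2 ∧ (ctr i 2 : ℝ) ≤ 1 ∧ (ctr i 0 : ℝ) + ctr i 1 ≤ 3 := by
  obtain ⟨h1, h2, h3, h4, h5, h6, h7⟩ := pc_ctr_bd i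
  refine ⟨?_, ?_, ?_, ?_, ?_, ?_, ?_⟩ <;> exact_mod_cast (by assumption)

theorem pc_key (a : Fin 8) (ha : a ≠ 7) {x : V5} (hd : 0 ≤ dl x) (h : Lin a x) (i : Fin 16) :
    dl x * (ctr i 0 * dv a 0 + ctr i 1 * dv a 1 + ctr i 2 * dv a 2) ≤
      x 1 * dv a 0 + x 2 * dv a 1 + x 3 * dv a 2 := by
  obtain ⟨h1, h2, h3, h4, h5, h6, h7⟩ := pc_ctr_bdR i
  generalize (ctr i 0 : ℝ) = c0 at *
  generalize (ctr i 1 : ℝ) = c1 at *
  generalize (ctr i 2 : ℝ) = c2 at *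
  fin_cases a
  · simp [Lin, dv] at *
    nlinarith [mul_nonneg hd (sub_nonneg.2 h2)]
  · simp [Lin, dv] at *
    nlinarith [mul_nonneg hd h1]
  · simp [Lin, dv] at *
    nlinarith [mul_nonneg hd (sub_nonneg.2 h4)]
  · simp [Lin, dv] at *
    nlinarith [mul_nonneg hd h3]
  · simp [Lin, dv] at *
    nlinarith [mul_nonneg hd (sub_nonneg.2 h6)]
  · simp [Lin, dv] at *
    nlinarith [mul_nonneg hd h5]
  · simp [Lin, dv] at *
    nlinarith [mul_nonneg hd (sub_nonneg.2 h7)]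
  · exact absurd rfl ha

theorem pc_key0 (a : Fin 8) (ha : a ≠ 7) {x : V5} (hd : 0 ≤ dl x) (h : Lin a x) :
    0 ≤ x 1 * dv a 0 + x 2 * dv a 1 + x 3 * dv a 2 := by
  fin_cases a
  · simp [Lin, dv] at *
    nlinarith
  · simp [Lin, dv] at *
    nlinarith
  · simp [Lin, dv] at *
    nlinarith
  · simp [Lin, dv] at *
    nlinarith
  · simp [Lin, dv] at *
    nlinarith
  · simp [Lin, dv] at *
    nlinarith
  · simp [Lin, dv] at *
    nlinarith
  · exact absurd rfl ha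

theorem pc_dvsq (a : Fin 8) : 0 < (dv a 0) ^ 2 + (dv a 1) ^ 2 + (dv a 2) ^ 2 := by
  fin_cases a <;> simp [dv] <;> norm_num

theorem pc_Fl1 (v : Fin 3 → ℝ) (t : ℝ) (x : V5) :
    (Fl v t x) 1 = (1 - t) ^ 2 * x 1 + t * (1 - t) * (dl x * v 0) := rfl
theorem pc_Fl2 (v : Fin 3 → ℝ) (t : ℝ) (x : V5) :
    (Fl v t x) 2 = (1 - t) ^ 2 * x 2 + t * (1 - t) * (dl x * v 1) := rfl
theorem pc_Fl3 (v : Fin 3 → ℝ) (t : ℝ) (x : V5) :
    (Fl v t x) 3 = (1 - t) ^ 2 * x 3 + t * (1 - t) * (dl x * v 2) := rfl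
theorem pc_Fl0 (v : Fin 3 → ℝ) (t : ℝ) (x : V5) :
    (Fl v t x) 0 = (1 - t) ^ 2 * x 0 + t * (1 - t) * (x 1 * v 0 + x 2 * v 1 + x 3 * v 2) +
      t ^ 2 * ((v 0) ^ 2 + (v 1) ^ 2 + (v 2) ^ 2) * dl x / 2 := rfl
theorem pc_Fl4 (v : Fin 3 → ℝ) (t : ℝ) (x : V5) :
    (Fl v t x) 4 = (1 - t) ^ 2 * x 4 + t * (1 - t) * (x 1 * v 0 + x 2 * v 1 + x 3 * v 2) +
      t ^ 2 * ((v 0) ^ 2 + (v 1) ^ 2 + (v 2) ^ 2) * dl x / 2 := rfl

theorem pc_LinFl (a : Fin 8) (ha : a ≠ 7) {x : V5} (hd : 0 ≤ dl x) (h : Lin a x) {t : ℝ}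
    (h0 : 0 ≤ t) (h1 : t ≤ 1) : Lin a (Fl (dv a) t x) := by
  have e1 : 0 ≤ t * (1 - t) * dl x := mul_nonneg (mul_nonneg h0 (sub_nonneg.2 h1)) hd
  have e2 : 0 ≤ (1 - t) ^ 2 := sq_nonneg _
  have k : ∀ r s : ℝ, r ≤ s → (1 - t) ^ 2 * r ≤ (1 - t) ^ 2 * s :=
    fun r s h => mul_le_mul_of_nonneg_left h e2
  fin_cases a
  · simp only [Lin, Fl_dl, pc_Fl1, dv] at *
    have := k _ _ h
    simp
    nlinarith
  · simp only [Lin, Fl_dl, pc_Fl1, dv] at *
    have := k _ _ h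
    simp
    nlinarith
  · simp only [Lin, Fl_dl, pc_Fl2, dv] at *
    have := k _ _ h
    simp
    nlinarith
  · simp only [Lin, Fl_dl, pc_Fl2, dv] at *
    have := k _ _ h
    simp
    nlinarith
  · simp only [Lin, Fl_dl, pc_Fl3, dv] at *
    have := k _ _ h
    simp
    nlinarith
  · simp only [Lin, Fl_dl, pc_Fl3, dv] at *
    have := k _ _ h
    simp
    nlinarith
  · simp only [Lin, Fl_dl, pc_Fl1, pc_Fl2, dv] at *
    have g1 := k _ _ h.1
    have g2 := k _ _ h.2.1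
    have g3 := k _ _ h.2.2
    simp
    refine ⟨?_, ?_, ?_⟩ <;> nlinarith
  · exact absurd rfl ha

theorem pc_dl_smul (c : ℝ) (x : V5) : dl (c • x) = c * dl x := by
  simp [dl]; ring

theorem pc_Lin_smul (a : Fin 8) (ha : a ≠ 7) {x : V5} (h : Lin a x) {c : ℝ} (hc : 0 ≤ c) :
    Lin a (c • x) := by
  have k : ∀ r s : ℝ, r ≤ s → c * r ≤ c * s := fun r s h => mul_le_mul_of_nonneg_left h hc
  fin_cases a
  · simp only [Lin, pc_dl_smul, Pi.smul_apply, smul_eq_mul] at *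
    have := k _ _ h
    linarith
  · simp only [Lin, pc_dl_smul, Pi.smul_apply, smul_eq_mul] at *
    have := k _ _ h
    linarith
  · simp only [Lin, pc_dl_smul, Pi.smul_apply, smul_eq_mul] at *
    have := k _ _ h
    linarith
  · simp only [Lin, pc_dl_smul, Pi.smul_apply, smul_eq_mul] at *
    have := k _ _ h
    linarith
  · simp only [Lin, pc_dl_smul, Pi.smul_apply, smul_eq_mul] at *
    have := k _ _ h
    linarith
  · simp only [Lin, pc_dl_smul, Pi.smul_apply, smul_eq_mul] at *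
    have := k _ _ h
    linarith
  · simp only [Lin, pc_dl_smul, Pi.smul_apply, smul_eq_mul] at *
    have g1 := k _ _ h.1
    have g2 := k _ _ h.2.1
    have g3 := k _ _ h.2.2
    refine ⟨?_, ?_, ?_⟩ <;> linarith
  · exact absurd rfl ha

theorem pc_inf_mem (a : Fin 8) (ha : a ≠ 7) : inf ∈ Dp a := by
  have hl : ∀ i, lor inf.1 (ev i) = -1 := by
    intro i
    simp [lor, inf, ev]
    ring
  refine ⟨⟨fun i => by rw [hl]; norm_num, fun i j _ h => by rw [hl] at h; linarith [h.1]⟩, ?_⟩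
  fin_cases a
  · simp [Lin, inf, dl]
  · simp [Lin, inf, dl]
  · simp [Lin, inf, dl]
  · simp [Lin, inf, dl]
  · simp [Lin, inf, dl]
  · simp [Lin, inf, dl]
  · simp [Lin, inf, dl]
  · exact absurd rfl ha

theorem pc_dl_pos {x : Sph} (h : x ≠ inf) : 0 < dl x.1 :=
  lt_of_le_of_ne (dl_nonneg x) fun h' => h (eq_inf_of_dl h'.symm)

theorem pc_Fl0_ge (a : Fin 8) (ha : a ≠ 7) {x : Sph} (h : Lin a x.1) {t : ℝ}
    (h0 : 0 ≤ t) (h1 : t ≤ 1) : (1 - t) ^ 2 ≤ (Fl (dv a) t x.1) 0 := by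
  rw [pc_Fl0, x.2.1]
  have e1 := mul_nonneg (mul_nonneg h0 (sub_nonneg.2 h1)) (pc_key0 a ha (dl_nonneg x) h)
  have e2 : 0 ≤ t ^ 2 * ((dv a 0) ^ 2 + (dv a 1) ^ 2 + (dv a 2) ^ 2) * dl x.1 :=
    mul_nonneg (mul_nonneg (sq_nonneg _) (pc_dvsq a).le) (dl_nonneg x)
  linarith

theorem pc_Fl0_pos (a : Fin 8) (ha : a ≠ 7) {x : Sph} (h : Lin a x.1) (hx : x ≠ inf) {t : ℝ}
    (h0 : 0 ≤ t) (h1 : t ≤ 1) : 0 < (Fl (dv a) t x.1) 0 := by
  rcases h1.lt_or_eq with h2 | h2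
  · exact lt_of_lt_of_le (by have := sub_pos.2 h2; positivity) (pc_Fl0_ge a ha h h0 h1)
  · subst h2
    rw [pc_Fl0]
    have e2 := mul_pos (pc_dvsq a) (pc_dl_pos hx)
    nlinarith

theorem pc_Fl_mem (a : Fin 8) (ha : a ≠ 7) {x : Sph} (h : x ∈ Dp a) (hx : x ≠ inf) {t : ℝ}
    (h0 : 0 ≤ t) (h1 : t ≤ 1) (hp : 0 < (Fl (dv a) t x.1) 0)
    (hl : lor (Fl (dv a) t x.1) (Fl (dv a) t x.1) = 0) :
    toSph (Fl (dv a) t x.1) hp hl ∈ Dp a := by
  obtain ⟨⟨hP1, hP2⟩, hL⟩ := h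
  have hcp : 0 < ((Fl (dv a) t x.1) 0)⁻¹ := inv_pos.2 hp
  have hval : (toSph (Fl (dv a) t x.1) hp hl).1 =
    ((Fl (dv a) t x.1) 0)⁻¹ • (Fl (dv a) t x.1) := rfl
  have hd := pc_dl_pos hx
  rcases h0.eq_or_lt with h2 | h2
  · subst h2
    have e : toSph (Fl (dv a) 0 x.1) hp hl = x := by
      apply Subtype.ext
      rw [hval]
      have e0 : Fl (dv a) 0 x.1 = x.1 := by
        ext i
        fin_cases i <;> simp [Fl]
      rw [e0, x.2.1]
      simp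
    rw [e]
    exact ⟨⟨hP1, hP2⟩, hL⟩
  · have hneg : ∀ i, lor (toSph (Fl (dv a) t x.1) hp hl).1 (ev i) < 0 := by
      intro i
      rw [hval, lor_smul_left]
      apply mul_neg_of_pos_of_neg hcp
      rw [Fl_ev]
      have e1 := mul_nonneg (mul_nonneg h0 (sub_nonneg.2 h1))
        (sub_nonneg.2 (pc_key a ha hd.le hL i))
      have e2 : 0 < t ^ 2 * ((dv a 0) ^ 2 + (dv a 1) ^ 2 + (dv a 2) ^ 2) * dl x.1 :=
        mul_pos (mul_pos (by positivity) (pc_dvsq a)) hd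
      have e3 := mul_nonneg (sq_nonneg (1 - t)) (neg_nonneg.2 (hP1 i))
      linarith
    refine ⟨⟨fun i => (hneg i).le, fun i j _ h => (hneg i).ne h.1⟩, ?_⟩
    rw [hval]
    exact pc_Lin_smul a ha (pc_LinFl a ha hd.le hL h0 h1) hcp.le

theorem pc_tendsto_inf {X : Type*} {l : Filter X} {F : X → Sph}
    (h : Filter.Tendsto (fun p => dl (F p).1) l (𝓝 0)) : Filter.Tendsto F l (𝓝 inf) := by
  have hs : Filter.Tendsto (fun p => Real.sqrt (2 * dl (F p).1)) l (𝓝 0) := by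
    have := ((h.const_mul 2).sqrt)
    simpa using this
  have hb : ∀ z : Sph, (z.1 1) ^ 2 + (z.1 2) ^ 2 + (z.1 3) ^ 2 ≤ 2 * dl z.1 := by
    intro z
    have h1 := z.2.1
    have h2 := z.2.2
    simp only [lor, h1] at h2
    simp only [dl, h1]
    nlinarith [sq_nonneg (1 - z.1 4)]
  rw [tendsto_subtype_rng, tendsto_pi_nhds]
  intro i
  fin_cases i
  · simp only [inf]
    simp [(F _).2.1]
    exact tendsto_const_nhds
  · simp only [inf]
    simp
    refine squeeze_zero_norm (fun p => ?_) hs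
    apply Real.le_sqrt_of_sq_le
    rw [Real.norm_eq_abs, sq_abs]
    nlinarith [hb (F p), sq_nonneg ((F p).1 2), sq_nonneg ((F p).1 3)]
  · simp only [inf]
    simp
    refine squeeze_zero_norm (fun p => ?_) hs
    apply Real.le_sqrt_of_sq_le
    rw [Real.norm_eq_abs, sq_abs]
    nlinarith [hb (F p), sq_nonneg ((F p).1 1), sq_nonneg ((F p).1 3)]
  · simp only [inf]
    simp
    refine squeeze_zero_norm (fun p => ?_) hs
    apply Real.le_sqrt_of_sq_le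
    rw [Real.norm_eq_abs, sq_abs]
    nlinarith [hb (F p), sq_nonneg ((F p).1 1), sq_nonneg ((F p).1 2)]
  · simp only [inf]
    simp
    have h3 : ∀ p, (F p).1 4 = 1 - dl (F p).1 := by
      intro p
      simp [dl, (F p).2.1]
    have h4 : Filter.Tendsto (fun p => 1 - dl (F p).1) l (𝓝 (1 - 0)) := h.const_sub 1
    rw [sub_zero] at h4
    exact h4.congr fun p => (h3 p).symm

/-- the contraction of a piece to `inf` -/
noncomputable def pcH (a : Fin 8) (ha : a ≠ 7) (p : unitInterval × Dp a) : Sph :=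
  open Classical in
  if h : p.2.1 = inf then inf else
    toSph (Fl (dv a) p.1.1 p.2.1.1) (pc_Fl0_pos a ha p.2.2.2 h p.1.2.1 p.1.2.2)
      (by rw [Fl_lor, p.2.1.2.2, mul_zero])

theorem pcH_inf (a : Fin 8) (ha : a ≠ 7) (p : unitInterval × Dp a) (h : p.2.1 = inf) :
    pcH a ha p = inf := by
  unfold pcH
  rw [dif_pos h]

theorem pcH_ne (a : Fin 8) (ha : a ≠ 7) (p : unitInterval × Dp a) (h : p.2.1 ≠ inf) :
    pcH a ha p = toSph (Fl (dv a) p.1.1 p.2.1.1) (pc_Fl0_pos a ha p.2.2.2 h p.1.2.1 p.1.2.2)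
      (by rw [Fl_lor, p.2.1.2.2, mul_zero]) := by
  unfold pcH
  rw [dif_neg h]

theorem pcH_mem (a : Fin 8) (ha : a ≠ 7) (p : unitInterval × Dp a) : pcH a ha p ∈ Dp a := by
  by_cases h : p.2.1 = inf
  · rw [pcH_inf a ha p h]; exact pc_inf_mem a ha
  · rw [pcH_ne a ha p h]
    exact pc_Fl_mem a ha p.2.2 h p.1.2.1 p.1.2.2 _ _

theorem pcH_dl (a : Fin 8) (ha : a ≠ 7) (p : unitInterval × Dp a) :
    dl (pcH a ha p).1 ≤ dl p.2.1.1 := by
  by_cases h : p.2.1 = inf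
  · rw [pcH_inf a ha p h, h]
  · rw [pcH_ne a ha p h]
    have hpos := pc_Fl0_pos a ha p.2.2.2 h p.1.2.1 p.1.2.2
    have hge := pc_Fl0_ge a ha p.2.2.2 p.1.2.1 p.1.2.2
    change dl (((Fl (dv a) p.1.1 p.2.1.1) 0)⁻¹ • (Fl (dv a) p.1.1 p.2.1.1)) ≤ _
    rw [pc_dl_smul, Fl_dl, inv_mul_le_iff₀ hpos]
    exact mul_le_mul_of_nonneg_right hge (dl_nonneg _)

theorem pc_continuous_Fl (v : Fin 3 → ℝ) : Continuous fun q : ℝ × V5 => Fl v q.1 q.2 := by
  apply continuous_pi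
  intro i
  fin_cases i
  · simp only [Fl, dl]; simp; fun_prop
  · simp only [Fl, dl]; simp; fun_prop
  · simp only [Fl, dl]; simp; fun_prop
  · simp only [Fl, dl]; simp; fun_prop
  · simp only [Fl, dl]; simp; fun_prop

theorem pcH_cont (a : Fin 8) (ha : a ≠ 7) : Continuous (pcH a ha) := by
  rw [continuous_iff_continuousAt]
  intro p
  have hdl : Continuous fun q : unitInterval × Dp a => dl q.2.1.1 := by
    have hv : Continuous fun q : unitInterval × Dp a => q.2.1.1 :=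
      continuous_subtype_val.comp (continuous_subtype_val.comp continuous_snd)
    exact ((continuous_apply 0).comp hv).sub ((continuous_apply 4).comp hv)
  by_cases h : p.2.1 = inf
  · unfold ContinuousAt
    rw [pcH_inf a ha p h]
    apply pc_tendsto_inf
    have h0 : Filter.Tendsto (fun q : unitInterval × Dp a => dl q.2.1.1) (𝓝 p) (𝓝 0) := by
      have := hdl.tendsto p
      simp only [h] at this
      have e : dl inf.1 = 0 := by simp [dl, inf]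
      rwa [e] at this
    exact squeeze_zero (fun q => dl_nonneg _) (fun q => pcH_dl a ha q) h0
  · have hop : ∀ᶠ q in 𝓝 p, q.2.1 ≠ inf := by
      have hd := pc_dl_pos h
      have := hdl.continuousAt.eventually (lt_mem_nhds hd)
      filter_upwards [this] with q hq he
      rw [he] at hq
      simp [dl, inf] at hq
    unfold ContinuousAt
    rw [tendsto_subtype_rng]
    have hF : Continuous fun q : unitInterval × Dp a => Fl (dv a) q.1.1 q.2.1.1 :=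
      (pc_continuous_Fl (dv a)).comp
        ((continuous_subtype_val.comp continuous_fst).prodMk
          (continuous_subtype_val.comp (continuous_subtype_val.comp continuous_snd)))
    have hpos := pc_Fl0_pos a ha p.2.2.2 h p.1.2.1 p.1.2.2
    have hc : ContinuousAt (fun q : unitInterval × Dp a =>
        ((Fl (dv a) q.1.1 q.2.1.1) 0)⁻¹ • (Fl (dv a) q.1.1 q.2.1.1)) p := by
      have h1 : ContinuousAt (fun q : unitInterval × Dp a =>
          ((Fl (dv a) q.1.1 q.2.1.1) 0)⁻¹) p :=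
        ContinuousAt.inv₀ ((continuous_apply 0).comp hF).continuousAt hpos.ne'
      exact Filter.Tendsto.smul h1 hF.continuousAt
    have hv : (pcH a ha p).1 = ((Fl (dv a) p.1.1 p.2.1.1) 0)⁻¹ • (Fl (dv a) p.1.1 p.2.1.1) := by
      rw [pcH_ne a ha p h]; rfl
    rw [hv]
    refine Filter.Tendsto.congr' ?_ hc
    filter_upwards [hop] with q hq
    rw [pcH_ne a ha q hq]
    rfl

theorem piece_contractible (a : Fin 8) (ha : a ≠ 7) : ContractibleSpace (Dp a) := by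
  rw [contractible_iff_id_nullhomotopic]
  refine ⟨⟨inf, pc_inf_mem a ha⟩, ⟨?_⟩⟩
  refine { toFun := fun p => ⟨pcH a ha p, pcH_mem a ha p⟩
           continuous_toFun := (pcH_cont a ha).subtype_mk _
           map_zero_left := ?_
           map_one_left := ?_ }
  · intro x
    apply Subtype.ext
    change pcH a ha (0, x) = x.1
    by_cases h : x.1 = inf
    · rw [pcH_inf a ha _ h, h]
    · rw [pcH_ne a ha _ h]
      apply Subtype.ext
      change ((Fl (dv a) 0 x.1.1) 0)⁻¹ • (Fl (dv a) 0 x.1.1) = x.1.1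
      have e0 : Fl (dv a) 0 x.1.1 = x.1.1 := by
        ext i
        fin_cases i <;> simp [Fl]
      rw [e0, x.1.2.1]
      simp
  · intro x
    apply Subtype.ext
    change pcH a ha (1, x) = inf
    by_cases h : x.1 = inf
    · rw [pcH_inf a ha _ h]
    · rw [pcH_ne a ha _ h]
      apply eq_inf_of_dl
      change dl (((Fl (dv a) 1 x.1.1) 0)⁻¹ • (Fl (dv a) 1 x.1.1)) = 0
      rw [pc_dl_smul, Fl_dl]
      simp

end Trom
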