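import Pool.Agent.Helper97.Trom.Top
import Pool.Agent.Helper97.Trom.AbsDef
import Pool.Agent.Helper97.Trom.J_piece_contractible
import Pool.Agent.Helper97.Trom.J_piece7_contractible
import Pool.Agent.Helper97.Trom.J_lift_path

open Matrix Set Topology

namespace Trom

/-- paths inside a piece with the same end points are homotopic -/
theorem sc_Om (a : Fin 8) (y z : Om) (γ γ' : Path y z) (hγ : ∀ t, (γ t).1 ∈ Dp a)
    (hγ' : ∀ t, (γ' t).1 ∈ Dp a) : Path.Homotopic γ γ' := by
  have hc : ContractibleSpace (Dp a) := by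
    by_cases ha : a = 7
    · subst ha; exact piece7_contractible
    · exact piece_contractible a ha
  have hy : y.1 ∈ Dp a := by have := hγ 0; rwa [γ.source] at this
  have hz : z.1 ∈ Dp a := by have := hγ 1; rwa [γ.target] at this
  let mk : (δ : Path y z) → (∀ t, (δ t).1 ∈ Dp a) → Path (⟨y.1, hy⟩ : Dp a) ⟨z.1, hz⟩ := fun δ hδ =>
    { toFun := fun t => ⟨(δ t).1, hδ t⟩
      continuous_toFun := Continuous.subtype_mk (continuous_subtype_val.comp δ.continuous) _
      source' := Subtype.ext (by simp [δ.source])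
      target' := Subtype.ext (by simp [δ.target]) }
  have hsc : SimplyConnectedSpace (Dp a) := inferInstance
  have h : Path.Homotopic (mk γ hγ) (mk γ' hγ') := SimplyConnectedSpace.paths_homotopic _ _
  let incl : C(Dp a, Om) := ⟨fun p => ⟨p.1, P0_sub_Om ⟨a, p.2⟩⟩,
    Continuous.subtype_mk continuous_subtype_val _⟩
  have h2 := h.map incl
  exact h2

end Trom
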