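import Pool.Agent.Helper97.Trom.Top
import Pool.Agent.Helper97.Trom.AbsDef
import Pool.Agent.Helper97.Trom.J_kappa_abs
import Pool.Agent.Helper97.Trom.J_lift_path
import Pool.Agent.Helper97.Trom.J_sc_Om
import Pool.Agent.Helper97.Trom.J_inf_mem
import Pool.Agent.Helper97.Trom.J_mQ_mem
import Pool.Agent.Helper97.Trom.J_overlap
import Pool.Agent.Helper97.Trom.J_overlap7
import Pool.Agent.Helper97.Trom.J_piece7_contractible

open Matrix Set Topology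

namespace Trom

theorem kappa_Om (hi : inf ∈ Om) :
    ∃ κ : ∀ y : Om, (∃ a, y.1 ∈ Dp a) → Path.Homotopic.Quotient (⟨inf, hi⟩ : Om) y,
      (∀ h, κ ⟨inf, hi⟩ h = Path.Homotopic.Quotient.refl _) ∧
      ∀ (a : Fin 8) (y z : Om) (hy : y.1 ∈ Dp a) (hz : z.1 ∈ Dp a) (γ : Path y z),
        (∀ t, (γ t).1 ∈ Dp a) →
        (κ y ⟨a, hy⟩).trans (Path.Homotopic.Quotient.mk γ) = κ z ⟨a, hz⟩ := by
  have hmP : mQ ∈ P0 := ⟨6, mQ_mem.1⟩
  have hm : mQ ∈ Om := P0_sub_Om hmP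
  refine kappa_abs (X := Om) (fun a => {x | x.1 ∈ Dp a}) ⟨inf, hi⟩ ⟨mQ, hm⟩ ?_ ?_ ?_ ?_ ?_ ?_
  · intro a ha
    exact inf_mem a ha
  · exact mQ_mem.1
  · intro a y z γ γ' h h'
    exact sc_Om a y z γ γ' h h'
  · intro a b ha hb y hya hyb
    obtain ⟨γ, hγ⟩ := overlap a b ha hb y.1 hya hyb
    obtain ⟨γ', hγ'⟩ := lift_path (x := ⟨inf, hi⟩) (y := y) γ (fun t => P0_sub_Om ⟨a, (hγ t).1⟩)
    refine ⟨γ', fun t => ?_⟩
    have h1 := hγ t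
    rw [← hγ' t] at h1
    exact h1
  · intro y hy
    haveI := piece7_contractible
    have γ : Path (⟨mQ, mQ_mem.2⟩ : Dp 7) (⟨y.1, hy⟩ : Dp 7) := PathConnectedSpace.somePath _ _
    have hγ : ∀ t, (γ.map continuous_subtype_val) t ∈ Dp 7 := fun t => (γ t).2
    obtain ⟨γ', hγ'⟩ := lift_path (x := ⟨mQ, hm⟩) (y := y) (γ.map continuous_subtype_val)
      (fun t => P0_sub_Om ⟨7, hγ t⟩)
    refine ⟨γ', fun t => ?_⟩
    have h1 := hγ t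
    rw [← hγ' t] at h1
    exact h1
  · intro b hb y hy7 hyb
    obtain ⟨h6, γ, hγ⟩ := overlap7 b hb y.1 hy7 hyb
    obtain ⟨γ', hγ'⟩ := lift_path (x := ⟨mQ, hm⟩) (y := y) γ (fun t => P0_sub_Om ⟨6, (hγ t).1⟩)
    refine ⟨h6, γ', fun t => ?_⟩
    have h1 := hγ t
    rw [← hγ' t] at h1
    exact h1

end Trom
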