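import Pool.Agent.Helper97.Trom.Top

open Matrix Set Topology

namespace Trom

/-- squared distance to a centre -/
def nn (z : Fin 3 → ℝ) (i : Fin 16) : ℝ :=
  (z 0 - ctr i 0) ^ 2 + (z 1 - ctr i 1) ^ 2 + (z 2 - ctr i 2) ^ 2

/-- linear part -/
def Sg (z : Fin 3 → ℝ) : Prop := 1 ≤ z 0 ∧ 1 ≤ z 1 ∧ z 0 + z 1 ≤ 3 ∧ 0 ≤ z 2 ∧ z 2 ≤ 1

theorem st_mem7 (z : Fin 3 → ℝ) : st z ∈ Dp 7 ↔
    Sg z ∧ (∀ i, 1/2 ≤ nn z i) ∧ ∀ i j, 2 ≤ d2 i j → ¬ (nn z i = 1/2 ∧ nn z j = 1/2) := by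
  have hd := st_dl_pos z
  have hev : ∀ i, lor (st z).1 (ev i) = dl (st z).1 * (1/4 - nn z i / 2) := fun i => st_ev z i
  have hle : ∀ i, lor (st z).1 (ev i) ≤ 0 ↔ 1/2 ≤ nn z i := by
    intro i
    rw [hev]
    constructor
    · intro h
      by_contra h'
      push Not at h'
      have : 0 < dl (st z).1 * (1/4 - nn z i / 2) := mul_pos hd (by linarith)
      linarith
    · intro h
      exact mul_nonpos_of_nonneg_of_nonpos hd.le (by linarith)
  have heq : ∀ i, lor (st z).1 (ev i) = 0 ↔ nn z i = 1/2 := by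
    intro i
    rw [hev, mul_eq_zero]
    constructor
    · rintro (h | h)
      · exact absurd h hd.ne'
      · linarith
    · intro h
      right
      rw [h]; norm_num
  obtain ⟨h1, h2, h3⟩ := st_coord z
  have hlin : Lin 7 (st z).1 ↔ Sg z := by
    change (dl (st z).1 ≤ (st z).1 1 ∧ dl (st z).1 ≤ (st z).1 2 ∧
      (st z).1 1 + (st z).1 2 ≤ 3 * dl (st z).1 ∧ 0 ≤ (st z).1 3 ∧ (st z).1 3 ≤ dl (st z).1 ∧
      (st z).1 0 ≤ 10 * dl (st z).1) ↔ _
    rw [h1, h2, h3, (st z).2.1]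
    unfold Sg
    constructor
    · rintro ⟨a, b, c, d, e, -⟩
      refine ⟨?_, ?_, ?_, ?_, ?_⟩
      · by_contra h; push Not at h; nlinarith
      · by_contra h; push Not at h; nlinarith
      · by_contra h; push Not at h; nlinarith
      · by_contra h; push Not at h; nlinarith
      · by_contra h; push Not at h; nlinarith
    · rintro ⟨a, b, c, d, e⟩
      refine ⟨by nlinarith, by nlinarith, by nlinarith, by positivity, by nlinarith, ?_⟩
      rw [st_dl]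
      have hp := lv_zero_pos z
      have hb : lv z 0 ≤ 10 := by
        simp only [lv]
        simp
        nlinarith
      rw [← div_eq_mul_inv, le_div_iff₀ hp]
      linarith
  change (Pa (st z) ∧ Lin 7 (st z).1) ↔ _
  rw [hlin]
  unfold Pa
  simp only [hle, heq]
  tauto

/-- pushing towards the centre of the notch -/
noncomputable def psh (l : ℝ) (z : Fin 3 → ℝ) : Fin 3 → ℝ :=
  ![3/2 + l * (z 0 - 3/2), 3/2 + l * (z 1 - 3/2), 1/2 + l * (z 2 - 1/2)]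

theorem psh_Sg {l : ℝ} (h0 : 0 ≤ l) (h1 : l ≤ 1) {z : Fin 3 → ℝ} (h : Sg z) : Sg (psh l z) := by
  obtain ⟨a, b, c, d, e⟩ := h
  unfold Sg psh
  simp
  refine ⟨by nlinarith, by nlinarith, by nlinarith, by nlinarith, by nlinarith⟩

theorem psh_nn {l : ℝ} (h0 : 0 ≤ l) (h1 : l < 1) {z : Fin 3 → ℝ} (h : Sg z)
    (hn : ∀ i, 1/2 ≤ nn z i) (i : Fin 16) : 1/2 < nn (psh l z) i := by
  have hS := psh_Sg h0 h1.le h
  obtain ⟨a', b', c', d', e'⟩ := hS
  obtain ⟨a, b, c, d, e⟩ := h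
  have g8 := hn 8
  have g9 := hn 9
  have g10 := hn 10
  have g11 := hn 11
  have g14 := hn 14
  have g15 := hn 15
  simp [nn, ctr] at g8 g9 g10 g11 g14 g15
  have hρ : (z 0 - 3/2)^2 + (z 1 - 3/2)^2 + (z 2 - 1/2)^2 ≤ 1/4 := by
    have q1 : ∀ u : ℝ, 0 ≤ u → u ≤ 1/2 → (u - 1/2)^2 ≤ 1/4 - u^2 := by
      intro u hu hu'
      nlinarith [mul_nonneg hu (sub_nonneg.2 hu')]
    have Z : (z 2 - 1/2)^2 ≤ 1/4 - (z 2)^2 ∨ (z 2 - 1/2)^2 ≤ 1/4 - (z 2 - 1)^2 := by
      rcases le_total (z 2) (1/2) with hc | hc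
      · exact Or.inl (q1 _ d hc)
      · right
        have := q1 (1 - z 2) (by linarith) (by linarith)
        nlinarith
    rcases le_total (z 0) (3/2) with ha | ha
    · have A := q1 (z 0 - 1) (by linarith) (by linarith)
      rcases le_total (z 1) (3/2) with hb | hb
      · have B := q1 (z 1 - 1) (by linarith) (by linarith)
        rcases Z with Z | Z <;> nlinarith only [A, B, Z, g8, g9]
      · have B := q1 (2 - z 1) (by linarith) (by linarith)
        rcases Z with Z | Z <;> nlinarith only [A, B, Z, g10, g11]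
    · have A := q1 (2 - z 0) (by linarith) (by linarith)
      have B := q1 (z 1 - 1) (by linarith) (by linarith)
      rcases Z with Z | Z <;> nlinarith only [A, B, Z, g14, g15]
  have hgap : 0 < (1 - l) * (1/4 - l * ((z 0 - 3/2)^2 + (z 1 - 3/2)^2 + (z 2 - 1/2)^2)) := by
    apply mul_pos (by linarith)
    have := mul_le_mul_of_nonneg_left hρ h0
    linarith
  have key : ∀ c0 c1 c2 : ℝ, (3/2 - c0)^2 + (3/2 - c1)^2 + (1/2 - c2)^2 = 3/4 →
      1/2 ≤ (z 0 - c0)^2 + (z 1 - c1)^2 + (z 2 - c2)^2 →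
      1/2 < (3/2 + l * (z 0 - 3/2) - c0)^2 + (3/2 + l * (z 1 - 3/2) - c1)^2 +
        (1/2 + l * (z 2 - 1/2) - c2)^2 := by
    intro c0 c1 c2 hc hz
    have e1 : (3/2 + l * (z 0 - 3/2) - c0)^2 + (3/2 + l * (z 1 - 3/2) - c1)^2 +
        (1/2 + l * (z 2 - 1/2) - c2)^2 = 
        l * ((z 0 - c0)^2 + (z 1 - c1)^2 + (z 2 - c2)^2) + 
        (1 - l) * ((3/2 - c0)^2 + (3/2 - c1)^2 + (1/2 - c2)^2)
        - l * (1 - l) * ((z 0 - 3/2)^2 + (z 1 - 3/2)^2 + (z 2 - 1/2)^2) := by ring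
    rw [e1, hc]
    have e2 := mul_le_mul_of_nonneg_left hz h0
    generalize (z 0 - c0)^2 + (z 1 - c1)^2 + (z 2 - c2)^2 = Q at e2 ⊢
    generalize (z 0 - 3/2)^2 + (z 1 - 3/2)^2 + (z 2 - 1/2)^2 = R at hgap ⊢
    linarith
  have hcls : ctr i 0 = 0 ∨ ctr i 1 = 0 ∨
      (3 - 2 * ctr i 0)^2 + (3 - 2 * ctr i 1)^2 + (1 - 2 * ctr i 2)^2 = 3 := by
    clear hn
    revert i
    decide
  have hi := hn i
  clear hn g8 g9 g10 g11 g14 g15
  unfold nn at hi ⊢
  simp [psh] at a' b' c' d' e'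
  change 1/2 < (3/2 + l * (z 0 - 3/2) - ctr i 0)^2 + (3/2 + l * (z 1 - 3/2) - ctr i 1)^2 +
        (1/2 + l * (z 2 - 1/2) - ctr i 2)^2
  rcases hcls with h | h | h
  · rw [h]
    push_cast
    generalize 3/2 + l * (z 0 - 3/2) = X at *
    have h1 : 1 ≤ X ^ 2 := by nlinarith
    have h2 := sq_nonneg (3/2 + l * (z 1 - 3/2) - (ctr i 1 : ℝ))
    have h3 := sq_nonneg (1/2 + l * (z 2 - 1/2) - (ctr i 2 : ℝ))
    rw [sub_zero]
    linarith
  · rw [h]
    push_cast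
    generalize 3/2 + l * (z 1 - 3/2) = X at *
    have h1 : 1 ≤ X ^ 2 := by nlinarith
    have h2 := sq_nonneg (3/2 + l * (z 0 - 3/2) - (ctr i 0 : ℝ))
    have h3 := sq_nonneg (1/2 + l * (z 2 - 1/2) - (ctr i 2 : ℝ))
    rw [sub_zero]
    linarith
  · apply key _ _ _ _ hi
    have h' : ((3 - 2 * (ctr i 0 : ℝ))^2 + (3 - 2 * (ctr i 1 : ℝ))^2 + (1 - 2 * (ctr i 2 : ℝ))^2) = 3 := by
      exact_mod_cast h
    linarith

theorem psh_one (z : Fin 3 → ℝ) : psh 1 z = z := by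
  have h0 : psh 1 z 0 = z 0 := by simp [psh]
  have h1 : psh 1 z 1 = z 1 := by simp [psh]
  have h2 : psh 1 z 2 = z 2 := by simp [psh]
  ext k
  fin_cases k
  · exact h0
  · exact h1
  · exact h2

theorem continuous_psh : Continuous fun x : ℝ × (Fin 3 → ℝ) => psh x.1 x.2 := by
  unfold psh
  apply continuous_pi
  intro k
  fin_cases k <;> simp <;> fun_prop

theorem Sg_convex : Convex ℝ {z | Sg z} := by
  intro x hx y hy a b ha hb hab
  obtain ⟨x1, x2, x3, x4, x5⟩ := hx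
  obtain ⟨y1, y2, y3, y4, y5⟩ := hy
  have hb' : b = 1 - a := by linarith
  subst hb'
  refine ⟨?_, ?_, ?_, ?_, ?_⟩
  all_goals simp only [Pi.add_apply, Pi.smul_apply, smul_eq_mul]
  all_goals nlinarith

theorem continuous_nn (i : Fin 16) : Continuous fun z => nn z i := by
  unfold nn
  fun_prop

/-- the coordinate map -/
noncomputable def cq (x : V5) : Fin 3 → ℝ := ![x 1 / dl x, x 2 / dl x, x 3 / dl x]

theorem dl_pos_of_mem7 {x : Sph} (hx : x ∈ Dp 7) : 0 < dl x.1 := by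
  have h : Lin 7 x.1 := hx.2
  have h0 := h.2.2.2.2.2
  rw [x.2.1] at h0
  linarith

theorem st_cq {x : Sph} (hx : 0 < dl x.1) : st (cq x.1) = x := by
  refine (st_surj x ?_).symm
  rintro rfl
  simp [inf, dl] at hx

theorem st_mem7_of_lt {z : Fin 3 → ℝ} (h : Sg z) (hn : ∀ i, 1/2 < nn z i) : st z ∈ Dp 7 := by
  rw [st_mem7]
  refine ⟨h, fun i => (hn i).le, fun i j _ hij => ?_⟩
  exact absurd hij.1 (hn i).ne'

theorem joined7 (N : Set Sph) (hN : IsOpen N) (p : Fin 3 → ℝ) (hp : st p ∈ Dp 7) (hpN : st p ∈ N) :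
    ∀ᶠ q in 𝓝 p, st q ∈ Dp 7 → JoinedIn (N ∩ Dp 7) (st p) (st q) := by
  have hU : IsOpen (st ⁻¹' N) := hN.preimage continuous_st
  have hW : (fun x : ℝ × (Fin 3 → ℝ) => psh x.1 x.2) ⁻¹' (st ⁻¹' N) ∈ 𝓝 ((1 : ℝ), p) := by
    apply (hU.preimage continuous_psh).mem_nhds
    change st (psh 1 p) ∈ N
    rw [psh_one]
    exact hpN
  obtain ⟨ε, hε, hball⟩ := Metric.mem_nhds_iff.1 hW
  have hball' : ∀ (s : ℝ) (q : Fin 3 → ℝ), |s - 1| < ε → dist q p < ε → st (psh s q) ∈ N := by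
    intro s q hs hq
    have : ((s, q) : ℝ × (Fin 3 → ℝ)) ∈ Metric.ball ((1 : ℝ), p) ε := by
      rw [Metric.mem_ball, Prod.dist_eq]
      exact max_lt hs hq
    have h := hball this
    rw [Set.mem_preimage, Set.mem_preimage] at h
    exact h
  obtain ⟨l, hl0, hl1, hlε⟩ : ∃ l : ℝ, 0 ≤ l ∧ l < 1 ∧ 1 - l < ε := by
    refine ⟨max 0 (1 - ε / 2), le_max_left _ _, max_lt one_pos (by linarith), ?_⟩
    have := le_max_right 0 (1 - ε / 2)
    linarith
  have hseg : ∀ q : Fin 3 → ℝ, dist q p < ε → st q ∈ Dp 7 →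
      JoinedIn (st ⁻¹' (N ∩ Dp 7)) q (psh l q) := by
    intro q hq hq7
    refine JoinedIn.ofLine (f := fun t => psh (1 - t * (1 - l)) q) ?_ ?_ ?_ ?_
    · apply Continuous.continuousOn
      exact continuous_psh.comp (by fun_prop : Continuous fun t : ℝ => ((1 - t * (1 - l) : ℝ), q))
    · simp [psh_one]
    · simp
    · rintro _ ⟨t, ⟨ht0, ht1⟩, rfl⟩
      have hs1 : 1 - t * (1 - l) ≤ 1 := by nlinarith
      have hs0 : l ≤ 1 - t * (1 - l) := by nlinarith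
      refine ⟨hball' _ _ ?_ hq, ?_⟩
      · rw [abs_lt]
        constructor <;> linarith
      · rcases hs1.lt_or_eq with h | h
        · obtain ⟨a, b, -⟩ := (st_mem7 q).1 hq7
          exact st_mem7_of_lt (psh_Sg (hl0.trans hs0) hs1 a) (psh_nn (hl0.trans hs0) h a b)
        · change st (psh (1 - t * (1 - l)) q) ∈ Dp 7
          rw [h, psh_one]
          exact hq7
  obtain ⟨a, b, -⟩ := (st_mem7 p).1 hp
  have hV : IsOpen ((st ⁻¹' N) ∩ {z | ∀ i, 1/2 < nn z i}) := by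
    apply hU.inter
    have : {z : Fin 3 → ℝ | ∀ i, 1/2 < nn z i} = ⋂ i, {z | 1/2 < nn z i} := by
      ext z; simp
    rw [this]
    exact isOpen_iInter_of_finite fun i => isOpen_lt continuous_const (continuous_nn i)
  have hPV : psh l p ∈ (st ⁻¹' N) ∩ {z | ∀ i, 1/2 < nn z i} := by
    refine ⟨hball' _ _ ?_ ?_, psh_nn hl0 hl1 a b⟩
    · rw [abs_lt]
      constructor <;> linarith
    · rw [dist_self]; exact hε
  obtain ⟨r, hr, hrV⟩ := Metric.isOpen_iff.1 hV _ hPV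
  have hc : Continuous fun q => psh l q :=
    continuous_psh.comp (by fun_prop : Continuous fun q : Fin 3 → ℝ => ((l : ℝ), q))
  have e1 : ∀ᶠ q in 𝓝 p, psh l q ∈ Metric.ball (psh l p) r :=
    hc.continuousAt (Metric.ball_mem_nhds _ hr)
  filter_upwards [e1, Metric.ball_mem_nhds p hε] with q hq1 hq2 hq7
  have hmid : JoinedIn (st ⁻¹' (N ∩ Dp 7)) (psh l p) (psh l q) := by
    apply JoinedIn.of_segment_subset
    intro z hz
    obtain ⟨c, d, -⟩ := (st_mem7 q).1 hq7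
    have hz1 : z ∈ Metric.ball (psh l p) r :=
      (convex_ball _ _).segment_subset (Metric.mem_ball_self hr) hq1 hz
    have hz2 : Sg z := Sg_convex.segment_subset (psh_Sg hl0 hl1.le a) (psh_Sg hl0 hl1.le c) hz
    obtain ⟨hz3, hz4⟩ := hrV hz1
    exact ⟨hz3, st_mem7_of_lt hz2 hz4⟩
  have hall : JoinedIn (st ⁻¹' (N ∩ Dp 7)) p q :=
    ((hseg p (by rw [dist_self]; exact hε) hp).trans hmid).trans (hseg q hq2 hq7).symm
  exact (hall.map continuous_st).mono (Set.image_preimage_subset _ _)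
theorem piece7_loc (x : Sph) (hx : x ∈ Dp 7) (N : Set Sph)
    (hN : N ∈ 𝓝 x) : ∀ᶠ y in 𝓝 x, y ∈ Dp 7 → ∃ γ : Path x y, ∀ t, γ t ∈ N ∧ γ t ∈ Dp 7 := by
  have hd := dl_pos_of_mem7 hx
  have hst := st_cq hd
  obtain ⟨N', hN'N, hN'o, hxN'⟩ := mem_nhds_iff.1 hN
  have h1 := joined7 N' hN'o (cq x.1) (by rw [hst]; exact hx) (by rw [hst]; exact hxN')
  have hc : ContinuousAt (fun y : Sph => cq y.1) x := by
    have c0 : ∀ k : Fin 5, Continuous fun y : Sph => y.1 k := fun k =>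
      (continuous_apply k).comp continuous_subtype_val
    have c1 : Continuous fun y : Sph => dl y.1 := (c0 0).sub (c0 4)
    have c2 : ∀ k : Fin 5, ContinuousAt (fun y : Sph => y.1 k / dl y.1) x := fun k =>
      ContinuousAt.div (c0 k).continuousAt c1.continuousAt hd.ne'
    unfold cq
    rw [continuousAt_pi]
    intro k
    fin_cases k
    · exact c2 1
    · exact c2 2
    · exact c2 3
  have h2 := hc.eventually h1
  filter_upwards [h2] with y hy hy7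
  have hsty := st_cq (dl_pos_of_mem7 hy7)
  rw [hst, hsty] at hy
  obtain ⟨γ, hγ⟩ := hy hy7
  exact ⟨γ, fun t => ⟨hN'N (hγ t).1, (hγ t).2⟩⟩

end Trom
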