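import Pool.Agent.Helper97.Trom.Top

open Matrix Set Topology

namespace Trom

theorem piece_loc_ctr (i : Fin 16) : 0 ≤ ctr i 0 ∧ ctr i 0 ≤ 2 ∧ 0 ≤ ctr i 1 ∧ ctr i 1 ≤ 2 ∧
    0 ≤ ctr i 2 ∧ ctr i 2 ≤ 1 ∧ ctr i 0 + ctr i 1 ≤ 3 := by
  revert i; decide

theorem piece_loc_ctrR (i : Fin 16) : (0:ℝ) ≤ ctr i 0 ∧ (ctr i 0 : ℝ) ≤ 2 ∧ (0:ℝ) ≤ ctr i 1 ∧
    (ctr i 1 : ℝ) ≤ 2 ∧ (0:ℝ) ≤ ctr i 2 ∧ (ctr i 2 : ℝ) ≤ 1 ∧ (ctr i 0 : ℝ) + ctr i 1 ≤ 3 := by
  obtain ⟨h1, h2, h3, h4, h5, h6, h7⟩ := piece_loc_ctr i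
  refine ⟨?_, ?_, ?_, ?_, ?_, ?_, ?_⟩
  · exact_mod_cast h1
  · exact_mod_cast h2
  · exact_mod_cast h3
  · exact_mod_cast h4
  · exact_mod_cast h5
  · exact_mod_cast h6
  · exact_mod_cast h7

theorem piece_loc_cases (a : Fin 8) (ha : a ≠ 7) : a = 0 ∨ a = 1 ∨ a = 2 ∨ a = 3 ∨ a = 4 ∨
    a = 5 ∨ a = 6 := by
  revert a; decide

theorem piece_loc_push (a : Fin 8) (ha : a ≠ 7) (x : V5) (hd : 0 ≤ dl x) (h : Lin a x)
    (i : Fin 16) : 0 ≤ (x 1 * dv a 0 + x 2 * dv a 1 + x 3 * dv a 2) -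
      dl x * (ctr i 0 * dv a 0 + ctr i 1 * dv a 1 + ctr i 2 * dv a 2) := by
  obtain ⟨h1, h2, h3, h4, h5, h6, h7⟩ := piece_loc_ctrR i
  rcases piece_loc_cases a ha with rfl | rfl | rfl | rfl | rfl | rfl | rfl
  · have h : 2 * dl x ≤ x 1 := h
    simp [dv]
    nlinarith
  · have h : x 1 ≤ 0 := h
    simp [dv]
    nlinarith
  · have h : 2 * dl x ≤ x 2 := h
    simp [dv]
    nlinarith
  · have h : x 2 ≤ 0 := h
    simp [dv]
    nlinarith
  · have h : dl x ≤ x 3 := h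
    simp [dv]
    nlinarith
  · have h : x 3 ≤ 0 := h
    simp [dv]
    nlinarith
  · have h : dl x ≤ x 1 ∧ dl x ≤ x 2 ∧ 3 * dl x ≤ x 1 + x 2 := h
    simp [dv]
    nlinarith [h.2.2]

theorem piece_loc_vv (a : Fin 8) : 1 ≤ (dv a 0) ^ 2 + (dv a 1) ^ 2 + (dv a 2) ^ 2 := by
  fin_cases a <;> simp [dv]

theorem piece_loc_vn (a : Fin 8) (k : Fin 3) : |dv a k| ≤ 1 := by
  fin_cases a <;> fin_cases k <;> simp [dv]

theorem piece_loc_Lin_smul (a : Fin 8) (ha : a ≠ 7) {c : ℝ} (hc : 0 < c) {x : V5} (h : Lin a x) :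
    Lin a (c • x) := by
  have e : dl (c • x) = c * dl x := by simp [dl]; ring
  rcases piece_loc_cases a ha with rfl | rfl | rfl | rfl | rfl | rfl | rfl
  · have h : 2 * dl x ≤ x 1 := h
    show 2 * dl (c • x) ≤ c * x 1
    rw [e]; nlinarith
  · have h : x 1 ≤ 0 := h
    show c * x 1 ≤ 0
    nlinarith
  · have h : 2 * dl x ≤ x 2 := h
    show 2 * dl (c • x) ≤ c * x 2
    rw [e]; nlinarith
  · have h : x 2 ≤ 0 := h
    show c * x 2 ≤ 0
    nlinarith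
  · have h : dl x ≤ x 3 := h
    show dl (c • x) ≤ c * x 3
    rw [e]; nlinarith
  · have h : x 3 ≤ 0 := h
    show c * x 3 ≤ 0
    nlinarith
  · have h : dl x ≤ x 1 ∧ dl x ≤ x 2 ∧ 3 * dl x ≤ x 1 + x 2 := h
    show dl (c • x) ≤ c * x 1 ∧ dl (c • x) ≤ c * x 2 ∧ 3 * dl (c • x) ≤ c * x 1 + c * x 2
    rw [e]
    refine ⟨?_, ?_, ?_⟩
    · nlinarith [h.1]
    · nlinarith [h.2.1]
    · nlinarith [h.2.2]

/-- strictly outside of all balls -/
theorem piece_loc_mem (a : Fin 8) (ha : a ≠ 7) (X : V5) (h0 : 0 < X 0) (hl : lor X X = 0)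
    (hs : ∀ i, lor X (ev i) < 0) (hL : Lin a X) : toSph X h0 hl ∈ Dp a := by
  have hv : (toSph X h0 hl).1 = (X 0)⁻¹ • X := rfl
  have hc : 0 < (X 0)⁻¹ := inv_pos.2 h0
  have hs' : ∀ i, lor (toSph X h0 hl).1 (ev i) < 0 := by
    intro i
    rw [hv, lor_smul_left]
    exact mul_neg_of_pos_of_neg hc (hs i)
  refine ⟨⟨fun i => (hs' i).le, fun i j _ h => ?_⟩, ?_⟩
  · exact absurd h.1 (hs' i).ne
  · rw [hv]
    exact piece_loc_Lin_smul a ha hc hL

theorem piece_loc_st_Lin (a : Fin 8) (ha : a ≠ 7) (r : Fin 3 → ℝ) (h : st r ∈ Dp a) :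
    Lin a (lv r) := by
  have h1 := h.2
  rw [st_val] at h1
  have h2 := piece_loc_Lin_smul a ha (lv_zero_pos r) h1
  rw [smul_smul, mul_inv_cancel₀ (lv_zero_pos r).ne', one_smul] at h2
  exact h2

theorem piece_loc_st_le (a : Fin 8) (r : Fin 3 → ℝ) (h : st r ∈ Dp a) (i : Fin 16) :
    lor (lv r) (ev i) ≤ 0 := by
  have h1 := h.1.1 i
  rw [st_val, lor_smul_left] at h1
  have hc : 0 < (lv r 0)⁻¹ := inv_pos.2 (lv_zero_pos r)
  by_contra hneg
  have := mul_pos hc (not_le.1 hneg)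
  linarith

theorem piece_loc_dl_lv (r : Fin 3 → ℝ) : dl (lv r) = 1 := by
  simp [dl, lv]; ring

theorem piece_loc_lv_add (a : Fin 8) (ha : a ≠ 7) (r : Fin 3 → ℝ) (η : ℝ) (hη : 0 ≤ η)
    (h : Lin a (lv r)) : Lin a (lv (r + η • dv a)) := by
  have d1 := piece_loc_dl_lv r
  have d2 := piece_loc_dl_lv (r + η • dv a)
  rcases piece_loc_cases a ha with rfl | rfl | rfl | rfl | rfl | rfl | rfl
  · have h : 2 * dl (lv r) ≤ r 0 := h
    show 2 * dl (lv (r + η • dv 0)) ≤ r 0 + η * 1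
    rw [d1] at h; rw [d2]; linarith
  · have h : r 0 ≤ 0 := h
    show r 0 + η * (-1) ≤ 0
    linarith
  · have h : 2 * dl (lv r) ≤ r 1 := h
    show 2 * dl (lv (r + η • dv 2)) ≤ r 1 + η * 1
    rw [d1] at h; rw [d2]; linarith
  · have h : r 1 ≤ 0 := h
    show r 1 + η * (-1) ≤ 0
    linarith
  · have h : dl (lv r) ≤ r 2 := h
    show dl (lv (r + η • dv 4)) ≤ r 2 + η * 1
    rw [d1] at h; rw [d2]; linarith
  · have h : r 2 ≤ 0 := h
    show r 2 + η * (-1) ≤ 0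
    linarith
  · have h : dl (lv r) ≤ r 0 ∧ dl (lv r) ≤ r 1 ∧ 3 * dl (lv r) ≤ r 0 + r 1 := h
    show dl (lv (r + η • dv 6)) ≤ r 0 + η * 1 ∧ dl (lv (r + η • dv 6)) ≤ r 1 + η * 1 ∧
      3 * dl (lv (r + η • dv 6)) ≤ (r 0 + η * 1) + (r 1 + η * 1)
    rw [d1] at h; rw [d2]
    refine ⟨?_, ?_, ?_⟩
    · linarith [h.1]
    · linarith [h.2.1]
    · linarith [h.2.2]

theorem piece_loc_convex (a : Fin 8) (ha : a ≠ 7) : Convex ℝ {r : Fin 3 → ℝ | Lin a (lv r)} := by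
  intro r hr q hq α β hα hβ hαβ
  have d1 := piece_loc_dl_lv r
  have d2 := piece_loc_dl_lv q
  have d3 := piece_loc_dl_lv (α • r + β • q)
  rcases piece_loc_cases a ha with rfl | rfl | rfl | rfl | rfl | rfl | rfl
  · have hr : 2 * dl (lv r) ≤ r 0 := hr
    have hq : 2 * dl (lv q) ≤ q 0 := hq
    show 2 * dl (lv (α • r + β • q)) ≤ α * r 0 + β * q 0
    rw [d1] at hr; rw [d2] at hq; rw [d3]; nlinarith
  · have hr : r 0 ≤ 0 := hr
    have hq : q 0 ≤ 0 := hq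
    show α * r 0 + β * q 0 ≤ 0
    nlinarith
  · have hr : 2 * dl (lv r) ≤ r 1 := hr
    have hq : 2 * dl (lv q) ≤ q 1 := hq
    show 2 * dl (lv (α • r + β • q)) ≤ α * r 1 + β * q 1
    rw [d1] at hr; rw [d2] at hq; rw [d3]; nlinarith
  · have hr : r 1 ≤ 0 := hr
    have hq : q 1 ≤ 0 := hq
    show α * r 1 + β * q 1 ≤ 0
    nlinarith
  · have hr : dl (lv r) ≤ r 2 := hr
    have hq : dl (lv q) ≤ q 2 := hq
    show dl (lv (α • r + β • q)) ≤ α * r 2 + β * q 2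
    rw [d1] at hr; rw [d2] at hq; rw [d3]; nlinarith
  · have hr : r 2 ≤ 0 := hr
    have hq : q 2 ≤ 0 := hq
    show α * r 2 + β * q 2 ≤ 0
    nlinarith
  · have hr : dl (lv r) ≤ r 0 ∧ dl (lv r) ≤ r 1 ∧ 3 * dl (lv r) ≤ r 0 + r 1 := hr
    have hq : dl (lv q) ≤ q 0 ∧ dl (lv q) ≤ q 1 ∧ 3 * dl (lv q) ≤ q 0 + q 1 := hq
    show dl (lv (α • r + β • q)) ≤ α * r 0 + β * q 0 ∧
      dl (lv (α • r + β • q)) ≤ α * r 1 + β * q 1 ∧
      3 * dl (lv (α • r + β • q)) ≤ (α * r 0 + β * q 0) + (α * r 1 + β * q 1)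
    rw [d1] at hr; rw [d2] at hq; rw [d3]
    refine ⟨?_, ?_, ?_⟩
    · nlinarith [hr.1, hq.1]
    · nlinarith [hr.2.1, hq.2.1]
    · nlinarith [hr.2.2, hq.2.2]

theorem piece_loc_lor_add (v : Fin 3 → ℝ) (r : Fin 3 → ℝ) (η : ℝ) (i : Fin 16) :
    lor (lv (r + η • v)) (ev i) = lor (lv r) (ev i)
      - η * ((r 0 * v 0 + r 1 * v 1 + r 2 * v 2) -
        (ctr i 0 * v 0 + ctr i 1 * v 1 + ctr i 2 * v 2))
      - η ^ 2 * ((v 0) ^ 2 + (v 1) ^ 2 + (v 2) ^ 2) / 2 := by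
  simp [lor, lv, ev]; ring

/-- the pushed point is strictly outside -/
theorem piece_loc_strict (a : Fin 8) (ha : a ≠ 7) (r : Fin 3 → ℝ) (h : st r ∈ Dp a) (η : ℝ)
    (hη : 0 < η) (i : Fin 16) : lor (lv (r + η • dv a)) (ev i) < 0 := by
  rw [piece_loc_lor_add]
  have h1 := piece_loc_st_le a r h i
  have h2 := piece_loc_push a ha (lv r) (by rw [piece_loc_dl_lv]; norm_num)
    (piece_loc_st_Lin a ha r h) i
  rw [piece_loc_dl_lv, one_mul] at h2
  have h3 : 0 ≤ (r 0 * dv a 0 + r 1 * dv a 1 + r 2 * dv a 2) -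
      (ctr i 0 * dv a 0 + ctr i 1 * dv a 1 + ctr i 2 * dv a 2) := h2
  have h4 := piece_loc_vv a
  have h5 : 0 ≤ η * ((r 0 * dv a 0 + r 1 * dv a 1 + r 2 * dv a 2) -
      (ctr i 0 * dv a 0 + ctr i 1 * dv a 1 + ctr i 2 * dv a 2)) := mul_nonneg hη.le h3
  have h6 : 0 < η ^ 2 * ((dv a 0) ^ 2 + (dv a 1) ^ 2 + (dv a 2) ^ 2) / 2 := by positivity
  linarith

theorem piece_loc_pushed (a : Fin 8) (ha : a ≠ 7) (r : Fin 3 → ℝ) (h : st r ∈ Dp a) (η : ℝ)
    (hη : 0 ≤ η) : st (r + η • dv a) ∈ Dp a := by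
  rcases hη.eq_or_lt with h0 | h0
  · rw [← h0, zero_smul, add_zero]; exact h
  · exact piece_loc_mem a ha _ _ _ (piece_loc_strict a ha r h η h0)
      (piece_loc_lv_add a ha r η hη (piece_loc_st_Lin a ha r h))

theorem piece_loc_norm (a : Fin 8) (η : ℝ) (hη : 0 ≤ η) : ‖η • dv a‖ ≤ η := by
  rw [pi_norm_le_iff_of_nonneg hη]
  intro k
  rw [Pi.smul_apply, smul_eq_mul, Real.norm_eq_abs, abs_mul, abs_of_nonneg hη]
  exact mul_le_of_le_one_right hη (piece_loc_vn a k)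

/-- pushing inside a ball -/
theorem piece_loc_seg (a : Fin 8) (ha : a ≠ 7) (r : Fin 3 → ℝ) (h : st r ∈ Dp a) (η : ℝ)
    (hη : 0 ≤ η) (p : Fin 3 → ℝ) (ρ : ℝ) (hρ : dist r p + η < ρ) :
    JoinedIn (Metric.ball p ρ ∩ {z | st z ∈ Dp a}) r (r + η • dv a) := by
  apply JoinedIn.of_segment_subset
  rw [segment_eq_image']
  rintro z ⟨θ, hθ, rfl⟩
  have e : r + θ • (r + η • dv a - r) = r + (θ * η) • dv a := by
    rw [add_sub_cancel_left, smul_smul]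
  have h1 : 0 ≤ θ * η := mul_nonneg hθ.1 hη
  have h2 : θ * η ≤ η := mul_le_of_le_one_left hη hθ.2
  show _ ∈ Metric.ball p ρ ∩ {z | st z ∈ Dp a}
  simp only [e]
  refine ⟨?_, piece_loc_pushed a ha r h _ h1⟩
  rw [Metric.mem_ball]
  have h3 : dist (r + (θ * η) • dv a) r ≤ θ * η := by
    rw [dist_eq_norm, add_sub_cancel_left]
    exact piece_loc_norm a _ h1
  have h4 := dist_triangle (r + (θ * η) • dv a) r p
  linarith

theorem piece_loc_U_open : IsOpen {r : Fin 3 → ℝ | ∀ i, lor (lv r) (ev i) < 0} := by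
  have e : {r : Fin 3 → ℝ | ∀ i, lor (lv r) (ev i) < 0} =
      ⋂ i, {r : Fin 3 → ℝ | lor (lv r) (ev i) < 0} := by
    ext r; simp
  rw [e]
  apply isOpen_iInter_of_finite
  intro i
  have hc : Continuous fun r : Fin 3 → ℝ => lor (lv r) (ev i) := by
    have h := continuous_lv
    have h0 := (continuous_apply (0 : Fin 5)).comp h
    have h1 := (continuous_apply (1 : Fin 5)).comp h
    have h2 := (continuous_apply (2 : Fin 5)).comp h
    have h3 := (continuous_apply (3 : Fin 5)).comp h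
    have h4 := (continuous_apply (4 : Fin 5)).comp h
    exact (((((h0.mul continuous_const).neg).add (h1.mul continuous_const)).add
      (h2.mul continuous_const)).add (h3.mul continuous_const)).add (h4.mul continuous_const)
  exact isOpen_lt hc continuous_const

/-- in the chart -/
theorem piece_loc_chart (a : Fin 8) (ha : a ≠ 7) (p : Fin 3 → ℝ) (hp : st p ∈ Dp a) (ρ : ℝ)
    (hρ : 0 < ρ) : ∃ δ > 0, ∀ q : Fin 3 → ℝ, dist q p < δ → st q ∈ Dp a →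
      JoinedIn (Metric.ball p ρ ∩ {z | st z ∈ Dp a}) p q := by
  set η : ℝ := ρ / 4 with hη
  have hη0 : 0 < η := by positivity
  have hU : p + η • dv a ∈ {r : Fin 3 → ℝ | ∀ i, lor (lv r) (ev i) < 0} :=
    fun i => piece_loc_strict a ha p hp η hη0 i
  obtain ⟨δ1, hδ1, hball⟩ := Metric.isOpen_iff.1 piece_loc_U_open _ hU
  refine ⟨min δ1 (ρ / 4), lt_min hδ1 (by positivity), fun q hq hqD => ?_⟩
  have hq1 : dist q p < δ1 := lt_of_lt_of_le hq (min_le_left _ _)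
  have hq2 : dist q p < ρ / 4 := lt_of_lt_of_le hq (min_le_right _ _)
  have h1 := piece_loc_seg a ha p hp η hη0.le p ρ (by rw [dist_self]; linarith)
  have h3 := piece_loc_seg a ha q hqD η hη0.le p ρ (by linarith)
  refine (h1.trans ?_).trans h3.symm
  apply JoinedIn.of_segment_subset
  have hd : dist (q + η • dv a) (p + η • dv a) = dist q p := dist_add_right _ _ _
  have hs1 : segment ℝ (p + η • dv a) (q + η • dv a) ⊆ Metric.ball (p + η • dv a) δ1 :=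
    (convex_ball _ _).segment_subset (Metric.mem_ball_self hδ1) (by
      rw [Metric.mem_ball, hd]; exact hq1)
  have hs2 : segment ℝ (p + η • dv a) (q + η • dv a) ⊆ Metric.ball p ρ := by
    apply (convex_ball _ _).segment_subset
    · rw [Metric.mem_ball, dist_eq_norm, add_sub_cancel_left]
      have := piece_loc_norm a η hη0.le
      linarith
    · rw [Metric.mem_ball]
      have e1 := dist_triangle (q + η • dv a) (p + η • dv a) p
      have e2 : dist (p + η • dv a) p ≤ η := by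
        rw [dist_eq_norm, add_sub_cancel_left]
        exact piece_loc_norm a η hη0.le
      linarith
  have hs3 : segment ℝ (p + η • dv a) (q + η • dv a) ⊆ {r : Fin 3 → ℝ | Lin a (lv r)} :=
    (piece_loc_convex a ha).segment_subset
      (piece_loc_lv_add a ha p η hη0.le (piece_loc_st_Lin a ha p hp))
      (piece_loc_lv_add a ha q η hη0.le (piece_loc_st_Lin a ha q hqD))
  intro z hz
  exact ⟨hs2 hz, piece_loc_mem a ha _ _ _ (hball (hs1 hz)) (hs3 hz)⟩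

/-- neighbourhoods of infinity -/
theorem piece_loc_inf (N : Set Sph) (hN : N ∈ 𝓝 inf) : ∃ ε > 0, ∀ z : Sph, dl z.1 < ε → z ∈ N := by
  obtain ⟨ρ, hρ, hball⟩ := Metric.mem_nhds_iff.1 hN
  refine ⟨min ρ (ρ ^ 2 / 2), lt_min hρ (by positivity), fun z hz => hball ?_⟩
  have hz1 : dl z.1 < ρ := lt_of_lt_of_le hz (min_le_left _ _)
  have hz2 : dl z.1 < ρ ^ 2 / 2 := lt_of_lt_of_le hz (min_le_right _ _)
  have hz0 := dl_nonneg z
  have h1 := z.2.1
  have h2 := z.2.2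
  simp only [lor, h1] at h2
  simp only [dl, h1] at hz0 hz1 hz2
  rw [Metric.mem_ball, Subtype.dist_eq, dist_pi_lt_iff hρ]
  have hsq : (z.1 1) ^ 2 + (z.1 2) ^ 2 + (z.1 3) ^ 2 < ρ ^ 2 := by
    nlinarith [sq_nonneg (z.1 1), sq_nonneg (z.1 2), sq_nonneg (z.1 3), sq_nonneg (1 - z.1 4)]
  have hb : ∀ t : ℝ, t ^ 2 < ρ ^ 2 → |t - 0| < ρ := by
    intro t ht
    rw [sub_zero]
    exact abs_lt_of_sq_lt_sq ht hρ.le
  intro k
  rw [Real.dist_eq]
  fin_cases k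
  · show |z.1 0 - 1| < ρ
    rw [h1, sub_self, abs_zero]; exact hρ
  · exact hb (z.1 1) (by nlinarith [sq_nonneg (z.1 2), sq_nonneg (z.1 3)])
  · exact hb (z.1 2) (by nlinarith [sq_nonneg (z.1 1), sq_nonneg (z.1 3)])
  · exact hb (z.1 3) (by nlinarith [sq_nonneg (z.1 1), sq_nonneg (z.1 2)])
  · show |z.1 4 - 1| < ρ
    rw [abs_sub_comm, abs_of_nonneg hz0]; exact hz1

theorem piece_loc_cdl : Continuous fun y : Sph => dl y.1 := by
  have h0 : Continuous fun y : Sph => y.1 0 := (continuous_apply 0).comp continuous_subtype_val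
  have h4 : Continuous fun y : Sph => y.1 4 := (continuous_apply 4).comp continuous_subtype_val
  exact h0.sub h4

theorem piece_loc_Fl_Lin (a : Fin 8) (ha : a ≠ 7) (x : V5) (hd : 0 ≤ dl x) (h : Lin a x) (t : ℝ)
    (ht0 : 0 ≤ t) (ht1 : t ≤ 1) : Lin a (Fl (dv a) t x) := by
  have hs : 0 ≤ (1 - t) ^ 2 := sq_nonneg _
  have ht : 0 ≤ t * (1 - t) := mul_nonneg ht0 (by linarith)
  have htd : 0 ≤ t * (1 - t) * dl x := mul_nonneg ht hd
  have e := Fl_dl (dv a) t x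
  rcases piece_loc_cases a ha with rfl | rfl | rfl | rfl | rfl | rfl | rfl
  · have h : 2 * dl x ≤ x 1 := h
    show 2 * dl (Fl (dv 0) t x) ≤ (1 - t) ^ 2 * x 1 + t * (1 - t) * (dl x * 1)
    rw [e]; nlinarith
  · have h : x 1 ≤ 0 := h
    show (1 - t) ^ 2 * x 1 + t * (1 - t) * (dl x * (-1)) ≤ 0
    nlinarith
  · have h : 2 * dl x ≤ x 2 := h
    show 2 * dl (Fl (dv 2) t x) ≤ (1 - t) ^ 2 * x 2 + t * (1 - t) * (dl x * 1)
    rw [e]; nlinarith
  · have h : x 2 ≤ 0 := h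
    show (1 - t) ^ 2 * x 2 + t * (1 - t) * (dl x * (-1)) ≤ 0
    nlinarith
  · have h : dl x ≤ x 3 := h
    show dl (Fl (dv 4) t x) ≤ (1 - t) ^ 2 * x 3 + t * (1 - t) * (dl x * 1)
    rw [e]; nlinarith
  · have h : x 3 ≤ 0 := h
    show (1 - t) ^ 2 * x 3 + t * (1 - t) * (dl x * (-1)) ≤ 0
    nlinarith
  · have h : dl x ≤ x 1 ∧ dl x ≤ x 2 ∧ 3 * dl x ≤ x 1 + x 2 := h
    show dl (Fl (dv 6) t x) ≤ (1 - t) ^ 2 * x 1 + t * (1 - t) * (dl x * 1) ∧
      dl (Fl (dv 6) t x) ≤ (1 - t) ^ 2 * x 2 + t * (1 - t) * (dl x * 1) ∧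
      3 * dl (Fl (dv 6) t x) ≤ ((1 - t) ^ 2 * x 1 + t * (1 - t) * (dl x * 1)) +
        ((1 - t) ^ 2 * x 2 + t * (1 - t) * (dl x * 1))
    rw [e]
    refine ⟨?_, ?_, ?_⟩
    · nlinarith [h.1]
    · nlinarith [h.2.1]
    · nlinarith [h.2.2]

theorem piece_loc_to_inf (a : Fin 8) (ha : a ≠ 7) (y : Sph) (hy : y ∈ Dp a) (ε : ℝ)
    (hε : dl y.1 < ε) : JoinedIn ({z : Sph | dl z.1 < ε} ∩ Dp a) y inf := by
  rcases (dl_nonneg y).eq_or_lt with h0 | h0
  · have : y = inf := eq_inf_of_dl h0.symm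
    rw [← this]
    exact JoinedIn.refl ⟨hε, hy⟩
  set v := dv a with hv
  have hyv : 0 ≤ y.1 1 * v 0 + y.1 2 * v 1 + y.1 3 * v 2 := by
    have h1 := piece_loc_push a ha y.1 h0.le hy.2 0
    have e : ((ctr 0 0 : ℤ) : ℝ) * dv a 0 + ctr 0 1 * dv a 1 + ctr 0 2 * dv a 2 = 0 := by
      simp [ctr]
    rw [e, mul_zero, sub_zero] at h1
    exact h1
  have hvv : 1 ≤ (v 0) ^ 2 + (v 1) ^ 2 + (v 2) ^ 2 := piece_loc_vv a
  have hy0 := y.2.1
  have hF0 : ∀ t : ℝ, (Fl v t y.1) 0 = (1 - t) ^ 2 * 1 +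
      t * (1 - t) * (y.1 1 * v 0 + y.1 2 * v 1 + y.1 3 * v 2) +
      t ^ 2 * ((v 0) ^ 2 + (v 1) ^ 2 + (v 2) ^ 2) * dl y.1 / 2 := by
    intro t
    have e : (Fl v t y.1) 0 = (1 - t) ^ 2 * y.1 0 +
      t * (1 - t) * (y.1 1 * v 0 + y.1 2 * v 1 + y.1 3 * v 2) +
      t ^ 2 * ((v 0) ^ 2 + (v 1) ^ 2 + (v 2) ^ 2) * dl y.1 / 2 := rfl
    rw [e, hy0]
  have hlow : ∀ t : ℝ, 0 ≤ t → t ≤ 1 → (1 - t) ^ 2 ≤ (Fl v t y.1) 0 := by
    intro t ht0 ht1
    rw [hF0]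
    have h1 : 0 ≤ t * (1 - t) * (y.1 1 * v 0 + y.1 2 * v 1 + y.1 3 * v 2) :=
      mul_nonneg (mul_nonneg ht0 (by linarith)) hyv
    have h2 : 0 ≤ t ^ 2 * ((v 0) ^ 2 + (v 1) ^ 2 + (v 2) ^ 2) * dl y.1 / 2 := by positivity
    linarith
  have hpos : ∀ t : ℝ, 0 ≤ t → t ≤ 1 → 0 < (Fl v t y.1) 0 := by
    intro t ht0 ht1
    rcases ht1.lt_or_eq with h | h
    · exact lt_of_lt_of_le (pow_pos (by linarith) 2) (hlow t ht0 ht1)
    · rw [hF0, h]
      have : 0 < ((v 0) ^ 2 + (v 1) ^ 2 + (v 2) ^ 2) * dl y.1 := by positivity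
      linarith
  have hlor : ∀ t : ℝ, lor (Fl v t y.1) (Fl v t y.1) = 0 := by
    intro t
    rw [Fl_lor, y.2.2, mul_zero]
  let γ : Path y inf :=
    { toFun := fun t => toSph (Fl v t y.1) (hpos t t.2.1 t.2.2) (hlor t)
      continuous_toFun := by
        apply Continuous.subtype_mk
        change Continuous fun t : unitInterval => ((Fl v t y.1) 0)⁻¹ • Fl v t y.1
        have hc : Continuous fun t : unitInterval => Fl v t y.1 := by
          apply continuous_pi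
          intro i
          fin_cases i <;> simp only [Fl] <;> simp <;> fun_prop
        exact Continuous.smul (Continuous.inv₀ ((continuous_apply 0).comp hc)
          fun t => (hpos t t.2.1 t.2.2).ne') hc
      source' := by
        apply Subtype.ext
        show ((Fl v ((0 : unitInterval) : ℝ) y.1) 0)⁻¹ • Fl v ((0 : unitInterval) : ℝ) y.1 = y.1
        have e : Fl v ((0 : unitInterval) : ℝ) y.1 = y.1 := by
          ext i
          fin_cases i <;> simp [Fl]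
        rw [e, hy0, inv_one, one_smul]
      target' := by
        apply eq_inf_of_dl
        show dl (((Fl v ((1 : unitInterval) : ℝ) y.1) 0)⁻¹ • Fl v ((1 : unitInterval) : ℝ) y.1) = 0
        have e : ∀ (c : ℝ) (x : V5), dl (c • x) = c * dl x := fun c x => by simp [dl]; ring
        rw [e, Fl_dl]
        simp }
  refine ⟨γ, fun t => ⟨?_, ?_⟩⟩
  · show dl (((Fl v t y.1) 0)⁻¹ • Fl v t y.1) < ε
    have e : ∀ (c : ℝ) (x : V5), dl (c • x) = c * dl x := fun c x => by simp [dl]; ring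
    rw [e, Fl_dl]
    refine lt_of_le_of_lt ?_ hε
    rw [← mul_assoc]
    apply mul_le_of_le_one_left h0.le
    rw [inv_mul_le_one₀ (hpos t t.2.1 t.2.2)]
    exact hlow t t.2.1 t.2.2
  · rcases t.2.1.eq_or_lt with h | h
    · have ht : t = 0 := Subtype.ext h.symm
      rw [ht, γ.source]
      exact hy
    · refine piece_loc_mem a ha (Fl v t y.1) (hpos t t.2.1 t.2.2) (hlor t) ?_
        (piece_loc_Fl_Lin a ha y.1 h0.le hy.2 t t.2.1 t.2.2)
      intro i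
      rw [Fl_ev]
      have h1 := hy.1.1 i
      have h2 := piece_loc_push a ha y.1 h0.le hy.2 i
      have h3 : (1 - (t:ℝ)) ^ 2 * lor y.1 (ev i) ≤ 0 :=
        mul_nonpos_of_nonneg_of_nonpos (sq_nonneg _) h1
      have h4 : 0 ≤ (t:ℝ) * (1 - t) * ((y.1 1 * v 0 + y.1 2 * v 1 + y.1 3 * v 2) -
          dl y.1 * (ctr i 0 * v 0 + ctr i 1 * v 1 + ctr i 2 * v 2)) :=
        mul_nonneg (mul_nonneg t.2.1 (by linarith [t.2.2])) h2
      have h5 : 0 < (t:ℝ) ^ 2 * ((v 0) ^ 2 + (v 1) ^ 2 + (v 2) ^ 2) * dl y.1 / 2 := by positivity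
      linarith

/-- local connectedness of the pieces -/
theorem piece_loc (a : Fin 8) (ha : a ≠ 7) (x : Sph) (hx : x ∈ Dp a) (N : Set Sph)
    (hN : N ∈ 𝓝 x) : ∀ᶠ y in 𝓝 x, y ∈ Dp a → ∃ γ : Path x y, ∀ t, γ t ∈ N ∧ γ t ∈ Dp a := by
  by_cases hxi : x = inf
  · subst hxi
    obtain ⟨ε, hε, hNε⟩ := piece_loc_inf N hN
    have h1 : ∀ᶠ y : Sph in 𝓝 inf, dl y.1 < ε := by
      have h2 : dl inf.1 < ε := by
        have : dl inf.1 = 0 := by simp [dl, inf]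
        rw [this]; exact hε
      exact piece_loc_cdl.continuousAt.eventually (Iio_mem_nhds h2)
    filter_upwards [h1] with y hy hyD
    have h3 := (piece_loc_to_inf a ha y hyD ε hy).symm
    obtain ⟨γ, hγ⟩ := h3
    exact ⟨γ, fun t => ⟨hNε _ (hγ t).1, (hγ t).2⟩⟩
  · have hd : 0 < dl x.1 := lt_of_le_of_ne (dl_nonneg x) fun h' => hxi (eq_inf_of_dl h'.symm)
    set ch : Sph → (Fin 3 → ℝ) := fun y => ![y.1 1 / dl y.1, y.1 2 / dl y.1, y.1 3 / dl y.1]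
      with hch
    have hst : ∀ y : Sph, y ≠ inf → y = st (ch y) := fun y hy => st_surj y hy
    have hcont : ContinuousAt ch x := by
      have hk : ∀ k : Fin 5, Continuous fun y : Sph => y.1 k := fun k =>
        (continuous_apply k).comp continuous_subtype_val
      have hdc := piece_loc_cdl
      rw [continuousAt_pi]
      intro k
      fin_cases k
      · exact (hk 1).continuousAt.div hdc.continuousAt hd.ne'
      · exact (hk 2).continuousAt.div hdc.continuousAt hd.ne'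
      · exact (hk 3).continuousAt.div hdc.continuousAt hd.ne'
    have hxp : x = st (ch x) := hst x hxi
    have hpD : st (ch x) ∈ Dp a := by rw [← hxp]; exact hx
    have hNp : st ⁻¹' N ∈ 𝓝 (ch x) := by
      apply continuous_st.continuousAt.preimage_mem_nhds
      rw [← hxp]; exact hN
    obtain ⟨ρ, hρ, hball⟩ := Metric.mem_nhds_iff.1 hNp
    obtain ⟨δ, hδ, hjoin⟩ := piece_loc_chart a ha (ch x) hpD ρ hρ
    have h1 : ∀ᶠ y : Sph in 𝓝 x, dist (ch y) (ch x) < δ := by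
      have := hcont.eventually (Metric.ball_mem_nhds (ch x) hδ)
      exact this
    have h2 : ∀ᶠ y : Sph in 𝓝 x, y ≠ inf := isOpen_ne.mem_nhds hxi
    filter_upwards [h1, h2] with y hy1 hy2 hyD
    have hyq : y = st (ch y) := hst y hy2
    have h3 := hjoin (ch y) hy1 (by rw [← hyq]; exact hyD)
    have h4 := (h3.map continuous_st).mono (V := N ∩ Dp a) (by
      rintro _ ⟨z, ⟨hz1, hz2⟩, rfl⟩
      exact ⟨hball hz1, hz2⟩)
    rw [← hxp, ← hyq] at h4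
    obtain ⟨γ, hγ⟩ := h4
    exact ⟨γ, fun t => hγ t⟩

end Trom
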