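import Pool.Agent.Helper97.Trom.Top
import Pool.Agent.Helper97.Trom.AbsDef
import Pool.Agent.Helper97.Trom.J_piece_loc
import Pool.Agent.Helper97.Trom.J_piece7_loc
import Pool.Agent.Helper97.Trom.J_lift_path

open Matrix Set Topology

namespace Trom

/-- the pieces are locally path connected, inside `Om` -/
theorem loc_Om (a : Fin 8) (x : Om) (hx : x.1 ∈ Dp a) (N : Set Om) (hN : N ∈ 𝓝 x) :
    ∀ᶠ y in 𝓝 x, y.1 ∈ Dp a → ∃ γ : Path x y, ∀ t, γ t ∈ N ∧ (γ t).1 ∈ Dp a := by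
  have hx7 : ∀ N' ∈ 𝓝 x.1, ∀ᶠ y in 𝓝 x.1, y ∈ Dp a →
      ∃ γ : Path x.1 y, ∀ t, γ t ∈ N' ∧ γ t ∈ Dp a := by
    intro N' hN'
    by_cases h7 : a = 7
    · subst h7
      exact piece7_loc x.1 hx N' hN'
    · exact piece_loc a h7 x.1 hx N' hN'
  obtain ⟨N', hN', hsub⟩ := (mem_nhds_subtype _ _ _).1 hN
  have hev := (continuous_subtype_val.tendsto x).eventually (hx7 N' hN')
  filter_upwards [hev] with y hy hyD
  obtain ⟨γ, hγ⟩ := hy hyD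
  obtain ⟨γ', hγ'⟩ := lift_path γ (fun t => P0_sub_Om ⟨a, (hγ t).2⟩)
  refine ⟨γ', fun t => ⟨hsub ?_, ?_⟩⟩
  · change (γ' t).1 ∈ N'
    rw [hγ']
    exact (hγ t).1
  · rw [hγ']
    exact (hγ t).2

end Trom
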