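import Pool.Agent.Helper97.Trom.Top

open Matrix Set Topology

namespace Trom

/-- squared norm of the spatial part -/
def capSq (w : V5) : ℝ := w 1 ^ 2 + w 2 ^ 2 + w 3 ^ 2 + w 4 ^ 2

/-- spatial inner product -/
def capDot (v w : V5) : ℝ := v 1 * w 1 + v 2 * w 2 + v 3 * w 3 + v 4 * w 4

/-- normalisation of the spatial part -/
noncomputable def capN (w : V5) : V5 :=
  ![1, w 1 / √(capSq w), w 2 / √(capSq w), w 3 / √(capSq w), w 4 / √(capSq w)]

theorem capN_mem {w : V5} (h : 0 < capSq w) : capN w 0 = 1 ∧ lor (capN w) (capN w) = 0 := by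
  refine ⟨by simp [capN], ?_⟩
  have h1 : √(capSq w) ≠ 0 := (Real.sqrt_pos.2 h).ne'
  have h2 : √(capSq w) ^ 2 = capSq w := Real.sq_sqrt h.le
  have e : lor (capN w) (capN w) = -1 + capSq w / √(capSq w) ^ 2 := by
    simp only [lor, capN, Matrix.cons_val_zero, Matrix.cons_val_one, Matrix.cons_val]
    rw [capSq]
    field_simp
    ring
  rw [e, h2, div_self h.ne']
  ring

theorem capSq_sph (u : Sph) : capSq u.1 = 1 := by
  have h1 := u.2.1
  have h2 := u.2.2
  simp only [lor, h1] at h2
  unfold capSq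
  linarith

theorem capN_self (u : Sph) : capN u.1 = u.1 := by
  unfold capN
  rw [capSq_sph, Real.sqrt_one]
  ext i
  fin_cases i <;> simp [u.2.1]

theorem capDot_le (u v : Sph) : capDot u.1 v.1 ≤ 1 := by
  have h1 := capSq_sph u
  have h2 := capSq_sph v
  unfold capSq at h1 h2
  unfold capDot
  nlinarith [sq_nonneg (u.1 1 - v.1 1), sq_nonneg (u.1 2 - v.1 2), sq_nonneg (u.1 3 - v.1 3),
    sq_nonneg (u.1 4 - v.1 4)]

theorem cap_comb {κ : ℝ} (hκ : 0 < κ) (x u v : Sph) (hu : κ < capDot u.1 x.1)
    (hv : κ < capDot v.1 x.1) {s : ℝ} (h0 : 0 ≤ s) (h1 : s ≤ 1) :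
    0 < capSq ((1 - s) • u.1 + s • v.1) ∧
      κ < capDot (capN ((1 - s) • u.1 + s • v.1)) x.1 := by
  set w : V5 := (1 - s) • u.1 + s • v.1 with hw
  have hd : capDot w x.1 = (1 - s) * capDot u.1 x.1 + s * capDot v.1 x.1 := by
    simp only [hw, capDot, Pi.add_apply, Pi.smul_apply, smul_eq_mul]
    ring
  have hκd : κ < capDot w x.1 := by
    rw [hd]
    rcases eq_or_lt_of_le h0 with h | h
    · rw [← h]; linarith
    · nlinarith
  have hle : capSq w ≤ 1 := by
    have e : capSq w = (1 - s) ^ 2 * capSq u.1 + s ^ 2 * capSq v.1 +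
        2 * (s * (1 - s)) * capDot u.1 v.1 := by
      simp only [hw, capDot, capSq, Pi.add_apply, Pi.smul_apply, smul_eq_mul]
      ring
    rw [e, capSq_sph, capSq_sph]
    have := capDot_le u v
    have h2 : 0 ≤ s * (1 - s) := mul_nonneg h0 (by linarith)
    nlinarith
  have hpos : 0 < capSq w := by
    by_contra hneg
    push Not at hneg
    have h2 : capSq w = 0 := le_antisymm hneg (by unfold capSq; positivity)
    unfold capSq at h2
    have a1 : w 1 = 0 := by nlinarith [sq_nonneg (w 1), sq_nonneg (w 2), sq_nonneg (w 3), sq_nonneg (w 4)]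
    have a2 : w 2 = 0 := by nlinarith [sq_nonneg (w 1), sq_nonneg (w 2), sq_nonneg (w 3), sq_nonneg (w 4)]
    have a3 : w 3 = 0 := by nlinarith [sq_nonneg (w 1), sq_nonneg (w 2), sq_nonneg (w 3), sq_nonneg (w 4)]
    have a4 : w 4 = 0 := by nlinarith [sq_nonneg (w 1), sq_nonneg (w 2), sq_nonneg (w 3), sq_nonneg (w 4)]
    unfold capDot at hκd
    rw [a1, a2, a3, a4] at hκd
    linarith
  refine ⟨hpos, ?_⟩
  have hs : 0 < √(capSq w) := Real.sqrt_pos.2 hpos
  have hs1 : √(capSq w) ≤ 1 := by
    rw [Real.sqrt_le_one]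
    exact hle
  have e : capDot (capN w) x.1 = capDot w x.1 / √(capSq w) := by
    simp only [capDot, capN, Matrix.cons_val_one, Matrix.cons_val]
    field_simp
  rw [e, lt_div_iff₀ hs]
  nlinarith

/-- small neighbourhoods in `S³` in which paths with equal end points are homotopic -/
theorem cap (x : Sph) (U : Set Sph) (hU : U ∈ 𝓝 x) : ∃ N ∈ 𝓝 x, N ⊆ U ∧
    ∀ (y z : Sph) (γ γ' : Path y z), (∀ t, γ t ∈ N) → (∀ t, γ' t ∈ N) →
    ∃ H : Path.Homotopy γ γ', ∀ p, H p ∈ N := by
  obtain ⟨ε, hε, hball⟩ := Metric.mem_nhds_iff.1 hU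
  set κ : ℝ := max (1 / 2) (1 - ε ^ 2 / 2) with hκdef
  have hκ0 : 0 < κ := lt_of_lt_of_le (by norm_num) (le_max_left _ _)
  have hκ1 : κ < 1 := max_lt (by norm_num) (by nlinarith [sq_pos_of_pos hε])
  have hκε : 1 - ε ^ 2 / 2 ≤ κ := le_max_right _ _
  have hcd : Continuous fun y : Sph => capDot y.1 x.1 := by
    have hc : ∀ i : Fin 5, Continuous fun y : Sph => y.1 i := fun i =>
      (continuous_apply i).comp continuous_subtype_val
    unfold capDot
    exact ((((hc 1).mul continuous_const).add ((hc 2).mul continuous_const)).add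
      ((hc 3).mul continuous_const)).add ((hc 4).mul continuous_const)
  refine ⟨{y : Sph | κ < capDot y.1 x.1}, ?_, ?_, ?_⟩
  · refine (isOpen_lt continuous_const hcd).mem_nhds ?_
    show κ < capDot x.1 x.1
    have h := capSq_sph x
    unfold capSq at h
    unfold capDot
    nlinarith
  · intro y hy
    apply hball
    rw [Metric.mem_ball, Subtype.dist_eq, dist_pi_lt_iff hε]
    have hy' : κ < capDot y.1 x.1 := hy
    have h1 := capSq_sph x
    have h2 := capSq_sph y
    unfold capSq at h1 h2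
    unfold capDot at hy'
    have key : (y.1 1 - x.1 1) ^ 2 + (y.1 2 - x.1 2) ^ 2 + (y.1 3 - x.1 3) ^ 2 +
        (y.1 4 - x.1 4) ^ 2 < ε ^ 2 := by nlinarith
    intro i
    rw [Real.dist_eq]
    apply abs_lt_of_sq_lt_sq _ hε.le
    fin_cases i
    · show (y.1 0 - x.1 0) ^ 2 < ε ^ 2
      rw [y.2.1, x.2.1]
      nlinarith [sq_pos_of_pos hε]
    · show (y.1 1 - x.1 1) ^ 2 < ε ^ 2
      nlinarith [sq_nonneg (y.1 2 - x.1 2), sq_nonneg (y.1 3 - x.1 3), sq_nonneg (y.1 4 - x.1 4)]
    · show (y.1 2 - x.1 2) ^ 2 < ε ^ 2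
      nlinarith [sq_nonneg (y.1 1 - x.1 1), sq_nonneg (y.1 3 - x.1 3), sq_nonneg (y.1 4 - x.1 4)]
    · show (y.1 3 - x.1 3) ^ 2 < ε ^ 2
      nlinarith [sq_nonneg (y.1 1 - x.1 1), sq_nonneg (y.1 2 - x.1 2), sq_nonneg (y.1 4 - x.1 4)]
    · show (y.1 4 - x.1 4) ^ 2 < ε ^ 2
      nlinarith [sq_nonneg (y.1 1 - x.1 1), sq_nonneg (y.1 2 - x.1 2), sq_nonneg (y.1 3 - x.1 3)]
  · intro y z γ γ' hγ hγ'
    let F : unitInterval × unitInterval → V5 := fun p =>
      (1 - (p.1 : ℝ)) • (γ p.2).1 + (p.1 : ℝ) • (γ' p.2).1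
    have hF : Continuous F := by
      have h1 : Continuous fun p : unitInterval × unitInterval => (γ p.2).1 :=
        continuous_subtype_val.comp (γ.continuous.comp continuous_snd)
      have h2 : Continuous fun p : unitInterval × unitInterval => (γ' p.2).1 :=
        continuous_subtype_val.comp (γ'.continuous.comp continuous_snd)
      show Continuous fun p : unitInterval × unitInterval =>
        (1 - (p.1 : ℝ)) • (γ p.2).1 + (p.1 : ℝ) • (γ' p.2).1
      fun_prop
    have hFp : ∀ p, 0 < capSq (F p) ∧ κ < capDot (capN (F p)) x.1 := fun p =>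
      cap_comb hκ0 x (γ p.2) (γ' p.2) (hγ p.2) (hγ' p.2) p.1.2.1 p.1.2.2
    have hsq : Continuous fun p => √(capSq (F p)) := by
      unfold capSq
      fun_prop
    have hNc : Continuous fun p => capN (F p) := by
      apply continuous_pi
      intro i
      have hne : ∀ p, √(capSq (F p)) ≠ 0 := fun p => (Real.sqrt_pos.2 (hFp p).1).ne'
      fin_cases i
      · show Continuous fun p => (1 : ℝ)
        exact continuous_const
      · show Continuous fun p => F p 1 / √(capSq (F p))
        exact Continuous.div ((continuous_apply 1).comp hF) hsq hne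
      · show Continuous fun p => F p 2 / √(capSq (F p))
        exact Continuous.div ((continuous_apply 2).comp hF) hsq hne
      · show Continuous fun p => F p 3 / √(capSq (F p))
        exact Continuous.div ((continuous_apply 3).comp hF) hsq hne
      · show Continuous fun p => F p 4 / √(capSq (F p))
        exact Continuous.div ((continuous_apply 4).comp hF) hsq hne
    have hend : ∀ (s t : unitInterval), γ t = γ' t → capN (F (s, t)) = (γ t).1 := by
      intro s t h
      have e : F (s, t) = (γ t).1 := by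
        show (1 - (s : ℝ)) • (γ t).1 + (s : ℝ) • (γ' t).1 = (γ t).1
        rw [← h, ← add_smul]
        simp
      rw [e, capN_self]
    refine ⟨{ toFun := fun p => ⟨capN (F p), capN_mem (hFp p).1⟩
              continuous_toFun := Continuous.subtype_mk hNc _
              map_zero_left := ?_
              map_one_left := ?_
              prop' := ?_ }, ?_⟩
    · intro t
      apply Subtype.ext
      show capN (F (0, t)) = (γ t).1
      have e : F (0, t) = (γ t).1 := by
        show (1 - ((0 : unitInterval) : ℝ)) • (γ t).1 + ((0 : unitInterval) : ℝ) • (γ' t).1 = _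
        simp
      rw [e, capN_self]
    · intro t
      apply Subtype.ext
      show capN (F (1, t)) = (γ' t).1
      have e : F (1, t) = (γ' t).1 := by
        show (1 - ((1 : unitInterval) : ℝ)) • (γ t).1 + ((1 : unitInterval) : ℝ) • (γ' t).1 = _
        simp
      rw [e, capN_self]
    · intro s t ht
      apply Subtype.ext
      show capN (F (s, t)) = (γ t).1
      apply hend
      rcases ht with rfl | ht
      · rw [γ.source, γ'.source]
      · rw [Set.mem_singleton_iff.1 ht, γ.target, γ'.target]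
    · intro p
      exact (hFp p).2

end Trom
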