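import Pool.Agent.Helper97.Trom.Top
import Pool.Agent.Helper97.Trom.J_cap
import Pool.Agent.Helper97.Trom.J_near_Om

open Matrix Set Topology

namespace Trom

theorem triv_Om (x : Om) : ∃ N ∈ 𝓝 x, ∀ (y z : Om) (γ γ' : Path y z), (∀ t, γ t ∈ N) →
    (∀ t, γ' t ∈ N) → Path.Homotopic γ γ' := by
  obtain ⟨N, hN, hNO, hhom⟩ := cap x.1 Om ((near_Om x.1 x.2).mono (fun y hy => hy.1))
  refine ⟨Subtype.val ⁻¹' N, continuous_subtype_val.continuousAt.preimage_mem_nhds hN, ?_⟩
  intro y z γ γ' h h'
  obtain ⟨H, hH⟩ := hhom y.1 z.1 (γ.map continuous_subtype_val) (γ'.map continuous_subtype_val)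
    h h'
  refine ⟨{ toFun := fun p => ⟨H p, hNO (hH p)⟩
            continuous_toFun := Continuous.subtype_mk H.continuous _
            map_zero_left := fun t => Subtype.ext (H.apply_zero t)
            map_one_left := fun t => Subtype.ext (H.apply_one t)
            prop' := fun t s hs => Subtype.ext (H.prop' t s hs) }⟩

end Trom
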