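import Pool.Agent.Helper97.Trom.Top
import Pool.Agent.Helper97.Trom.AbsDef
import Pool.Agent.Helper97.Trom.J_kappa_Om
import Pool.Agent.Helper97.Trom.J_loc_Om
import Pool.Agent.Helper97.Trom.J_cl_Om
import Pool.Agent.Helper97.Trom.J_inf_mem
import Pool.Agent.Helper97.Trom.J_near_Om
import Pool.Agent.Helper97.Trom.J_fin_Om
import Pool.Agent.Helper97.Trom.J_chamber_faces
import Pool.Agent.Helper97.Trom.J_triv_Om
import Pool.Agent.Helper97.Trom.J_simple_fix
import Pool.Agent.Helper97.Trom.J_face_path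
import Pool.Agent.Helper97.Trom.J_lift_path

open Matrix Set Topology

namespace Trom

/-- `Om` is a tessellated space. -/
theorem tess_exists : ∃ T : Tess Om W (Fin 18) (Fin 8),
    T.sg = (fun f => cs.simple (fb f)) ∧ T.Fc = fun f => {x : Om | x.1 ∈ FcS f} := by
  have hiP : inf ∈ P0 := ⟨0, inf_mem 0 (by decide)⟩
  have hi : inf ∈ Om := P0_sub_Om hiP
  obtain ⟨κ, hκ0, hκD⟩ := kappa_Om hi
  refine ⟨{ x0 := ⟨inf, hi⟩
            D := fun a => {x : Om | x.1 ∈ Dp a}
            sg := fun f => cs.simple (fb f)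
            Fc := fun f => {x : Om | x.1 ∈ FcS f}
            κ := κ
            x0P := ⟨0, inf_mem 0 (by decide)⟩
            κ0 := hκ0 _
            κD := fun a y z hy hz γ h => hκD a y z hy hz γ h
            loc := ?_
            clD := fun a => cl_Om a
            triv := fun x => triv_Om x
            cov := ?_
            locfin := ?_
            fin := ?_
            ch := ?_
            FcP := ?_
            fix := ?_
            sgsg := ?_
            Fpath := ?_ }, rfl, rfl⟩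
  · intro a x hx N hN
    filter_upwards [loc_Om a x hx N hN] with y hy h
    obtain ⟨γ, hγ⟩ := hy h
    exact ⟨γ, fun t => ⟨(hγ t).1, (hγ t).2⟩⟩
  · intro x
    obtain ⟨w, a, hw⟩ := x.2
    exact ⟨w, a, hw⟩
  · intro x
    have h := near_Om x.1 x.2
    have h2 : ∀ᶠ y : Om in 𝓝 x, y.1 ∈ Om ∧ ∀ w : W, w⁻¹ • y.1 ∈ P0 → w⁻¹ • x.1 ∈ P0 :=
      continuous_subtype_val.continuousAt.eventually h
    refine ⟨_, h2, fun y hy w a ha => ?_⟩
    exact hy.2 w ⟨a, ha⟩
  · intro x
    exact fin_Om x.1 x.2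
  · intro x a hx w b hw
    exact chamber_faces x.1 ⟨a, hx⟩ w ⟨b, hw⟩
  · intro f x hx
    exact hx.1
  · intro f x hx
    apply Subtype.ext
    exact simple_fix x.1 (fb f) hx.2.1
  · intro f
    exact cs.simple_mul_simple_self (fb f)
  · intro f x y hx hy
    obtain ⟨γ, hγ⟩ := face_path f x.1 y.1 hx hy
    obtain ⟨γ', hγ'⟩ := lift_path γ (fun t => P0_sub_Om (hγ t).1)
    refine ⟨γ', fun t => ?_⟩
    change (γ' t).1 ∈ FcS f
    rw [hγ' t]
    exact hγ t

end Trom
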