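import Pool.Agent.Helper97.Trom.Top
import Pool.Agent.Helper97.Trom.AbsDef
import Pool.Agent.Helper97.Trom.J_tess_exists
import Pool.Agent.Helper97.Trom.J_hts_exists
import Pool.Agent.Helper97.Trom.J_cov_quot
import Pool.Agent.Helper97.Trom.J_Om_pathconn
import Pool.Agent.Helper97.Trom.J_fg_main

open Matrix Set Topology

namespace Trom

/-- the fundamental group of `Om/F` is finitely generated -/
theorem fg_quot (x : Om) :
    Group.FG (FundamentalGroup (Quotient (orbSetoid (FW.map rW) Om)) (Quotient.mk _ x)) := by
  obtain ⟨T, hs, hF⟩ := tess_exists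
  obtain ⟨H⟩ := hts_exists T hs hF
  have hpc : PathConnectedSpace Om := isPathConnected_iff_pathConnectedSpace.1 Om_pathconn
  have hcov := cov_quot
  let p : C(Om, Quotient (orbSetoid (FW.map rW) Om)) :=
    ⟨fun x : Om => (Quotient.mk (orbSetoid (FW.map rW) Om) x), continuous_quotient_mk'⟩
  have h1 : Group.FG (FundamentalGroup (Quotient (orbSetoid (FW.map rW) Om)) (p T.x0)) :=
    Tess.fg_main T FW H p hcov
  have hpq : PathConnectedSpace (Quotient (orbSetoid (FW.map rW) Om)) :=
    (Quotient.mk_surjective (s := orbSetoid (FW.map rW) Om)).pathConnectedSpace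
      (f := p) p.continuous
  have e := FundamentalGroup.fundamentalGroupMulEquivOfPathConnected
    (X := Quotient (orbSetoid (FW.map rW) Om)) (p T.x0) (Quotient.mk _ x)
  exact Group.fg_of_surjective (f := e.toMonoidHom) e.surjective

end Trom
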