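import Pool.Agent.Helper97.Trom.Top
import Pool.Agent.Helper97.Trom.AbsDef
import Pool.Agent.Helper97.Trom.J_fg_quot
import Pool.Agent.Helper97.Trom.J_cov_quot
import Pool.Agent.Helper97.Trom.J_Om_pathconn
import Pool.Agent.Helper97.Trom.J_inf_mem

open Matrix Set Topology

namespace Trom

/-- `F` is finitely generated -/
theorem F_fg : (FW.map rW).FG := by
  have : PathConnectedSpace Om := isPathConnected_iff_pathConnectedSpace.mp Om_pathconn
  let x0 : Om := ⟨inf, P0_sub_Om ⟨0, inf_mem 0 (by decide)⟩⟩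
  have h1 : Group.FG (FundamentalGroup (Quotient (orbSetoid (FW.map rW) Om))
      (Quotient.mk _ x0)) := fg_quot x0
  let e : (fun x : Om => (Quotient.mk (orbSetoid (FW.map rW) Om) x)) ⁻¹'
      {(Quotient.mk (orbSetoid (FW.map rW) Om) x0)} := ⟨x0, rfl⟩
  have hs := cov_quot.fundamentalGroupToMulOpposite_surjective e
  have h2 : Group.FG (FW)ᵐᵒᵖ := Group.fg_of_surjective hs
  have h3 : Group.FG FW :=
    Group.fg_of_surjective (f := (MulEquiv.inv' FW).symm.toMonoidHom)
      (MulEquiv.inv' FW).symm.surjective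
  have h4 : Group.FG ((rW.comp FW.subtype).range) := Group.fg_range _
  have h5 : (rW.comp FW.subtype).range = FW.map rW := by
    rw [MonoidHom.range_comp, Subgroup.range_subtype]
  rw [← h5]
  exact (Group.fg_iff_subgroup_fg _).mp h4

end Trom
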