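import Pool.Agent.Helper97.Trom.Geo
import Pool.Agent.Helper97.Trom.J_tits

open Matrix Set Topology

namespace Trom

theorem rW_inj : Function.Injective rW := by
  rw [injective_iff_map_eq_one]
  intro w hw
  by_contra hne
  obtain ⟨i, hi⟩ := cs.exists_leftDescent_of_ne_one hne
  have hlor : ∀ j, lor (Pi.single 0 1 : V5) (ev j) = -(ev j 0) := by
    intro j
    simp [lor]
  have hfwd : Fwd (Pi.single 0 1 : V5) := by
    refine ⟨?_, ?_⟩
    · simp [lor]
    · simp
  have h1 := (tits w i (Pi.single 0 1) hfwd (fun j => by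
    rw [hlor]
    linarith [ev_zero_pos j])).2 hi
  rw [hw] at h1
  have h2 : ((1 : Opl).1.1) *ᵥ (Pi.single 0 1 : V5) = Pi.single 0 1 := by
    show (1 : Matrix (Fin 5) (Fin 5) ℝ) *ᵥ (Pi.single 0 1 : V5) = Pi.single 0 1
    rw [Matrix.one_mulVec]
  rw [h2, hlor] at h1
  linarith [ev_zero_pos i]

end Trom
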