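import Pool.Agent.Helper97.Trom.Geo
import Pool.Agent.Helper97.Trom.J_rW_inj
import Pool.Agent.Helper97.Trom.J_F_le_G

open Matrix Set Topology

namespace Trom

theorem ht_mul_of_mem {g h : W} (hg : g ∈ GW) : ht (g * h) = ht g + ht h := by
  obtain ⟨h1, h2⟩ := hg
  simp only [ht]
  rw [map_mul, Prod.fst_mul, Prod.snd_mul, posD_mul, posD_mul, h1, h2]
  ring

theorem ht_pow_of_mem {g : W} (hg : g ∈ GW) (n : ℕ) : ht (g ^ n) = n * ht g := by
  induction n with
  | zero =>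
    rw [pow_zero, Nat.cast_zero, zero_mul, ht, map_one]
    rfl
  | succ n ih =>
    rw [pow_succ, ht_mul_of_mem (GW.pow_mem hg n), ih]
    push_cast
    ring

theorem rho_g0 : rho (cs.simple 0 * cs.simple 3) =
    (DihedralGroup.sr (-1 : ℤ) * DihedralGroup.sr (1 : ℤ), 1) := by
  rw [map_mul, rho_simple, rho_simple]
  have h0 : rhoGen 0 = (DihedralGroup.sr (-1 : ℤ), 1) := by
    unfold rhoGen
    rw [if_neg (by decide)]
    rfl
  have h3 : rhoGen 3 = (DihedralGroup.sr (1 : ℤ), 1) := by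
    unfold rhoGen
    rw [if_neg (by decide)]
    rfl
  rw [h0, h3, Prod.mk_mul_mk, mul_one]

theorem F_index : ((FW.map rW).subgroupOf (GW.map rW)).index = 0 := by
  by_contra hne
  have hg : cs.simple 0 * cs.simple 3 ∈ GW := by
    change epsD (rho (cs.simple 0 * cs.simple 3)).1 = 1 ∧
      epsD (rho (cs.simple 0 * cs.simple 3)).2 = 1
    rw [rho_g0]
    exact ⟨rfl, rfl⟩
  have hht : ht (cs.simple 0 * cs.simple 3) = -2 := by
    unfold ht
    rw [rho_g0]
    rfl
  obtain ⟨n, hn, -, hmem⟩ := Subgroup.exists_pow_mem_of_index_ne_zero hne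
    ⟨rW (cs.simple 0 * cs.simple 3), ⟨_, hg, rfl⟩⟩
  rw [Subgroup.mem_subgroupOf] at hmem
  obtain ⟨f, hf, hfe⟩ := hmem
  have h1 : rW f = rW ((cs.simple 0 * cs.simple 3) ^ n) := by
    rw [hfe, map_pow]
    rfl
  have h2 := rW_inj h1
  have h3 : ht f = 0 := hf.2
  rw [h2, ht_pow_of_mem hg, hht] at h3
  omega

end Trom
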