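import Pool.Agent.Helper97.Trom.Geo

open Matrix Set Topology

namespace Trom

theorem F_normal : ∀ g ∈ GW, ∀ f ∈ FW, g * f * g⁻¹ ∈ FW := by
  rintro g ⟨h1, h2⟩ f ⟨⟨h3, h4⟩, h⟩
  have key : ∀ g : DihedralGroup 0, epsD g⁻¹ = epsD g := by
    intro g; rcases g with b | b <;> rfl
  have key2 : ∀ g : DihedralGroup 0, epsD g = 1 → posD g⁻¹ = - posD g := by
    intro g hg
    rcases g with b | b
    · rfl
    · exact absurd hg (show (-1 : ℤ) ≠ 1 by norm_num)
  refine ⟨⟨?_, ?_⟩, ?_⟩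
  · simp only [map_mul, map_inv, Prod.fst_mul, Prod.fst_inv, epsD_mul, key, h1, h3]; rfl
  · simp only [map_mul, map_inv, Prod.snd_mul, Prod.snd_inv, epsD_mul, key, h2, h4]; rfl
  · simp only [ht] at *
    simp only [map_mul, map_inv, Prod.fst_mul, Prod.snd_mul, Prod.fst_inv, Prod.snd_inv, posD_mul,
      epsD_mul, h1, h2, h3, h4, key2 _ h1, key2 _ h2]
    linarith

end Trom
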