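import Pool.Agent.Helper97.Trom.Geo
import Pool.Agent.Helper97.Trom.J_nonadj_fwd
import Pool.Agent.Helper97.Trom.J_F_normal
import Pool.Agent.Helper97.Trom.J_rW_inj

open Matrix Set Topology

namespace Trom

theorem fli_pow {i j : Fin 16} (h : d2 i j = 2) (n : ℕ) (x : V5) :
    ((refl i * refl j) ^ n).1.1 *ᵥ x = x - (4 * n * lor x (ev i + ev j)) • ev i -
      (4 * n * lor x (ev j) + 4 * n * (n - 1) * lor x (ev i + ev j)) • (ev i + ev j) := by
  have hij : lor (ev i) (ev j) = -1 / 2 := by rw [lor_ev, h]; norm_num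
  have hji : lor (ev j) (ev i) = -1 / 2 := by rw [lor_comm, hij]
  induction n with
  | zero =>
    ext a
    simp
  | succ n ih =>
    rw [pow_succ', mul_mulVec', mul_mulVec', ih, refl_val, refl_val, rmat_mulVec, rmat_mulVec]
    simp only [lor_sub_left, lor_add_left, lor_add_right, lor_smul_left, hij, hji, lor_ev_self]
    ext a
    simp only [Pi.sub_apply, Pi.add_apply, Pi.smul_apply, smul_eq_mul]
    push_cast
    ring

theorem fli_pow_lor {i j : Fin 16} (h : d2 i j = 2) (n : ℕ) (x : V5) :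
    lor (((refl i * refl j) ^ n).1.1 *ᵥ x) (ev i + ev j) = lor x (ev i + ev j) ∧
    lor (((refl i * refl j) ^ n).1.1 *ᵥ x) (ev j) = lor x (ev j) + 2 * n * lor x (ev i + ev j) := by
  have hij : lor (ev i) (ev j) = -1 / 2 := by rw [lor_ev, h]; norm_num
  have hji : lor (ev j) (ev i) = -1 / 2 := by rw [lor_comm, hij]
  rw [fli_pow h]
  simp only [lor_sub_left, lor_add_left, lor_add_right, lor_smul_left, hij, hji, lor_ev_self]
  constructor <;> ring

theorem fli_null {i j : Fin 16} (h : d2 i j = 2) : lor (ev i + ev j) (ev i + ev j) = 0 := by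
  have hij : lor (ev i) (ev j) = -1 / 2 := by rw [lor_ev, h]; norm_num
  have hji : lor (ev j) (ev i) = -1 / 2 := by rw [lor_comm, hij]
  simp only [lor_add_left, lor_add_right, hij, hji, lor_ev_self]
  norm_num

theorem fli_mem (w : W) (h : rho w = 1) : w ∈ FW := by
  refine ⟨⟨?_, ?_⟩, ?_⟩
  · rw [h]; rfl
  · rw [h]; rfl
  · rw [ht, h]; rfl

theorem fli_rho : rho (cs.simple 0 * cs.simple 7) = 1 := by
  rw [map_mul, rho_simple, rho_simple]
  have h0 : rhoGen 0 = (DihedralGroup.sr (-1 : ℤ), 1) := by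
    unfold rhoGen
    rw [if_neg (by decide)]
    rfl
  have h7 : rhoGen 7 = (DihedralGroup.sr (-1 : ℤ), 1) := by
    unfold rhoGen
    rw [if_neg (by decide)]
    rfl
  rw [h0, h7, Prod.mk_mul_mk, sr_mul_self', mul_one]
  rfl

theorem fli_conj (w : W) (n : ℕ) : w * (cs.simple 0 * cs.simple 7) ^ n * w⁻¹ ∈ FW := by
  apply fli_mem
  rw [map_mul, map_mul, map_pow, fli_rho, one_pow, mul_one, map_inv, mul_inv_cancel]

theorem fli_limit (w : W) (x : Sph) (hx : x.1 = nrm ((rW w).1.1 *ᵥ (ev 0 + ev 7))) :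
    x ∈ limitSet (FW.map rW) := by
  have h07 : d2 0 7 = 2 := by decide
  obtain ⟨B, hB⟩ : ∃ B : Opl, B = rW w := ⟨_, rfl⟩
  rw [← hB] at hx
  obtain ⟨v, hv⟩ : ∃ v : V5, v = B.1.1 *ᵥ (ev 0 + ev 7) := ⟨_, rfl⟩
  have hv0 : 0 < v 0 := by
    rw [hv]
    exact (B.2.2 _ (nonadj_fwd (by decide))).2
  obtain ⟨o, ho⟩ : ∃ o : V5, o = Pi.single 0 1 := ⟨_, rfl⟩
  obtain ⟨z, hz⟩ : ∃ z : V5, z = (B⁻¹).1.1 *ᵥ o := ⟨_, rfl⟩
  have hBz : B.1.1 *ᵥ z = o := by
    rw [hz, ← mul_mulVec', mul_inv_cancel]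
    simp
  have hc1 : lor z (ev 0 + ev 7) = -(v 0) := by
    rw [← B.2.1, hBz, ← hv, ho]
    simp [lor, Pi.single_apply]
  obtain ⟨A, hA⟩ : ∃ A : ℕ → Opl, A = fun n => B * (refl 0 * refl 7) ^ n * B⁻¹ := ⟨_, rfl⟩
  have hmem : ∀ n, A n ∈ FW.map rW := by
    intro n
    refine ⟨w * (cs.simple 0 * cs.simple 7) ^ n * w⁻¹, fli_conj w n, ?_⟩
    rw [hA, hB]
    simp only [map_mul, map_pow, map_inv, rW_simple]
  have horb : ∀ n, orb (A n) = nrm (B.1.1 *ᵥ (((refl 0 * refl 7) ^ n).1.1 *ᵥ z)) := by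
    intro n
    rw [orb, hA]
    simp only [mul_mulVec']
    rw [← ho, ← hz]
  have hinj : Function.Injective A := by
    intro n m hnm
    rw [hA] at hnm
    have h1 : (refl 0 * refl 7) ^ n = (refl 0 * refl 7) ^ m :=
      mul_left_cancel (mul_right_cancel hnm)
    have h2 := (fli_pow_lor h07 n z).2
    have h3 := (fli_pow_lor h07 m z).2
    rw [h1, h3, hc1] at h2
    have h4 : (n : ℝ) = m := by
      have h5 : (m : ℝ) * v 0 = n * v 0 := by linarith
      exact (mul_right_cancel₀ hv0.ne' h5).symm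
    exact_mod_cast h4
  have hlim : Filter.Tendsto (fun n => orb (A n)) Filter.atTop (𝓝 x.1) := by
    obtain ⟨q, hq⟩ : ∃ q : ℝ → V5, q = fun t => (t ^ 2) • o - (4 * t * lor z (ev 0 + ev 7)) •
        (B.1.1 *ᵥ ev 0) - (4 * t * lor z (ev 7) + 4 * (1 - t) * lor z (ev 0 + ev 7)) • v := ⟨_, rfl⟩
    have hqc : Continuous q := by
      rw [hq]
      fun_prop
    have hq0 : q 0 = (4 * v 0) • v := by
      rw [hq]
      simp only [hc1]
      ext a
      simp
    have hqne : q 0 0 ≠ 0 := by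
      rw [hq0]
      simp only [Pi.smul_apply, smul_eq_mul]
      positivity
    have hca : ContinuousAt (fun t => nrm (q t)) 0 := by
      unfold nrm
      have h1 : ContinuousAt (fun t => q t 0) 0 := ((continuous_apply 0).comp hqc).continuousAt
      exact (h1.inv₀ hqne).smul hqc.continuousAt
    have h2 : Filter.Tendsto (fun n : ℕ => nrm (q (1 / (n : ℝ)))) Filter.atTop (𝓝 (nrm (q 0))) :=
      hca.tendsto.comp tendsto_one_div_atTop_nhds_zero_nat
    have h3 : nrm (q 0) = x.1 := by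
      rw [hq0, nrm_smul (by positivity), hx, hv]
    rw [h3] at h2
    refine h2.congr' ?_
    filter_upwards [Filter.eventually_gt_atTop 0] with n hn
    have hn0 : (n : ℝ) ≠ 0 := by positivity
    rw [horb, fli_pow h07, Matrix.mulVec_sub, Matrix.mulVec_sub, Matrix.mulVec_smul,
      Matrix.mulVec_smul, hBz, ← hv, ← nrm_smul (c := (n : ℝ) ^ 2) (by positivity) (q _)]
    congr 1
    rw [hq]
    ext a
    simp only [Pi.sub_apply, Pi.smul_apply, smul_eq_mul]
    field_simp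
  intro ε hε
  obtain ⟨n₀, h⟩ := Metric.tendsto_atTop.mp hlim ε hε
  exact Set.infinite_of_injective_forall_mem (f := fun n => A (n + n₀))
    (hinj.comp (add_left_injective n₀)) (fun n => ⟨hmem _, h _ (by omega)⟩)

/-- The limit set of `F` is infinite. -/
theorem F_limit_infinite : (limitSet (FW.map rW)).Infinite := by
  have h07 : d2 0 7 = 2 := by decide
  have h03 : d2 0 3 = 2 := by decide
  have hN : Fwd (ev 0 + ev 7) := nonadj_fwd (by decide)
  have hpos : ∀ B : Opl, 0 < (B.1.1 *ᵥ (ev 0 + ev 7)) 0 := fun B => (B.2.2 _ hN).2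
  have hnull : ∀ B : Opl, lor (B.1.1 *ᵥ (ev 0 + ev 7)) (B.1.1 *ᵥ (ev 0 + ev 7)) = 0 := by
    intro B
    rw [B.2.1]
    exact fli_null h07
  refine Set.infinite_of_injective_forall_mem
    (f := fun k : ℕ => toSph _ (hpos (rW ((cs.simple 0 * cs.simple 3) ^ k))) (hnull _)) ?_ ?_
  · intro k l hkl
    have h1 := congrArg Subtype.val hkl
    change nrm ((rW ((cs.simple 0 * cs.simple 3) ^ k)).1.1 *ᵥ (ev 0 + ev 7)) =
      nrm ((rW ((cs.simple 0 * cs.simple 3) ^ l)).1.1 *ᵥ (ev 0 + ev 7)) at h1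
    have hr : ∀ k : ℕ, rW ((cs.simple 0 * cs.simple 3) ^ k) = (refl 0 * refl 3) ^ k := by
      intro k
      simp only [map_mul, map_pow, rW_simple]
    have hp := hpos ((refl 0 * refl 3) ^ k)
    have hp' := hpos ((refl 0 * refl 3) ^ l)
    rw [hr, hr] at h1
    unfold nrm at h1
    have hM : lor (ev 0 + ev 7) (ev 0 + ev 3) = -1 := by
      have a1 : d2 0 0 = 0 := by decide
      have a2 : d2 7 0 = 2 := by decide
      have a3 : d2 7 3 = 2 := by decide
      simp only [lor_add_left, lor_add_right, lor_ev, a1, a2, a3, h03]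
      norm_num
    have h2 := congrArg (fun u => lor u (ev 0 + ev 3)) h1
    have h3 := congrArg (fun u => lor u (ev 3)) h1
    simp only [lor_smul_left] at h2 h3
    rw [(fli_pow_lor h03 k _).1, (fli_pow_lor h03 l _).1, hM] at h2
    rw [(fli_pow_lor h03 k _).2, (fli_pow_lor h03 l _).2, hM] at h3
    have h4 : ((((refl 0 * refl 3) ^ k).1.1 *ᵥ (ev 0 + ev 7)) 0)⁻¹ =
        ((((refl 0 * refl 3) ^ l).1.1 *ᵥ (ev 0 + ev 7)) 0)⁻¹ := by linarith
    rw [h4] at h3
    have h5 := mul_left_cancel₀ (inv_ne_zero hp'.ne') h3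
    have h6 : (k : ℝ) = l := by linarith
    exact_mod_cast h6
  · intro k
    exact fli_limit ((cs.simple 0 * cs.simple 3) ^ k) _ rfl

end Trom
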