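import Pool.Agent.Helper97.Trom.Geo
import Pool.Agent.Helper97.Trom.J_F_normal

open Matrix Set Topology

namespace Trom

theorem F_normal_map : (((FW.map rW).subgroupOf (GW.map rW))).Normal := by
  constructor
  intro n hn g
  rw [Subgroup.mem_subgroupOf] at hn ⊢
  obtain ⟨f, hf, hf'⟩ := hn
  obtain ⟨k, hk, hk'⟩ := g.2
  refine ⟨k * f * k⁻¹, F_normal k hk f hf, ?_⟩
  rw [map_mul, map_mul, map_inv, hf', hk']
  rfl

end Trom
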