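import Pool.Agent.Helper97.Trom.Geo

open Matrix Set Topology

namespace Trom

/-- linear part with values in the units -/
def GW_fg_eps : DihedralGroup 0 →* ℤˣ where
  toFun g := match g with
    | DihedralGroup.r _ => 1
    | DihedralGroup.sr _ => -1
  map_one' := rfl
  map_mul' g h := by
    rcases g with a | a <;> rcases h with b | b <;> rfl

theorem GW_fg_eps_iff (g : DihedralGroup 0) : GW_fg_eps g = 1 ↔ epsD g = 1 := by
  rcases g with a | a
  · exact ⟨fun _ => rfl, fun _ => rfl⟩
  · constructor
    · intro h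
      have h' : (-1 : ℤˣ) = 1 := h
      exact absurd h' (by decide)
    · intro h
      have h' : (-1 : ℤ) = 1 := h
      exact absurd h' (by norm_num)

theorem GW_fg_W : Group.FG W := by
  rw [Group.fg_iff]
  exact ⟨Set.range cs.simple, cs.subgroup_closure_range_simple, Set.finite_range _⟩

theorem GW_fg : GW.FG := by
  let φ : W →* ℤˣ × ℤˣ :=
    (GW_fg_eps.comp ((MonoidHom.fst _ _).comp rho)).prod
      (GW_fg_eps.comp ((MonoidHom.snd _ _).comp rho))
  have hker : GW = φ.ker := by
    ext w
    rw [MonoidHom.mem_ker]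
    constructor
    · rintro ⟨h1, h2⟩
      exact Prod.ext ((GW_fg_eps_iff _).mpr h1) ((GW_fg_eps_iff _).mpr h2)
    · intro h
      have h1 : GW_fg_eps (rho w).1 = 1 := congrArg Prod.fst h
      have h2 : GW_fg_eps (rho w).2 = 1 := congrArg Prod.snd h
      exact ⟨(GW_fg_eps_iff _).mp h1, (GW_fg_eps_iff _).mp h2⟩
  have := GW_fg_W
  rw [hker]
  have : φ.ker.FiniteIndex := Subgroup.finiteIndex_ker φ
  rw [← Group.fg_iff_subgroup_fg]
  exact Subgroup.fg_of_index_ne_zero _

end Trom
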