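import Pool.Agent.Helper97.Trom.Geo

open Matrix Set Topology

namespace Trom

theorem GW_reps_aux (w k : W) (h1 : epsD (rho w).1 = epsD (rho k).1)
    (h2 : epsD (rho w).2 = epsD (rho k).2) : w * k⁻¹ ∈ GW := by
  have key : ∀ g : DihedralGroup 0, epsD g⁻¹ = epsD g := by
    intro g; rcases g with b | b <;> rfl
  have sq : ∀ g : DihedralGroup 0, epsD g * epsD g = 1 := by
    intro g; rcases g with b | b <;> rfl
  refine ⟨?_, ?_⟩
  · rw [map_mul, map_inv, Prod.fst_mul, Prod.fst_inv, epsD_mul, key, h1, sq]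
  · rw [map_mul, map_inv, Prod.snd_mul, Prod.snd_inv, epsD_mul, key, h2, sq]

/-- `W` is covered by finitely many cosets of `G`. -/
theorem GW_reps (w : W) : ∃ g ∈ GW, ∃ k : W, (k = 1 ∨ k = cs.simple 0 ∨ k = cs.simple 1 ∨
    k = cs.simple 0 * cs.simple 1) ∧ w = g * k := by
  have pm : ∀ g : DihedralGroup 0, epsD g = 1 ∨ epsD g = -1 := by
    intro g; rcases g with b | b
    · exact Or.inl rfl
    · exact Or.inr rfl
  have e01 : epsD (rho (cs.simple 0)).1 = -1 := by rw [rho_simple]; rfl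
  have e02 : epsD (rho (cs.simple 0)).2 = 1 := by rw [rho_simple]; rfl
  have e11 : epsD (rho (cs.simple 1)).1 = 1 := by rw [rho_simple]; rfl
  have e12 : epsD (rho (cs.simple 1)).2 = -1 := by rw [rho_simple]; rfl
  have one1 : epsD (rho (1 : W)).1 = 1 := by rw [map_one]; rfl
  have one2 : epsD (rho (1 : W)).2 = 1 := by rw [map_one]; rfl
  have ee1 : epsD (rho (cs.simple 0 * cs.simple 1)).1 = -1 := by
    rw [map_mul, Prod.fst_mul, epsD_mul, e01, e11]; rfl
  have ee2 : epsD (rho (cs.simple 0 * cs.simple 1)).2 = -1 := by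
    rw [map_mul, Prod.snd_mul, epsD_mul, e02, e12]; rfl
  rcases pm (rho w).1 with h1 | h1 <;> rcases pm (rho w).2 with h2 | h2
  · exact ⟨w * 1⁻¹, GW_reps_aux w 1 (by rw [h1, one1]) (by rw [h2, one2]), 1, Or.inl rfl,
      by group⟩
  · exact ⟨w * (cs.simple 1)⁻¹, GW_reps_aux w _ (by rw [h1, e11]) (by rw [h2, e12]), cs.simple 1,
      Or.inr (Or.inr (Or.inl rfl)), by group⟩
  · exact ⟨w * (cs.simple 0)⁻¹, GW_reps_aux w _ (by rw [h1, e01]) (by rw [h2, e02]), cs.simple 0,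
      Or.inr (Or.inl rfl), by group⟩
  · exact ⟨w * (cs.simple 0 * cs.simple 1)⁻¹, GW_reps_aux w _ (by rw [h1, ee1])
      (by rw [h2, ee2]), cs.simple 0 * cs.simple 1, Or.inr (Or.inr (Or.inr rfl)), by group⟩

end Trom
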