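import Pool.Agent.Helper97.Trom.Geo

open Matrix Set Topology

namespace Trom

theorem G_SO_det (i : Fin 16) : (rmat i).det = -1 := by
  have h1 : rmat i = 1 + Matrix.replicateCol Unit (fun a => -4 * ev i a) *
      Matrix.replicateRow Unit (fun b => sig b * ev i b) := by
    ext a b
    rw [rmat, Matrix.sub_apply, Matrix.add_apply, Matrix.smul_apply, Matrix.vecMulVec_apply,
      Matrix.mul_apply]
    simp
    ring
  rw [h1, Matrix.det_one_add_replicateCol_mul_replicateRow]
  have h2 : (fun b => sig b * ev i b) ⬝ᵥ (fun a => -4 * ev i a) = -4 * lor (ev i) (ev i) := by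
    rw [lor_eq_sum, dotProduct, Finset.mul_sum]
    exact Finset.sum_congr rfl fun a _ => by ring
  rw [h2, lor_ev_self]
  norm_num

theorem G_SO_all (w : W) :
    (rW w).1.1.det = ((epsD (rho w).1 * epsD (rho w).2 : ℤ) : ℝ) := by
  induction w using cs.simple_induction_left with
  | one =>
    rw [map_one, map_one]
    change ((1 : Opl).1.1).det = (((1:ℤ) * 1 : ℤ) : ℝ)
    simp
  | mul_simple_left w i ih =>
    rw [map_mul, map_mul, rW_simple, rho_simple]
    have h1 : ((refl i * rW w : Opl)).1.1.det = (rmat i).det * (rW w).1.1.det := by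
      simp only [Subgroup.coe_mul, Units.val_mul, Matrix.det_mul, refl_val]
    rw [h1, ih, G_SO_det, Prod.fst_mul, Prod.snd_mul, epsD_mul, epsD_mul]
    have h2 : epsD (rhoGen i).1 * epsD (rhoGen i).2 = -1 := by
      unfold rhoGen
      split_ifs <;> rfl
    have h3 : epsD (rhoGen i).1 * epsD (rho w).1 * (epsD (rhoGen i).2 * epsD (rho w).2) =
        (epsD (rhoGen i).1 * epsD (rhoGen i).2) * (epsD (rho w).1 * epsD (rho w).2) := by ring
    rw [h3, h2]
    push_cast
    ring

theorem G_SO : GW.map rW ≤ SOpl := by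
  rintro _ ⟨w, ⟨h1, h2⟩, rfl⟩
  change (rW w).1.1.det = 1
  rw [G_SO_all, h1, h2]
  norm_num

end Trom
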