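import Pool.Agent.Helper97.Trom.Top
import Pool.Agent.Helper97.Trom.J_chamber_meet
import Pool.Agent.Helper97.Trom.J_P0_not_InLo

open Matrix Set Topology

namespace Trom

theorem Om_disj : Disjoint Om Om1 := by
  rw [Set.disjoint_left]
  rintro x ⟨w, hw⟩ ⟨v, hv⟩
  have hw' : w⁻¹ • x ∈ P0 := hw
  obtain ⟨a, hPa, _⟩ := hw
  have e : (w⁻¹ * v)⁻¹ • (w⁻¹ • x) = v⁻¹ • x := by
    rw [_root_.mul_inv_rev, inv_inv, mul_smul, smul_inv_smul]
  have h := (chamber_meet (w⁻¹ • x) hPa (w⁻¹ * v) (fun i => by rw [e]; exact hv.1.1 i)).1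
  rw [e] at h
  exact P0_not_InLo (w⁻¹ • x) hw' (h ▸ hv.2)

end Trom
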