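import Pool.Agent.Helper97.Trom.Top
import Pool.Agent.Helper97.Trom.J_lin_cover

open Matrix Set Topology

namespace Trom

theorem Om_union : {x : Sph | ∃ w : W, Pa (w⁻¹ • x)} = Om ∪ Om1 := by
  ext x
  constructor
  · rintro ⟨w, hw⟩
    by_cases h : InLo (w⁻¹ • x).1
    · exact Or.inr ⟨w, hw, h⟩
    · exact Or.inl ⟨w, lin_cover _ hw h⟩
  · rintro (⟨w, a, ha⟩ | ⟨w, hw⟩)
    · exact ⟨w, ha.1⟩
    · exact ⟨w, hw.1⟩

end Trom
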