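import Pool.Agent.Helper97.Trom.Geo
import Pool.Agent.Helper97.Trom.J_nonadj_fwd
import Pool.Agent.Helper97.Trom.J_rW_inj

open Matrix Set Topology

namespace Trom

theorem cusp_N (x : Sph) (i j : Fin 16) (hij : 2 ≤ d2 i j) (hi : lor x.1 (ev i) = 0)
    (hj : lor x.1 (ev j) = 0) :
    ev i + ev j = ((ev i + ev j) 0) • x.1 ∧ d2 i j = 2 := by
  have hN := nonadj_fwd hij
  set N := ev i + ev j with hNdef
  have hxN : lor x.1 N = 0 := by rw [hNdef, lor_add_right, hi, hj, add_zero]
  have hy : N - (N 0) • x.1 = 0 := by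
    apply eq_zero_of_lor_nonpos
    · rw [lor_sub_left, lor_sub_right, lor_sub_right, lor_smul_left, lor_smul_left,
        lor_smul_right, lor_smul_right, hxN, x.2.2, lor_comm N x.1, hxN]
      linarith [hN.1]
    · simp [x.2.1]
  have hNx : N = (N 0) • x.1 := sub_eq_zero.1 hy
  refine ⟨hNx, ?_⟩
  have h0 : lor N N = 0 := by
    rw [hNx, lor_smul_left, lor_smul_right, x.2.2]; ring
  have h1 : lor N N = 2 - (d2 i j : ℝ) := by
    rw [hNdef, lor_add_left, lor_add_right, lor_add_right, lor_ev_self, lor_ev_self,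
      lor_comm (ev j) (ev i), lor_ev]
    ring
  have h2 : (d2 i j : ℝ) = 2 := by linarith
  exact_mod_cast h2

theorem cusp_GW (i j : Fin 16) (h : d2 i j = 2) : cs.simple i * cs.simple j ∈ GW := by
  change epsD (rho (cs.simple i * cs.simple j)).1 = 1 ∧ epsD (rho (cs.simple i * cs.simple j)).2 = 1
  rw [map_mul, rho_simple, rho_simple]
  revert i j
  decide

theorem cusp_step (i j : Fin 16) (h : d2 i j = 2) (z : V5) :
    (rW (cs.simple i * cs.simple j)).1.1 *ᵥ z =
      z - (4 * lor z (ev j)) • (ev i + ev j) - (4 * lor z (ev i + ev j)) • ev i := by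
  have hji : lor (ev j) (ev i) = -1 / 2 := by
    rw [lor_comm, lor_ev, h]; norm_num
  rw [map_mul, rW_simple, rW_simple, mul_mulVec', refl_val, refl_val, rmat_mulVec, rmat_mulVec,
    lor_sub_left, lor_smul_left, hji, lor_add_right]
  ext a
  simp only [Pi.sub_apply, Pi.smul_apply, Pi.add_apply, smul_eq_mul]
  ring

theorem cusp_pow (i j : Fin 16) (h : d2 i j = 2) (z : V5) (n : ℕ) :
    (rW ((cs.simple i * cs.simple j) ^ n)).1.1 *ᵥ z =
      z - (4 * n * lor z (ev i + ev j)) • ev i -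
        (4 * (n * lor z (ev j) + lor z (ev i + ev j) * (n * (n - 1)))) • (ev i + ev j) := by
  have hij : lor (ev i) (ev j) = -1 / 2 := by
    rw [lor_ev, h]; norm_num
  have hji : lor (ev j) (ev i) = -1 / 2 := by
    rw [lor_comm, hij]
  induction n with
  | zero =>
    rw [pow_zero, map_one]
    simp
  | succ n ih =>
    rw [pow_succ', map_mul, mul_mulVec', ih, cusp_step i j h]
    simp only [lor_sub_left, lor_smul_left, lor_add_left, lor_add_right, hij, hji, lor_ev_self]
    ext a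
    simp only [Pi.sub_apply, Pi.smul_apply, Pi.add_apply, smul_eq_mul]
    push_cast
    ring

theorem cusp_tendsto (i j : Fin 16) (h : d2 i j = 2) (z : V5)
    (hz : 4 * lor z (ev i + ev j) * (ev i + ev j) 0 ≠ 0) :
    Filter.Tendsto (fun n : ℕ => nrm ((rW ((cs.simple i * cs.simple j) ^ n)).1.1 *ᵥ z))
      Filter.atTop (𝓝 (nrm (ev i + ev j))) := by
  set N := ev i + ev j with hN
  set L := lor z N with hL
  set m := lor z (ev j) with hm
  have hL0 : L ≠ 0 := by
    intro h0; apply hz; rw [h0]; ring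
  have hN0 : N 0 ≠ 0 := by
    intro h0; apply hz; rw [h0]; ring
  have hlim : Filter.Tendsto (fun n : ℕ => ((n : ℝ) ^ 2)⁻¹ •
      ((rW ((cs.simple i * cs.simple j) ^ n)).1.1 *ᵥ z)) Filter.atTop (𝓝 ((-(4 * L)) • N)) := by
    have h1 : Filter.Tendsto (fun n : ℕ => ((n : ℝ))⁻¹) Filter.atTop (𝓝 0) :=
      tendsto_inv_atTop_nhds_zero_nat
    have h2 : Filter.Tendsto (fun n : ℕ => ((n : ℝ))⁻¹ ^ 2) Filter.atTop (𝓝 0) := by
      simpa using h1.pow 2
    have h3 : Filter.Tendsto (fun n : ℕ => (((n : ℝ))⁻¹ ^ 2) • z - (4 * L * ((n : ℝ))⁻¹) • ev i -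
        (4 * (m * ((n : ℝ))⁻¹ + L * (1 - ((n : ℝ))⁻¹))) • N) Filter.atTop
        (𝓝 (((0 : ℝ)) • z - (4 * L * 0) • ev i - (4 * (m * 0 + L * (1 - 0))) • N)) := by
      refine Filter.Tendsto.sub (Filter.Tendsto.sub ?_ ?_) ?_
      · exact h2.smul_const z
      · exact (h1.const_mul (4 * L)).smul_const (ev i)
      · refine Filter.Tendsto.smul_const ?_ N
        refine Filter.Tendsto.const_mul 4 ?_
        exact (h1.const_mul m).add ((tendsto_const_nhds.sub h1).const_mul L)
    have h4 : ((0 : ℝ)) • z - (4 * L * 0) • ev i - (4 * (m * 0 + L * (1 - 0))) • N =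
        (-(4 * L)) • N := by
      ext a
      simp only [Pi.sub_apply, Pi.smul_apply, smul_eq_mul]
      ring
    rw [h4] at h3
    refine h3.congr' ?_
    filter_upwards [Filter.eventually_gt_atTop 0] with n hn
    have hn' : (n : ℝ) ≠ 0 := by exact_mod_cast hn.ne'
    rw [cusp_pow i j h, ← hN, ← hL, ← hm]
    ext a
    simp only [Pi.sub_apply, Pi.smul_apply, smul_eq_mul]
    field_simp
  have hcont : ContinuousAt nrm ((-(4 * L)) • N) := by
    have h0 : ((-(4 * L)) • N) 0 ≠ 0 := by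
      simp only [Pi.smul_apply, smul_eq_mul]
      exact mul_ne_zero (neg_ne_zero.2 (mul_ne_zero four_ne_zero hL0)) hN0
    have hc : ContinuousAt (fun v : V5 => v 0) ((-(4 * L)) • N) :=
      (continuous_apply (A := fun _ : Fin 5 => ℝ) (0 : Fin 5)).continuousAt
    have hc2 : ContinuousAt (fun v : V5 => (v 0)⁻¹) ((-(4 * L)) • N) := ContinuousAt.inv₀ hc h0
    exact ContinuousAt.smul (f := fun v : V5 => (v 0)⁻¹) (g := fun v : V5 => v) hc2 continuousAt_id
  have h5 := hcont.tendsto.comp hlim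
  rw [nrm_smul (neg_ne_zero.2 (mul_ne_zero four_ne_zero hL0))] at h5
  refine h5.congr' ?_
  filter_upwards [Filter.eventually_gt_atTop 0] with n hn
  have hn' : (n : ℝ) ≠ 0 := by exact_mod_cast hn.ne'
  exact nrm_smul (inv_ne_zero (pow_ne_zero 2 hn')) _

/-- Tangency points are limit points. -/
theorem cusp_limit (x : Sph) (i j : Fin 16) (hij : 2 ≤ d2 i j) (hi : lor x.1 (ev i) = 0)
    (hj : lor x.1 (ev j) = 0) : x ∈ limitSet (GW.map rW) := by
  obtain ⟨hNx, h2⟩ := cusp_N x i j hij hi hj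
  have hN := nonadj_fwd hij
  intro ε hε
  set o : V5 := Pi.single 0 1 with ho
  have hL : lor o (ev i + ev j) = - (ev i + ev j) 0 := by
    simp [lor, ho]
  have hz : 4 * lor o (ev i + ev j) * (ev i + ev j) 0 ≠ 0 := by
    rw [hL]
    have := hN.2
    have h3 : (ev i + ev j) 0 ≠ 0 := this.ne'
    exact mul_ne_zero (mul_ne_zero four_ne_zero (neg_ne_zero.2 h3)) h3
  have ht := cusp_tendsto i j h2 o hz
  have hx : nrm (ev i + ev j) = x.1 := by
    rw [hNx, nrm_smul hN.2.ne']
    simp [nrm, x.2.1]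
  rw [hx] at ht
  rw [Metric.tendsto_atTop] at ht
  obtain ⟨n0, hn0⟩ := ht ε hε
  have hinj : Function.Injective (fun n : ℕ => rW ((cs.simple i * cs.simple j) ^ n)) := by
    intro a b hab
    simp only at hab
    have h3 : lor ((rW ((cs.simple i * cs.simple j) ^ a)).1.1 *ᵥ o) (ev j) =
        lor ((rW ((cs.simple i * cs.simple j) ^ b)).1.1 *ᵥ o) (ev j) := by rw [hab]
    have hij' : lor (ev i) (ev j) = -1 / 2 := by
      rw [lor_ev, h2]; norm_num
    rw [cusp_pow i j h2, cusp_pow i j h2] at h3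
    simp only [lor_sub_left, lor_smul_left, lor_add_left, hij', lor_ev_self] at h3
    have h4 : ((a : ℝ) - b) * lor o (ev i + ev j) = 0 := by linarith
    rcases mul_eq_zero.1 h4 with h5 | h5
    · have : (a : ℝ) = b := by linarith
      exact_mod_cast this
    · rw [hL] at h5
      exact absurd h5 (neg_ne_zero.2 hN.2.ne')
  refine Set.Infinite.mono ?_ ((Set.Ici_infinite n0).image (hinj.injOn))
  rintro A ⟨n, hn, rfl⟩
  refine ⟨⟨_, ?_, rfl⟩, hn0 n hn⟩
  exact GW.pow_mem (cusp_GW i j h2) n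

end Trom
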