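import Pool.Agent.Helper97.Trom.Geo

open Matrix Set Topology

namespace Trom

/-- the dual lattice -/
def Lst (x : V5) : Prop := ∀ i, ∃ n : ℤ, 4 * lor x (ev i) = n

theorem Lst_rmat {x : V5} (h : Lst x) (j : Fin 16) : Lst (rmat j *ᵥ x) := by
  intro i
  obtain ⟨n, hn⟩ := h i
  obtain ⟨m, hm⟩ := h j
  refine ⟨n - m * (2 * (1 - d2 j i)), ?_⟩
  rw [rmat_mulVec, lor_sub_left, lor_smul_left, mul_sub, hn, lor_ev, hm]
  push_cast
  ring

theorem Lst_rW (w : W) {x : V5} (h : Lst x) : Lst ((rW w).1.1 *ᵥ x) := by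
  induction w using cs.simple_induction_left with
  | one =>
    rw [map_one]
    have : (1 : Opl).1.1 *ᵥ x = x := by simp
    rw [this]
    exact h
  | mul_simple_left w i ih =>
    rw [map_mul, rW_simple, mul_mulVec', refl_val]
    exact Lst_rmat ih i

theorem Lst_single (j : Fin 5) : Lst (Pi.single j 1) := by
  intro i
  fin_cases j
  · refine ⟨-(2 * ((ctr i 0) ^ 2 + (ctr i 1) ^ 2 + (ctr i 2) ^ 2) + 1), ?_⟩
    simp [lor, ev]
    ring
  · refine ⟨4 * ctr i 0, ?_⟩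
    simp [lor, ev]
  · refine ⟨4 * ctr i 1, ?_⟩
    simp [lor, ev]
  · refine ⟨4 * ctr i 2, ?_⟩
    simp [lor, ev]
  · refine ⟨(2 * ((ctr i 0) ^ 2 + (ctr i 1) ^ 2 + (ctr i 2) ^ 2) - 3), ?_⟩
    simp [lor, ev]
    ring

theorem Lst_coord {x : V5} (h : Lst x) (k : Fin 5) : ∃ n : ℤ, 64 * x k = n := by
  obtain ⟨a0, h0⟩ := h 0
  obtain ⟨a1, h1⟩ := h 1
  obtain ⟨a2, h2⟩ := h 2
  obtain ⟨a4, h4⟩ := h 4
  obtain ⟨a6, h6⟩ := h 6
  have e0 : -x 0 - 3 * x 4 = a0 := by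
    rw [← h0]; simp [lor, ev, ctr]; ring
  have e1 : -3 * x 0 + 4 * x 3 - x 4 = a1 := by
    rw [← h1]; simp [lor, ev, ctr]; ring
  have e2 : -3 * x 0 + 4 * x 2 - x 4 = a2 := by
    rw [← h2]; simp [lor, ev, ctr]; ring
  have e6 : -3 * x 0 + 4 * x 1 - x 4 = a6 := by
    rw [← h6]; simp [lor, ev, ctr]; ring
  have e4 : -9 * x 0 + 8 * x 2 + 5 * x 4 = a4 := by
    rw [← h4]; simp [lor, ev, ctr]; ring
  have f4 : 16 * x 4 = a4 - 2 * a2 - 3 * a0 := by linear_combination e4 - 2 * e2 - 3 * e0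
  have f0 : 16 * x 0 = -16 * a0 - 3 * (a4 - 2 * a2 - 3 * a0) := by
    linear_combination -16 * e0 - 3 * f4
  fin_cases k
  · refine ⟨4 * (-16 * a0 - 3 * (a4 - 2 * a2 - 3 * a0)), ?_⟩
    push_cast
    show 64 * x 0 = _
    linear_combination 4 * f0
  · refine ⟨16 * a6 + 3 * (-16 * a0 - 3 * (a4 - 2 * a2 - 3 * a0)) + (a4 - 2 * a2 - 3 * a0), ?_⟩
    push_cast
    show 64 * x 1 = _
    linear_combination 16 * e6 + 3 * f0 + f4
  · refine ⟨16 * a2 + 3 * (-16 * a0 - 3 * (a4 - 2 * a2 - 3 * a0)) + (a4 - 2 * a2 - 3 * a0), ?_⟩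
    push_cast
    show 64 * x 2 = _
    linear_combination 16 * e2 + 3 * f0 + f4
  · refine ⟨16 * a1 + 3 * (-16 * a0 - 3 * (a4 - 2 * a2 - 3 * a0)) + (a4 - 2 * a2 - 3 * a0), ?_⟩
    push_cast
    show 64 * x 3 = _
    linear_combination 16 * e1 + 3 * f0 + f4
  · refine ⟨4 * (a4 - 2 * a2 - 3 * a0), ?_⟩
    push_cast
    show 64 * x 4 = _
    linear_combination 4 * f4

theorem rW_entry (w : W) (i j : Fin 5) : ∃ n : ℤ, 64 * (rW w).1.1 i j = n := by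
  have h := Lst_coord (Lst_rW w (Lst_single j)) i
  simpa [Matrix.mulVec_single] using h

/-- The reflection group is discrete. -/
theorem disc : IsDisc rW.range := by
  intro R
  let f : Opl → (Fin 5 → Fin 5 → ℤ) := fun A i j => ⌊64 * A.1.1 i j⌋
  let M : ℤ := ⌈64 * R⌉ + 1
  have hfin : (Set.pi Set.univ fun _ : Fin 5 => Set.pi Set.univ fun _ : Fin 5 =>
      Set.Icc (-M) M).Finite :=
    Set.Finite.pi fun _ => Set.Finite.pi fun _ => Set.finite_Icc _ _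
  refine Set.Finite.of_injOn (f := f) ?_ ?_ hfin
  · rintro A ⟨_, hA⟩ i _ j _
    have h1 := abs_le.1 (hA i j)
    have h2 := Int.le_ceil (64 * R)
    have h3 := Int.floor_le (64 * A.1.1 i j)
    have h4 := Int.lt_floor_add_one (64 * A.1.1 i j)
    have h5 : (-M : ℝ) ≤ (⌊64 * A.1.1 i j⌋ : ℝ) := by
      show -((⌈64 * R⌉ + 1 : ℤ) : ℝ) ≤ _
      push_cast
      linarith
    have h6 : (⌊64 * A.1.1 i j⌋ : ℝ) ≤ (M : ℝ) := by
      show _ ≤ ((⌈64 * R⌉ + 1 : ℤ) : ℝ)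
      push_cast
      linarith
    exact ⟨by exact_mod_cast h5, by exact_mod_cast h6⟩
  · rintro A ⟨⟨w, rfl⟩, _⟩ B ⟨⟨w', rfl⟩, _⟩ hAB
    apply Subtype.ext
    apply Units.ext
    ext i j
    obtain ⟨n, hn⟩ := rW_entry w i j
    obtain ⟨m, hm⟩ := rW_entry w' i j
    have h1 : ⌊64 * (rW w).1.1 i j⌋ = ⌊64 * (rW w').1.1 i j⌋ := congrFun (congrFun hAB i) j
    rw [hn, hm, Int.floor_intCast, Int.floor_intCast] at h1
    rw [h1, ← hm] at hn
    linarith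

end Trom
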