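import Pool.Agent.Helper97.Trom.Geo

open Matrix Set Topology

namespace Trom

theorem limitSet_mono {G H : Subgroup Opl} (h : G ≤ H) : limitSet G ⊆ limitSet H := by
  intro x hx ε hε
  exact (hx ε hε).mono (fun A hA => ⟨h hA.1, hA.2⟩)

end Trom
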