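import Pool.Agent.Helper97.Trom.Geo

open Matrix Set Topology

namespace Trom

theorem orbit_far_aux1 (a : V5) (haa : lor a a = -1) (ha0 : 0 < a 0) :
    ∀ i, |a i| ≤ 1 + a 0 := by
  have h1 : a 0 ^ 2 = 1 + a 1 ^ 2 + a 2 ^ 2 + a 3 ^ 2 + a 4 ^ 2 := by
    simp only [lor] at haa
    linarith
  intro i
  apply abs_le_of_sq_le_sq _ (by linarith)
  have p1 := sq_nonneg (a 1)
  have p2 := sq_nonneg (a 2)
  have p3 := sq_nonneg (a 3)
  have p4 := sq_nonneg (a 4)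
  have hexp : (1 + a 0) ^ 2 = 1 + 2 * a 0 + a 0 ^ 2 := by ring
  rw [hexp]
  fin_cases i
  · show a 0 ^ 2 ≤ _
    linarith
  · show a 1 ^ 2 ≤ _
    linarith
  · show a 2 ^ 2 ≤ _
    linarith
  · show a 3 ^ 2 ≤ _
    linarith
  · show a 4 ^ 2 ≤ _
    linarith

theorem orbit_far_aux2 (a b : V5) (haa : lor a a = -1) (ha0 : 0 < a 0) (hab : lor a b = 0)
    (hbb : lor b b = 1) : ∀ i, |b i| ≤ 1 + a 0 := by
  have h1 : a 0 ^ 2 = 1 + (a 1 ^ 2 + a 2 ^ 2 + a 3 ^ 2 + a 4 ^ 2) := by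
    simp only [lor] at haa
    linarith
  have h2 : 1 + b 0 ^ 2 = b 1 ^ 2 + b 2 ^ 2 + b 3 ^ 2 + b 4 ^ 2 := by
    simp only [lor] at hbb
    linarith
  have h3 : a 0 * b 0 = a 1 * b 1 + a 2 * b 2 + a 3 * b 3 + a 4 * b 4 := by
    simp only [lor] at hab
    linarith
  have hcs : (a 1 * b 1 + a 2 * b 2 + a 3 * b 3 + a 4 * b 4) ^ 2 ≤
      (a 1 ^ 2 + a 2 ^ 2 + a 3 ^ 2 + a 4 ^ 2) * (b 1 ^ 2 + b 2 ^ 2 + b 3 ^ 2 + b 4 ^ 2) := by
    nlinarith [sq_nonneg (a 1 * b 2 - a 2 * b 1), sq_nonneg (a 1 * b 3 - a 3 * b 1),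
      sq_nonneg (a 1 * b 4 - a 4 * b 1), sq_nonneg (a 2 * b 3 - a 3 * b 2),
      sq_nonneg (a 2 * b 4 - a 4 * b 2), sq_nonneg (a 3 * b 4 - a 4 * b 3)]
  rw [← h3, ← h2] at hcs
  have h4 : a 1 ^ 2 + a 2 ^ 2 + a 3 ^ 2 + a 4 ^ 2 = a 0 ^ 2 - 1 := by linarith
  rw [h4] at hcs
  have h5 : b 0 ^ 2 ≤ a 0 ^ 2 - 1 := by nlinarith
  intro i
  apply abs_le_of_sq_le_sq _ (by linarith)
  have p1 := sq_nonneg (b 1)
  have p2 := sq_nonneg (b 2)
  have p3 := sq_nonneg (b 3)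
  have p4 := sq_nonneg (b 4)
  have hexp : (1 + a 0) ^ 2 = 1 + 2 * a 0 + a 0 ^ 2 := by ring
  rw [hexp]
  fin_cases i
  · show b 0 ^ 2 ≤ _
    linarith
  · show b 1 ^ 2 ≤ _
    linarith
  · show b 2 ^ 2 ≤ _
    linarith
  · show b 3 ^ 2 ≤ _
    linarith
  · show b 4 ^ 2 ≤ _
    linarith

theorem orbit_far_aux3 : lor (Pi.single 0 1 : V5) (Pi.single 0 1) = -1 := by
  simp [lor]

theorem orbit_far_fwd : Fwd (Pi.single 0 1 : V5) := by
  refine ⟨?_, ?_⟩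
  · rw [orbit_far_aux3]; norm_num
  · simp

theorem orbit_far_entry (A : Opl) (i j : Fin 5) :
    |A.1.1 i j| ≤ 1 + (A.1.1 *ᵥ (Pi.single 0 1)) 0 := by
  have haa : lor (A.1.1 *ᵥ (Pi.single 0 1)) (A.1.1 *ᵥ (Pi.single 0 1)) = -1 := by
    rw [A.2.1, orbit_far_aux3]
  have ha0 : 0 < (A.1.1 *ᵥ (Pi.single 0 1)) 0 := (A.2.2 _ orbit_far_fwd).2
  have hij : A.1.1 i j = (A.1.1 *ᵥ (Pi.single j 1)) i := by simp
  rw [hij]
  by_cases hj : j = 0
  · subst hj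
    exact orbit_far_aux1 _ haa ha0 i
  · refine orbit_far_aux2 _ _ haa ha0 ?_ ?_ i
    · rw [A.2.1]
      fin_cases j
      · exact absurd rfl hj
      all_goals simp [lor]
    · rw [A.2.1]
      fin_cases j
      · exact absurd rfl hj
      all_goals simp [lor]

theorem orbit_far_main (A : Opl) (x : Sph) (ε : ℝ) (hε : 0 < ε)
    (hd : ε ≤ dist (orb A) x.1) :
    (A.1.1 *ᵥ (Pi.single 0 1)) 0 * (ε ^ 2 / 2) ≤ -lor x.1 (A.1.1 *ᵥ (Pi.single 0 1)) := by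
  have haa : lor (A.1.1 *ᵥ (Pi.single 0 1)) (A.1.1 *ᵥ (Pi.single 0 1)) = -1 := by
    rw [A.2.1, orbit_far_aux3]
  have ha0 : 0 < (A.1.1 *ᵥ (Pi.single 0 1)) 0 := (A.2.2 _ orbit_far_fwd).2
  have horb : orb A = ((A.1.1 *ᵥ (Pi.single 0 1)) 0)⁻¹ • (A.1.1 *ᵥ (Pi.single 0 1)) := rfl
  generalize (A.1.1 *ᵥ (Pi.single 0 1)) = a at haa ha0 horb ⊢
  have hx0 := x.2.1
  have hxx := x.2.2
  set v : V5 := (a 0)⁻¹ • a with hv
  rw [horb] at hd
  have hv0 : v 0 = 1 := by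
    simp only [hv, Pi.smul_apply, smul_eq_mul]
    exact inv_mul_cancel₀ ha0.ne'
  have hav : a = a 0 • v := by
    rw [hv, smul_smul, mul_inv_cancel₀ ha0.ne', one_smul]
  have hvv : lor v v ≤ 0 := by
    rw [hv, lor_smul_left, lor_smul_right, haa]
    have : 0 < (a 0)⁻¹ := inv_pos.mpr ha0
    nlinarith [mul_pos this this]
  have hkey : ε ^ 2 / 2 ≤ -lor x.1 v := by
    have hS : ε ^ 2 ≤ (v 1 - x.1 1) ^ 2 + (v 2 - x.1 2) ^ 2 + (v 3 - x.1 3) ^ 2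
        + (v 4 - x.1 4) ^ 2 := by
      by_contra hlt
      push Not at hlt
      have hlt2 : dist v x.1 < ε := by
        rw [dist_pi_lt_iff hε]
        intro i
        rw [Real.dist_eq]
        apply abs_lt_of_sq_lt_sq _ hε.le
        have p1 := sq_nonneg (v 1 - x.1 1)
        have p2 := sq_nonneg (v 2 - x.1 2)
        have p3 := sq_nonneg (v 3 - x.1 3)
        have p4 := sq_nonneg (v 4 - x.1 4)
        fin_cases i
        · show (v 0 - x.1 0) ^ 2 < _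
          rw [hv0, hx0]
          nlinarith
        · show (v 1 - x.1 1) ^ 2 < _
          linarith
        · show (v 2 - x.1 2) ^ 2 < _
          linarith
        · show (v 3 - x.1 3) ^ 2 < _
          linarith
        · show (v 4 - x.1 4) ^ 2 < _
          linarith
      linarith
    simp only [lor] at hvv hxx ⊢
    rw [hv0] at hvv ⊢
    rw [hx0] at hxx ⊢
    nlinarith
  have hl : lor x.1 a = a 0 * lor x.1 v := by
    conv_lhs => rw [hav]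
    rw [lor_smul_right]
  rw [hl]
  nlinarith

/-- If `x` is not a limit point of a discrete group `G`, then `-lor x (g • o)` tends to infinity on
`G`: sublevel sets are finite. -/
theorem orbit_far (G : Subgroup Opl) (hG : IsDisc G) (x : Sph) (hx : x ∉ limitSet G) (R : ℝ) :
    {A : Opl | A ∈ G ∧ -lor x.1 (A.1.1 *ᵥ (Pi.single 0 1)) ≤ R}.Finite := by
  have hx' : ∃ ε > 0, {A : Opl | A ∈ G ∧ dist (orb A) x.1 < ε}.Finite := by
    by_contra hcon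
    apply hx
    intro ε hε
    by_contra hfin
    exact hcon ⟨ε, hε, Set.not_infinite.mp hfin⟩
  obtain ⟨ε, hε, hfin⟩ := hx'
  refine (hfin.union (hG (1 + 2 * R / ε ^ 2))).subset ?_
  rintro A ⟨hA, hAR⟩
  by_cases hd : dist (orb A) x.1 < ε
  · exact Or.inl ⟨hA, hd⟩
  · right
    push Not at hd
    refine ⟨hA, fun i j => ?_⟩
    have h1 := orbit_far_entry A i j
    have h2 := orbit_far_main A x ε hε hd
    have h3 : (A.1.1 *ᵥ (Pi.single 0 1)) 0 ≤ 2 * R / ε ^ 2 := by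
      rw [le_div_iff₀ (by positivity)]
      nlinarith
    linarith

end Trom
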