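import Pool.Agent.Helper97.Trom.Geo
import Pool.Agent.Helper97.Trom.J_orbit_far
import Pool.Agent.Helper97.Trom.J_disc
import Pool.Agent.Helper97.Trom.J_GW_reps
import Pool.Agent.Helper97.Trom.J_rW_inj
import Pool.Agent.Helper97.Trom.J_limitSet_mono

open Matrix Set Topology

namespace Trom

/-- a time-like forward vector dominates a multiple of `o` -/
theorem em_dom {p : V5} (hp : lor p p = -1) (hp0 : 0 < p 0) :
    ∃ c : ℝ, 0 < c ∧ ∀ Y : V5, Fwd Y → c * Y 0 ≤ -lor Y p := by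
  have ht : 1 ≤ p 0 ^ 2 := by
    simp only [lor] at hp
    nlinarith [sq_nonneg (p 1), sq_nonneg (p 2), sq_nonneg (p 3), sq_nonneg (p 4)]
  have ht1 : 1 ≤ p 0 := by nlinarith
  refine ⟨1 / (2 * p 0), by positivity, fun Y hY => ?_⟩
  set c : ℝ := 1 / (2 * p 0) with hc
  have hcp : c * p 0 = 1 / 2 := by rw [hc]; field_simp
  have hc0 : 0 < c := by positivity
  have hoo : lor (Pi.single 0 1 : V5) (Pi.single 0 1) = -1 := by simp [lor]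
  have hpo : lor p (Pi.single 0 1 : V5) = -p 0 := by simp [lor]
  have hYo : lor Y (Pi.single 0 1 : V5) = -Y 0 := by simp [lor]
  have hop : lor (Pi.single 0 1 : V5) p = -p 0 := by rw [lor_comm, hpo]
  have hF : Fwd (p - c • (Pi.single 0 1 : V5)) := by
    refine ⟨?_, ?_⟩
    · rw [lor_sub_left, lor_sub_right, lor_sub_right, lor_smul_left, lor_smul_right,
        lor_smul_left, lor_smul_right, hoo, hpo, hop, hp]
      nlinarith
    · simp only [Pi.sub_apply, Pi.smul_apply, Pi.single_eq_same, smul_eq_mul, mul_one]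
      nlinarith
  have h := lor_fwd_nonpos hY hF
  rw [lor_sub_right, lor_smul_right, hYo] at h
  linarith

theorem em_lor (A : Opl) (x y : V5) : lor (A.1.1 *ᵥ x) (A.1.1 *ᵥ y) = lor x y := A.2.1 x y

theorem em_key (k : W) : ∃ c : ℝ, 0 < c ∧ ∀ (x : Sph) (g : W),
    c * (-lor x.1 ((rW g).1.1 *ᵥ (Pi.single 0 1))) ≤
      -lor x.1 ((rW (g * k)).1.1 *ᵥ (Pi.single 0 1)) := by
  have ho : Fwd (Pi.single 0 1 : V5) := by
    refine ⟨?_, ?_⟩ <;> simp [lor]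
  have hp : lor ((rW k).1.1 *ᵥ (Pi.single 0 1)) ((rW k).1.1 *ᵥ (Pi.single 0 1)) = -1 := by
    rw [em_lor]; simp [lor]
  have hp0 : 0 < ((rW k).1.1 *ᵥ (Pi.single 0 1 : V5)) 0 := ((rW k).2.2 _ ho).2
  obtain ⟨c, hc, h⟩ := em_dom hp hp0
  refine ⟨c, hc, fun x g => ?_⟩
  have hY : Fwd (((rW g)⁻¹ : Opl).1.1 *ᵥ x.1) := ((rW g)⁻¹).2.2 _ x.fwd
  have h1 := h _ hY
  have hx : (rW g).1.1 *ᵥ (((rW g)⁻¹ : Opl).1.1 *ᵥ x.1) = x.1 := by
    rw [← mul_mulVec', mul_inv_cancel]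
    simp
  have h2 : lor x.1 ((rW (g * k)).1.1 *ᵥ (Pi.single 0 1)) =
      lor (((rW g)⁻¹ : Opl).1.1 *ᵥ x.1) ((rW k).1.1 *ᵥ (Pi.single 0 1)) := by
    rw [map_mul, mul_mulVec', ← em_lor (rW g) (((rW g)⁻¹ : Opl).1.1 *ᵥ x.1), hx]
  have h3 : lor x.1 ((rW g).1.1 *ᵥ (Pi.single 0 1)) =
      -(((rW g)⁻¹ : Opl).1.1 *ᵥ x.1) 0 := by
    have : lor (((rW g)⁻¹ : Opl).1.1 *ᵥ x.1) (Pi.single 0 1) =
      -(((rW g)⁻¹ : Opl).1.1 *ᵥ x.1) 0 := by simp [lor]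
    rw [← this, ← em_lor (rW g) (((rW g)⁻¹ : Opl).1.1 *ᵥ x.1), hx]
  rw [h2, h3, neg_neg]
  exact h1

theorem em_fin (x : Sph) (hx : x ∉ limitSet (GW.map rW)) (R : ℝ) :
    {g : W | g ∈ GW ∧ -lor x.1 ((rW g).1.1 *ᵥ (Pi.single 0 1)) ≤ R}.Finite := by
  have hd : IsDisc (GW.map rW) := by
    intro R
    refine (disc R).subset ?_
    rintro A ⟨hA, hA'⟩
    refine ⟨?_, hA'⟩
    obtain ⟨g, _, rfl⟩ := hA
    exact ⟨g, rfl⟩
  have h := orbit_far _ hd x hx R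
  refine Set.Finite.of_finite_image (f := rW) (h.subset ?_) (rW_inj.injOn)
  rintro _ ⟨g, ⟨hg, hg'⟩, rfl⟩
  exact ⟨⟨g, hg, rfl⟩, hg'⟩

theorem em_fin' (x : Sph) (hx : x ∉ limitSet (GW.map rW)) (R : ℝ) :
    {g : W | -lor x.1 ((rW g).1.1 *ᵥ (Pi.single 0 1)) ≤ R}.Finite := by
  have hk : ∀ k : W, {w : W | ∃ g ∈ GW, w = g * k ∧
      -lor x.1 ((rW w).1.1 *ᵥ (Pi.single 0 1)) ≤ R}.Finite := by
    intro k
    obtain ⟨c, hc, h⟩ := em_key k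
    refine ((em_fin x hx (R / c)).image (fun g => g * k)).subset ?_
    rintro w ⟨g, hg, rfl, hw⟩
    refine ⟨g, ⟨hg, ?_⟩, rfl⟩
    rw [le_div_iff₀ hc, mul_comm]
    exact (h x g).trans hw
  refine ((hk 1).union ((hk (cs.simple 0)).union
    ((hk (cs.simple 1)).union (hk (cs.simple 0 * cs.simple 1))))).subset ?_
  intro w hw
  obtain ⟨g, hg, k, hk', hwk⟩ := GW_reps w
  rcases hk' with rfl | rfl | rfl | rfl
  · exact Or.inl ⟨g, hg, hwk, hw⟩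
  · exact Or.inr (Or.inl ⟨g, hg, hwk, hw⟩)
  · exact Or.inr (Or.inr (Or.inl ⟨g, hg, hwk, hw⟩))
  · exact Or.inr (Or.inr (Or.inr ⟨g, hg, hwk, hw⟩))

/-- For a point `x` outside the limit set of `G` and a subgroup `H` of `W`, the function
`h ↦ -lor x (h • o)` attains its minimum on `H`. -/
theorem exists_min (x : Sph) (hx : x ∉ limitSet (GW.map rW)) (H : Subgroup W) :
    ∃ h ∈ H, ∀ h' ∈ H, -lor x.1 ((rW h).1.1 *ᵥ (Pi.single 0 1)) ≤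
      -lor x.1 ((rW h').1.1 *ᵥ (Pi.single 0 1)) := by
  have hfin : {h : W | h ∈ H ∧ -lor x.1 ((rW h).1.1 *ᵥ (Pi.single 0 1)) ≤
      -lor x.1 ((rW 1).1.1 *ᵥ (Pi.single 0 1))}.Finite :=
    (em_fin' x hx _).subset (fun h hh => hh.2)
  obtain ⟨h, hh, hmin⟩ := Set.exists_min_image _
    (fun h : W => -lor x.1 ((rW h).1.1 *ᵥ (Pi.single 0 1))) hfin ⟨1, H.one_mem, le_rfl⟩
  refine ⟨h, hh.1, fun h' hh' => ?_⟩
  by_cases hle : -lor x.1 ((rW h').1.1 *ᵥ (Pi.single 0 1)) ≤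
      -lor x.1 ((rW 1).1.1 *ᵥ (Pi.single 0 1))
  · exact hmin h' ⟨hh', hle⟩
  · exact hh.2.trans (le_of_not_ge hle)

end Trom
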