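import Pool.Agent.Helper97.Trom.Geo
import Pool.Agent.Helper97.Trom.J_exists_min

open Matrix Set Topology

namespace Trom

theorem exists_chamber_sub_adj (h : W) (x z : V5) :
    lor x ((rW h).1.1 *ᵥ z) = lor ((rW h⁻¹).1.1 *ᵥ x) z := by
  have h1 := (rW h⁻¹).2.1 x ((rW h).1.1 *ᵥ z)
  have h2 : (rW h⁻¹).1.1 *ᵥ ((rW h).1.1 *ᵥ z) = z := by
    rw [← mul_mulVec', ← map_mul, inv_mul_cancel, map_one]
    exact Matrix.one_mulVec z
  rw [h2] at h1
  exact h1.symm

/-- For a point `x` outside the limit set of `G` and a set `I` of generators, some translate of `x`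
by the group generated by `I` lies outside the open balls of `I`. -/
theorem exists_chamber_sub (x : Sph) (hx : x ∉ limitSet (GW.map rW)) (I : Set (Fin 16)) :
    ∃ w ∈ Subgroup.closure (cs.simple '' I), ∀ i ∈ I, lor (w⁻¹ • x).1 (ev i) ≤ 0 := by
  obtain ⟨h, hH, hmin⟩ := exists_min x hx (Subgroup.closure (cs.simple '' I))
  refine ⟨h, hH, fun i hi => ?_⟩
  have h1 := hmin (h * cs.simple i)
    (Subgroup.mul_mem _ hH (Subgroup.subset_closure ⟨i, hi, rfl⟩))
  rw [map_mul, mul_mulVec', rW_simple, refl_val, exists_chamber_sub_adj, exists_chamber_sub_adj,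
    rmat_mulVec, lor_sub_right, lor_smul_right] at h1
  have h2 : lor (Pi.single 0 1) (ev i) = -(ev i 0) := by
    simp [lor]
  rw [h2] at h1
  have h3 := ev_zero_pos i
  have hY : Fwd ((rW h⁻¹).1.1 *ᵥ x.1) := (rW h⁻¹).2.2 _ x.fwd
  rw [W_smul_val, nrm, lor_smul_left]
  generalize (rW h⁻¹).1.1 *ᵥ x.1 = Y at h1 hY ⊢
  have h4 : lor Y (ev i) ≤ 0 := by
    by_contra hc
    push Not at hc
    have := mul_pos h3 hc
    linarith
  exact mul_nonpos_of_nonneg_of_nonpos (inv_nonneg.2 hY.2.le) h4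

end Trom
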