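import Pool.Agent.Helper97.Trom.Geo
import Pool.Agent.Helper97.Trom.J_disc
import Pool.Agent.Helper97.Trom.J_rW_inj

open Matrix Set Topology

namespace Trom

theorem lim_o_left (v : V5) : lor (Pi.single 0 1) v = -(v 0) := by
  simp [lor]

theorem lim_o_fwd : Fwd (Pi.single 0 1 : V5) := by
  refine ⟨?_, ?_⟩
  · rw [lim_o_left]; simp
  · simp

theorem lim_mul_inv (A : Opl) (x : V5) : A.1.1 *ᵥ ((A⁻¹).1.1 *ᵥ x) = x := by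
  rw [← mul_mulVec', mul_inv_cancel]
  simp

theorem lim_adj (A : Opl) (x y : V5) : lor ((A⁻¹).1.1 *ᵥ x) y = lor x (A.1.1 *ᵥ y) := by
  rw [← A.2.1 ((A⁻¹).1.1 *ᵥ x) y, lim_mul_inv]

theorem lim_fwd_coord {q : V5} (hq : lor q q ≤ 0) (h0 : 0 < q 0) (i : Fin 5) : |q i| ≤ q 0 := by
  apply abs_le_of_sq_le_sq _ h0.le
  simp only [lor] at hq
  fin_cases i
  · exact le_refl _
  · show q 1 ^ 2 ≤ q 0 ^ 2
    nlinarith [sq_nonneg (q 2), sq_nonneg (q 3), sq_nonneg (q 4)]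
  · show q 2 ^ 2 ≤ q 0 ^ 2
    nlinarith [sq_nonneg (q 1), sq_nonneg (q 3), sq_nonneg (q 4)]
  · show q 3 ^ 2 ≤ q 0 ^ 2
    nlinarith [sq_nonneg (q 1), sq_nonneg (q 2), sq_nonneg (q 4)]
  · show q 4 ^ 2 ≤ q 0 ^ 2
    nlinarith [sq_nonneg (q 1), sq_nonneg (q 2), sq_nonneg (q 3)]

theorem lim_inv_zero (A : Opl) :
    ((A⁻¹).1.1 *ᵥ (Pi.single 0 1 : V5)) 0 = (A.1.1 *ᵥ (Pi.single 0 1 : V5)) 0 := by
  have h1 := lim_adj A (Pi.single 0 1) (Pi.single 0 1)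
  rw [lor_comm, lim_o_left, lim_o_left] at h1
  linarith

theorem lim_inv_coord (A : Opl) (j : Fin 5) :
    |(A.1.1 *ᵥ (Pi.single j 1 : V5)) 0| ≤ (A.1.1 *ᵥ (Pi.single 0 1 : V5)) 0 := by
  have hq := (A⁻¹).2.2 _ lim_o_fwd
  have h1 := lim_fwd_coord hq.1 hq.2 j
  rw [lim_inv_zero] at h1
  have h2 := lim_adj A (Pi.single 0 1) (Pi.single j 1)
  rw [lim_o_left] at h2
  have h3 : |lor ((A⁻¹).1.1 *ᵥ (Pi.single 0 1 : V5)) (Pi.single j 1)| =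
      |((A⁻¹).1.1 *ᵥ (Pi.single 0 1 : V5)) j| := by
    generalize (A⁻¹).1.1 *ᵥ (Pi.single 0 1 : V5) = q
    fin_cases j <;> simp [lor]
  rw [← abs_neg, ← h2, h3]
  exact h1

theorem lim_entries (A : Opl) (i j : Fin 5) :
    |A.1.1 i j| ≤ 1 + (A.1.1 *ᵥ (Pi.single 0 1 : V5)) 0 := by
  have h0 : A.1.1 i j = (A.1.1 *ᵥ (Pi.single j 1 : V5)) i := by
    simp
  rw [h0]
  have ht : 0 < (A.1.1 *ᵥ (Pi.single 0 1 : V5)) 0 := (A.2.2 _ lim_o_fwd).2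
  have h1 := lim_inv_coord A j
  have h2 := A.2.1 (Pi.single j 1) (Pi.single j 1)
  have h3 : lor (Pi.single j 1 : V5) (Pi.single j 1) ≤ 1 := by
    fin_cases j <;> simp [lor]
  rw [← h2] at h3
  generalize (A.1.1 *ᵥ (Pi.single j 1 : V5)) = v at *
  generalize (A.1.1 *ᵥ (Pi.single 0 1 : V5)) 0 = t at *
  have h4 : v 0 ^ 2 ≤ t ^ 2 := by
    rw [← sq_abs (v 0)]
    exact pow_le_pow_left₀ (abs_nonneg _) h1 2
  apply abs_le_of_sq_le_sq _ (by linarith)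
  simp only [lor] at h3
  fin_cases i
  · show v 0 ^ 2 ≤ _
    nlinarith [sq_nonneg (v 1), sq_nonneg (v 2), sq_nonneg (v 3), sq_nonneg (v 4)]
  · show v 1 ^ 2 ≤ _
    nlinarith [sq_nonneg (v 1), sq_nonneg (v 2), sq_nonneg (v 3), sq_nonneg (v 4)]
  · show v 2 ^ 2 ≤ _
    nlinarith [sq_nonneg (v 1), sq_nonneg (v 2), sq_nonneg (v 3), sq_nonneg (v 4)]
  · show v 3 ^ 2 ≤ _
    nlinarith [sq_nonneg (v 1), sq_nonneg (v 2), sq_nonneg (v 3), sq_nonneg (v 4)]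
  · show v 4 ^ 2 ≤ _
    nlinarith [sq_nonneg (v 1), sq_nonneg (v 2), sq_nonneg (v 3), sq_nonneg (v 4)]

/-- lower bound for the product of forward vectors -/
theorem lim_lower {q p : V5} (hq : Fwd q) (hp : lor p p = -1) (hp0 : 0 < p 0) :
    q 0 / (2 * p 0) ≤ -lor q p := by
  obtain ⟨hq1, hq0⟩ := hq
  simp only [lor] at *
  have hcs : (q 1 * p 1 + q 2 * p 2 + q 3 * p 3 + q 4 * p 4) ^ 2 ≤
      (q 1 ^ 2 + q 2 ^ 2 + q 3 ^ 2 + q 4 ^ 2) * (p 1 ^ 2 + p 2 ^ 2 + p 3 ^ 2 + p 4 ^ 2) := by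
    nlinarith [sq_nonneg (q 1 * p 2 - q 2 * p 1), sq_nonneg (q 1 * p 3 - q 3 * p 1),
      sq_nonneg (q 1 * p 4 - q 4 * p 1), sq_nonneg (q 2 * p 3 - q 3 * p 2),
      sq_nonneg (q 2 * p 4 - q 4 * p 2), sq_nonneg (q 3 * p 4 - q 4 * p 3)]
  have hq2 : q 1 ^ 2 + q 2 ^ 2 + q 3 ^ 2 + q 4 ^ 2 ≤ q 0 ^ 2 := by nlinarith
  have hp2 : p 1 ^ 2 + p 2 ^ 2 + p 3 ^ 2 + p 4 ^ 2 = p 0 ^ 2 - 1 := by nlinarith
  have hp3 : 0 ≤ p 0 ^ 2 - 1 := by rw [← hp2]; positivity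
  have hp1 : 1 ≤ p 0 := by nlinarith
  have h1 : (q 1 * p 1 + q 2 * p 2 + q 3 * p 3 + q 4 * p 4) ^ 2 ≤
      (q 0 * (p 0 - 1 / (2 * p 0))) ^ 2 := by
    refine hcs.trans ?_
    rw [hp2]
    refine (mul_le_mul_of_nonneg_right hq2 hp3).trans ?_
    rw [mul_pow]
    apply mul_le_mul_of_nonneg_left _ (sq_nonneg _)
    have h2 : (p 0 - 1 / (2 * p 0)) ^ 2 = p 0 ^ 2 - 1 + (1 / (2 * p 0)) ^ 2 := by
      field_simp
      ring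
    rw [h2]
    have := sq_nonneg (1 / (2 * p 0))
    linarith
  have h3 : 0 ≤ q 0 * (p 0 - 1 / (2 * p 0)) := by
    apply mul_nonneg hq0.le
    rw [sub_nonneg, div_le_iff₀ (by positivity)]
    nlinarith
  have h4 := le_trans (le_abs_self _) (abs_le_of_sq_le_sq h1 h3)
  have h5 : q 0 / (2 * p 0) = q 0 * p 0 - q 0 * (p 0 - 1 / (2 * p 0)) := by
    field_simp
    ring
  rw [h5]
  linarith

theorem lim_close (A : Opl) {p : V5} (hp : lor p p = -1) (hp0 : 0 < p 0) {δ : ℝ} (hδ : 0 < δ)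
    (ht : 4 * p 0 / δ < (A.1.1 *ᵥ (Pi.single 0 1 : V5)) 0) :
    dist (nrm (A.1.1 *ᵥ p)) (orb A) < δ / 2 := by
  have hpf : Fwd p := ⟨by rw [hp]; norm_num, hp0⟩
  have hX := A.2.2 _ lim_o_fwd
  have hY := A.2.2 _ hpf
  have hXY : lor (A.1.1 *ᵥ (Pi.single 0 1 : V5)) (A.1.1 *ᵥ p) = -(p 0) := by
    rw [A.2.1, lim_o_left]
  have hXX : lor (A.1.1 *ᵥ (Pi.single 0 1 : V5)) (A.1.1 *ᵥ (Pi.single 0 1 : V5)) ≤ 0 := hX.1
  have hYY : lor (A.1.1 *ᵥ p) (A.1.1 *ᵥ p) ≤ 0 := hY.1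
  have hlow : (A.1.1 *ᵥ (Pi.single 0 1 : V5)) 0 / (2 * p 0) ≤ (A.1.1 *ᵥ p) 0 := by
    have hq := (A⁻¹).2.2 _ lim_o_fwd
    have h1 := lim_lower hq hp hp0
    rw [lim_inv_zero, lim_adj, lim_o_left, neg_neg] at h1
    exact h1
  unfold orb nrm
  generalize (A.1.1 *ᵥ (Pi.single 0 1 : V5)) = X at *
  generalize (A.1.1 *ᵥ p) = Y at *
  have hX0 : 0 < X 0 := hX.2
  have hY0 : 0 < Y 0 := hY.2
  have hd : lor ((Y 0)⁻¹ • Y - (X 0)⁻¹ • X) ((Y 0)⁻¹ • Y - (X 0)⁻¹ • X) ≤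
      (2 * p 0 / X 0) ^ 2 := by
    simp only [lor_sub_left, lor_sub_right, lor_smul_left, lor_smul_right]
    rw [lor_comm Y X, hXY]
    have e1 : (Y 0)⁻¹ * ((Y 0)⁻¹ * lor Y Y) ≤ 0 := by
      have : 0 ≤ (Y 0)⁻¹ * (Y 0)⁻¹ := by positivity
      nlinarith
    have e2 : (X 0)⁻¹ * ((X 0)⁻¹ * lor X X) ≤ 0 := by
      have : 0 ≤ (X 0)⁻¹ * (X 0)⁻¹ := by positivity
      nlinarith
    have e3 : (Y 0)⁻¹ * ((X 0)⁻¹ * p 0) ≤ 2 * p 0 ^ 2 / X 0 ^ 2 := by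
      have h1 : (Y 0)⁻¹ ≤ 2 * p 0 / X 0 := by
        rw [inv_le_comm₀ hY0 (by positivity), inv_div]
        exact hlow
      calc (Y 0)⁻¹ * ((X 0)⁻¹ * p 0) ≤ (2 * p 0 / X 0) * ((X 0)⁻¹ * p 0) :=
            mul_le_mul_of_nonneg_right h1 (by positivity)
        _ = 2 * p 0 ^ 2 / X 0 ^ 2 := by field_simp
    have e4 : (2 * p 0 / X 0) ^ 2 = 2 * (2 * p 0 ^ 2 / X 0 ^ 2) := by
      field_simp
    rw [e4]
    have e5 : (Y 0)⁻¹ * ((Y 0)⁻¹ * lor Y Y - (X 0)⁻¹ * -p 0) -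
        (X 0)⁻¹ * ((Y 0)⁻¹ * -p 0 - (X 0)⁻¹ * lor X X) =
        (Y 0)⁻¹ * ((Y 0)⁻¹ * lor Y Y) + 2 * ((Y 0)⁻¹ * ((X 0)⁻¹ * p 0)) +
          (X 0)⁻¹ * ((X 0)⁻¹ * lor X X) := by ring
    rw [e5]
    linarith
  have hsmall : 2 * p 0 / X 0 < δ / 2 := by
    rw [div_lt_iff₀ hδ] at ht
    rw [div_lt_iff₀ hX0]
    linarith
  rw [dist_pi_lt_iff (by positivity)]
  intro i
  refine lt_of_le_of_lt ?_ hsmall
  rw [Real.dist_eq]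
  have hz : ((Y 0)⁻¹ • Y - (X 0)⁻¹ • X) 0 = 0 := by
    simp [hX0.ne', hY0.ne']
  have hi : ((Y 0)⁻¹ • Y) i - ((X 0)⁻¹ • X) i = ((Y 0)⁻¹ • Y - (X 0)⁻¹ • X) i := rfl
  rw [hi]
  generalize ((Y 0)⁻¹ • Y - (X 0)⁻¹ • X) = v at *
  apply abs_le_of_sq_le_sq _ (by positivity)
  refine le_trans ?_ hd
  simp only [lor, hz]
  fin_cases i
  · show v 0 ^ 2 ≤ _
    rw [hz]
    nlinarith [sq_nonneg (v 1), sq_nonneg (v 2), sq_nonneg (v 3), sq_nonneg (v 4)]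
  · show v 1 ^ 2 ≤ _
    nlinarith [sq_nonneg (v 1), sq_nonneg (v 2), sq_nonneg (v 3), sq_nonneg (v 4)]
  · show v 2 ^ 2 ≤ _
    nlinarith [sq_nonneg (v 1), sq_nonneg (v 2), sq_nonneg (v 3), sq_nonneg (v 4)]
  · show v 3 ^ 2 ≤ _
    nlinarith [sq_nonneg (v 1), sq_nonneg (v 2), sq_nonneg (v 3), sq_nonneg (v 4)]
  · show v 4 ^ 2 ≤ _
    nlinarith [sq_nonneg (v 1), sq_nonneg (v 2), sq_nonneg (v 3), sq_nonneg (v 4)]

theorem lim_eps_conj (f : W →* DihedralGroup 0) (w g : W) (h : epsD (f g) = 1) :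
    epsD (f (w * g * w⁻¹)) = 1 := by
  rw [map_mul, map_mul, epsD_mul, epsD_mul, h, mul_one, ← epsD_mul, ← map_mul, mul_inv_cancel,
    map_one]
  rfl

theorem lim_GW_conj (w g : W) (h : g ∈ GW) : w * g * w⁻¹ ∈ GW :=
  ⟨lim_eps_conj ((MonoidHom.fst _ _).comp rho) w g h.1,
    lim_eps_conj ((MonoidHom.snd _ _).comp rho) w g h.2⟩

/-- The limit set of `G` is invariant under `W`. -/
theorem limit_inv (x : Sph) (w : W) (hx : x ∈ limitSet (GW.map rW)) :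
    w • x ∈ limitSet (GW.map rW) := by
  set B : Opl := rW w with hB
  set p : V5 := (B⁻¹).1.1 *ᵥ (Pi.single 0 1 : V5) with hp
  have hpp : lor p p = -1 := by
    rw [hp, (B⁻¹).2.1, lim_o_left]; simp
  have hp0 : 0 < p 0 := ((B⁻¹).2.2 _ lim_o_fwd).2
  -- Claim 1
  have claim1 : ∀ δ > 0, {A : Opl | A ∈ GW.map rW ∧ dist (nrm (A.1.1 *ᵥ p)) x.1 < δ}.Infinite := by
    intro δ hδ
    have h1 := hx (δ / 2) (by positivity)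
    have h2 : {A : Opl | A ∈ GW.map rW ∧
        (A.1.1 *ᵥ (Pi.single 0 1 : V5)) 0 ≤ 4 * p 0 / δ}.Finite := by
      apply (disc (1 + 4 * p 0 / δ)).subset
      rintro A ⟨hA, hA2⟩
      refine ⟨?_, fun i j => (lim_entries A i j).trans (by linarith)⟩
      obtain ⟨g, -, hg⟩ := hA
      exact ⟨g, hg⟩
    refine (h1.sdiff h2).mono ?_
    rintro A ⟨⟨hA, hA1⟩, hA2⟩
    refine ⟨hA, ?_⟩
    have h3 : 4 * p 0 / δ < (A.1.1 *ᵥ (Pi.single 0 1 : V5)) 0 := by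
      by_contra h
      exact hA2 ⟨hA, not_lt.1 h⟩
    have h4 := lim_close A hpp hp0 hδ h3
    calc dist (nrm (A.1.1 *ᵥ p)) x.1 ≤ dist (nrm (A.1.1 *ᵥ p)) (orb A) + dist (orb A) x.1 :=
          dist_triangle _ _ _
      _ < δ := by linarith
  intro ε hε
  have hBx : 0 < (B.1.1 *ᵥ x.1) 0 := (B.2.2 _ x.fwd).2
  have hcont : ContinuousAt (fun v : V5 => nrm (B.1.1 *ᵥ v)) x.1 := by
    unfold nrm
    have h1 : Continuous (fun v : V5 => B.1.1 *ᵥ v) :=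
      Continuous.matrix_mulVec continuous_const continuous_id
    have h2 : Continuous (fun v : V5 => (B.1.1 *ᵥ v) 0) := (continuous_apply 0).comp h1
    exact (h2.continuousAt.inv₀ hBx.ne').smul h1.continuousAt
  rw [Metric.continuousAt_iff] at hcont
  obtain ⟨δ, hδ, hc⟩ := hcont ε hε
  have h1 := claim1 δ hδ
  have hinj : Set.InjOn (fun A : Opl => B * A * B⁻¹)
      {A : Opl | A ∈ GW.map rW ∧ dist (nrm (A.1.1 *ᵥ p)) x.1 < δ} := by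
    intro A _ A' _ h
    have h2 : B * A * B⁻¹ = B * A' * B⁻¹ := h
    exact mul_left_cancel (mul_right_cancel h2)
  refine (h1.image hinj).mono ?_
  rintro _ ⟨A, ⟨⟨g, hg, hgA⟩, hA2⟩, rfl⟩
  refine ⟨⟨w * g * w⁻¹, lim_GW_conj w g hg, ?_⟩, ?_⟩
  · show rW (w * g * w⁻¹) = B * A * B⁻¹
    rw [map_mul, map_mul, map_inv, hgA]
  · show dist (orb (B * A * B⁻¹)) (w • x).1 < ε
    have e1 : orb (B * A * B⁻¹) = nrm (B.1.1 *ᵥ (nrm (A.1.1 *ᵥ p))) := by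
      unfold orb
      rw [mul_mulVec', mul_mulVec', ← hp]
      have h3 : nrm (A.1.1 *ᵥ p) = ((A.1.1 *ᵥ p) 0)⁻¹ • (A.1.1 *ᵥ p) := rfl
      have h4 : 0 < (A.1.1 *ᵥ p) 0 := (A.2.2 _ ⟨by rw [hpp]; norm_num, hp0⟩).2
      rw [h3, Matrix.mulVec_smul, nrm_smul (inv_ne_zero h4.ne')]
    rw [e1, W_smul_val]
    exact hc hA2

end Trom
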