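import Pool.Agent.Helper97.Trom.Geo
import Pool.Agent.Helper97.Trom.J_local_chamber
import Pool.Agent.Helper97.Trom.J_rW_inj
import Pool.Agent.Helper97.Trom.J_chamber_meet

open Matrix Set Topology

namespace Trom

theorem fwd_base : Fwd (Pi.single 0 1 : V5) := by
  refine ⟨?_, by simp⟩
  simp [lor]

theorem col_pos (A : Opl) : 0 < (A.1.1 *ᵥ (Pi.single 0 1 : V5)) 0 :=
  (A.2.2 _ fwd_base).2

theorem orb_fwd (A : Opl) : Fwd (orb A) :=
  (A.2.2 _ fwd_base).smul (inv_pos.2 (col_pos A))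

theorem orb_zero (A : Opl) : orb A 0 = 1 := by
  unfold orb nrm
  rw [Pi.smul_apply, smul_eq_mul, inv_mul_cancel₀ (col_pos A).ne']

/-- finitely many candidates -/
theorem cand_finite : {v : W | v = 1 ∨ (∃ i, v = cs.simple i) ∨
    ∃ i j, v = cs.simple i * cs.simple j}.Finite := by
  have h1 : ({1} : Set W).Finite := Set.finite_singleton _
  have h2 : (Set.range (fun i : Fin 16 => cs.simple i)).Finite := Set.finite_range _
  have h3 : (Set.range (fun p : Fin 16 × Fin 16 => cs.simple p.1 * cs.simple p.2)).Finite :=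
    Set.finite_range _
  refine ((h1.union h2).union h3).subset ?_
  rintro v (h | ⟨i, h⟩ | ⟨i, j, h⟩)
  · exact Or.inl (Or.inl h)
  · exact Or.inl (Or.inr ⟨i, h.symm⟩)
  · exact Or.inr ⟨(i, j), h.symm⟩

theorem nrm_continuousAt (M : Matrix (Fin 5) (Fin 5) ℝ) (x : V5) (hx : (M *ᵥ x) 0 ≠ 0) :
    ContinuousAt (fun X : V5 => nrm (M *ᵥ X)) x := by
  unfold nrm
  have h1 : Continuous (fun X : V5 => M *ᵥ X) := by
    exact Continuous.matrix_mulVec continuous_const continuous_id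
  have h2 : ContinuousAt (fun X : V5 => ((M *ᵥ X) 0)⁻¹) x :=
    ((continuous_apply 0).comp h1).continuousAt.inv₀ hx
  exact h2.smul h1.continuousAt

/-- Points in a translate of the chamber (not a tangency point) are not limit points. -/
theorem not_limit (x : Sph) (w : W) (h : Pa (w⁻¹ • x)) : x ∉ limitSet rW.range := by
  intro hx
  obtain ⟨ε, hε, hloc⟩ := local_chamber (w⁻¹ • x) h
  have hpos : 0 < ((rW w⁻¹).1.1 *ᵥ x.1) 0 := ((rW w⁻¹).2.2 _ x.fwd).2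
  have hc := nrm_continuousAt (rW w⁻¹).1.1 x.1 hpos.ne'
  obtain ⟨δ, hδ, hd⟩ := Metric.continuousAt_iff.1 hc ε hε
  refine hx δ hδ ?_
  refine (cand_finite.image (fun v : W => rW (w * v))).subset ?_
  rintro A ⟨⟨g, rfl⟩, hA⟩
  have h1 := hd hA
  have hval : nrm ((rW w⁻¹).1.1 *ᵥ orb (rW g)) = orb (rW (w⁻¹ * g)) := by
    unfold orb
    rw [map_mul, mul_mulVec']
    have h2 : nrm ((rW g).1.1 *ᵥ (Pi.single 0 1 : V5)) =
      (((rW g).1.1 *ᵥ (Pi.single 0 1 : V5)) 0)⁻¹ • ((rW g).1.1 *ᵥ (Pi.single 0 1 : V5)) := rfl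
    rw [h2, Matrix.mulVec_smul, nrm_smul]
    exact inv_ne_zero (col_pos _).ne'
  have h1' : dist (orb (rW (w⁻¹ * g))) (w⁻¹ • x : Sph).1 < ε := by
    rw [← hval, W_smul_val]
    exact h1
  have h3 := (hloc _ (orb_fwd _) (orb_zero _) h1').2 (w⁻¹ * g) ?_
  · have h4 := chamber_meet (w⁻¹ • x) h (w⁻¹ * g) (by rw [h3.1]; exact h.1)
    refine ⟨w⁻¹ * g, ?_, by simp⟩
    rcases h4.2 with h5 | ⟨i, _, h5⟩ | ⟨i, j, _, _, _, h5⟩
    · exact Or.inl h5
    · exact Or.inr (Or.inl ⟨i, h5⟩)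
    · exact Or.inr (Or.inr ⟨i, j, h5⟩)
  · intro i
    have h6 : (rW (w⁻¹ * g)⁻¹).1.1 *ᵥ orb (rW (w⁻¹ * g)) =
        (((rW (w⁻¹ * g)).1.1 *ᵥ (Pi.single 0 1 : V5)) 0)⁻¹ • (Pi.single 0 1 : V5) := by
      have h7 : orb (rW (w⁻¹ * g)) = (((rW (w⁻¹ * g)).1.1 *ᵥ (Pi.single 0 1 : V5)) 0)⁻¹ •
          ((rW (w⁻¹ * g)).1.1 *ᵥ (Pi.single 0 1 : V5)) := rfl
      have h7' : ((1 : Opl)).1.1 *ᵥ (Pi.single 0 1 : V5) = Pi.single 0 1 := by
        change (1 : Matrix (Fin 5) (Fin 5) ℝ) *ᵥ (Pi.single 0 1 : V5) = Pi.single 0 1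
        exact Matrix.one_mulVec _
      rw [h7, Matrix.mulVec_smul, ← mul_mulVec', ← map_mul, inv_mul_cancel, map_one, h7']
    rw [h6, lor_smul_left]
    have h8 : lor (Pi.single 0 1 : V5) (ev i) = - ev i 0 := by
      simp [lor]
    rw [h8]
    have h9 := ev_zero_pos i
    have h10 := inv_pos.2 (col_pos (rW (w⁻¹ * g)))
    nlinarith [mul_pos h10 h9]

end Trom
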