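import Pool.Agent.Helper97.Trom.Geo
import Pool.Agent.Helper97.Trom.J_exists_chamber_sub
import Pool.Agent.Helper97.Trom.J_cusp_limit
import Pool.Agent.Helper97.Trom.J_limit_inv
import Pool.Agent.Helper97.Trom.J_not_limit
import Pool.Agent.Helper97.Trom.J_limitSet_mono

open Matrix Set Topology

namespace Trom

/-- The domain of discontinuity of `G` is the union of the translates of the chamber. -/
theorem domain_eq : (limitSet (GW.map rW))ᶜ = {x | ∃ w : W, Pa (w⁻¹ • x)} := by
  have hle : GW.map rW ≤ rW.range := by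
    rintro _ ⟨a, _, rfl⟩
    exact ⟨a, rfl⟩
  ext x
  simp only [Set.mem_compl_iff, Set.mem_setOf_eq]
  constructor
  · intro hx
    obtain ⟨w, _, hw⟩ := exists_chamber_sub x hx Set.univ
    refine ⟨w, fun i => hw i (Set.mem_univ i), ?_⟩
    rintro i j hij ⟨hi, hj⟩
    apply hx
    have h1 := cusp_limit (w⁻¹ • x) i j hij hi hj
    have h2 := limit_inv (w⁻¹ • x) w h1
    rwa [smul_inv_smul] at h2
  · rintro ⟨w, hw⟩ hx
    exact not_limit x w hw (limitSet_mono hle hx)

end Trom
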