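import Pool.Agent.Helper97.Trom.Top

open Matrix Set Topology

namespace Trom

theorem P1_nhds (x : Sph) (hx : x ∈ P1) : ∀ᶠ y in 𝓝 x, Pa y → y ∈ P1 := by
  have hc : ∀ i : Fin 5, Continuous fun y : Sph => y.1 i := fun i =>
    (continuous_apply i).comp continuous_subtype_val
  have hd : Continuous fun y : Sph => dl y.1 := (hc 0).sub (hc 4)
  have hd2 : Continuous fun y : Sph => 2 * dl y.1 := continuous_const.mul hd
  have h0 : ∀ i : Fin 5, IsOpen {y : Sph | 0 < y.1 i} := fun i =>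
    isOpen_lt continuous_const (hc i)
  have h1 : ∀ i : Fin 5, IsOpen {y : Sph | y.1 i < dl y.1} := fun i => isOpen_lt (hc i) hd
  have h2 : ∀ i : Fin 5, IsOpen {y : Sph | y.1 i < 2 * dl y.1} := fun i => isOpen_lt (hc i) hd2
  have hopen : IsOpen {y : Sph | InLo y.1} := by
    have he : {y : Sph | InLo y.1} =
        ({y : Sph | 0 < y.1 1} ∩ ({y : Sph | y.1 1 < 2 * dl y.1} ∩ ({y : Sph | 0 < y.1 2} ∩
          ({y : Sph | y.1 2 < dl y.1} ∩ ({y : Sph | 0 < y.1 3} ∩ {y : Sph | y.1 3 < dl y.1}))))) ∪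
        ({y : Sph | 0 < y.1 1} ∩ ({y : Sph | y.1 1 < dl y.1} ∩ ({y : Sph | 0 < y.1 2} ∩
          ({y : Sph | y.1 2 < 2 * dl y.1} ∩ ({y : Sph | 0 < y.1 3} ∩ {y : Sph | y.1 3 < dl y.1}))))) := rfl
    rw [he]
    exact ((h0 1).inter ((h2 1).inter ((h0 2).inter ((h1 2).inter ((h0 3).inter (h1 3)))))).union
      ((h0 1).inter ((h1 1).inter ((h0 2).inter ((h2 2).inter ((h0 3).inter (h1 3))))))
  filter_upwards [hopen.mem_nhds hx.2] with y hy hPa
  exact ⟨hPa, hy⟩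

end Trom
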