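import Pool.Agent.Helper97.Trom.Top
import Pool.Agent.Helper97.Trom.J_local_chamber
import Pool.Agent.Helper97.Trom.J_chamber_meet
import Pool.Agent.Helper97.Trom.J_P1_nhds

open Matrix Set Topology

namespace Trom

theorem near_Om1 (x : Sph) (hx : x ∈ Om1) : ∀ᶠ y in 𝓝 x, y ∈ Om1 := by
  obtain ⟨w0, hw0⟩ := hx
  obtain ⟨x1, hx1⟩ : ∃ x1 : Sph, x1 = w0⁻¹ • x := ⟨_, rfl⟩
  rw [← hx1] at hw0
  have hPa : Pa x1 := hw0.1
  obtain ⟨ε, hε, hloc⟩ := local_chamber x1 hPa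
  have hSfin : ({u : W | u⁻¹ • x1 = x1}).Finite := by
    have hfin : (({1} ∪ Set.range (fun i : Fin 16 => cs.simple i)) ∪
        Set.range (fun p : Fin 16 × Fin 16 => cs.simple p.1 * cs.simple p.2) : Set W).Finite :=
      ((Set.finite_singleton _).union (Set.finite_range _)).union (Set.finite_range _)
    refine hfin.subset ?_
    intro u hu
    have hu' : u⁻¹ • x1 = x1 := hu
    rcases (chamber_meet x1 hPa u (by rw [hu']; exact hPa.1)).2 with h | ⟨i, -, h⟩ | ⟨i, j, -, -, -, h⟩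
    · exact Or.inl (Or.inl h)
    · exact Or.inl (Or.inr ⟨i, h.symm⟩)
    · exact Or.inr ⟨(i, j), h.symm⟩
  have hcont0 : Filter.Tendsto (fun y : Sph => w0⁻¹ • y) (𝓝 x) (𝓝 x1) := by
    rw [hx1]
    exact (continuous_const_smul w0⁻¹).tendsto x
  have h1 : ∀ᶠ y in 𝓝 x, ∀ u ∈ {u : W | u⁻¹ • x1 = x1},
      Pa (u⁻¹ • (w0⁻¹ • y)) → u⁻¹ • (w0⁻¹ • y) ∈ P1 := by
    rw [Filter.eventually_all_finite hSfin]
    intro u hu
    have hu' : u⁻¹ • x1 = x1 := hu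
    have h2 : Filter.Tendsto (fun y : Sph => u⁻¹ • (w0⁻¹ • y)) (𝓝 x) (𝓝 x1) := by
      have h3 := ((continuous_const_smul (u⁻¹ : W)).tendsto x1).comp hcont0
      rw [hu'] at h3
      exact h3
    exact h2.eventually (P1_nhds x1 hw0)
  have h2 : ∀ᶠ y in 𝓝 x, dist (w0⁻¹ • y).1 x1.1 < ε :=
    hcont0.eventually (Metric.ball_mem_nhds x1 hε)
  filter_upwards [h1, h2] with y hy1 hy2
  obtain ⟨⟨u, hu, huX⟩, hall⟩ := hloc (w0⁻¹ • y).1 (w0⁻¹ • y).fwd (w0⁻¹ • y).2.1 hy2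
  have hzero := (hall u huX).2
  have hfw : Fwd ((rW u⁻¹).1.1 *ᵥ (w0⁻¹ • y).1) := (rW u⁻¹).2.2 _ (w0⁻¹ • y).fwd
  have hcpos : 0 < (((rW u⁻¹).1.1 *ᵥ (w0⁻¹ • y).1) 0)⁻¹ := inv_pos.2 hfw.2
  have hval : ∀ i, lor (u⁻¹ • (w0⁻¹ • y)).1 (ev i) =
      (((rW u⁻¹).1.1 *ᵥ (w0⁻¹ • y).1) 0)⁻¹ * lor ((rW u⁻¹).1.1 *ᵥ (w0⁻¹ • y).1) (ev i) := by
    intro i
    rw [W_smul_val, nrm, lor_smul_left]
  have hz0 : ∀ i, lor (u⁻¹ • (w0⁻¹ • y)).1 (ev i) = 0 → lor x1.1 (ev i) = 0 := by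
    intro i hi
    rw [hval i] at hi
    rcases mul_eq_zero.1 hi with h | h
    · exact absurd h hcpos.ne'
    · exact hzero i h
  have hPz : Pa (u⁻¹ • (w0⁻¹ • y)) := by
    refine ⟨fun i => ?_, fun i j hij hh => ?_⟩
    · rw [hval i]
      exact mul_nonpos_of_nonneg_of_nonpos hcpos.le (huX i)
    · exact hPa.2 i j hij ⟨hz0 i hh.1, hz0 j hh.2⟩
  refine ⟨w0 * u, ?_⟩
  rw [_root_.mul_inv_rev, mul_smul]
  exact hy1 u hu hPz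

end Trom
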