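import Pool.Agent.Helper97.Trom.Top
import Pool.Agent.Helper97.Trom.J_domain_eq
import Pool.Agent.Helper97.Trom.J_Om_union
import Pool.Agent.Helper97.Trom.J_near_Om
import Pool.Agent.Helper97.Trom.J_near_Om1
import Pool.Agent.Helper97.Trom.J_Om_disj
import Pool.Agent.Helper97.Trom.J_Om_pathconn
import Pool.Agent.Helper97.Trom.J_inf_mem

open Matrix Set Topology

namespace Trom

theorem Om_comp : Om = connectedComponentIn (limitSet (GW.map rW))ᶜ inf := by
  have hU : (limitSet (GW.map rW))ᶜ = Om ∪ Om1 := by rw [domain_eq, Om_union]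
  have ho : IsOpen Om := by
    rw [isOpen_iff_mem_nhds]
    intro x hx
    filter_upwards [near_Om x hx] with y hy
    exact hy.1
  have ho1 : IsOpen Om1 := by
    rw [isOpen_iff_mem_nhds]
    intro x hx
    exact near_Om1 x hx
  have hinf : inf ∈ Om := P0_sub_Om ⟨0, inf_mem 0 (by decide)⟩
  have hpc : IsPreconnected Om := Om_pathconn.isConnected.isPreconnected
  apply Set.Subset.antisymm
  · exact hpc.subset_connectedComponentIn hinf (by rw [hU]; exact Set.subset_union_left)
  · refine IsPreconnected.subset_left_of_subset_union ho ho1 Om_disj ?_ ?_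
      isPreconnected_connectedComponentIn
    · rw [← hU]; exact connectedComponentIn_subset _ _
    · exact ⟨inf, mem_connectedComponentIn (by rw [hU]; exact Or.inl hinf), hinf⟩

end Trom
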