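import Pool.Agent.Helper97.Trom.Top
import Pool.Agent.Helper97.Trom.J_P0_nhds
import Pool.Agent.Helper97.Trom.J_P1_nhds
import Pool.Agent.Helper97.Trom.J_lin_cover
import Pool.Agent.Helper97.Trom.J_P0_not_InLo

open Matrix Set Topology

namespace Trom

/-- a path in `Pa` starting in `P0` stays in `P0` -/
theorem Pa_path {x y : Sph} (γ : Path x y) (hγ : ∀ t, Pa (γ t)) (hx : x ∈ P0) :
    ∀ t, γ t ∈ P0 := by
  have h1 : IsOpen {t | γ t ∈ P0} := by
    rw [isOpen_iff_mem_nhds]
    intro t ht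
    have h := (γ.continuous.tendsto t).eventually (P0_nhds _ ht)
    filter_upwards [h] with s hs
    exact hs (hγ s)
  have h2 : IsOpen {t | γ t ∈ P0}ᶜ := by
    rw [isOpen_iff_mem_nhds]
    intro t ht
    have hl : InLo (γ t).1 := by
      by_contra hc
      exact ht (lin_cover _ (hγ t) hc)
    have h := (γ.continuous.tendsto t).eventually (P1_nhds _ ⟨hγ t, hl⟩)
    filter_upwards [h] with s hs hs'
    exact P0_not_InLo _ hs' (hs (hγ s)).2
  have h3 : IsClopen {t | γ t ∈ P0} := ⟨isOpen_compl_iff.1 h2, h1⟩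
  have h4 : {t | γ t ∈ P0} = Set.univ := h3.eq_univ ⟨0, by
    show γ 0 ∈ P0
    rw [γ.source]
    exact hx⟩
  intro t
  have : t ∈ {t | γ t ∈ P0} := by rw [h4]; trivial
  exact this


end Trom
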