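import Pool.Agent.Helper97.Trom.Top
import Pool.Agent.Helper97.Trom.J_exists_chamber_sub
import Pool.Agent.Helper97.Trom.J_cusp_limit
import Pool.Agent.Helper97.Trom.J_limit_inv

open Matrix Set Topology

namespace Trom

/-- the two invariant conditions -/
def CInv (x : Sph) : Prop := lor x.1 (ev 9) = 0 ∧ x.1 3 = dl x.1

theorem CInv_refl (i : Fin 16) (h9 : d2 i 9 = 1) (h2 : ctr i 2 = 1) (x : Sph) (hx : CInv x) :
    CInv (cs.simple i • x) := by
  have hv : (cs.simple i • x).1 =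
      ((rmat i *ᵥ x.1) 0)⁻¹ • (x.1 - (4 * lor x.1 (ev i)) • ev i) := by
    rw [W_smul_val, rW_simple, refl_val, nrm, rmat_mulVec]
  constructor
  · rw [hv, lor_smul_left, lor_sub_left, lor_smul_left, lor_ev, hx.1, h9]
    simp
  · rw [hv]
    have h := hx.2
    simp only [dl] at h
    simp only [dl, Pi.smul_apply, Pi.sub_apply, smul_eq_mul]
    have e : ev i 3 = ev i 0 - ev i 4 := by
      simp [ev, h2]
      ring
    rw [e, h]
    ring

theorem CInv_refl_iff (i : Fin 16) (h9 : d2 i 9 = 1) (h2 : ctr i 2 = 1) (x : Sph) :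
    CInv (cs.simple i • x) ↔ CInv x := by
  refine ⟨fun h => ?_, CInv_refl i h9 h2 x⟩
  have := CInv_refl i h9 h2 _ h
  rwa [smul_smul, cs.simple_mul_simple_self, one_smul] at this

theorem CInv_closure (I : Set (Fin 16)) (hI : ∀ i ∈ I, d2 i 9 = 1 ∧ ctr i 2 = 1) (w : W)
    (hw : w ∈ Subgroup.closure (cs.simple '' I)) (x : Sph) : CInv (w • x) ↔ CInv x := by
  induction hw using Subgroup.closure_induction generalizing x with
  | mem w hw =>
    obtain ⟨i, hi, rfl⟩ := hw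
    exact CInv_refl_iff i (hI i hi).1 (hI i hi).2 x
  | one => rw [one_smul]
  | mul a b _ _ iha ihb => rw [mul_smul, iha, ihb]
  | inv a _ iha => rw [← iha, smul_inv_smul]

/-- The circle in which the sphere around `(1,1,1)` meets the plane `y₃ = 1` consists of limit
points. -/
theorem circle_limit (x : Sph) (h9 : lor x.1 (ev 9) = 0) (h3 : x.1 3 = dl x.1) :
    x ∈ limitSet (GW.map rW) := by
  by_contra hx
  obtain ⟨w, hw, hwI⟩ := exists_chamber_sub x hx {3, 7, 11, 15}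
  have hIn : ∀ i ∈ ({3, 7, 11, 15} : Set (Fin 16)), d2 i 9 = 1 ∧ ctr i 2 = 1 := by
    intro i hi
    simp only [Set.mem_insert_iff, Set.mem_singleton_iff] at hi
    rcases hi with rfl | rfl | rfl | rfl <;> decide
  have hy : CInv (w⁻¹ • x) :=
    (CInv_closure _ hIn w⁻¹ (Subgroup.inv_mem _ hw) x).mpr ⟨h9, h3⟩
  apply hx
  have key : w⁻¹ • x ∈ limitSet (GW.map rW) := by
    set y := w⁻¹ • x with hydef
    have hyinf : y ≠ inf := by
      intro h
      have := hy.1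
      rw [h] at this
      simp [lor, inf, ev, ctr] at this
      norm_num at this
    have hd : 0 < dl y.1 := lt_of_le_of_ne (dl_nonneg y) fun h' => hyinf (eq_inf_of_dl h'.symm)
    set p : Fin 3 → ℝ := ![y.1 1 / dl y.1, y.1 2 / dl y.1, y.1 3 / dl y.1] with hp
    have hyst : y = st p := st_surj y hyinf
    have hp2 : p 2 = 1 := by
      rw [hp]
      simp
      rw [hy.2, div_self hd.ne']
    have hev : ∀ i, lor y.1 (ev i) = dl y.1 *
        (1/4 - ((p 0 - ctr i 0) ^ 2 + (p 1 - ctr i 1) ^ 2 + (p 2 - ctr i 2) ^ 2) / 2) := by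
      intro i
      have := st_ev p i
      rw [← hyst] at this
      exact this
    have e9 := hy.1
    rw [hev] at e9
    have e9' : 1/4 - ((p 0 - ctr 9 0) ^ 2 + (p 1 - ctr 9 1) ^ 2 + (p 2 - ctr 9 2) ^ 2) / 2 = 0 :=
      (mul_eq_zero.mp e9).resolve_left hd.ne'
    have hle : ∀ i ∈ ({3, 7, 11, 15} : Set (Fin 16)),
        1/4 - ((p 0 - ctr i 0) ^ 2 + (p 1 - ctr i 1) ^ 2 + (p 2 - ctr i 2) ^ 2) / 2 ≤ 0 := by
      intro i hi
      have := hwI i hi
      rw [hev] at this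
      by_contra hc
      push Not at hc
      have := mul_pos hd hc
      linarith
    have l3 := hle 3 (by simp)
    have l7 := hle 7 (by simp)
    have l11 := hle 11 (by simp)
    have l15 := hle 15 (by simp)
    have c9 : (ctr 9 0 : ℝ) = 1 ∧ (ctr 9 1 : ℝ) = 1 ∧ (ctr 9 2 : ℝ) = 1 := by
      rw [(by decide : ctr 9 0 = 1), (by decide : ctr 9 1 = 1), (by decide : ctr 9 2 = 1)]
      norm_num
    have c3 : (ctr 3 0 : ℝ) = 0 ∧ (ctr 3 1 : ℝ) = 1 ∧ (ctr 3 2 : ℝ) = 1 := by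
      rw [(by decide : ctr 3 0 = 0), (by decide : ctr 3 1 = 1), (by decide : ctr 3 2 = 1)]
      norm_num
    have c7 : (ctr 7 0 : ℝ) = 1 ∧ (ctr 7 1 : ℝ) = 0 ∧ (ctr 7 2 : ℝ) = 1 := by
      rw [(by decide : ctr 7 0 = 1), (by decide : ctr 7 1 = 0), (by decide : ctr 7 2 = 1)]
      norm_num
    have c11 : (ctr 11 0 : ℝ) = 1 ∧ (ctr 11 1 : ℝ) = 2 ∧ (ctr 11 2 : ℝ) = 1 := by
      rw [(by decide : ctr 11 0 = 1), (by decide : ctr 11 1 = 2), (by decide : ctr 11 2 = 1)]
      norm_num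
    have c15 : (ctr 15 0 : ℝ) = 2 ∧ (ctr 15 1 : ℝ) = 1 ∧ (ctr 15 2 : ℝ) = 1 := by
      rw [(by decide : ctr 15 0 = 2), (by decide : ctr 15 1 = 1), (by decide : ctr 15 2 = 1)]
      norm_num
    rw [c9.1, c9.2.1, c9.2.2, hp2] at e9'
    rw [c3.1, c3.2.1, c3.2.2, hp2] at l3
    rw [c7.1, c7.2.1, c7.2.2, hp2] at l7
    rw [c11.1, c11.2.1, c11.2.2, hp2] at l11
    rw [c15.1, c15.2.1, c15.2.2, hp2] at l15
    obtain ⟨u, hu⟩ : ∃ u, p 0 = 1 + u := ⟨p 0 - 1, by ring⟩
    obtain ⟨v, hv⟩ : ∃ v, p 1 = 1 + v := ⟨p 1 - 1, by ring⟩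
    rw [hu, hv] at e9' l3 l7 l11 l15
    have huv : u ^ 2 + v ^ 2 = 1 / 2 := by linarith
    have u1 : -(1/2) ≤ u := by linarith
    have u2 : u ≤ 1/2 := by linarith
    have v1 : -(1/2) ≤ v := by linarith
    have v2 : v ≤ 1/2 := by linarith
    have hu3 : u ^ 2 ≤ 1/4 := by
      nlinarith [mul_nonneg (by linarith : 0 ≤ u + 1/2) (by linarith : 0 ≤ 1/2 - u)]
    have hv3 : v ^ 2 ≤ 1/4 := by
      nlinarith [mul_nonneg (by linarith : 0 ≤ v + 1/2) (by linarith : 0 ≤ 1/2 - v)]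
    have hu2 : u ^ 2 = 1/4 := by linarith
    have hv2 : v ^ 2 = 1/4 := by linarith
    have hu' : u = 1/2 ∨ u = -(1/2) := by
      have : (u - 1/2) * (u + 1/2) = 0 := by linarith
      rcases mul_eq_zero.mp this with h | h
      · left; linarith
      · right; linarith
    have hv' : v = 1/2 ∨ v = -(1/2) := by
      have : (v - 1/2) * (v + 1/2) = 0 := by linarith
      rcases mul_eq_zero.mp this with h | h
      · left; linarith
      · right; linarith
    have A : lor y.1 (ev 3) = 0 ∨ lor y.1 (ev 15) = 0 := by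
      rcases hu' with h | h
      · right
        rw [hev, c15.1, c15.2.1, c15.2.2, hp2, hu, hv, h]
        have : (1/4 - ((1 + 1/2 - 2) ^ 2 + (1 + v - 1) ^ 2 + ((1:ℝ) - 1) ^ 2) / 2) = 0 := by linarith
        rw [this, mul_zero]
      · left
        rw [hev, c3.1, c3.2.1, c3.2.2, hp2, hu, hv, h]
        have : (1/4 - ((1 + -(1/2) - 0) ^ 2 + (1 + v - 1) ^ 2 + ((1:ℝ) - 1) ^ 2) / 2) = 0 := by linarith
        rw [this, mul_zero]
    have B : lor y.1 (ev 7) = 0 ∨ lor y.1 (ev 11) = 0 := by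
      rcases hv' with h | h
      · right
        rw [hev, c11.1, c11.2.1, c11.2.2, hp2, hu, hv, h]
        have : (1/4 - ((1 + u - 1) ^ 2 + (1 + 1/2 - 2) ^ 2 + ((1:ℝ) - 1) ^ 2) / 2) = 0 := by linarith
        rw [this, mul_zero]
      · left
        rw [hev, c7.1, c7.2.1, c7.2.2, hp2, hu, hv, h]
        have : (1/4 - ((1 + u - 1) ^ 2 + (1 + -(1/2) - 0) ^ 2 + ((1:ℝ) - 1) ^ 2) / 2) = 0 := by linarith
        rw [this, mul_zero]
    rcases A with hA | hA <;> rcases B with hB | hB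
    · exact cusp_limit y 3 7 (by decide) hA hB
    · exact cusp_limit y 3 11 (by decide) hA hB
    · exact cusp_limit y 15 7 (by decide) hA hB
    · exact cusp_limit y 15 11 (by decide) hA hB
  have := limit_inv _ w key
  rwa [smul_inv_smul] at this


end Trom
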