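import Pool.Agent.Helper97.Trom.Top
import Pool.Agent.Helper97.Trom.J_Pa_path

open Matrix Set Topology

namespace Trom

theorem oct_one (p p' p'' t : ℝ) (hp : 0 ≤ p) (hp' : 0 ≤ p') (hp'' : 0 ≤ p'')
    (h : p ^ 2 + p' ^ 2 + p'' ^ 2 = 1 / 2) (h1 : 2 * p ≤ 1) (ht0 : 0 < t) (ht1 : t ≤ 1) :
    ((1 - t) * p + t) ^ 2 < ((1 - t) * p' + t) ^ 2 + ((1 - t) * p'' + t) ^ 2 := by
  have h2 : p ^ 2 ≤ p' ^ 2 + p'' ^ 2 := by nlinarith
  have h3 : p ≤ p' + p'' := by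
    have h4 : p ^ 2 ≤ (p' + p'') ^ 2 := by nlinarith [mul_nonneg hp' hp'']
    exact (abs_le_of_sq_le_sq' h4 (by linarith)).2
  have h5 := mul_nonneg (sq_nonneg (1 - t)) (sub_nonneg.mpr h2)
  have h6 := mul_nonneg (mul_nonneg ht0.le (sub_nonneg.mpr ht1)) (sub_nonneg.mpr h3)
  have h7 : 0 < t ^ 2 := by positivity
  nlinarith

theorem oct_coord (s s' s'' u u' u'' t N δ : ℝ) (hδ : δ = 1 ∨ δ = -1) (hs : s = 1 ∨ s = -1)
    (hs' : s' = 1 ∨ s' = -1) (hs'' : s'' = 1 ∨ s'' = -1) (hp : 0 ≤ s * u) (hp' : 0 ≤ s' * u')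
    (hp'' : 0 ≤ s'' * u'') (h : u ^ 2 + u' ^ 2 + u'' ^ 2 = 1 / 2) (h1 : 2 * (u * δ) ≤ 1)
    (ht0 : 0 < t) (ht1 : t ≤ 1) (hN : 0 < N)
    (hN2 : N ^ 2 = 2 * (((1 - t) * u + t * s) ^ 2 + ((1 - t) * u' + t * s') ^ 2
      + ((1 - t) * u'' + t * s'') ^ 2)) :
    2 * (((1 - t) * u + t * s) / N * δ) < 1 := by
  have ss : s * s = 1 := by rcases hs with h | h <;> rw [h] <;> norm_num
  have ss' : s' * s' = 1 := by rcases hs' with h | h <;> rw [h] <;> norm_num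
  have ss'' : s'' * s'' = 1 := by rcases hs'' with h | h <;> rw [h] <;> norm_num
  have e0 : (1 - t) * u + t * s = s * ((1 - t) * (s * u) + t) := by
    have : s * ((1 - t) * (s * u) + t) = (1 - t) * (s * s) * u + t * s := by ring
    rw [this, ss]; ring
  have e1 : (1 - t) * u' + t * s' = s' * ((1 - t) * (s' * u') + t) := by
    have : s' * ((1 - t) * (s' * u') + t) = (1 - t) * (s' * s') * u' + t * s' := by ring
    rw [this, ss']; ring
  have e2 : (1 - t) * u'' + t * s'' = s'' * ((1 - t) * (s'' * u'') + t) := by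
    have : s'' * ((1 - t) * (s'' * u'') + t) = (1 - t) * (s'' * s'') * u'' + t * s'' := by ring
    rw [this, ss'']; ring
  have hq : 0 < (1 - t) * (s * u) + t := by
    have := mul_nonneg (sub_nonneg.mpr ht1) hp
    linarith
  have hpp : (s * u) ^ 2 + (s' * u') ^ 2 + (s'' * u'') ^ 2 = 1 / 2 := by
    have : (s * u) ^ 2 + (s' * u') ^ 2 + (s'' * u'') ^ 2
      = (s * s) * u ^ 2 + (s' * s') * u' ^ 2 + (s'' * s'') * u'' ^ 2 := by ring
    rw [this, ss, ss', ss'']; linarith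
  by_cases hsd : δ = s
  · rw [hsd] at h1 ⊢
    have h2 := oct_one (s * u) (s' * u') (s'' * u'') t hp hp' hp'' hpp (by linarith) ht0 ht1
    have h3 : N ^ 2 = 2 * (((1 - t) * (s * u) + t) ^ 2 + ((1 - t) * (s' * u') + t) ^ 2
      + ((1 - t) * (s'' * u'') + t) ^ 2) := by
      rw [hN2, e0, e1, e2, mul_pow, mul_pow, mul_pow, sq s, sq s', sq s'', ss, ss', ss'']
      ring
    have h4 : 2 * (((1 - t) * u + t * s) / N * s) = (2 * ((1 - t) * (s * u) + t)) / N := by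
      rw [e0]
      have : 2 * (s * ((1 - t) * (s * u) + t) / N * s)
        = (s * s) * (2 * ((1 - t) * (s * u) + t)) / N := by ring
      rw [this, ss, one_mul]
    rw [h4, div_lt_one hN]
    apply lt_of_pow_lt_pow_left₀ 2 hN.le
    nlinarith
  · have hsd' : δ = -s := by
      rcases hδ with h | h
      · rcases hs with h' | h'
        · exact absurd (h.trans h'.symm) hsd
        · rw [h, h']; norm_num
      · rcases hs with h' | h'
        · rw [h, h']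
        · exact absurd (h.trans h'.symm) hsd
    rw [hsd', e0]
    have : 2 * (s * ((1 - t) * (s * u) + t) / N * -s)
        = -((s * s) * (2 * ((1 - t) * (s * u) + t)) / N) := by ring
    rw [this, ss, one_mul]
    have h5 : 0 < 2 * ((1 - t) * (s * u) + t) / N := by positivity
    linarith

theorem oct_int1 (a b c : ℤ) (h : a ^ 2 + b ^ 2 + c ^ 2 = 1) :
    ((a = 1 ∨ a = -1) ∧ b = 0 ∧ c = 0) ∨ ((b = 1 ∨ b = -1) ∧ a = 0 ∧ c = 0) ∨
    ((c = 1 ∨ c = -1) ∧ a = 0 ∧ b = 0) := by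
  have ha : -1 ≤ a ∧ a ≤ 1 := by constructor <;> nlinarith [sq_nonneg b, sq_nonneg c]
  have hb : -1 ≤ b ∧ b ≤ 1 := by constructor <;> nlinarith [sq_nonneg a, sq_nonneg c]
  have hc : -1 ≤ c ∧ c ≤ 1 := by constructor <;> nlinarith [sq_nonneg b, sq_nonneg a]
  obtain ⟨ha1, ha2⟩ := ha
  obtain ⟨hb1, hb2⟩ := hb
  obtain ⟨hc1, hc2⟩ := hc
  interval_cases a <;> interval_cases b <;> interval_cases c <;> simp_all

theorem oct_int2 (a b c : ℤ) (h : a ^ 2 + b ^ 2 + c ^ 2 = 2) : a = 0 ∨ b = 0 ∨ c = 0 := by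
  by_contra hcon
  push Not at hcon
  obtain ⟨ha, hb, hc⟩ := hcon
  have h1 : 0 < a ^ 2 := by positivity
  have h2 : 0 < b ^ 2 := by positivity
  have h3 : 0 < c ^ 2 := by positivity
  omega

theorem oct_main (d0 d1 d2 : ℤ) (hd : ¬ (d0 = 0 ∧ d1 = 0 ∧ d2 = 0))
    (s0 s1 s2 u0 u1 u2 t N : ℝ) (hs0 : s0 = 1 ∨ s0 = -1) (hs1 : s1 = 1 ∨ s1 = -1)
    (hs2 : s2 = 1 ∨ s2 = -1) (hp0 : 0 ≤ s0 * u0) (hp1 : 0 ≤ s1 * u1) (hp2 : 0 ≤ s2 * u2)
    (h : u0 ^ 2 + u1 ^ 2 + u2 ^ 2 = 1 / 2)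
    (h1 : 2 * (u0 * d0 + u1 * d1 + u2 * d2) ≤ (d0 : ℝ) ^ 2 + d1 ^ 2 + d2 ^ 2)
    (ht0 : 0 < t) (ht1 : t ≤ 1) (hN : 0 < N)
    (hN2 : N ^ 2 = 2 * (((1 - t) * u0 + t * s0) ^ 2 + ((1 - t) * u1 + t * s1) ^ 2
      + ((1 - t) * u2 + t * s2) ^ 2))
    (hU0 : ((1 - t) * u0 + t * s0) / N ≠ 0) (hU1 : ((1 - t) * u1 + t * s1) / N ≠ 0)
    (hU2 : ((1 - t) * u2 + t * s2) / N ≠ 0) :
    2 * (((1 - t) * u0 + t * s0) / N * d0 + ((1 - t) * u1 + t * s1) / N * d1
      + ((1 - t) * u2 + t * s2) / N * d2) < (d0 : ℝ) ^ 2 + d1 ^ 2 + d2 ^ 2 := by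
  have hpos : 1 ≤ d0 ^ 2 + d1 ^ 2 + d2 ^ 2 := by
    by_contra hcon
    apply hd
    have h2 := sq_nonneg d0
    have h3 := sq_nonneg d1
    have h4 := sq_nonneg d2
    refine ⟨?_, ?_, ?_⟩
    · exact pow_eq_zero_iff two_ne_zero |>.mp (by omega : d0 ^ 2 = 0)
    · exact pow_eq_zero_iff two_ne_zero |>.mp (by omega : d1 ^ 2 = 0)
    · exact pow_eq_zero_iff two_ne_zero |>.mp (by omega : d2 ^ 2 = 0)
  rcases hpos.eq_or_lt with h2 | h2
  · -- unit vectors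
    have h3 : (d0 : ℝ) ^ 2 + d1 ^ 2 + d2 ^ 2 = 1 := by exact_mod_cast h2.symm
    rw [h3] at h1 ⊢
    rcases oct_int1 d0 d1 d2 h2.symm with ⟨ha, hb, hc⟩ | ⟨ha, hb, hc⟩ | ⟨ha, hb, hc⟩
    · rw [hb, hc] at h1 ⊢
      have hδ : (d0 : ℝ) = 1 ∨ (d0 : ℝ) = -1 := by
        rcases ha with ha | ha <;> rw [ha] <;> norm_num
      have := oct_coord s0 s1 s2 u0 u1 u2 t N d0 hδ hs0 hs1 hs2 hp0 hp1 hp2 h
        (by simpa using h1) ht0 ht1 hN hN2
      simpa using this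
    · rw [hb, hc] at h1 ⊢
      have hδ : (d1 : ℝ) = 1 ∨ (d1 : ℝ) = -1 := by
        rcases ha with ha | ha <;> rw [ha] <;> norm_num
      have := oct_coord s1 s0 s2 u1 u0 u2 t N d1 hδ hs1 hs0 hs2 hp1 hp0 hp2 (by linarith)
        (by simpa using h1) ht0 ht1 hN (by rw [hN2]; ring)
      simpa using this
    · rw [hb, hc] at h1 ⊢
      have hδ : (d2 : ℝ) = 1 ∨ (d2 : ℝ) = -1 := by
        rcases ha with ha | ha <;> rw [ha] <;> norm_num
      have := oct_coord s2 s0 s1 u2 u0 u1 t N d2 hδ hs2 hs0 hs1 hp2 hp0 hp1 (by linarith)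
        (by simpa using h1) ht0 ht1 hN (by rw [hN2]; ring)
      simpa using this
  · -- |d| ^ 2 ≥ 2
    have hUU : (((1 - t) * u0 + t * s0) / N) ^ 2 + (((1 - t) * u1 + t * s1) / N) ^ 2
      + (((1 - t) * u2 + t * s2) / N) ^ 2 = 1 / 2 := by
      rw [div_pow, div_pow, div_pow, ← add_div, ← add_div, hN2]
      have h4 : 0 < ((1 - t) * u0 + t * s0) ^ 2 + ((1 - t) * u1 + t * s1) ^ 2
        + ((1 - t) * u2 + t * s2) ^ 2 := by
        have : 0 < N ^ 2 := by positivity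
        linarith
      rw [div_eq_div_iff (by positivity) (by norm_num)]
      ring
    generalize ((1 - t) * u0 + t * s0) / N = U0 at *
    generalize ((1 - t) * u1 + t * s1) / N = U1 at *
    generalize ((1 - t) * u2 + t * s2) / N = U2 at *
    rcases (show (2 : ℤ) ≤ d0 ^ 2 + d1 ^ 2 + d2 ^ 2 by omega).eq_or_lt with h3 | h3
    · have h4 : (d0 : ℝ) ^ 2 + d1 ^ 2 + d2 ^ 2 = 2 := by exact_mod_cast h3.symm
      have a0 := sq_nonneg (2 * U0 - d0)
      have a1 := sq_nonneg (2 * U1 - d1)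
      have a2 := sq_nonneg (2 * U2 - d2)
      rcases oct_int2 d0 d1 d2 h3.symm with hz | hz | hz
      · have : 0 < (2 * U0 - d0) ^ 2 := by rw [hz]; simp; positivity
        nlinarith
      · have : 0 < (2 * U1 - d1) ^ 2 := by rw [hz]; simp; positivity
        nlinarith
      · have : 0 < (2 * U2 - d2) ^ 2 := by rw [hz]; simp; positivity
        nlinarith
    · have h4 : (3 : ℝ) ≤ (d0 : ℝ) ^ 2 + d1 ^ 2 + d2 ^ 2 := by exact_mod_cast h3
      have a0 := sq_nonneg (2 * U0 - d0)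
      have a1 := sq_nonneg (2 * U1 - d1)
      have a2 := sq_nonneg (2 * U2 - d2)
      nlinarith

theorem oct_ctr_inj : ∀ i j : Fin 16, (ctr i 0 - ctr j 0 = 0 ∧ ctr i 1 - ctr j 1 = 0 ∧
    ctr i 2 - ctr j 2 = 0) → i = j := by decide

theorem oct_inf (i : Fin 16) : lor inf.1 (ev i) ≠ 0 := by
  simp only [lor, inf, ev]
  simp
  intro h
  linarith

set_option maxHeartbeats 4000000 in
/-- On a face (a part of the sphere around `c = ctr (fb f)`), inside a closed octant `s`, every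
point can be joined inside the face to the centre of the octant. -/
theorem octant_star (f : Fin 18) (x : Sph) (hx : x ∈ FcS f) (s : Fin 3 → ℝ)
    (hs : ∀ k, s k = 1 ∨ s k = -1)
    (h0 : 0 ≤ s 0 * (x.1 1 - ctr (fb f) 0 * dl x.1))
    (h1 : 0 ≤ s 1 * (x.1 2 - ctr (fb f) 1 * dl x.1))
    (h2 : 0 ≤ s 2 * (x.1 3 - ctr (fb f) 2 * dl x.1)) :
    ∃ γ : Path x (st (fun k => (ctr (fb f) k : ℝ) + s k / Real.sqrt 6)),
      ∀ t, γ t ∈ FcS f := by
  have hPx : Pa x := by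
    obtain ⟨a, ha⟩ := hx.1
    exact ha.1
  have hxi : x ≠ inf := by
    intro h
    have := hx.2.1
    rw [h] at this
    exact oct_inf _ this
  have hD : 0 < dl x.1 := lt_of_le_of_ne (dl_nonneg x) fun h' => hxi (eq_inf_of_dl h'.symm)
  set c : Fin 3 → ℝ := fun k => (ctr (fb f) k : ℝ) with hc
  set y : Fin 3 → ℝ := ![x.1 1 / dl x.1, x.1 2 / dl x.1, x.1 3 / dl x.1] with hy
  have hxy : x = st y := st_surj x hxi
  let u : Fin 3 → ℝ := fun k => y k - c k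
  have hdist : ∀ i, (y 0 - ctr i 0) ^ 2 + (y 1 - ctr i 1) ^ 2 + (y 2 - ctr i 2) ^ 2 ≥ 1 / 2 := by
    intro i
    have h1 := hPx.1 i
    rw [hxy, st_ev] at h1
    have h2 := st_dl_pos y
    by_contra hcon
    push Not at hcon
    have h3 : 0 < 1/4 - ((y 0 - ctr i 0) ^ 2 + (y 1 - ctr i 1) ^ 2 + (y 2 - ctr i 2) ^ 2) / 2 := by
      linarith
    have h4 := mul_pos h2 h3
    linarith
  have huu : u 0 ^ 2 + u 1 ^ 2 + u 2 ^ 2 = 1 / 2 := by
    have h1 := hx.2.1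
    rw [hxy, st_ev] at h1
    have h2 := st_dl_pos y
    rcases mul_eq_zero.mp h1 with h3 | h3
    · exact absurd h3 h2.ne'
    · show (y 0 - ctr (fb f) 0) ^ 2 + (y 1 - ctr (fb f) 1) ^ 2 + (y 2 - ctr (fb f) 2) ^ 2 = 1 / 2
      linarith
  have hp0 : 0 ≤ s 0 * u 0 := by
    show 0 ≤ s 0 * (x.1 1 / dl x.1 - (ctr (fb f) 0 : ℝ))
    have e : s 0 * (x.1 1 / dl x.1 - (ctr (fb f) 0 : ℝ))
      = (s 0 * (x.1 1 - ctr (fb f) 0 * dl x.1)) / dl x.1 := by field_simp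
    rw [e]; exact div_nonneg h0 hD.le
  have hp1 : 0 ≤ s 1 * u 1 := by
    show 0 ≤ s 1 * (x.1 2 / dl x.1 - (ctr (fb f) 1 : ℝ))
    have e : s 1 * (x.1 2 / dl x.1 - (ctr (fb f) 1 : ℝ))
      = (s 1 * (x.1 2 - ctr (fb f) 1 * dl x.1)) / dl x.1 := by field_simp
    rw [e]; exact div_nonneg h1 hD.le
  have hp2 : 0 ≤ s 2 * u 2 := by
    show 0 ≤ s 2 * (x.1 3 / dl x.1 - (ctr (fb f) 2 : ℝ))
    have e : s 2 * (x.1 3 / dl x.1 - (ctr (fb f) 2 : ℝ))
      = (s 2 * (x.1 3 - ctr (fb f) 2 * dl x.1)) / dl x.1 := by field_simp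
    rw [e]; exact div_nonneg h2 hD.le
  have ss : ∀ k, s k * s k = 1 := by
    intro k
    rcases hs k with h | h <;> rw [h] <;> norm_num
  -- the moving vector
  let r : ℝ → Fin 3 → ℝ := fun t k => (1 - t) * u k + t * s k
  let n2 : ℝ → ℝ := fun t => 2 * (r t 0 ^ 2 + r t 1 ^ 2 + r t 2 ^ 2)
  have hp : ∀ k, 0 ≤ s k * u k := by
    intro k; fin_cases k
    · exact hp0
    · exact hp1
    · exact hp2
  have hr : ∀ t, 0 < t → t ≤ 1 → ∀ k, 0 < s k * r t k := by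
    intro t ht0 ht1 k
    show 0 < s k * ((1 - t) * u k + t * s k)
    have e : s k * ((1 - t) * u k + t * s k) = (1 - t) * (s k * u k) + t * (s k * s k) := by ring
    rw [e, ss]
    have := mul_nonneg (sub_nonneg.mpr ht1) (hp k)
    linarith
  have hr0 : ∀ t, 0 < t → t ≤ 1 → ∀ k, r t k ≠ 0 := by
    intro t ht0 ht1 k h
    have := hr t ht0 ht1 k
    rw [h, mul_zero] at this
    exact lt_irrefl _ this
  have hn0 : n2 0 = 1 := by
    show 2 * (((1 - 0) * u 0 + 0 * s 0) ^ 2 + ((1 - 0) * u 1 + 0 * s 1) ^ 2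
      + ((1 - 0) * u 2 + 0 * s 2) ^ 2) = 1
    have : 2 * (((1 - 0) * u 0 + 0 * s 0) ^ 2 + ((1 - 0) * u 1 + 0 * s 1) ^ 2
      + ((1 - 0) * u 2 + 0 * s 2) ^ 2) = 2 * (u 0 ^ 2 + u 1 ^ 2 + u 2 ^ 2) := by ring
    rw [this, huu]; norm_num
  have hn2 : ∀ t : ℝ, 0 ≤ t → t ≤ 1 → 0 < n2 t := by
    intro t ht0 ht1
    rcases ht0.eq_or_lt with h | h
    · rw [← h, hn0]; exact one_pos
    · have h3 := hr0 t h ht1 0
      have h4 : 0 < r t 0 ^ 2 := by positivity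
      show 0 < 2 * (r t 0 ^ 2 + r t 1 ^ 2 + r t 2 ^ 2)
      nlinarith [sq_nonneg (r t 1), sq_nonneg (r t 2)]
  let z : ℝ → Fin 3 → ℝ := fun t k => c k + r t k / Real.sqrt (n2 t)
  have hz0 : z 0 = y := by
    funext k
    show c k + ((1 - 0) * u k + 0 * s k) / Real.sqrt (n2 0) = y k
    rw [hn0, Real.sqrt_one]
    show c k + ((1 - 0) * (y k - c k) + 0 * s k) / 1 = y k
    ring
  have hz1 : z 1 = fun k => (ctr (fb f) k : ℝ) + s k / Real.sqrt 6 := by
    funext k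
    show c k + ((1 - 1) * u k + 1 * s k) / Real.sqrt (n2 1) = (ctr (fb f) k : ℝ) + s k / Real.sqrt 6
    have hn1 : n2 1 = 6 := by
      show 2 * (((1 - 1) * u 0 + 1 * s 0) ^ 2 + ((1 - 1) * u 1 + 1 * s 1) ^ 2
        + ((1 - 1) * u 2 + 1 * s 2) ^ 2) = 6
      have : 2 * (((1 - 1) * u 0 + 1 * s 0) ^ 2 + ((1 - 1) * u 1 + 1 * s 1) ^ 2
        + ((1 - 1) * u 2 + 1 * s 2) ^ 2) = 2 * (s 0 * s 0 + s 1 * s 1 + s 2 * s 2) := by ring
      rw [this, ss, ss, ss]; norm_num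
    rw [hn1]
    have : (1 - 1) * u k + 1 * s k = s k := by ring
    rw [this]
  have hcont : Continuous (fun t : unitInterval => st (z t)) := by
    apply continuous_st.comp
    apply continuous_pi
    intro k
    have hrc : ∀ k, Continuous (fun t : unitInterval => r (t : ℝ) k) := by
      intro k
      show Continuous (fun t : unitInterval => (1 - (t : ℝ)) * u k + (t : ℝ) * s k)
      fun_prop
    have hnc : Continuous (fun t : unitInterval => n2 (t : ℝ)) := by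
      show Continuous (fun t : unitInterval =>
        2 * (r (t : ℝ) 0 ^ 2 + r (t : ℝ) 1 ^ 2 + r (t : ℝ) 2 ^ 2))
      exact continuous_const.mul ((((hrc 0).pow 2).add ((hrc 1).pow 2)).add ((hrc 2).pow 2))
    show Continuous (fun t : unitInterval => c k + r (t : ℝ) k / Real.sqrt (n2 (t : ℝ)))
    refine continuous_const.add ((hrc k).div (Real.continuous_sqrt.comp hnc) ?_)
    intro t
    exact (Real.sqrt_pos.mpr (hn2 t t.2.1 t.2.2)).ne'
  let γ : Path x (st (fun k => (ctr (fb f) k : ℝ) + s k / Real.sqrt 6)) :=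
    { toFun := fun t => st (z t)
      continuous_toFun := hcont
      source' := by
        have e : ((0 : unitInterval) : ℝ) = 0 := rfl
        show st (z ((0 : unitInterval) : ℝ)) = x
        rw [e, hz0, ← hxy]
      target' := by
        have e : ((1 : unitInterval) : ℝ) = 1 := rfl
        show st (z ((1 : unitInterval) : ℝ)) = _
        rw [e, hz1] }
  have hγ : ∀ t : unitInterval, γ t = st (z t) := fun t => rfl
  have hγ0 : ∀ t : unitInterval, (t : ℝ) = 0 → γ t = x := by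
    intro t ht
    rw [hγ, ht, hz0, ← hxy]
  -- the strict inequalities
  have hstrict : ∀ t : unitInterval, 0 < (t : ℝ) → ∀ i, i ≠ fb f → lor (γ t).1 (ev i) < 0 := by
    intro t ht i hi
    rw [hγ, st_ev]
    have h3 := st_dl_pos (z t)
    have ht1 : (t : ℝ) ≤ 1 := t.2.2
    have hNpos : 0 < Real.sqrt (n2 t) := Real.sqrt_pos.mpr (hn2 t t.2.1 t.2.2)
    have hN2 : Real.sqrt (n2 t) ^ 2 = n2 t := Real.sq_sqrt (hn2 t t.2.1 t.2.2).le
    have hdne : ¬ (ctr i 0 - ctr (fb f) 0 = 0 ∧ ctr i 1 - ctr (fb f) 1 = 0 ∧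
        ctr i 2 - ctr (fb f) 2 = 0) := fun h => hi (oct_ctr_inj i (fb f) h)
    have h4 := oct_main (ctr i 0 - ctr (fb f) 0) (ctr i 1 - ctr (fb f) 1)
      (ctr i 2 - ctr (fb f) 2) hdne (s 0) (s 1) (s 2) (u 0) (u 1) (u 2) t (Real.sqrt (n2 t))
      (hs 0) (hs 1) (hs 2) hp0 hp1 hp2 huu (by
        have h5 := hdist i
        have e0 : y 0 = u 0 + ctr (fb f) 0 := by show y 0 = (y 0 - c 0) + c 0; ring
        have e1 : y 1 = u 1 + ctr (fb f) 1 := by show y 1 = (y 1 - c 1) + c 1; ring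
        have e2 : y 2 = u 2 + ctr (fb f) 2 := by show y 2 = (y 2 - c 2) + c 2; ring
        rw [e0, e1, e2] at h5
        push_cast
        nlinarith) ht ht1 hNpos hN2
      (div_ne_zero (hr0 t ht ht1 0) hNpos.ne') (div_ne_zero (hr0 t ht ht1 1) hNpos.ne')
      (div_ne_zero (hr0 t ht ht1 2) hNpos.ne')
    have hUU : (r t 0 / Real.sqrt (n2 t)) ^ 2 + (r t 1 / Real.sqrt (n2 t)) ^ 2
        + (r t 2 / Real.sqrt (n2 t)) ^ 2 = 1 / 2 := by
      rw [div_pow, div_pow, div_pow, ← add_div, ← add_div, hN2]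
      have h5 := hn2 t t.2.1 t.2.2
      rw [div_eq_div_iff h5.ne' (by norm_num)]
      show (r t 0 ^ 2 + r t 1 ^ 2 + r t 2 ^ 2) * 2 = 1 * (2 * (r t 0 ^ 2 + r t 1 ^ 2 + r t 2 ^ 2))
      ring
    have h6 : 1/4 - ((z t 0 - ctr i 0) ^ 2 + (z t 1 - ctr i 1) ^ 2 + (z t 2 - ctr i 2) ^ 2) / 2
        < 0 := by
      show 1/4 - (((ctr (fb f) 0 : ℝ) + r t 0 / Real.sqrt (n2 t) - ctr i 0) ^ 2
        + ((ctr (fb f) 1 : ℝ) + r t 1 / Real.sqrt (n2 t) - ctr i 1) ^ 2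
        + ((ctr (fb f) 2 : ℝ) + r t 2 / Real.sqrt (n2 t) - ctr i 2) ^ 2) / 2 < 0
      have h7 : 2 * (r t 0 / Real.sqrt (n2 t) * ((ctr i 0 - ctr (fb f) 0 : ℤ) : ℝ)
        + r t 1 / Real.sqrt (n2 t) * ((ctr i 1 - ctr (fb f) 1 : ℤ) : ℝ)
        + r t 2 / Real.sqrt (n2 t) * ((ctr i 2 - ctr (fb f) 2 : ℤ) : ℝ))
        < ((ctr i 0 - ctr (fb f) 0 : ℤ) : ℝ) ^ 2 + ((ctr i 1 - ctr (fb f) 1 : ℤ) : ℝ) ^ 2
          + ((ctr i 2 - ctr (fb f) 2 : ℤ) : ℝ) ^ 2 := h4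
      push_cast at h7
      generalize r t 0 / Real.sqrt (n2 t) = U0 at *
      generalize r t 1 / Real.sqrt (n2 t) = U1 at *
      generalize r t 2 / Real.sqrt (n2 t) = U2 at *
      nlinarith
    exact mul_neg_of_pos_of_neg h3 h6
  have hzero : ∀ t : unitInterval, lor (γ t).1 (ev (fb f)) = 0 := by
    intro t
    rw [hγ, st_ev]
    have hNpos : 0 < Real.sqrt (n2 t) := Real.sqrt_pos.mpr (hn2 t t.2.1 t.2.2)
    have hN2 : Real.sqrt (n2 t) ^ 2 = n2 t := Real.sq_sqrt (hn2 t t.2.1 t.2.2).le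
    have hUU : (r t 0 / Real.sqrt (n2 t)) ^ 2 + (r t 1 / Real.sqrt (n2 t)) ^ 2
        + (r t 2 / Real.sqrt (n2 t)) ^ 2 = 1 / 2 := by
      rw [div_pow, div_pow, div_pow, ← add_div, ← add_div, hN2]
      have h5 := hn2 t t.2.1 t.2.2
      rw [div_eq_div_iff h5.ne' (by norm_num)]
      show (r t 0 ^ 2 + r t 1 ^ 2 + r t 2 ^ 2) * 2 = 1 * (2 * (r t 0 ^ 2 + r t 1 ^ 2 + r t 2 ^ 2))
      ring
    have h6 : 1/4 - ((z t 0 - ctr (fb f) 0) ^ 2 + (z t 1 - ctr (fb f) 1) ^ 2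
        + (z t 2 - ctr (fb f) 2) ^ 2) / 2 = 0 := by
      show 1/4 - (((ctr (fb f) 0 : ℝ) + r t 0 / Real.sqrt (n2 t) - ctr (fb f) 0) ^ 2
        + ((ctr (fb f) 1 : ℝ) + r t 1 / Real.sqrt (n2 t) - ctr (fb f) 1) ^ 2
        + ((ctr (fb f) 2 : ℝ) + r t 2 / Real.sqrt (n2 t) - ctr (fb f) 2) ^ 2) / 2 = 0
      rw [add_sub_cancel_left, add_sub_cancel_left, add_sub_cancel_left, hUU]
      norm_num
    rw [h6, mul_zero]
  have hPa : ∀ t : unitInterval, Pa (γ t) := by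
    intro t
    rcases (show (0 : ℝ) ≤ t from t.2.1).eq_or_lt with h | h
    · rw [hγ0 t h.symm]; exact hPx
    · refine ⟨fun i => ?_, fun i j hij hcon => ?_⟩
      · by_cases hi : i = fb f
        · rw [hi, hzero]
        · exact (hstrict t h i hi).le
      · have hi : i = fb f := by
          by_contra hi
          exact absurd hcon.1 (hstrict t h i hi).ne
        have hj : j = fb f := by
          by_contra hj
          exact absurd hcon.2 (hstrict t h j hj).ne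
        rw [hi, hj] at hij
        simp [d2] at hij
  refine ⟨γ, fun t => ⟨Pa_path γ hPa hx.1 t, hzero t, ?_⟩⟩
  rcases (show (0 : ℝ) ≤ t from t.2.1).eq_or_lt with h | h
  · rw [hγ0 t h.symm]; exact hx.2.2
  · have ht1 : (t : ℝ) ≤ 1 := t.2.2
    have hNpos : 0 < Real.sqrt (n2 t) := Real.sqrt_pos.mpr (hn2 t t.2.1 t.2.2)
    have hsU : 0 < s 2 * (r t 2 / Real.sqrt (n2 t)) := by
      rw [← mul_div_assoc]
      exact div_pos (hr t h ht1 2) hNpos
    have h3 : (γ t).1 3 = dl (γ t).1 * (ctr (fb f) 2 + r t 2 / Real.sqrt (n2 t)) :=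
      (st_coord (z t)).2.2
    have h4 : 0 < dl (γ t).1 := st_dl_pos (z t)
    have hside := hx.2.2
    unfold side at hside ⊢
    split_ifs at hside ⊢ with g1 g2 g3 g4
    · subst g1
      have e : ctr (fb 8) 2 = 0 := by decide
      rw [e] at h2 h3
      simp only [Int.cast_zero, zero_mul, sub_zero, zero_add] at h2 h3
      rw [h3]
      have hs2 : s 2 = -1 := by
        rcases hs 2 with h5 | h5
        · rw [h5] at h2; linarith
        · exact h5
      rw [hs2] at hsU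
      exact mul_neg_of_pos_of_neg h4 (by linarith)
    · subst g2
      have e : ctr (fb 16) 2 = 0 := by decide
      rw [e] at h2 h3
      simp only [Int.cast_zero, zero_mul, sub_zero, zero_add] at h2 h3
      rw [h3]
      have hs2 : s 2 = 1 := by
        rcases hs 2 with h5 | h5
        · exact h5
        · rw [h5] at h2; linarith
      rw [hs2] at hsU
      exact mul_pos h4 (by linarith)
    · subst g3
      have e : ctr (fb 9) 2 = 1 := by decide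
      rw [e] at h2 h3
      simp only [Int.cast_one, one_mul] at h2 h3
      rw [h3]
      have hs2 : s 2 = 1 := by
        rcases hs 2 with h5 | h5
        · exact h5
        · rw [h5] at h2; linarith
      rw [hs2] at hsU
      nlinarith
    · subst g4
      have e : ctr (fb 17) 2 = 1 := by decide
      rw [e] at h2 h3
      simp only [Int.cast_one, one_mul] at h2 h3
      rw [h3]
      have hs2 : s 2 = -1 := by
        rcases hs 2 with h5 | h5
        · rw [h5] at h2; linarith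
        · exact h5
      rw [hs2] at hsU
      nlinarith


end Trom
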