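import Pool.Agent.Helper97.Trom.Top
import Pool.Agent.Helper97.Trom.J_octant_star
import Pool.Agent.Helper97.Trom.J_link_points
import Pool.Agent.Helper97.Trom.J_P0_not_InLo

open Matrix Set Topology

namespace Trom

/-- signs of the eight octants -/
def svO : Fin 8 → Fin 3 → ℤ :=
  ![![1,1,1], ![1,1,-1], ![1,-1,1], ![1,-1,-1], ![-1,1,1], ![-1,1,-1], ![-1,-1,1], ![-1,-1,-1]]

/-- root octant of the face -/
def rtO : Fin 18 → Fin 8 := ![1, 0, 1, 0, 0, 0, 1, 0, 1, 0, 0, 0, 0, 0, 0, 0, 0, 1]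

/-- the links -/
def lkO : Fin 18 → List (Fin 8 × Fin 8 × (Fin 3 → ℤ)) :=
  ![[(1, 5, ![0, 1, -7]), (1, 3, ![1, 0, -7]), (5, 7, ![-7, 0, -1]), (5, 4, ![-7, 1, 0]), (3, 2, ![1, -7, 0]), (7, 6, ![-7, -1, 0])],
    [(0, 4, ![0, 1, 17]), (0, 2, ![1, 0, 17]), (4, 6, ![-7, 0, 11]), (4, 5, ![-7, 1, 10]), (2, 3, ![1, -7, 10]), (6, 7, ![-7, -1, 10])],
    [(1, 5, ![0, 11, -7]), (1, 3, ![1, 10, -7]), (5, 7, ![-7, 10, -1]), (5, 4, ![-7, 11, 0]), (7, 6, ![-7, 9, 0])],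
    [(0, 4, ![0, 11, 17]), (0, 2, ![1, 10, 17]), (4, 6, ![-7, 10, 11]), (4, 5, ![-7, 11, 10]), (6, 7, ![-7, 9, 10])],
    [(0, 4, ![0, 27, 1]), (0, 1, ![1, 27, 0]), (4, 6, ![-7, 20, 1]), (4, 5, ![-7, 21, 0]), (1, 3, ![1, 20, -7]), (6, 7, ![-7, 19, 0])],
    [(0, 4, ![0, 27, 11]), (0, 2, ![1, 20, 17]), (0, 1, ![1, 27, 10]), (4, 6, ![-7, 20, 11]), (4, 5, ![-7, 21, 10]), (6, 7, ![-7, 19, 10])],
    [(1, 5, ![10, 1, -7]), (1, 3, ![11, 0, -7]), (5, 7, ![9, 0, -7]), (3, 2, ![11, -7, 0]), (7, 6, ![9, -7, 0])],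
    [(0, 4, ![10, 1, 17]), (0, 2, ![11, 0, 17]), (4, 6, ![9, 0, 17]), (2, 3, ![11, -7, 10]), (6, 7, ![9, -7, 10])],
    [(1, 5, ![10, 11, -7]), (1, 3, ![11, 10, -7]), (5, 7, ![9, 10, -7])],
    [(0, 4, ![10, 11, 17]), (0, 2, ![11, 10, 17]), (4, 6, ![9, 10, 17])],
    [(0, 4, ![10, 27, 1]), (0, 2, ![17, 20, 1]), (0, 1, ![17, 21, 0]), (4, 5, ![9, 27, 0]), (2, 3, ![17, 19, 0]), (5, 7, ![9, 20, -7])],
    [(0, 4, ![10, 27, 11]), (0, 2, ![17, 20, 11]), (0, 1, ![17, 21, 10]), (4, 6, ![9, 20, 17]), (4, 5, ![9, 27, 10]), (2, 3, ![17, 19, 10])],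
    [(0, 2, ![27, 0, 1]), (0, 1, ![27, 1, 0]), (2, 6, ![20, -7, 1]), (2, 3, ![27, -1, 0]), (1, 5, ![20, 1, -7]), (6, 7, ![19, -7, 0])],
    [(0, 4, ![20, 1, 17]), (0, 2, ![27, 0, 11]), (0, 1, ![27, 1, 10]), (4, 6, ![19, 0, 17]), (2, 3, ![27, -1, 10]), (6, 7, ![19, -7, 10])],
    [(0, 4, ![20, 17, 1]), (0, 2, ![27, 10, 1]), (0, 1, ![27, 11, 0]), (4, 5, ![19, 17, 0]), (2, 3, ![27, 9, 0]), (5, 7, ![19, 10, -7])],
    [(0, 4, ![20, 17, 11]), (0, 2, ![27, 10, 11]), (0, 1, ![27, 11, 10]), (4, 6, ![19, 10, 17]), (4, 5, ![19, 17, 10]), (2, 3, ![27, 9, 10])],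
    [],
    []]

/-- squared distance, scaled by 100 -/
def qO (Y : Fin 3 → ℤ) (i : Fin 16) : ℤ :=
  (Y 0 - 10 * ctr i 0) ^ 2 + (Y 1 - 10 * ctr i 1) ^ 2 + (Y 2 - 10 * ctr i 2) ^ 2

/-- integer check of a link -/
def lkOK (f : Fin 18) (l : Fin 8 × Fin 8 × (Fin 3 → ℤ)) : Prop :=
  (∀ i, 50 ≤ qO l.2.2 i) ∧ (∀ i j, 2 ≤ d2 i j → ¬ (qO l.2.2 i = 50 ∧ qO l.2.2 j = 50)) ∧
  qO l.2.2 (fb f) = 50 ∧
  (20 ≤ l.2.2 0 ∨ l.2.2 0 ≤ 0 ∨ 20 ≤ l.2.2 1 ∨ l.2.2 1 ≤ 0 ∨ 10 ≤ l.2.2 2 ∨ l.2.2 2 ≤ 0 ∨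
    (10 ≤ l.2.2 0 ∧ 10 ≤ l.2.2 1 ∧ 30 ≤ l.2.2 0 + l.2.2 1) ∨
    (10 ≤ l.2.2 0 ∧ 10 ≤ l.2.2 1 ∧ l.2.2 0 + l.2.2 1 ≤ 30 ∧ 0 ≤ l.2.2 2 ∧ l.2.2 2 ≤ 10)) ∧
  (f = 8 → l.2.2 2 < 0) ∧ (f = 16 → 0 < l.2.2 2) ∧ (f = 9 → 10 < l.2.2 2) ∧
  (f = 17 → l.2.2 2 < 10) ∧
  (∀ k, 0 ≤ svO l.1 k * (l.2.2 k - 10 * ctr (fb f) k)) ∧
  (∀ k, 0 ≤ svO l.2.1 k * (l.2.2 k - 10 * ctr (fb f) k))

instance (f : Fin 18) (l : Fin 8 × Fin 8 × (Fin 3 → ℤ)) : Decidable (lkOK f l) := by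
  unfold lkOK; infer_instance

theorem lkO_ok : ∀ f : Fin 18, ∀ l ∈ lkO f, lkOK f l := by decide +kernel

/-- one step of the reachability -/
def stepO (acc : List (Fin 8)) (l : Fin 8 × Fin 8 × (Fin 3 → ℤ)) : List (Fin 8) :=
  if l.1 ∈ acc then l.2.1 :: acc else acc

/-- reachable octants -/
def reachO (f : Fin 18) : List (Fin 8) := (lkO f).foldl stepO [rtO f]

/-- hidden octants -/
def hidO (f : Fin 18) (o : Fin 8) : Prop :=
  ((((ctr (fb f) 0 = 0 ∧ svO o 0 = 1) ∨ ctr (fb f) 0 = 1 ∨ (ctr (fb f) 0 = 2 ∧ svO o 0 = -1)) ∧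
    ((ctr (fb f) 1 = 0 ∧ svO o 1 = 1) ∨ (ctr (fb f) 1 = 1 ∧ svO o 1 = -1)) ∧
    ((ctr (fb f) 2 = 0 ∧ svO o 2 = 1) ∨ (ctr (fb f) 2 = 1 ∧ svO o 2 = -1))) ∨
   (((ctr (fb f) 0 = 0 ∧ svO o 0 = 1) ∨ (ctr (fb f) 0 = 1 ∧ svO o 0 = -1)) ∧
    ((ctr (fb f) 1 = 0 ∧ svO o 1 = 1) ∨ ctr (fb f) 1 = 1 ∨ (ctr (fb f) 1 = 2 ∧ svO o 1 = -1)) ∧
    ((ctr (fb f) 2 = 0 ∧ svO o 2 = 1) ∨ (ctr (fb f) 2 = 1 ∧ svO o 2 = -1)))) ∨
  (f = 8 ∧ svO o 2 = 1) ∨ (f = 16 ∧ svO o 2 = -1) ∨ (f = 9 ∧ svO o 2 = -1) ∨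
  (f = 17 ∧ svO o 2 = 1)

instance (f : Fin 18) (o : Fin 8) : Decidable (hidO f o) := by
  unfold hidO; infer_instance

theorem hid_or_reach : ∀ f : Fin 18, ∀ o : Fin 8, hidO f o ∨ o ∈ reachO f := by decide +kernel

theorem svO_or : ∀ o : Fin 8, ∀ k, svO o k = 1 ∨ svO o k = -1 := by decide

/-- the centre of the octant -/
noncomputable def ZO (f : Fin 18) (o : Fin 8) : Sph :=
  st (fun k => (ctr (fb f) k : ℝ) + (svO o k : ℝ) / Real.sqrt 6)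

theorem starO (f : Fin 18) (x : Sph) (hx : x ∈ FcS f) (o : Fin 8)
    (h0 : 0 ≤ (svO o 0 : ℝ) * (x.1 1 - ctr (fb f) 0 * dl x.1))
    (h1 : 0 ≤ (svO o 1 : ℝ) * (x.1 2 - ctr (fb f) 1 * dl x.1))
    (h2 : 0 ≤ (svO o 2 : ℝ) * (x.1 3 - ctr (fb f) 2 * dl x.1)) :
    JoinedIn (FcS f) x (ZO f o) := by
  refine octant_star f x hx (fun k => (svO o k : ℝ)) (fun k => ?_) h0 h1 h2
  rcases svO_or o k with h | h
  · left; simp [h]
  · right; simp [h]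

theorem exO (f : Fin 18) (x : Sph) (hx : x ∈ FcS f) :
    ∃ o : Fin 8, JoinedIn (FcS f) x (ZO f o) := by
  rcases le_total 0 (x.1 1 - ctr (fb f) 0 * dl x.1) with h0 | h0 <;>
  rcases le_total 0 (x.1 2 - ctr (fb f) 1 * dl x.1) with h1 | h1 <;>
  rcases le_total 0 (x.1 3 - ctr (fb f) 2 * dl x.1) with h2 | h2
  · exact ⟨0, starO f x hx 0 (by simpa [svO] using h0) (by simpa [svO] using h1)
      (by simpa [svO] using h2)⟩
  · exact ⟨1, starO f x hx 1 (by simpa [svO] using h0) (by simpa [svO] using h1)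
      (by simpa [svO] using h2)⟩
  · exact ⟨2, starO f x hx 2 (by simpa [svO] using h0) (by simpa [svO] using h1)
      (by simpa [svO] using h2)⟩
  · exact ⟨3, starO f x hx 3 (by simpa [svO] using h0) (by simpa [svO] using h1)
      (by simpa [svO] using h2)⟩
  · exact ⟨4, starO f x hx 4 (by simpa [svO] using h0) (by simpa [svO] using h1)
      (by simpa [svO] using h2)⟩
  · exact ⟨5, starO f x hx 5 (by simpa [svO] using h0) (by simpa [svO] using h1)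
      (by simpa [svO] using h2)⟩
  · exact ⟨6, starO f x hx 6 (by simpa [svO] using h0) (by simpa [svO] using h1)
      (by simpa [svO] using h2)⟩
  · exact ⟨7, starO f x hx 7 (by simpa [svO] using h0) (by simpa [svO] using h1)
      (by simpa [svO] using h2)⟩

theorem rho_bd : 0 < 1 / Real.sqrt 6 ∧ 1 / Real.sqrt 6 < 1 / 2 := by
  have h : (2 : ℝ) < Real.sqrt 6 := by
    rw [show (2 : ℝ) = Real.sqrt 4 by
      rw [show (4 : ℝ) = 2 ^ 2 by norm_num, Real.sqrt_sq (by norm_num)]]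
    exact Real.sqrt_lt_sqrt (by norm_num) (by norm_num)
  exact ⟨by positivity, one_div_lt_one_div_of_lt (by norm_num) h⟩

theorem in01R {c s : ℤ} (h : (c = 0 ∧ s = 1) ∨ (c = 1 ∧ s = -1)) :
    0 < (c : ℝ) + (s : ℝ) / Real.sqrt 6 ∧ (c : ℝ) + (s : ℝ) / Real.sqrt 6 < 1 := by
  obtain ⟨h1, h2⟩ := rho_bd
  rcases h with ⟨rfl, rfl⟩ | ⟨rfl, rfl⟩
  · push_cast
    constructor <;> linarith
  · push_cast
    have : (-1 : ℝ) / Real.sqrt 6 = -(1 / Real.sqrt 6) := by ring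
    rw [this]
    constructor <;> linarith

theorem in02R {c s : ℤ} (hs : s = 1 ∨ s = -1)
    (h : (c = 0 ∧ s = 1) ∨ c = 1 ∨ (c = 2 ∧ s = -1)) :
    0 < (c : ℝ) + (s : ℝ) / Real.sqrt 6 ∧ (c : ℝ) + (s : ℝ) / Real.sqrt 6 < 2 := by
  obtain ⟨h1, h2⟩ := rho_bd
  have h3 : (-1 : ℝ) / Real.sqrt 6 = -(1 / Real.sqrt 6) := by ring
  rcases h with ⟨rfl, rfl⟩ | rfl | ⟨rfl, rfl⟩
  · push_cast
    constructor <;> linarith
  · rcases hs with rfl | rfl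
    · push_cast
      constructor <;> linarith
    · push_cast
      rw [h3]
      constructor <;> linarith
  · push_cast
    rw [h3]
    constructor <;> linarith

theorem not_hid (f : Fin 18) (o : Fin 8) (hZ : ZO f o ∈ FcS f) : ¬ hidO f o := by
  intro hh
  obtain ⟨hP, -, hside⟩ := hZ
  have hlo := P0_not_InLo _ hP
  obtain ⟨c0, c1, c2⟩ := st_coord (fun k => (ctr (fb f) k : ℝ) + (svO o k : ℝ) / Real.sqrt 6)
  have hd := st_dl_pos (fun k => (ctr (fb f) k : ℝ) + (svO o k : ℝ) / Real.sqrt 6)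
  rcases hh with (⟨a0, a1, a2⟩ | ⟨a0, a1, a2⟩) | ⟨rfl, a⟩ | ⟨rfl, a⟩ | ⟨rfl, a⟩ | ⟨rfl, a⟩
  · apply hlo
    left
    obtain ⟨b0, b0'⟩ := in02R (svO_or o 0) a0
    obtain ⟨b1, b1'⟩ := in01R a1
    obtain ⟨b2, b2'⟩ := in01R a2
    change 0 < (ZO f o).1 1 ∧ (ZO f o).1 1 < 2 * dl (ZO f o).1 ∧ 0 < (ZO f o).1 2 ∧
      (ZO f o).1 2 < dl (ZO f o).1 ∧ 0 < (ZO f o).1 3 ∧ (ZO f o).1 3 < dl (ZO f o).1
    unfold ZO
    rw [c0, c1, c2]
    refine ⟨mul_pos hd b0, ?_, mul_pos hd b1, ?_, mul_pos hd b2, ?_⟩ <;> nlinarith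
  · apply hlo
    right
    obtain ⟨b0, b0'⟩ := in01R a0
    obtain ⟨b1, b1'⟩ := in02R (svO_or o 1) a1
    obtain ⟨b2, b2'⟩ := in01R a2
    change 0 < (ZO f o).1 1 ∧ (ZO f o).1 1 < dl (ZO f o).1 ∧ 0 < (ZO f o).1 2 ∧
      (ZO f o).1 2 < 2 * dl (ZO f o).1 ∧ 0 < (ZO f o).1 3 ∧ (ZO f o).1 3 < dl (ZO f o).1
    unfold ZO
    rw [c0, c1, c2]
    refine ⟨mul_pos hd b0, ?_, mul_pos hd b1, ?_, mul_pos hd b2, ?_⟩ <;> nlinarith
  · have h3 : (ZO 8 o).1 3 < 0 := by simpa [side] using hside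
    unfold ZO at h3
    rw [c2] at h3
    have h4 : ctr (fb 8) 2 = 0 := by decide
    have h6 : 0 < ((ctr (fb 8) 2 : ℤ) : ℝ) + ((svO o 2 : ℤ) : ℝ) / Real.sqrt 6 := by
      rw [h4, a]
      push_cast
      have := rho_bd.1
      linarith
    nlinarith
  · have h3 : 0 < (ZO 16 o).1 3 := by simpa [side] using hside
    unfold ZO at h3
    rw [c2] at h3
    have h4 : ctr (fb 16) 2 = 0 := by decide
    have h6 : ((ctr (fb 16) 2 : ℤ) : ℝ) + ((svO o 2 : ℤ) : ℝ) / Real.sqrt 6 < 0 := by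
      rw [h4, a]
      push_cast
      have h6 : (-1 : ℝ) / Real.sqrt 6 = -(1 / Real.sqrt 6) := by ring
      have := rho_bd.1
      rw [h6]
      linarith
    nlinarith
  · have h3 : dl (ZO 9 o).1 < (ZO 9 o).1 3 := by simpa [side] using hside
    unfold ZO at h3
    rw [c2] at h3
    have h4 : ctr (fb 9) 2 = 1 := by decide
    have h6 : ((ctr (fb 9) 2 : ℤ) : ℝ) + ((svO o 2 : ℤ) : ℝ) / Real.sqrt 6 < 1 := by
      rw [h4, a]
      push_cast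
      have h6 : (-1 : ℝ) / Real.sqrt 6 = -(1 / Real.sqrt 6) := by ring
      have := rho_bd.1
      rw [h6]
      linarith
    nlinarith
  · have h3 : (ZO 17 o).1 3 < dl (ZO 17 o).1 := by simpa [side] using hside
    unfold ZO at h3
    rw [c2] at h3
    have h4 : ctr (fb 17) 2 = 1 := by decide
    have h6 : 1 < ((ctr (fb 17) 2 : ℤ) : ℝ) + ((svO o 2 : ℤ) : ℝ) / Real.sqrt 6 := by
      rw [h4, a]
      push_cast
      have := rho_bd.1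
      linarith
    nlinarith

theorem link_ok (f : Fin 18) (l : Fin 8 × Fin 8 × (Fin 3 → ℤ)) (hl : lkOK f l) :
    JoinedIn (FcS f) (ZO f l.1) (ZO f l.2.1) := by
  obtain ⟨h1, h2, h3, h4, h5, h6, h7, h8, h9, h10⟩ := hl
  set Y := l.2.2 with hY
  have key : ∀ i, ((Y 0 : ℚ) / 10 - ctr i 0) ^ 2 + ((Y 1 : ℚ) / 10 - ctr i 1) ^ 2 +
      ((Y 2 : ℚ) / 10 - ctr i 2) ^ 2 = (qO Y i : ℚ) / 100 := by
    intro i
    unfold qO
    push_cast
    ring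
  have hq : ∀ i, (qO Y i : ℚ) / 100 = 1 / 2 → qO Y i = 50 := by
    intro i hi
    have : (qO Y i : ℚ) = 50 := by linarith
    exact_mod_cast this
  have hst : st (fun k => (((Y k : ℚ) / 10 : ℚ) : ℝ)) ∈ FcS f := by
    refine link_points f (fun k => (Y k : ℚ) / 10) ?_ ?_ ?_ ?_ ?_ ?_ ?_ ?_
    · intro i
      change 1 / 2 ≤ ((Y 0 : ℚ) / 10 - ctr i 0) ^ 2 + ((Y 1 : ℚ) / 10 - ctr i 1) ^ 2 +
        ((Y 2 : ℚ) / 10 - ctr i 2) ^ 2
      rw [key]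
      have : (50 : ℚ) ≤ (qO Y i : ℚ) := by exact_mod_cast h1 i
      linarith
    · intro i j hij
      change ¬ (((Y 0 : ℚ) / 10 - ctr i 0) ^ 2 + ((Y 1 : ℚ) / 10 - ctr i 1) ^ 2 +
        ((Y 2 : ℚ) / 10 - ctr i 2) ^ 2 = 1 / 2 ∧ ((Y 0 : ℚ) / 10 - ctr j 0) ^ 2 +
        ((Y 1 : ℚ) / 10 - ctr j 1) ^ 2 + ((Y 2 : ℚ) / 10 - ctr j 2) ^ 2 = 1 / 2)
      rw [key, key]
      rintro ⟨a, b⟩
      exact h2 i j hij ⟨hq i a, hq j b⟩
    · change ((Y 0 : ℚ) / 10 - ctr (fb f) 0) ^ 2 + ((Y 1 : ℚ) / 10 - ctr (fb f) 1) ^ 2 +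
        ((Y 2 : ℚ) / 10 - ctr (fb f) 2) ^ 2 = 1 / 2
      rw [key, h3]
      norm_num
    · change 2 ≤ (Y 0 : ℚ) / 10 ∨ (Y 0 : ℚ) / 10 ≤ 0 ∨ 2 ≤ (Y 1 : ℚ) / 10 ∨ (Y 1 : ℚ) / 10 ≤ 0 ∨
        1 ≤ (Y 2 : ℚ) / 10 ∨ (Y 2 : ℚ) / 10 ≤ 0 ∨
        (1 ≤ (Y 0 : ℚ) / 10 ∧ 1 ≤ (Y 1 : ℚ) / 10 ∧ 3 ≤ (Y 0 : ℚ) / 10 + (Y 1 : ℚ) / 10) ∨
        (1 ≤ (Y 0 : ℚ) / 10 ∧ 1 ≤ (Y 1 : ℚ) / 10 ∧ (Y 0 : ℚ) / 10 + (Y 1 : ℚ) / 10 ≤ 3 ∧
          0 ≤ (Y 2 : ℚ) / 10 ∧ (Y 2 : ℚ) / 10 ≤ 1)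
      rcases h4 with h | h | h | h | h | h | ⟨h, g1, g2⟩ | ⟨h, g1, g2, g3, g4⟩
      · left
        have : (20 : ℚ) ≤ Y 0 := by exact_mod_cast h
        linarith
      · right; left
        have : (Y 0 : ℚ) ≤ 0 := by exact_mod_cast h
        linarith
      · right; right; left
        have : (20 : ℚ) ≤ Y 1 := by exact_mod_cast h
        linarith
      · right; right; right; left
        have : (Y 1 : ℚ) ≤ 0 := by exact_mod_cast h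
        linarith
      · right; right; right; right; left
        have : (10 : ℚ) ≤ Y 2 := by exact_mod_cast h
        linarith
      · right; right; right; right; right; left
        have : (Y 2 : ℚ) ≤ 0 := by exact_mod_cast h
        linarith
      · right; right; right; right; right; right; left
        have a : (10 : ℚ) ≤ Y 0 := by exact_mod_cast h
        have b : (10 : ℚ) ≤ Y 1 := by exact_mod_cast g1
        have c : (30 : ℚ) ≤ Y 0 + Y 1 := by exact_mod_cast g2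
        refine ⟨?_, ?_, ?_⟩ <;> linarith
      · right; right; right; right; right; right; right
        have a : (10 : ℚ) ≤ Y 0 := by exact_mod_cast h
        have b : (10 : ℚ) ≤ Y 1 := by exact_mod_cast g1
        have c : (Y 0 : ℚ) + Y 1 ≤ 30 := by exact_mod_cast g2
        have d : (0 : ℚ) ≤ Y 2 := by exact_mod_cast g3
        have e : (Y 2 : ℚ) ≤ 10 := by exact_mod_cast g4
        refine ⟨?_, ?_, ?_, ?_, ?_⟩ <;> linarith
    · intro hf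
      have : (Y 2 : ℚ) < 0 := by exact_mod_cast h5 hf
      change (Y 2 : ℚ) / 10 < 0
      linarith
    · intro hf
      have : (0 : ℚ) < (Y 2 : ℚ) := by exact_mod_cast h6 hf
      change 0 < (Y 2 : ℚ) / 10
      linarith
    · intro hf
      have : (10 : ℚ) < (Y 2 : ℚ) := by exact_mod_cast h7 hf
      change 1 < (Y 2 : ℚ) / 10
      linarith
    · intro hf
      have : (Y 2 : ℚ) < 10 := by exact_mod_cast h8 hf
      change (Y 2 : ℚ) / 10 < 1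
      linarith
  obtain ⟨c0, c1, c2⟩ := st_coord (fun k => (((Y k : ℚ) / 10 : ℚ) : ℝ))
  have hd := st_dl_pos (fun k => (((Y k : ℚ) / 10 : ℚ) : ℝ))
  have hst2 : ∀ o : Fin 8, (∀ k, 0 ≤ svO o k * (Y k - 10 * ctr (fb f) k)) →
      JoinedIn (FcS f) (st (fun k => (((Y k : ℚ) / 10 : ℚ) : ℝ))) (ZO f o) := by
    intro o ho
    have hh : ∀ k, (0 : ℝ) ≤ (svO o k : ℝ) * ((Y k : ℝ) - 10 * (ctr (fb f) k : ℝ)) := by
      intro k
      exact_mod_cast ho k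
    apply starO f _ hst o
    · rw [c0]
      have := mul_nonneg hd.le (hh 0)
      push_cast
      push_cast at this
      nlinarith
    · rw [c1]
      have := mul_nonneg hd.le (hh 1)
      push_cast
      push_cast at this
      nlinarith
    · rw [c2]
      have := mul_nonneg hd.le (hh 2)
      push_cast
      push_cast at this
      nlinarith
  exact (hst2 _ h9).symm.trans (hst2 _ h10)

theorem fold_ok (f : Fin 18) (r : Fin 8) : ∀ (L : List (Fin 8 × Fin 8 × (Fin 3 → ℤ)))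
    (acc : List (Fin 8)), (∀ l ∈ L, lkOK f l) →
    (∀ o ∈ acc, r = o ∨ JoinedIn (FcS f) (ZO f r) (ZO f o)) →
    ∀ o ∈ L.foldl stepO acc, r = o ∨ JoinedIn (FcS f) (ZO f r) (ZO f o) := by
  intro L
  induction L with
  | nil => intro acc _ h o ho; exact h o ho
  | cons l L ih =>
    intro acc hL hacc o ho
    rw [List.foldl_cons] at ho
    refine ih (stepO acc l) (fun l' hl' => hL l' (List.mem_cons_of_mem _ hl')) ?_ o ho
    intro o' ho'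
    unfold stepO at ho'
    split_ifs at ho' with hmem
    · rcases List.mem_cons.1 ho' with rfl | h
      · right
        have h1 := link_ok f l (hL l List.mem_cons_self)
        rcases hacc _ hmem with h2 | h2
        · rw [h2]; exact h1
        · exact h2.trans h1
      · exact hacc _ h
    · exact hacc _ ho'

/-- the faces are path connected -/
theorem face_path (f : Fin 18) (x y : Sph) (hx : x ∈ FcS f) (hy : y ∈ FcS f) :
    ∃ γ : Path x y, ∀ t, γ t ∈ FcS f := by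
  obtain ⟨a, ha⟩ := exO f x hx
  obtain ⟨b, hb⟩ := exO f y hy
  have hra : a ∈ reachO f := (hid_or_reach f a).resolve_left (not_hid f a ha.mem.2)
  have hrb : b ∈ reachO f := (hid_or_reach f b).resolve_left (not_hid f b hb.mem.2)
  have hf := fold_ok f (rtO f) (lkO f) [rtO f] (lkO_ok f) (by
    intro o ho
    left
    simpa using (List.mem_singleton.1 ho).symm)
  have hTa : JoinedIn (FcS f) (ZO f (rtO f)) (ZO f a) := by
    rcases hf a hra with h | h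
    · rw [h]; exact JoinedIn.refl ha.mem.2
    · exact h
  have hTb : JoinedIn (FcS f) (ZO f (rtO f)) (ZO f b) := by
    rcases hf b hrb with h | h
    · rw [h]; exact JoinedIn.refl hb.mem.2
    · exact h
  exact ((ha.trans hTa.symm).trans hTb).trans hb.symm

end Trom
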