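import Pool.Agent.Helper97.Trom.Top
import Pool.Agent.Helper97.Trom.J_overlap
import Pool.Agent.Helper97.Trom.J_piece7_contractible
import Pool.Agent.Helper97.Trom.J_mQ_mem

open Matrix Set Topology

namespace Trom

theorem pa_aux (y : Fin 3 → ℝ)
    (h : ∀ i : Fin 16, (1/4 - ((y 0 - ctr i 0) ^ 2 + (y 1 - ctr i 1) ^ 2 + (y 2 - ctr i 2) ^ 2) / 2) ≤ 0)
    (h' : ∀ i : Fin 16, (1/4 - ((y 0 - ctr i 0) ^ 2 + (y 1 - ctr i 1) ^ 2 + (y 2 - ctr i 2) ^ 2) / 2) = 0 →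
      i = 9) : Pa (st y) := by
  have hd := st_dl_pos y
  have key : ∀ i, lor (st y).1 (ev i) = 0 → i = 9 := by
    intro i hi
    apply h'
    rw [st_ev] at hi
    rcases mul_eq_zero.1 hi with h1 | h1
    · exact absurd h1 hd.ne'
    · exact h1
  refine ⟨fun i => ?_, fun i j hij hc => ?_⟩
  · rw [st_ev]
    exact mul_nonpos_of_nonneg_of_nonpos hd.le (h i)
  · have e1 := key i hc.1
    have e2 := key j hc.2
    rw [e1, e2] at hij
    revert hij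
    decide

theorem pa_int (Y : Fin 3 → ℤ) (N : ℤ) (hN : 0 < N) (y : Fin 3 → ℝ)
    (hy : ∀ k, y k = (Y k : ℝ) / N)
    (h : ∀ i : Fin 16, N ^ 2 ≤ 2 * ((Y 0 - N * ctr i 0) ^ 2 + (Y 1 - N * ctr i 1) ^ 2 +
      (Y 2 - N * ctr i 2) ^ 2))
    (h' : ∀ i : Fin 16, N ^ 2 = 2 * ((Y 0 - N * ctr i 0) ^ 2 + (Y 1 - N * ctr i 1) ^ 2 +
      (Y 2 - N * ctr i 2) ^ 2) → i = 9) : Pa (st y) := by
  have hN' : (0 : ℝ) < N := by exact_mod_cast hN
  have e : ∀ i : Fin 16, (1/4 - ((y 0 - ctr i 0) ^ 2 + (y 1 - ctr i 1) ^ 2 +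
      (y 2 - ctr i 2) ^ 2) / 2) = ((N : ℝ) ^ 2 - 2 * (((Y 0 : ℝ) - N * ctr i 0) ^ 2 +
        ((Y 1 : ℝ) - N * ctr i 1) ^ 2 + ((Y 2 : ℝ) - N * ctr i 2) ^ 2)) / (4 * (N : ℝ) ^ 2) := by
    intro i
    rw [hy 0, hy 1, hy 2]
    field_simp
    ring
  refine pa_aux y ?_ ?_
  · intro i
    rw [e i]
    apply div_nonpos_of_nonpos_of_nonneg _ (by positivity)
    have := h i
    have h2 : ((N : ℝ) ^ 2) ≤ 2 * (((Y 0 : ℝ) - N * ctr i 0) ^ 2 +
        ((Y 1 : ℝ) - N * ctr i 1) ^ 2 + ((Y 2 : ℝ) - N * ctr i 2) ^ 2) := by exact_mod_cast this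
    linarith
  · intro i hi
    rw [e i] at hi
    apply h'
    have h3 : ((N : ℝ) ^ 2 - 2 * (((Y 0 : ℝ) - N * ctr i 0) ^ 2 +
        ((Y 1 : ℝ) - N * ctr i 1) ^ 2 + ((Y 2 : ℝ) - N * ctr i 2) ^ 2)) = 0 := by
      rcases div_eq_zero_iff.1 hi with h4 | h4
      · exact h4
      · exfalso; have : (0:ℝ) < 4 * (N : ℝ) ^ 2 := by positivity
        linarith
    have h4 : ((N : ℝ) ^ 2) = 2 * (((Y 0 : ℝ) - N * ctr i 0) ^ 2 +
        ((Y 1 : ℝ) - N * ctr i 1) ^ 2 + ((Y 2 : ℝ) - N * ctr i 2) ^ 2) := by linarith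
    exact_mod_cast h4

theorem st_zero (y : Fin 3 → ℝ) : (st y).1 0 = 1 := (st y).2.1

theorem lpx_mem : st ![13/9, 25/18, 11/18] ∈ Dp 7 := by
  have hd := st_dl_pos ![13/9, 25/18, 11/18]
  obtain ⟨c1, c2, c3⟩ := st_coord ![13/9, 25/18, 11/18]
  have hdv := st_dl ![13/9, 25/18, 11/18]
  refine ⟨pa_int ![26, 25, 11] 18 (by norm_num) _ ?_ ?_ ?_, ?_⟩
  · intro k
    fin_cases k <;> norm_num [Matrix.cons_val]
  · decide
  · decide
  · simp only [Matrix.cons_val_zero, Matrix.cons_val_one, Matrix.cons_val] at c1 c2 c3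
    change dl _ ≤ _ ∧ dl _ ≤ _ ∧ _ ∧ _ ∧ _ ∧ _
    refine ⟨?_, ?_, ?_, ?_, ?_, ?_⟩
    · rw [c1]; linarith
    · rw [c2]; linarith
    · rw [c1, c2]; linarith
    · rw [c3]; linarith
    · rw [c3]; linarith
    · rw [st_zero, hdv]
      simp only [lv, Matrix.cons_val]
      norm_num

theorem lpy_mem : st ![11/10, 1, 17/10] ∈ Dp 4 := by
  have hd := st_dl_pos ![11/10, 1, 17/10]
  obtain ⟨c1, c2, c3⟩ := st_coord ![11/10, 1, 17/10]
  refine ⟨pa_int ![11, 10, 17] 10 (by norm_num) _ ?_ ?_ ?_, ?_⟩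
  · intro k
    fin_cases k <;> norm_num [Matrix.cons_val]
  · decide
  · decide
  · simp only [Matrix.cons_val_zero, Matrix.cons_val_one, Matrix.cons_val] at c1 c2 c3
    change dl _ ≤ _
    rw [c3]; linarith

theorem Dp_sub_P0 {a : Fin 8} {x : Sph} (h : x ∈ Dp a) : x ∈ P0 := ⟨a, h⟩

/-- a path in the outer region from the inner to the upper face on the sphere around `(1,1,1)` -/
theorem link_path : ∃ (x y : Sph) (γ : Path x y), (∀ t, γ t ∈ P0) ∧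
    lor x.1 (ev 9) = 0 ∧ x.1 3 < dl x.1 ∧ lor y.1 (ev 9) = 0 ∧ dl y.1 < y.1 3 := by
  have hx := lpx_mem
  have hy := lpy_mem
  obtain ⟨γ2, h2⟩ := overlap 6 6 (by decide) (by decide) mQ mQ_mem.1 mQ_mem.1
  obtain ⟨γ3, h3⟩ := overlap 4 4 (by decide) (by decide) _ hy hy
  haveI := piece7_contractible
  have hj : Joined (⟨_, hx⟩ : Dp 7) ⟨mQ, mQ_mem.2⟩ := PathConnectedSpace.joined _ _
  obtain ⟨δ⟩ := hj
  let γ1 : Path (st ![13/9, 25/18, 11/18]) mQ := δ.map continuous_subtype_val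
  have h1 : ∀ t, γ1 t ∈ P0 := fun t => ⟨7, (δ t).2⟩
  have h1' : Set.range γ1 ⊆ P0 := by rintro _ ⟨t, rfl⟩; exact h1 t
  have h2' : Set.range γ2 ⊆ P0 := by rintro _ ⟨t, rfl⟩; exact ⟨6, (h2 t).1⟩
  have h3' : Set.range γ3 ⊆ P0 := by rintro _ ⟨t, rfl⟩; exact ⟨4, (h3 t).1⟩
  refine ⟨_, _, (γ1.trans γ2.symm).trans γ3, ?_, ?_, ?_, ?_, ?_⟩
  · intro t
    have : Set.range ((γ1.trans γ2.symm).trans γ3) ⊆ P0 := by
      rw [Path.trans_range, Path.trans_range, Path.symm_range]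
      exact Set.union_subset (Set.union_subset h1' h2') h3'
    exact this ⟨t, rfl⟩
  · rw [st_ev, show ctr 9 0 = 1 from rfl, show ctr 9 1 = 1 from rfl, show ctr 9 2 = 1 from rfl]
    simp only [Matrix.cons_val]
    apply mul_eq_zero_of_right
    norm_num
  · obtain ⟨c1, c2, c3⟩ := st_coord ![13/9, 25/18, 11/18]
    simp only [Matrix.cons_val] at c3
    have hd := st_dl_pos ![13/9, 25/18, 11/18]
    rw [c3]; linarith
  · rw [st_ev, show ctr 9 0 = 1 from rfl, show ctr 9 1 = 1 from rfl, show ctr 9 2 = 1 from rfl]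
    simp only [Matrix.cons_val]
    apply mul_eq_zero_of_right
    norm_num
  · obtain ⟨c1, c2, c3⟩ := st_coord ![11/10, 1, 17/10]
    simp only [Matrix.cons_val] at c3
    have hd := st_dl_pos ![11/10, 1, 17/10]
    rw [c3]; linarith

end Trom
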