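import Pool.Agent.Helper97.Trom.Top

open Matrix Set Topology

namespace Trom

private theorem winding_slit {z : ℂ} (hz : z ≠ 0) (h : 0 ≤ z.re) : z ∈ Complex.slitPlane := by
  rw [Complex.mem_slitPlane_iff]
  rcases h.lt_or_eq with h1 | h1
  · left; exact h1
  · right
    intro h2
    exact hz (Complex.ext h1.symm h2)



/-- two paths in a simply connected space cannot pass on different sides of `0` -/
theorem winding {X : Type} [TopologicalSpace X] [SimplyConnectedSpace X] (f : X → ℂ)
    (hf : Continuous f) (h0 : ∀ x, f x ≠ 0) (x y : X) (β β' : Path x y)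
    (h1 : ∀ t, 0 ≤ (f (β t)).re) (h2 : ∀ t, (f (β' t)).re ≤ 0) (hx : (f x).im < 0)
    (hy : 0 < (f y).im) : False := by
  let F : C(X, {z : ℂ // z ≠ 0}) := ⟨fun x => ⟨f x, h0 x⟩, Continuous.subtype_mk hf _⟩
  have hhom : (β.map F.continuous).Homotopic (β'.map F.continuous) :=
    (SimplyConnectedSpace.paths_homotopic β β').map F
  have hxr : (f x).re = 0 := by
    have a1 := h1 0
    have a2 := h2 0
    rw [β.source] at a1
    rw [β'.source] at a2
    exact le_antisymm a2 a1
  have hyr : (f y).re = 0 := by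
    have a1 := h1 1
    have a2 := h2 1
    rw [β.target] at a1
    rw [β'.target] at a2
    exact le_antisymm a2 a1
  have hs1 : ∀ t, f (β t) ∈ Complex.slitPlane := fun t => winding_slit (h0 _) (h1 t)
  have hs2 : ∀ t, -f (β' t) ∈ Complex.slitPlane := fun t =>
    winding_slit (neg_ne_zero.2 (h0 _)) (by rw [Complex.neg_re]; linarith [h2 t])
  let Γ₀ : C(unitInterval, ℂ) := ⟨fun t => Complex.log (f (β t)),
    Continuous.clog (hf.comp β.continuous) hs1⟩
  let Γ₁ : C(unitInterval, ℂ) := ⟨fun t => Complex.log (-f (β' t)) - Real.pi * Complex.I,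
    (Continuous.clog (hf.comp β'.continuous).neg hs2).sub continuous_const⟩
  have hp0 : (fun z : ℂ => (⟨_, z.exp_ne_zero⟩ : {z : ℂ // z ≠ 0})) ∘ Γ₀
      = (β.map F.continuous).toContinuousMap := by
    funext t
    apply Subtype.ext
    show Complex.exp (Complex.log (f (β t))) = f (β t)
    exact Complex.exp_log (h0 _)
  have hp1 : (fun z : ℂ => (⟨_, z.exp_ne_zero⟩ : {z : ℂ // z ≠ 0})) ∘ Γ₁
      = (β'.map F.continuous).toContinuousMap := by
    funext t
    apply Subtype.ext
    show Complex.exp (Complex.log (-f (β' t)) - Real.pi * Complex.I) = f (β' t)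
    rw [Complex.exp_sub, Complex.exp_log (neg_ne_zero.2 (h0 _)), Complex.exp_pi_mul_I]
    ring
  -- the values of the logarithms at the ends
  have hl1 : Complex.log (f x) = Complex.log (-f x) - Real.pi * Complex.I := by
    have e1 : Complex.arg (f x) = -(Real.pi / 2) :=
      Complex.arg_eq_neg_pi_div_two_iff.2 ⟨hxr, hx⟩
    have e2 : Complex.arg (-f x) = Real.pi / 2 :=
      Complex.arg_eq_pi_div_two_iff.2 ⟨by rw [Complex.neg_re, hxr, neg_zero],
        by rw [Complex.neg_im]; linarith⟩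
    unfold Complex.log
    rw [e1, e2, norm_neg]
    push_cast
    ring
  have hΓ0 : Γ₀ 0 = Γ₁ 0 := by
    show Complex.log (f (β 0)) = Complex.log (-f (β' 0)) - Real.pi * Complex.I
    rw [β.source, β'.source]
    exact hl1
  have hstart0 : (β.map F.continuous).toContinuousMap 0
      = (fun z : ℂ => (⟨_, z.exp_ne_zero⟩ : {z : ℂ // z ≠ 0})) (Γ₀ 0) :=
    (congrFun hp0 0).symm
  have hstart1 : (β'.map F.continuous).toContinuousMap 0
      = (fun z : ℂ => (⟨_, z.exp_ne_zero⟩ : {z : ℂ // z ≠ 0})) (Γ₀ 0) := by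
    rw [hΓ0]
    exact (congrFun hp1 0).symm
  have hmon := Complex.isCoveringMap_exp.liftPath_apply_one_eq_of_homotopicRel hhom (Γ₀ 0)
    hstart0 hstart1
  have hl0 : Γ₀ = Complex.isCoveringMap_exp.liftPath _ (Γ₀ 0) hstart0 :=
    (Complex.isCoveringMap_exp.eq_liftPath_iff' (γ_0 := hstart0)).2 ⟨hp0, rfl⟩
  have hl1' : Γ₁ = Complex.isCoveringMap_exp.liftPath _ (Γ₀ 0) hstart1 :=
    (Complex.isCoveringMap_exp.eq_liftPath_iff' (γ_0 := hstart1)).2 ⟨hp1, hΓ0.symm⟩
  rw [← hl0, ← hl1'] at hmon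
  have hend : Complex.log (f y) = Complex.log (-f y) - Real.pi * Complex.I := by
    have h3 : Complex.log (f (β 1)) = Complex.log (-f (β' 1)) - Real.pi * Complex.I := hmon
    rw [β.target, β'.target] at h3
    exact h3
  have him := congrArg Complex.im hend
  have e1 : Complex.arg (f y) = Real.pi / 2 := Complex.arg_eq_pi_div_two_iff.2 ⟨hyr, hy⟩
  have e2 : Complex.arg (-f y) = -(Real.pi / 2) :=
    Complex.arg_eq_neg_pi_div_two_iff.2 ⟨by rw [Complex.neg_re, hyr, neg_zero],
      by rw [Complex.neg_im]; linarith⟩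
  rw [Complex.log_im, e1, Complex.sub_im, Complex.log_im, e2] at him
  have h4 : ((Real.pi : ℂ) * Complex.I).im = Real.pi := by simp
  rw [h4] at him
  have := Real.pi_pos
  linarith

end Trom
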