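import Pool.Agent.Helper97.Trom.Top
import Pool.Agent.Helper97.Trom.J_circle_limit
import Pool.Agent.Helper97.Trom.J_link_path
import Pool.Agent.Helper97.Trom.J_winding
import Pool.Agent.Helper97.Trom.J_domain_eq
import Pool.Agent.Helper97.Trom.J_Om_union
import Pool.Agent.Helper97.Trom.J_simple_fix

open Matrix Set Topology

namespace Trom

theorem not_sc_Pa {x : Sph} (hx : x ∈ P0) : Pa x := by
  obtain ⟨a, ha⟩ := hx
  exact ha.1

theorem not_sc_refl (z : Sph) (hz : lor z.1 (ev 9) ≤ 0) :
    0 ≤ lor (cs.simple 9 • z : Sph).1 (ev 9) := by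
  rw [W_smul_val, rW_simple, refl_val]
  have hv : Fwd (rmat 9 *ᵥ z.1) := rmat_fwd 9 z.fwd
  have h1 : nrm (rmat 9 *ᵥ z.1) = ((rmat 9 *ᵥ z.1) 0)⁻¹ • (rmat 9 *ᵥ z.1) := rfl
  rw [h1, lor_smul_left]
  refine mul_nonneg (inv_nonneg.mpr hv.2.le) ?_
  rw [rmat_mulVec, lor_sub_left, lor_smul_left, lor_ev_self]
  linarith

theorem not_sc_cont (i : Fin 16) : Continuous (fun z : Om => lor z.1.1 (ev i)) := by
  have h : Continuous (fun z : Om => z.1.1) := continuous_subtype_val.comp continuous_subtype_val
  have hc : ∀ j : Fin 5, Continuous (fun z : Om => z.1.1 j) := fun j =>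
    (continuous_apply j).comp h
  unfold lor
  have c0 := hc 0
  have c1 := hc 1
  have c2 := hc 2
  have c3 := hc 3
  have c4 := hc 4
  fun_prop

theorem not_sc : ¬ SimplyConnectedSpace Om := by
  intro hsc
  obtain ⟨x, y, γ, hγ, hx9, hx3, hy9, hy3⟩ := link_path
  have hval : Continuous (fun z : Om => z.1.1) :=
    continuous_subtype_val.comp continuous_subtype_val
  have hc : ∀ j : Fin 5, Continuous (fun z : Om => z.1.1 j) := fun j =>
    (continuous_apply j).comp hval
  have hx : x ∈ Om := by
    have := P0_sub_Om (hγ 0)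
    rwa [γ.source] at this
  have hy : y ∈ Om := by
    have := P0_sub_Om (hγ 1)
    rwa [γ.target] at this
  set f : Om → ℂ := fun z => ((-(2 * lor z.1.1 (ev 9)) : ℝ) : ℂ) +
    ((z.1.1 3 - dl z.1.1 : ℝ) : ℂ) * Complex.I with hf
  have hre : ∀ z : Om, (f z).re = -(2 * lor z.1.1 (ev 9)) := by
    intro z
    simp only [hf, Complex.add_re, Complex.ofReal_re, Complex.mul_re, Complex.ofReal_im,
      Complex.I_re, Complex.I_im]
    ring
  have him : ∀ z : Om, (f z).im = z.1.1 3 - dl z.1.1 := by
    intro z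
    simp only [hf, Complex.add_im, Complex.ofReal_im, Complex.mul_im, Complex.ofReal_re,
      Complex.I_re, Complex.I_im]
    ring
  have hfc : Continuous f := by
    have h1 := not_sc_cont 9
    have c0 := hc 0
    have c3 := hc 3
    have c4 := hc 4
    have h2 : Continuous (fun z : Om => dl z.1.1) := by
      unfold dl
      exact c0.sub c4
    have h3 : Continuous (fun z : Om => (-(2 * lor z.1.1 (ev 9)) : ℝ)) := by fun_prop
    have h4 : Continuous (fun z : Om => (z.1.1 3 - dl z.1.1 : ℝ)) := c3.sub h2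
    exact (Complex.continuous_ofReal.comp h3).add
      ((Complex.continuous_ofReal.comp h4).mul continuous_const)
  have hf0 : ∀ z, f z ≠ 0 := by
    intro z hz
    have h1 := hre z
    have h2 := him z
    rw [hz] at h1 h2
    simp only [Complex.zero_re, Complex.zero_im] at h1 h2
    have h3 : z.1 ∈ limitSet (GW.map rW) := circle_limit z.1 (by linarith) (by linarith)
    have h4 : z.1 ∈ (limitSet (GW.map rW))ᶜ := by
      rw [domain_eq, Om_union]
      exact Or.inl z.2
    exact h4 h3
  let β : Path (⟨x, hx⟩ : Om) ⟨y, hy⟩ :=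
    { toFun := fun t => ⟨γ t, P0_sub_Om (hγ t)⟩
      continuous_toFun := γ.continuous.subtype_mk _
      source' := Subtype.ext γ.source
      target' := Subtype.ext γ.target }
  let β' : Path (⟨x, hx⟩ : Om) ⟨y, hy⟩ :=
    { toFun := fun t => ⟨cs.simple 9 • γ t, Om_smul _ (P0_sub_Om (hγ t))⟩
      continuous_toFun := ((continuous_const_smul (cs.simple 9)).comp γ.continuous).subtype_mk _
      source' := Subtype.ext (by
        show cs.simple 9 • γ 0 = x
        rw [γ.source]
        exact simple_fix x 9 hx9)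
      target' := Subtype.ext (by
        show cs.simple 9 • γ 1 = y
        rw [γ.target]
        exact simple_fix y 9 hy9) }
  refine winding f hfc hf0 _ _ β β' ?_ ?_ ?_ ?_
  · intro t
    rw [hre]
    have h1 : lor (γ t).1 (ev 9) ≤ 0 := (not_sc_Pa (hγ t)).1 9
    have h2 : (β t).1.1 = (γ t).1 := rfl
    rw [h2]
    linarith
  · intro t
    rw [hre]
    have h1 : 0 ≤ lor (cs.simple 9 • γ t : Sph).1 (ev 9) :=
      not_sc_refl (γ t) ((not_sc_Pa (hγ t)).1 9)
    have h2 : (β' t).1.1 = (cs.simple 9 • γ t : Sph).1 := rfl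
    rw [h2]
    linarith
  · rw [him]
    show x.1 3 - dl x.1 < 0
    linarith
  · rw [him]
    show 0 < y.1 3 - dl y.1
    linarith

end Trom
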