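import Pool.Agent.Helper97.Trom.Geo

/-! # Continuity of the action; the action on `Om` -/

open Matrix Set Topology

namespace Trom

theorem continuous_Opl_smul (A : Opl) : Continuous (fun x : Sph => A • x) := by
  apply Continuous.subtype_mk
  change Continuous fun x : Sph => ((A.1.1 *ᵥ x.1) 0)⁻¹ • (A.1.1 *ᵥ x.1)
  have h : Continuous fun x : Sph => A.1.1 *ᵥ x.1 :=
    Continuous.matrix_mulVec continuous_const continuous_subtype_val
  refine Continuous.smul (Continuous.inv₀ ((continuous_apply 0).comp h) fun x => ?_) h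
  exact (A.2.2 _ x.fwd).2.ne'

instance : ContinuousConstSMul Opl Sph := ⟨continuous_Opl_smul⟩

instance : ContinuousConstSMul W Sph := ⟨fun w => continuous_Opl_smul (rW w)⟩

theorem Om_smul (w : W) {x : Sph} (hx : x ∈ Om) : w • x ∈ Om := by
  obtain ⟨v, hv⟩ := hx
  exact ⟨w * v, by rw [_root_.mul_inv_rev, mul_smul, inv_smul_smul]; exact hv⟩

noncomputable instance : MulAction W Om where
  smul w x := ⟨w • x.1, Om_smul w x.2⟩
  one_smul _ := Subtype.ext (one_smul _ _)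
  mul_smul _ _ _ := Subtype.ext (mul_smul _ _ _)

theorem Om_smul_val (w : W) (x : Om) : (w • x : Om).1 = w • x.1 := rfl

instance : ContinuousConstSMul W Om :=
  ⟨fun w => Continuous.subtype_mk ((continuous_const_smul w).comp continuous_subtype_val) _⟩

theorem P0_sub_Om {x : Sph} (hx : x ∈ P0) : x ∈ Om := ⟨1, by simpa using hx⟩

/-- the direction in which the points of a piece can be moved to infinity -/
def dv : Fin 8 → Fin 3 → ℝ :=
  ![![1,0,0], ![-1,0,0], ![0,1,0], ![0,-1,0], ![0,0,1], ![0,0,-1], ![1,1,0], ![1,1,0]]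

/-- translation by `t/(1-t) v` in homogeneous coordinates, scaled by `(1-t)²` -/
noncomputable def Fl (v : Fin 3 → ℝ) (t : ℝ) (x : V5) : V5 :=
  ![(1 - t) ^ 2 * x 0 + t * (1 - t) * (x 1 * v 0 + x 2 * v 1 + x 3 * v 2) +
      t ^ 2 * ((v 0) ^ 2 + (v 1) ^ 2 + (v 2) ^ 2) * dl x / 2,
    (1 - t) ^ 2 * x 1 + t * (1 - t) * (dl x * v 0),
    (1 - t) ^ 2 * x 2 + t * (1 - t) * (dl x * v 1),
    (1 - t) ^ 2 * x 3 + t * (1 - t) * (dl x * v 2),
    (1 - t) ^ 2 * x 4 + t * (1 - t) * (x 1 * v 0 + x 2 * v 1 + x 3 * v 2) +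
      t ^ 2 * ((v 0) ^ 2 + (v 1) ^ 2 + (v 2) ^ 2) * dl x / 2]

theorem Fl_dl (v : Fin 3 → ℝ) (t : ℝ) (x : V5) : dl (Fl v t x) = (1 - t) ^ 2 * dl x := by
  simp [dl, Fl]; ring

theorem Fl_lor (v : Fin 3 → ℝ) (t : ℝ) (x : V5) :
    lor (Fl v t x) (Fl v t x) = (1 - t) ^ 4 * lor x x := by
  simp [lor, Fl, dl]; ring

theorem Fl_ev (v : Fin 3 → ℝ) (t : ℝ) (x : V5) (i : Fin 16) :
    lor (Fl v t x) (ev i) = (1 - t) ^ 2 * lor x (ev i)
      - t * (1 - t) * ((x 1 * v 0 + x 2 * v 1 + x 3 * v 2) -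
          dl x * (ctr i 0 * v 0 + ctr i 1 * v 1 + ctr i 2 * v 2))
      - t ^ 2 * ((v 0) ^ 2 + (v 1) ^ 2 + (v 2) ^ 2) * dl x / 2 := by
  simp [lor, Fl, dl, ev]; ring

theorem dl_nonneg (x : Sph) : 0 ≤ dl x.1 := by
  have h1 := x.2.1
  have h2 := x.2.2
  simp only [lor, h1] at h2
  simp only [dl, h1]
  nlinarith [sq_nonneg (x.1 1), sq_nonneg (x.1 2), sq_nonneg (x.1 3), sq_nonneg (x.1 4)]

theorem eq_inf_of_dl {x : Sph} (h : dl x.1 = 0) : x = inf := by
  have h1 := x.2.1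
  have h2 := x.2.2
  simp only [dl, h1] at h
  have h4 : x.1 4 = 1 := by linarith
  simp only [lor, h1, h4] at h2
  have a1 : x.1 1 = 0 := by nlinarith [sq_nonneg (x.1 1), sq_nonneg (x.1 2), sq_nonneg (x.1 3)]
  have a2 : x.1 2 = 0 := by nlinarith [sq_nonneg (x.1 1), sq_nonneg (x.1 2), sq_nonneg (x.1 3)]
  have a3 : x.1 3 = 0 := by nlinarith [sq_nonneg (x.1 1), sq_nonneg (x.1 2), sq_nonneg (x.1 3)]
  apply Subtype.ext
  ext i
  fin_cases i <;> simp [inf, *]

theorem st_val (y : Fin 3 → ℝ) : (st y).1 = (lv y 0)⁻¹ • lv y := rfl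

theorem st_dl (y : Fin 3 → ℝ) : dl (st y).1 = (lv y 0)⁻¹ := by
  rw [st_val]
  simp [dl, lv]
  ring

theorem st_coord (y : Fin 3 → ℝ) : (st y).1 1 = dl (st y).1 * y 0 ∧
    (st y).1 2 = dl (st y).1 * y 1 ∧ (st y).1 3 = dl (st y).1 * y 2 := by
  rw [st_dl, st_val]
  simp [lv]

theorem st_ev (y : Fin 3 → ℝ) (i : Fin 16) : lor (st y).1 (ev i) =
    dl (st y).1 * (1/4 - ((y 0 - ctr i 0) ^ 2 + (y 1 - ctr i 1) ^ 2 + (y 2 - ctr i 2) ^ 2) / 2) := by
  rw [st_dl, st_val, lor_smul_left]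
  congr 1
  simp [lor, lv, ev]
  ring

theorem st_dl_pos (y : Fin 3 → ℝ) : 0 < dl (st y).1 := by
  rw [st_dl]; exact inv_pos.2 (lv_zero_pos y)

theorem continuous_lv : Continuous lv := by
  apply continuous_pi
  intro i
  fin_cases i <;> simp only [lv] <;> simp <;> fun_prop

theorem continuous_st : Continuous st := by
  apply Continuous.subtype_mk
  change Continuous fun y => (lv y 0)⁻¹ • lv y
  exact Continuous.smul (Continuous.inv₀ ((continuous_apply 0).comp continuous_lv)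
    fun y => (lv_zero_pos y).ne') continuous_lv

/-- every point of `S³` except `inf` comes from `ℝ³` -/
theorem st_surj (x : Sph) (h : x ≠ inf) :
    x = st ![x.1 1 / dl x.1, x.1 2 / dl x.1, x.1 3 / dl x.1] := by
  have hd : 0 < dl x.1 := lt_of_le_of_ne (dl_nonneg x) fun h' => h (eq_inf_of_dl h'.symm)
  have h1 := x.2.1
  have h2 := x.2.2
  have h3 : x.1 0 + x.1 4 = ((x.1 1) ^ 2 + (x.1 2) ^ 2 + (x.1 3) ^ 2) / dl x.1 := by
    rw [eq_div_iff hd.ne']
    simp only [lor] at h2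
    simp only [dl]
    nlinarith
  have h4 : x.1 = dl x.1 • lv ![x.1 1 / dl x.1, x.1 2 / dl x.1, x.1 3 / dl x.1] := by
    have e0 : x.1 0 = ((x.1 0 + x.1 4) + dl x.1) / 2 := by simp only [dl]; ring
    have e4 : x.1 4 = ((x.1 0 + x.1 4) - dl x.1) / 2 := by simp only [dl]; ring
    ext i
    fin_cases i
    · simp only [lv]
      simp
      rw [e0, h3]
      field_simp
    · simp [lv]; field_simp
    · simp [lv]; field_simp
    · simp [lv]; field_simp
    · simp only [lv]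
      simp
      rw [e4, h3]
      field_simp
  apply Subtype.ext
  change x.1 = nrm _
  have h5 : nrm x.1 = x.1 := by simp [nrm, h1]
  have h6 := congrArg nrm h4
  rw [nrm_smul hd.ne', h5] at h6
  exact h6

end Trom
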